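import Pool.Agent.Lib.MP_fa6f87_al.Defs

/-!
Averaging quasimorphisms over the orbit of an endomorphism.
-/

namespace Pool.Agent.AscQM

open FreeGroup Filter Topology

section Avg

variable {α : Type*}

/-- the homomorphism with the same values on the generators -/
noncomputable def genHom (f : FreeGroup α → ℝ) : FreeGroup α →* Multiplicative ℝ :=
  FreeGroup.lift (fun a => Multiplicative.ofAdd (f (of a)))

/-- the homomorphism as a function to `ℝ` -/
noncomputable def genH (f : FreeGroup α → ℝ) (x : FreeGroup α) : ℝ :=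
  Multiplicative.toAdd (genHom f x)

lemma genH_mul (f : FreeGroup α → ℝ) (x y : FreeGroup α) :
    genH f (x * y) = genH f x + genH f y := by
  simp [genH]

lemma genH_of (f : FreeGroup α → ℝ) (a : α) : genH f (of a) = f (of a) := by
  simp [genH, genHom]

lemma genH_zpow (f : FreeGroup α → ℝ) (x : FreeGroup α) (n : ℤ) :
    genH f (x ^ n) = n * genH f x := by
  simp [genH]

lemma genH_commutator (f : FreeGroup α → ℝ) {x : FreeGroup α} (hx : x ∈ commutator (FreeGroup α)) :
    genH f x = 0 := by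
  have h1 : commutator (FreeGroup α) ≤ (genHom f).ker := Abelianization.commutator_subset_ker _
  have h2 := h1 hx
  rw [MonoidHom.mem_ker] at h2
  simp [genH, h2]

lemma HQM.map_inv' {G : Type*} [Group G] {φ : G → ℝ} (hφ : φ ∈ HQM G) (g : G) : φ g⁻¹ = - φ g := by
  have := hφ.2 g (-1)
  simpa using this

lemma HQM.map_one' {G : Type*} [Group G] {φ : G → ℝ} (hφ : φ ∈ HQM G) : φ 1 = 0 := by
  have := hφ.2 1 0
  simpa using this

/-- a family of functions with a common defect bound that vanishes on the generators is bounded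
at each point. -/
lemma bounded_of_defect {ι : Type*} (ψ : ι → FreeGroup α → ℝ) (D : ℝ)
    (hD : ∀ N x y, |ψ N (x * y) - ψ N x - ψ N y| ≤ D)
    (hinv : ∀ N x, ψ N x⁻¹ = - ψ N x) (h1 : ∀ N, ψ N 1 = 0) (hof : ∀ N a, ψ N (of a) = 0)
    (x : FreeGroup α) : ∃ C : ℝ, ∀ N, |ψ N x| ≤ C := by
  induction x using FreeGroup.induction_on with
  | C1 => exact ⟨0, fun N => by rw [h1]; simp⟩
  | of a => exact ⟨0, fun N => by
      have := hof N a
      change |ψ N (of a)| ≤ 0
      rw [this]; simp⟩
  | inv_of a ih =>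
    obtain ⟨C, hC⟩ := ih
    refine ⟨C, fun N => ?_⟩
    rw [hinv, abs_neg]; exact hC N
  | mul x y hx hy =>
    obtain ⟨C, hC⟩ := hx
    obtain ⟨C', hC'⟩ := hy
    refine ⟨C + C' + D, fun N => ?_⟩
    have h2 := hD N x y
    have h3 := hC N
    have h4 := hC' N
    rw [abs_le] at *
    constructor <;> linarith [h2.1, h2.2, h3.1, h3.2, h4.1, h4.2]

/-- the averaged and normalised quasimorphisms -/
noncomputable def avg (θ : FreeGroup α →* FreeGroup α) (φ : FreeGroup α → ℝ) (N : ℕ) :
    FreeGroup α → ℝ :=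
  fun x => (∑ j ∈ Finset.range N, φ (iter θ j x)) / N

lemma avg_defect (θ : FreeGroup α →* FreeGroup α) {φ : FreeGroup α → ℝ} {D : ℝ}
    (hD : ∀ g h, |φ (g * h) - φ g - φ h| ≤ D) (N : ℕ) (x y : FreeGroup α) :
    |avg θ φ N (x * y) - avg θ φ N x - avg θ φ N y| ≤ D := by
  have hD0 : 0 ≤ D := (abs_nonneg _).trans (hD 1 1)
  unfold avg
  rcases Nat.eq_zero_or_pos N with rfl | hN
  · simpa using hD0
  have hN' : (0 : ℝ) < N := by exact_mod_cast hN
  rw [← sub_div, ← sub_div, ← Finset.sum_sub_distrib, ← Finset.sum_sub_distrib, abs_div,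
    abs_of_pos hN', div_le_iff₀ hN']
  calc |∑ j ∈ Finset.range N, (φ (iter θ j (x * y)) - φ (iter θ j x) - φ (iter θ j y))|
      ≤ ∑ j ∈ Finset.range N, |φ (iter θ j (x * y)) - φ (iter θ j x) - φ (iter θ j y)| :=
        Finset.abs_sum_le_sum_abs _ _
    _ ≤ ∑ _j ∈ Finset.range N, D := Finset.sum_le_sum (fun j _ => by
        rw [_root_.map_mul]; exact hD _ _)
    _ = D * N := by simp [mul_comm]

lemma avg_zpow (θ : FreeGroup α →* FreeGroup α) {φ : FreeGroup α → ℝ}
    (hφ : φ ∈ HQM (FreeGroup α)) (N : ℕ) (x : FreeGroup α) (n : ℤ) :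
    avg θ φ N (x ^ n) = n * avg θ φ N x := by
  unfold avg
  rw [mul_div_assoc', Finset.mul_sum]
  congr 1
  apply Finset.sum_congr rfl
  intro j _
  rw [map_zpow, hφ.2]

lemma avg_shift (θ : FreeGroup α →* FreeGroup α) (φ : FreeGroup α → ℝ) (N : ℕ)
    (x : FreeGroup α) :
    avg θ φ N (θ x) - avg θ φ N x = (φ (iter θ N x) - φ x) / N := by
  unfold avg
  rw [← sub_div]
  congr 1
  have h1 : ∑ j ∈ Finset.range N, φ (iter θ j (θ x)) = ∑ j ∈ Finset.range N, φ (iter θ (j + 1) x) := rfl
  rw [h1, ← Finset.sum_sub_distrib, Finset.sum_range_sub (fun j => φ (iter θ j x))]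
  rfl

/-- Limit of the normalised averages along an infinite set. -/
theorem exists_limit (θ : FreeGroup α →* FreeGroup α) {φ : FreeGroup α → ℝ}
    (hφ : φ ∈ HQM (FreeGroup α)) (U : Ultrafilter ℕ) (hU : (U : Filter ℕ) ≤ atTop) :
    ∃ ψ ∈ HQM (FreeGroup α),
      (∀ x y, (ψ (θ (x * y)) - ψ (x * y)) = (ψ (θ x) - ψ x) + (ψ (θ y) - ψ y)) ∧
      (∀ c ∈ commutator (FreeGroup α), Tendsto (fun N => avg θ φ N c) U (𝓝 (ψ c))) := by
  obtain ⟨⟨D, hD⟩, hφ2⟩ := hφ
  have hφ' : φ ∈ HQM (FreeGroup α) := ⟨⟨D, hD⟩, hφ2⟩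
  have hD0 : 0 ≤ D := (abs_nonneg _).trans (hD 1 1)
  let χ : ℕ → FreeGroup α → ℝ := fun N => genH (avg θ φ N)
  let f : ℕ → FreeGroup α → ℝ := fun N x => avg θ φ N x - χ N x
  have hfdef : ∀ N x y, |f N (x * y) - f N x - f N y| ≤ D := by
    intro N x y
    have h1 : f N (x * y) - f N x - f N y = avg θ φ N (x * y) - avg θ φ N x - avg θ φ N y := by
      simp only [f, χ, genH_mul]; ring
    rw [h1]
    exact avg_defect θ hD N x y
  have hfz : ∀ N x (n : ℤ), f N (x ^ n) = n * f N x := by
    intro N x n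
    simp only [f, χ, genH_zpow, avg_zpow θ hφ']
    ring
  have hb : ∀ x, ∃ C : ℝ, ∀ N, |f N x| ≤ C := by
    intro x
    apply bounded_of_defect f D hfdef
    · intro N x
      have := hfz N x (-1)
      simpa using this
    · intro N
      have := hfz N 1 0
      simpa using this
    · intro N a
      simp only [f, χ, genH_of, sub_self]
  have hlim : ∀ x, ∃ l : ℝ, Tendsto (fun N => f N x) U (𝓝 l) := by
    intro x
    obtain ⟨C, hC⟩ := hb x
    have hcomp : IsCompact (Set.Icc (-C) C) := isCompact_Icc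
    have hmem : Set.Icc (-C) C ∈ Filter.map (fun N => f N x) (U : Filter ℕ) := by
      rw [Filter.mem_map]
      exact Filter.univ_mem' (fun N => abs_le.mp (hC N))
    have := hcomp.ultrafilter_le_nhds (U.map (fun N => f N x)) (by
      rw [Ultrafilter.coe_map, le_principal_iff]
      exact hmem)
    obtain ⟨l, -, hl⟩ := this
    exact ⟨l, hl⟩
  choose ψ hψ using hlim
  refine ⟨ψ, ⟨⟨D, ?_⟩, ?_⟩, ?_, ?_⟩
  · intro x y
    have h1 : Tendsto (fun N => |f N (x * y) - f N x - f N y|) U
        (𝓝 |ψ (x * y) - ψ x - ψ y|) := (((hψ (x * y)).sub (hψ x)).sub (hψ y)).abs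
    exact le_of_tendsto h1 (Eventually.of_forall (fun N => hfdef N x y))
  · intro x n
    have h1 : Tendsto (fun N => f N (x ^ n)) U (𝓝 (n * ψ x)) := by
      have := (hψ x).const_mul (n : ℝ)
      refine this.congr (fun N => (hfz N x n).symm)
    exact tendsto_nhds_unique (hψ (x ^ n)) h1
  · intro x y
    -- the difference has defect `≤ 2 D / N`
    have h1 : Tendsto (fun N => (f N (θ (x * y)) - f N (x * y)) - ((f N (θ x) - f N x) + (f N (θ y) - f N y))) U
        (𝓝 ((ψ (θ (x * y)) - ψ (x * y)) - ((ψ (θ x) - ψ x) + (ψ (θ y) - ψ y)))) :=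
      ((hψ _).sub (hψ _)).sub (((hψ _).sub (hψ _)).add ((hψ _).sub (hψ _)))
    have h2 : Tendsto (fun N : ℕ => (2 * D) / (N : ℝ)) U (𝓝 0) :=
      (tendsto_const_div_atTop_nhds_zero_nat (2 * D)).mono_left hU
    have h3 : Tendsto (fun N => (f N (θ (x * y)) - f N (x * y)) - ((f N (θ x) - f N x) + (f N (θ y) - f N y))) U (𝓝 0) := by
      apply squeeze_zero_norm' ?_ h2
      apply Eventually.of_forall
      intro N
      have e1 : (f N (θ (x * y)) - f N (x * y)) - ((f N (θ x) - f N x) + (f N (θ y) - f N y)) =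
          ((φ (iter θ N (x * y)) - φ (iter θ N x) - φ (iter θ N y)) - (φ (x * y) - φ x - φ y)) / N := by
        have e2 := avg_shift θ φ N (x * y)
        have e3 := avg_shift θ φ N x
        have e4 := avg_shift θ φ N y
        have e5 : χ N (θ (x * y)) = χ N (θ x) + χ N (θ y) := by
          simp only [χ]; rw [_root_.map_mul, genH_mul]
        have e6 : χ N (x * y) = χ N x + χ N y := genH_mul _ _ _
        simp only [f]
        rw [e5, e6]
        have : avg θ φ N (θ (x * y)) - (χ N (θ x) + χ N (θ y)) - (avg θ φ N (x * y) - (χ N x + χ N y)) -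
            (avg θ φ N (θ x) - χ N (θ x) - (avg θ φ N x - χ N x) +
              (avg θ φ N (θ y) - χ N (θ y) - (avg θ φ N y - χ N y))) =
            (avg θ φ N (θ (x * y)) - avg θ φ N (x * y)) - (avg θ φ N (θ x) - avg θ φ N x) -
              (avg θ φ N (θ y) - avg θ φ N y) := by ring
        rw [this, e2, e3, e4]
        ring
      rw [e1, Real.norm_eq_abs, abs_div, Nat.abs_cast]
      apply div_le_div_of_nonneg_right _ (Nat.cast_nonneg N)
      have h4 := hD (iter θ N x) (iter θ N y)
      rw [← _root_.map_mul] at h4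
      have h5 := hD x y
      calc _ ≤ |φ (iter θ N (x * y)) - φ (iter θ N x) - φ (iter θ N y)| + |φ (x * y) - φ x - φ y| :=
            abs_sub _ _
        _ ≤ 2 * D := by linarith
    have h4 := tendsto_nhds_unique h1 h3
    linarith
  · intro c hc
    have h1 : ∀ N, f N c = avg θ φ N c := by
      intro N
      simp only [f, χ, genH_commutator _ hc, sub_zero]
    refine (hψ c).congr h1

/-- The averaging theorem. -/
theorem not_finite_invHQM [DecidableEq α] [Fintype α] (θ : FreeGroup α →* FreeGroup α)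
    (H : ∀ m : ℕ, ∃ (c : Fin m → FreeGroup α) (φ : Fin m → FreeGroup α → ℝ) (S : Set ℕ),
      S.Infinite ∧ (∀ b, c b ∈ commutator (FreeGroup α)) ∧ (∀ b, φ b ∈ HQM (FreeGroup α)) ∧
      (∀ b b' j, b ≠ b' → φ b (iter θ j (c b')) = 0) ∧
      (∀ b, ∃ ε : ℝ, 0 < ε ∧ ∀ N ∈ S, ε * N ≤ ∑ j ∈ Finset.range N, φ b (iter θ j (c b)))) :
    ¬ FiniteDimensional ℝ (invHQM θ) := by
  intro hfin
  obtain ⟨m, hm⟩ : ∃ m, m = Module.finrank ℝ (invHQM θ) + Fintype.card α + 1 := ⟨_, rfl⟩
  obtain ⟨c, φ, S, hS, hc, hφ, h0, h1⟩ := H m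
  -- the ultrafilter
  have hne : (atTop ⊓ 𝓟 S : Filter ℕ).NeBot := by
    rw [← frequently_mem_iff_neBot]
    exact Nat.frequently_atTop_iff_infinite.mpr hS
  let U : Ultrafilter ℕ := Ultrafilter.of (atTop ⊓ 𝓟 S)
  have hU : (U : Filter ℕ) ≤ atTop := (Ultrafilter.of_le _).trans inf_le_left
  have hUS : S ∈ (U : Filter ℕ) := by
    have : (U : Filter ℕ) ≤ 𝓟 S := (Ultrafilter.of_le _).trans inf_le_right
    exact le_principal_iff.mp this
  choose ψ hψ1 hψ2 hψ3 using fun b => exists_limit θ (hφ b) U hU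
  -- values on the commutators
  have hoff : ∀ b b', b ≠ b' → ψ b (c b') = 0 := by
    intro b b' hb
    have h2 := hψ3 b (c b') (hc b')
    have h3 : Tendsto (fun N => avg θ (φ b) N (c b')) U (𝓝 0) := by
      refine tendsto_const_nhds.congr (fun N => ?_)
      unfold avg
      rw [Finset.sum_eq_zero (fun j _ => h0 b b' j hb), zero_div]
    exact tendsto_nhds_unique h2 h3
  have hon : ∀ b, ψ b (c b) ≠ 0 := by
    intro b
    obtain ⟨ε, hε, h2⟩ := h1 b
    have h3 := hψ3 b (c b) (hc b)
    have h4 : ε ≤ ψ b (c b) := by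
      apply ge_of_tendsto h3
      have h5 : ∀ᶠ N : ℕ in (U : Filter ℕ), 1 ≤ N := hU (eventually_ge_atTop 1)
      filter_upwards [h5, hUS] with N hN hNS
      have hN' : (0 : ℝ) < N := by exact_mod_cast hN
      unfold avg
      rw [le_div_iff₀ hN']
      exact h2 N hNS
    intro h6
    rw [h6] at h4
    linarith
  -- linear algebra
  let L : (Fin m → ℝ) →ₗ[ℝ] (α → ℝ) :=
    { toFun := fun a i => ∑ b, a b * (ψ b (θ (of i)) - ψ b (of i))
      map_add' := by
        intro a a'; funext i
        simp only [Pi.add_apply, add_mul, Finset.sum_add_distrib]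
      map_smul' := by
        intro r a; funext i
        simp only [Pi.smul_apply, smul_eq_mul, RingHom.id_apply, Finset.mul_sum, mul_assoc] }
  -- the kernel maps injectively to `invHQM θ`
  have hker : ∀ a ∈ LinearMap.ker L, (∑ b, a b • ψ b) ∈ invHQM θ := by
    intro a ha
    refine ⟨Submodule.sum_mem _ (fun b _ => Submodule.smul_mem _ _ (hψ1 b)), ?_⟩
    intro g
    have ha' : ∀ i, ∑ b, a b * (ψ b (θ (of i)) - ψ b (of i)) = 0 := fun i =>
      congrFun (LinearMap.mem_ker.mp ha) i
    -- the difference is a homomorphism vanishing on the generators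
    have key : ∀ x : FreeGroup α, ∑ b, a b * (ψ b (θ x) - ψ b x) = 0 := by
      intro x
      induction x using FreeGroup.induction_on with
      | C1 =>
        apply Finset.sum_eq_zero
        intro b _
        rw [_root_.map_one, sub_self, mul_zero]
      | of i => exact ha' i
      | inv_of i ih =>
        have : ∀ b, ψ b (θ (pure i)⁻¹) - ψ b (pure i)⁻¹ = - (ψ b (θ (pure i)) - ψ b (pure i)) := by
          intro b
          rw [_root_.map_inv, HQM.map_inv' (hψ1 b), HQM.map_inv' (hψ1 b)]; ring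
        calc ∑ b, a b * (ψ b (θ (pure i)⁻¹) - ψ b (pure i)⁻¹)
            = ∑ b, -(a b * (ψ b (θ (pure i)) - ψ b (pure i))) :=
              Finset.sum_congr rfl (fun b _ => by rw [this b]; ring)
          _ = 0 := by rw [Finset.sum_neg_distrib]; exact neg_eq_zero.mpr ih
      | mul x y hx hy =>
        have : ∀ b, ψ b (θ (x * y)) - ψ b (x * y) = (ψ b (θ x) - ψ b x) + (ψ b (θ y) - ψ b y) :=
          fun b => hψ2 b x y
        simp only [this, mul_add, Finset.sum_add_distrib, hx, hy, add_zero]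
    have h2 := key g
    simp only [Finset.sum_apply, Pi.smul_apply, smul_eq_mul]
    simp only [mul_sub, Finset.sum_sub_distrib] at h2
    linarith
  let K : LinearMap.ker L →ₗ[ℝ] invHQM θ :=
    { toFun := fun a => ⟨∑ b, (a : Fin m → ℝ) b • ψ b, hker a a.2⟩
      map_add' := by
        intro a a'
        apply Subtype.ext
        simp only [Submodule.coe_add, Pi.add_apply, add_smul, Finset.sum_add_distrib]
      map_smul' := by
        intro r a
        apply Subtype.ext
        simp only [Submodule.coe_smul, Pi.smul_apply, smul_eq_mul, RingHom.id_apply,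
          Finset.smul_sum, mul_smul] }
  have hKinj : Function.Injective K := by
    rw [injective_iff_map_eq_zero]
    intro a ha
    apply Subtype.ext
    funext b'
    have h2 := congrArg (fun v : invHQM θ => (v : FreeGroup α → ℝ) (c b')) ha
    simp only [K, LinearMap.coe_mk, AddHom.coe_mk, Finset.sum_apply, Pi.smul_apply, smul_eq_mul,
      ZeroMemClass.coe_zero, Pi.zero_apply] at h2
    rw [Finset.sum_eq_single b'] at h2
    · rcases mul_eq_zero.mp h2 with h3 | h3
      · exact h3
      · exact absurd h3 (hon b')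
    · intro b _ hb
      rw [hoff b b' hb, mul_zero]
    · simp
  have h2 := LinearMap.finrank_le_finrank_of_injective hKinj
  have h3 := L.finrank_range_add_finrank_ker
  have h4 : Module.finrank ℝ (LinearMap.range L) ≤ Fintype.card α := by
    have := Submodule.finrank_le (LinearMap.range L)
    rwa [Module.finrank_pi] at this
  rw [Module.finrank_pi, Fintype.card_fin] at h3
  omega

end Avg

end Pool.Agent.AscQM
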