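import Pool.Agent.Lib.MP_fa6f87_al.Defs

/-!
Homogenisation of quasimorphisms.
-/

namespace Pool.Agent.AscQM

open Filter Topology

section Homog

variable {G : Type*} [Group G]

/-- the limit of `f (g ^ n) / n` exists -/
lemma exists_lim_of_defect {f : G → ℝ} {D : ℝ} (hD : ∀ g h, |f (g * h) - f g - f h| ≤ D) (g : G) :
    ∃ l : ℝ, Tendsto (fun n : ℕ => f (g ^ n) / n) atTop (𝓝 l) := by
  have hD0 : 0 ≤ D := (abs_nonneg _).trans (hD 1 1)
  set u : ℕ → ℝ := fun n => f (g ^ n) + D with hu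
  have hsub : Subadditive u := by
    intro m n
    have := hD (g ^ m) (g ^ n)
    rw [← pow_add, abs_le] at this
    simp only [hu]
    linarith [this.2]
  have hlow : ∀ n : ℕ, -((n : ℝ) * (|f g| + D)) ≤ f (g ^ (n + 1)) - f g := by
    intro n
    induction n with
    | zero => simp
    | succ n ih =>
      have h1 := hD (g ^ (n + 1)) g
      rw [← pow_succ, abs_le] at h1
      have h2 := neg_abs_le (f g)
      push_cast
      nlinarith [h1.1]
  have hbdd : BddBelow (Set.range fun n : ℕ => u n / n) := by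
    refine ⟨-(|f g| + |f g| + D + D), ?_⟩
    rintro _ ⟨n, rfl⟩
    rcases n with _ | n
    · simp only [hu, Nat.cast_zero, div_zero]
      have := abs_nonneg (f g)
      linarith
    · have hn : (0 : ℝ) < ((n + 1 : ℕ) : ℝ) := by positivity
      simp only [hu]
      rw [le_div_iff₀ hn]
      have h1 := hlow n
      have h2 := neg_abs_le (f g)
      have h3 := abs_nonneg (f g)
      push_cast
      have h4 : (0 : ℝ) ≤ n := Nat.cast_nonneg n
      nlinarith
  have h1 := hsub.tendsto_lim hbdd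
  refine ⟨hsub.lim, ?_⟩
  have h2 : Tendsto (fun n : ℕ => D / (n : ℝ)) atTop (𝓝 0) :=
    tendsto_const_nhds.div_atTop tendsto_natCast_atTop_atTop
  have h3 := h1.sub h2
  rw [sub_zero] at h3
  refine h3.congr fun n => ?_
  simp only [hu]
  rw [← sub_div]; congr 1; ring

lemma pow_defect {f : G → ℝ} {D : ℝ} (hD : ∀ g h, |f (g * h) - f g - f h| ≤ D) (g : G) (n : ℕ) :
    |f (g ^ (n + 1)) - (n + 1) * f g| ≤ n * D := by
  induction n with
  | zero => simp
  | succ n ih =>
    have h1 := hD (g ^ (n + 1)) g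
    rw [← pow_succ] at h1
    have e : f (g ^ (n + 1 + 1)) - (((n + 1 : ℕ) : ℝ) + 1) * f g =
        (f (g ^ (n + 1 + 1)) - f (g ^ (n + 1)) - f g) + (f (g ^ (n + 1)) - (n + 1) * f g) := by
      push_cast; ring
    rw [e]
    refine (abs_add_le _ _).trans ?_
    push_cast
    linarith

/-- **Homogenisation.** -/
theorem homogenise (f : G → ℝ) (D : ℝ) (hD : ∀ g h, |f (g * h) - f g - f h| ≤ D) :
    ∃ φ ∈ HQM G, (∀ g, |φ g - f g| ≤ D) ∧
      ∀ g, Tendsto (fun n : ℕ => f (g ^ n) / n) atTop (𝓝 (φ g)) := by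
  have hD0 : 0 ≤ D := (abs_nonneg _).trans (hD 1 1)
  choose φ hφ using fun g => exists_lim_of_defect hD g
  have hclose : ∀ g, |φ g - f g| ≤ D := by
    intro g
    have h1 : Tendsto (fun n : ℕ => |f (g ^ n) / n - f g|) atTop (𝓝 |φ g - f g|) :=
      ((hφ g).sub_const _).abs
    refine le_of_tendsto h1 ?_
    filter_upwards [eventually_ge_atTop 1] with n hn
    obtain ⟨m, rfl⟩ : ∃ m, n = m + 1 := ⟨n - 1, by omega⟩
    have hpos : (0 : ℝ) < ((m + 1 : ℕ) : ℝ) := by positivity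
    have h2 := pow_defect hD g m
    have e : f (g ^ (m + 1)) / ((m + 1 : ℕ) : ℝ) - f g =
        (f (g ^ (m + 1)) - (m + 1) * f g) / ((m + 1 : ℕ) : ℝ) := by
      push_cast
      field_simp
    rw [e, abs_div, abs_of_pos hpos, div_le_iff₀ hpos]
    push_cast
    have : (0 : ℝ) ≤ m := Nat.cast_nonneg m
    nlinarith
  have hpow : ∀ (g : G) (k : ℕ), φ (g ^ k) = k * φ g := by
    intro g k
    rcases Nat.eq_zero_or_pos k with rfl | hk
    · simp only [pow_zero, Nat.cast_zero, zero_mul]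
      refine tendsto_nhds_unique (hφ 1) ?_
      have : Tendsto (fun n : ℕ => f 1 / (n : ℝ)) atTop (𝓝 0) :=
        tendsto_const_nhds.div_atTop tendsto_natCast_atTop_atTop
      refine this.congr fun n => ?_
      rw [one_pow]
    · refine tendsto_nhds_unique (hφ (g ^ k)) ?_
      have h1 : Tendsto (fun n : ℕ => k * n) atTop atTop :=
        tendsto_id.const_mul_atTop' hk
      have h2 : Tendsto (fun n : ℕ => (k : ℝ) * (f (g ^ (k * n)) / ((k * n : ℕ) : ℝ))) atTop
          (𝓝 (k * φ g)) := ((hφ g).comp h1).const_mul _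
      refine h2.congr' ?_
      filter_upwards [eventually_ge_atTop 1] with n hn
      have hk' : (k : ℝ) ≠ 0 := by positivity
      have hn' : (n : ℝ) ≠ 0 := by positivity
      rw [← pow_mul]
      push_cast
      field_simp
  have hinv : ∀ g, φ g⁻¹ = -φ g := by
    intro g
    have h1 : Tendsto (fun n : ℕ => f (g⁻¹ ^ n) / n + f (g ^ n) / n) atTop
        (𝓝 (φ g⁻¹ + φ g)) := (hφ g⁻¹).add (hφ g)
    have h2 : Tendsto (fun n : ℕ => f (g⁻¹ ^ n) / n + f (g ^ n) / n) atTop (𝓝 0) := by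
      refine squeeze_zero_norm' (a := fun n : ℕ => (D + |f 1|) / (n : ℝ)) ?_
        (tendsto_const_nhds.div_atTop tendsto_natCast_atTop_atTop)
      filter_upwards [eventually_ge_atTop 1] with n hn
      have hpos : (0 : ℝ) < (n : ℝ) := by positivity
      rw [Real.norm_eq_abs, ← add_div, abs_div, abs_of_pos hpos]
      refine div_le_div_of_nonneg_right ?_ hpos.le
      have h3 := hD (g⁻¹ ^ n) (g ^ n)
      have e : g⁻¹ ^ n * g ^ n = 1 := by rw [inv_pow, inv_mul_cancel]
      rw [e] at h3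
      have h4 := le_abs_self (f 1)
      have h5 := neg_abs_le (f 1)
      rw [abs_le] at h3 ⊢
      constructor <;> linarith [h3.1, h3.2]
    have h3 := tendsto_nhds_unique h1 h2
    linarith
  refine ⟨φ, ⟨⟨4 * D, ?_⟩, ?_⟩, hclose, hφ⟩
  · intro g h
    have h1 := hD g h
    have h2 := hclose g
    have h3 := hclose h
    have h4 := hclose (g * h)
    rw [abs_le] at *
    constructor <;> linarith [h1.1, h1.2, h2.1, h2.2, h3.1, h3.2, h4.1, h4.2]
  · intro g n
    obtain ⟨k, rfl | rfl⟩ := n.eq_nat_or_neg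
    · rw [zpow_natCast, hpow]; simp
    · rw [zpow_neg, zpow_natCast, hinv, hpow]; push_cast; ring

lemma HQM.pow {φ : G → ℝ} (hφ : φ ∈ HQM G) (g : G) (n : ℕ) : φ (g ^ n) = n * φ g := by
  have := hφ.2 g n
  rw [zpow_natCast] at this
  exact_mod_cast this

lemma HQM.inv {φ : G → ℝ} (hφ : φ ∈ HQM G) (g : G) : φ g⁻¹ = -φ g := by
  have := hφ.2 g (-1)
  rw [zpow_neg_one] at this
  rw [this]; push_cast; ring

lemma HQM.one {φ : G → ℝ} (hφ : φ ∈ HQM G) : φ 1 = 0 := by
  have := HQM.pow hφ 1 0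
  simpa using this

lemma le_of_forall_nat_mul_le {a C : ℝ} (h : ∀ n : ℕ, n * a ≤ C) : a ≤ 0 := by
  by_contra ha
  push Not at ha
  obtain ⟨n, hn⟩ := exists_nat_gt (C / a)
  have := h n
  rw [div_lt_iff₀ ha] at hn
  linarith

lemma HQM.conj {φ : G → ℝ} (hφ : φ ∈ HQM G) (g h : G) : φ (g * h * g⁻¹) = φ h := by
  obtain ⟨D, hD⟩ := hφ.1
  have key : ∀ n : ℕ, |(n : ℝ) * (φ (g * h * g⁻¹) - φ h)| ≤ 2 * D := by
    intro n
    have e1 : (n : ℝ) * φ (g * h * g⁻¹) = φ (g * h ^ n * g⁻¹) := by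
      rw [← HQM.pow hφ, conj_pow]
    have e2 : (n : ℝ) * φ h = φ (h ^ n) := (HQM.pow hφ h n).symm
    rw [mul_sub, e1, e2]
    have h1 := hD (g * h ^ n) g⁻¹
    have h2 := hD g (h ^ n)
    rw [HQM.inv hφ] at h1
    rw [abs_le] at *
    constructor <;> linarith [h1.1, h1.2, h2.1, h2.2]
  have h1 : |φ (g * h * g⁻¹) - φ h| ≤ 0 := by
    refine le_of_forall_nat_mul_le (C := 2 * D) fun n => ?_
    have := key n
    rwa [abs_mul, Nat.abs_cast] at this
  have h2 := abs_nonpos_iff.mp h1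
  linarith

/-- quasimorphisms at bounded distance are equal when homogeneous -/
lemma HQM.eq_of_bounded {φ ψ : G → ℝ} (hφ : φ ∈ HQM G) (hψ : ψ ∈ HQM G) {C : ℝ}
    (h : ∀ g, |φ g - ψ g| ≤ C) : φ = ψ := by
  funext g
  have h1 : |φ g - ψ g| ≤ 0 := by
    refine le_of_forall_nat_mul_le (C := C) fun n => ?_
    have := h (g ^ n)
    rw [HQM.pow hφ, HQM.pow hψ, ← mul_sub, abs_mul, Nat.abs_cast] at this
    exact this
  have h2 := abs_nonpos_iff.mp h1
  linarith

end Homog

end Pool.Agent.AscQM
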