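import Pool.Agent.Lib.MP_fa6f87_al.Geo
import Pool.Agent.Lib.MP_fa6f87_al.Homog

/-!
Brooks counting quasimorphisms for arbitrary sets of words.
-/

namespace Pool.Agent.AscQM

open FreeGroup Filter Topology

namespace Brooks

section Lists

variable {β : Type*} (V : Set (List β))

/-- `Has V n L` : the list `L` contains `n` disjoint infixes from `V`. -/
inductive Has : ℕ → List β → Prop
  | zero (L : List β) : Has 0 L
  | skip (a : β) (L : List β) (n : ℕ) : Has n L → Has n (a :: L)
  | use (w L : List β) (n : ℕ) : w ∈ V → Has n L → Has (n + 1) (w ++ L)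

variable {V}

lemma Has.append_left {n : ℕ} {L : List β} (h : Has V n L) (L' : List β) : Has V n (L' ++ L) := by
  induction L' with
  | nil => exact h
  | cons a L' ih => exact Has.skip a _ n ih

lemma Has.append {m n : ℕ} {L L' : List β} (h : Has V m L) (h' : Has V n L') :
    Has V (m + n) (L ++ L') := by
  induction h with
  | zero L => rw [zero_add]; exact h'.append_left L
  | skip a L m _ ih => exact Has.skip a _ _ ih
  | use w L m hw _ ih =>
    rw [List.append_assoc, add_right_comm]
    exact Has.use w _ _ hw ih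

lemma Has.split {n : ℕ} {L : List β} (h : Has V n L) : ∀ {L₁ L₂ : List β}, L = L₁ ++ L₂ →
    ∃ a b, Has V a L₁ ∧ Has V b L₂ ∧ n ≤ a + b + 1 := by
  induction h with
  | zero L => intro L₁ L₂ _; exact ⟨0, 0, Has.zero _, Has.zero _, by omega⟩
  | skip c L n h ih =>
    intro L₁ L₂ e
    cases L₁ with
    | nil =>
      refine ⟨0, n, Has.zero _, ?_, by omega⟩
      rw [List.nil_append] at e
      rw [← e]; exact Has.skip c _ _ h
    | cons c' L₁ =>
      rw [List.cons_append, List.cons.injEq] at e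
      obtain ⟨rfl, e⟩ := e
      obtain ⟨a, b, ha, hb, hab⟩ := ih e
      exact ⟨a, b, Has.skip _ _ _ ha, hb, hab⟩
  | use w L n hw h ih =>
    intro L₁ L₂ e
    rcases List.append_eq_append_iff.mp e with ⟨M, h1, h2⟩ | ⟨M, h1, h2⟩
    · -- L₁ = w ++ M, L = M ++ L₂
      obtain ⟨a, b, ha, hb, hab⟩ := ih h2
      refine ⟨a + 1, b, ?_, hb, by omega⟩
      rw [h1]; exact Has.use w _ _ hw ha
    · -- w = L₁ ++ M, L₂ = M ++ L
      refine ⟨0, n, Has.zero _, ?_, by omega⟩
      rw [h2]; exact h.append_left M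

lemma Has.le_length (hV : [] ∉ V) {n : ℕ} {L : List β} (h : Has V n L) : n ≤ L.length := by
  induction h with
  | zero L => exact Nat.zero_le _
  | skip a L n _ ih => simp only [List.length_cons]; omega
  | use w L n hw _ ih =>
    have : w ≠ [] := fun h => hV (h ▸ hw)
    have := List.length_pos_iff.mpr this
    rw [List.length_append]; omega

lemma Has.mono {n m : ℕ} {L : List β} (h : Has V n L) (hm : m ≤ n) : Has V m L := by
  induction h generalizing m with
  | zero L => rw [Nat.le_zero.mp hm]; exact Has.zero _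
  | skip a L n _ ih => exact Has.skip _ _ _ (ih hm)
  | use w L n hw h ih =>
    rcases Nat.lt_or_ge n m with h1 | h1
    · have : m = n + 1 := by omega
      subst this
      exact Has.use w L n hw h
    · exact (ih h1).append_left w

lemma Has.exists_infix {n : ℕ} {L : List β} (h : Has V n L) (hn : n ≠ 0) :
    ∃ w ∈ V, w <:+: L := by
  induction h with
  | zero L => exact absurd rfl hn
  | skip a L n _ ih =>
    obtain ⟨w, hw, hi⟩ := ih hn
    exact ⟨w, hw, hi.trans (List.suffix_cons a L).isInfix⟩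
  | use w L n hw _ _ => exact ⟨w, hw, (List.prefix_append w L).isInfix⟩

variable (V)

/-- the maximal number of disjoint infixes from `V` -/
noncomputable def cnt (L : List β) : ℕ := sSup {n | Has V n L}

variable {V}

lemma bddAbove (hV : [] ∉ V) (L : List β) : BddAbove {n | Has V n L} :=
  ⟨L.length, fun _ h => Has.le_length hV h⟩

lemma has_cnt (hV : [] ∉ V) (L : List β) : Has V (cnt V L) L :=
  Nat.sSup_mem (s := {n | Has V n L}) ⟨0, Has.zero _⟩ (bddAbove hV L)

lemma le_cnt (hV : [] ∉ V) {L : List β} {n : ℕ} (h : Has V n L) : n ≤ cnt V L :=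
  le_csSup (bddAbove hV L) h

lemma cnt_append_ge (hV : [] ∉ V) (L L' : List β) : cnt V L + cnt V L' ≤ cnt V (L ++ L') :=
  le_cnt hV ((has_cnt hV L).append (has_cnt hV L'))

lemma cnt_append_le (hV : [] ∉ V) (L L' : List β) : cnt V (L ++ L') ≤ cnt V L + cnt V L' + 1 := by
  obtain ⟨a, b, ha, hb, hab⟩ := (has_cnt hV (L ++ L')).split rfl
  have h1 := le_cnt hV ha
  have h2 := le_cnt hV hb
  omega

end Lists

section Free

variable {α : Type*} [DecidableEq α]

/-- cancellation in a product of reduced words -/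
lemma exists_cancel (L₁ L₂ : List (α × Bool)) (h₁ : IsReduced L₁) (h₂ : IsReduced L₂) :
    ∃ B A E, L₁ = B ++ A ∧ L₂ = B ++ E ∧ reduce (invRev L₁ ++ L₂) = invRev A ++ E := by
  induction L₁ generalizing L₂ with
  | nil => exact ⟨[], [], L₂, rfl, rfl, by simp [h₂.reduce_eq]⟩
  | cons a L₁ ih =>
    cases L₂ with
    | nil =>
      refine ⟨[], a :: L₁, [], rfl, rfl, ?_⟩
      rw [List.append_nil, (isReduced_invRev h₁).reduce_eq]
    | cons b L₂ =>
      have h₁' : IsReduced L₁ := isReduced_sub h₁ ⟨[a], [], by simp⟩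
      have h₂' : IsReduced L₂ := isReduced_sub h₂ ⟨[b], [], by simp⟩
      have hinv : invRev (a :: L₁) = invRev L₁ ++ [(a.1, !a.2)] := by
        simp [invRev]
      by_cases h : a = b
      · subst h
        have h3 : reduce (invRev (a :: L₁) ++ a :: L₂) = reduce (invRev L₁ ++ L₂) := by
          apply reduce.sound
          rw [hinv]
          have : mk [(a.1, !a.2)] * mk [a] = (1 : FreeGroup α) := by
            have e : mk [(a.1, !a.2)] = (mk [a] : FreeGroup α)⁻¹ := by
              rw [inv_mk]; simp [invRev]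
            rw [e, inv_mul_cancel]
          calc mk (invRev L₁ ++ [(a.1, !a.2)] ++ a :: L₂)
              = mk (invRev L₁) * (mk [(a.1, !a.2)] * mk [a]) * mk L₂ := by
                rw [mul_mk, mul_mk, mul_mk]; simp
            _ = mk (invRev L₁) * mk L₂ := by rw [this, mul_one]
            _ = mk (invRev L₁ ++ L₂) := by rw [mul_mk]
        obtain ⟨B, A, E, e1, e2, e3⟩ := ih L₂ h₁' h₂'
        refine ⟨a :: B, A, E, ?_, ?_, ?_⟩
        · rw [e1]; rfl
        · rw [e2]; rfl
        · rw [h3, e3]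
      · have h4 : IsReduced (invRev (a :: L₁) ++ b :: L₂) := by
          have h5 : IsReduced (invRev (a :: L₁)) := isReduced_invRev h₁
          have h6 : IsReduced ([(a.1, !a.2)] ++ b :: L₂) := by
            simp only [List.singleton_append]
            rw [isReduced_cons_cons]
            refine ⟨?_, h₂⟩
            intro h7
            simp only at h7 ⊢
            by_contra h8
            apply h
            apply Prod.ext h7
            revert h8
            cases a.2 <;> cases b.2 <;> simp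
          rw [hinv] at h5 ⊢
          exact IsReduced.append_overlap h5 h6 (by simp)
        exact ⟨[], a :: L₁, b :: L₂, rfl, rfl, h4.reduce_eq⟩

lemma toWord_mul_cancel (x y : FreeGroup α) :
    ∃ A B E, x.toWord = A ++ B ∧ y.toWord = invRev B ++ E ∧ (x * y).toWord = A ++ E := by
  obtain ⟨B, A, E, h1, h2, h3⟩ := exists_cancel x⁻¹.toWord y.toWord isReduced_toWord
    isReduced_toWord
  refine ⟨invRev A, invRev B, E, ?_, ?_, ?_⟩
  · rw [toWord_inv] at h1
    rw [← invRev_invRev (L₁ := x.toWord), h1, invRev_append]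
  · rw [invRev_invRev]; exact h2
  · rw [toWord_mul, ← h3, toWord_inv, invRev_invRev]

lemma occ_of_infix {w x : FreeGroup α} (h : w.toWord <:+: x.toWord) : Occ w x := by
  obtain ⟨s, t, hst⟩ := h
  have hr : IsReduced (s ++ w.toWord ++ t) := by rw [hst]; exact isReduced_toWord
  have hs : IsReduced s := isReduced_sub hr ⟨[], w.toWord ++ t, by simp⟩
  have ht : IsReduced t := isReduced_sub hr ⟨s ++ w.toWord, [], by simp⟩
  refine ⟨mk s, ?_⟩
  have h1 : d 1 (mk s) = s.length := by
    rw [d_one_left]; unfold FreeGroup.norm; rw [toWord_mk, hs.reduce_eq]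
  have h2 : d (mk s * w) x = t.length := by
    have e : (mk s * w)⁻¹ * x = mk t := by
      rw [inv_mul_eq_iff_eq_mul]
      conv_lhs => rw [← mk_toWord (x := x), ← hst]
      rw [← mul_mk, ← mul_mk, mk_toWord]
    unfold d
    rw [e]; unfold FreeGroup.norm; rw [toWord_mk, ht.reduce_eq]
  rw [h1, h2, d_one_left]
  unfold FreeGroup.norm
  rw [← hst]; simp [add_assoc]

lemma toWord_mul_of_norm {x y : FreeGroup α} (h : (x * y).norm = x.norm + y.norm) :
    (x * y).toWord = x.toWord ++ y.toWord := by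
  apply (toWord_mul_sublist x y).eq_of_length
  rw [List.length_append]; exact h

variable (W : Set (FreeGroup α))

/-- the counting quasimorphism -/
noncomputable def ph (x : FreeGroup α) : ℝ :=
  (cnt (toWord '' W) x.toWord : ℝ) - cnt (toWord '' W) x⁻¹.toWord

variable {W}

lemma ph_defect (hW : (1 : FreeGroup α) ∉ W) (x y : FreeGroup α) :
    |ph W (x * y) - ph W x - ph W y| ≤ 3 := by
  have hV : [] ∉ toWord '' W := by
    rintro ⟨w, hw, h⟩
    rw [toWord_eq_nil_iff] at h
    exact hW (h ▸ hw)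
  obtain ⟨A, B, E, h1, h2, h3⟩ := toWord_mul_cancel x y
  unfold ph
  rw [toWord_inv, toWord_inv, toWord_inv, h1, h2, h3, invRev_append, invRev_append, invRev_append,
    invRev_invRev]
  have a1 := cnt_append_ge hV A E
  have a2 := cnt_append_le hV A E
  have b1 := cnt_append_ge hV (invRev E) (invRev A)
  have b2 := cnt_append_le hV (invRev E) (invRev A)
  have c1 := cnt_append_ge hV A B
  have c2 := cnt_append_le hV A B
  have d1 := cnt_append_ge hV (invRev B) (invRev A)
  have d2 := cnt_append_le hV (invRev B) (invRev A)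
  have e1 := cnt_append_ge hV (invRev B) E
  have e2 := cnt_append_le hV (invRev B) E
  have f1 := cnt_append_ge hV (invRev E) B
  have f2 := cnt_append_le hV (invRev E) B
  set V := toWord '' W
  have A1 : (cnt V A : ℝ) + cnt V E ≤ cnt V (A ++ E) := by exact_mod_cast a1
  have A2 : (cnt V (A ++ E) : ℝ) ≤ cnt V A + cnt V E + 1 := by exact_mod_cast a2
  have B1 : (cnt V (invRev E) : ℝ) + cnt V (invRev A) ≤ cnt V (invRev E ++ invRev A) := by
    exact_mod_cast b1
  have B2 : (cnt V (invRev E ++ invRev A) : ℝ) ≤ cnt V (invRev E) + cnt V (invRev A) + 1 := by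
    exact_mod_cast b2
  have C1 : (cnt V A : ℝ) + cnt V B ≤ cnt V (A ++ B) := by exact_mod_cast c1
  have C2 : (cnt V (A ++ B) : ℝ) ≤ cnt V A + cnt V B + 1 := by exact_mod_cast c2
  have D1 : (cnt V (invRev B) : ℝ) + cnt V (invRev A) ≤ cnt V (invRev B ++ invRev A) := by
    exact_mod_cast d1
  have D2 : (cnt V (invRev B ++ invRev A) : ℝ) ≤ cnt V (invRev B) + cnt V (invRev A) + 1 := by
    exact_mod_cast d2
  have E1 : (cnt V (invRev B) : ℝ) + cnt V E ≤ cnt V (invRev B ++ E) := by exact_mod_cast e1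
  have E2 : (cnt V (invRev B ++ E) : ℝ) ≤ cnt V (invRev B) + cnt V E + 1 := by
    exact_mod_cast e2
  have F1 : (cnt V (invRev E) : ℝ) + cnt V B ≤ cnt V (invRev E ++ B) := by exact_mod_cast f1
  have F2 : (cnt V (invRev E ++ B) : ℝ) ≤ cnt V (invRev E) + cnt V B + 1 := by
    exact_mod_cast f2
  rw [abs_le]
  constructor <;> linarith

omit [DecidableEq α] in
lemma cnt_eq_zero {V : Set (List (α × Bool))} (hV : [] ∉ V) {L : List (α × Bool)}
    (h : ∀ w ∈ V, ¬ w <:+: L) : cnt V L = 0 := by
  by_contra hne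
  obtain ⟨w, hw, hi⟩ := (has_cnt hV L).exists_infix hne
  exact h w hw hi

omit [DecidableEq α] in
lemma infix_invRev {L M : List (α × Bool)} (h : L <:+: invRev M) : invRev L <:+: M := by
  obtain ⟨s, t, hst⟩ := h
  refine ⟨invRev t, invRev s, ?_⟩
  have : invRev (s ++ L ++ t) = M := by rw [hst, invRev_invRev]
  rw [← this, invRev_append, invRev_append, List.append_assoc]

lemma has_pow {g : FreeGroup α} (hg : OnAxis g 1) {V : Set (List (α × Bool))}
    (hgV : g.toWord ∈ V) (n : ℕ) : Has V n (g ^ n).toWord := by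
  induction n with
  | zero => exact Has.zero _
  | succ n ih =>
    have h1 : (g * g ^ n).norm = g.norm + (g ^ n).norm := by
      have h2 := hg.pow_dist (n + 1)
      have h3 := hg.pow_dist n
      rw [mul_one, mul_one, d_one_left, d_one_left] at h2 h3
      rw [← pow_succ', h2, h3]; ring
    rw [pow_succ', toWord_mul_of_norm h1]
    exact Has.use _ _ _ hgV ih

end Free

end Brooks

open Brooks in
/-- **Brooks counting quasimorphisms** -/
theorem brooks {α : Type*} [DecidableEq α] (W : Set (FreeGroup α))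
    (hW : (1 : FreeGroup α) ∉ W) :
    ∃ φ ∈ HQM (FreeGroup α),
      (∀ h, OnAxis h 1 → (∀ n : ℕ, ∀ w ∈ W, ¬ Occ w⁻¹ (h ^ n)) →
        0 ≤ φ h ∧ ∀ p : ℕ, 1 ≤ p → h ^ p ∈ W → 1 / (p : ℝ) ≤ φ h) ∧
      (∀ h, (∀ n : ℕ, ∀ w ∈ W, ¬ Occ w (h ^ n) ∧ ¬ Occ w⁻¹ (h ^ n)) → φ h = 0) := by
  have hV : [] ∉ toWord '' W := by
    rintro ⟨w, hw, h⟩
    rw [toWord_eq_nil_iff] at h
    exact hW (h ▸ hw)
  obtain ⟨φ, hφ, -, hlim⟩ := homogenise (ph W) 3 (ph_defect hW)
  have hneg : ∀ h : FreeGroup α, (∀ n : ℕ, ∀ w ∈ W, ¬ Occ w⁻¹ (h ^ n)) →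
      ∀ n : ℕ, cnt (toWord '' W) (h ^ n)⁻¹.toWord = 0 := by
    intro h hh n
    apply cnt_eq_zero hV
    rintro _ ⟨w, hw, rfl⟩ hi
    rw [toWord_inv] at hi
    apply hh n w hw
    apply occ_of_infix
    rw [toWord_inv]
    exact infix_invRev hi
  have hph : ∀ h : FreeGroup α, (∀ n : ℕ, ∀ w ∈ W, ¬ Occ w⁻¹ (h ^ n)) →
      ∀ n : ℕ, ph W (h ^ n) = cnt (toWord '' W) (h ^ n).toWord := by
    intro h hh n
    unfold ph
    rw [hneg h hh n]; simp
  refine ⟨φ, hφ, ?_, ?_⟩
  · intro h hax hh
    refine ⟨?_, ?_⟩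
    · refine ge_of_tendsto' (hlim h) fun n => ?_
      rw [hph h hh n]
      positivity
    · intro p hp hmem
      have hax' : OnAxis (h ^ p) 1 := hax.pow p
      have h1 : (1 : ℝ) ≤ φ (h ^ p) := by
        refine ge_of_tendsto (hlim (h ^ p)) ?_
        filter_upwards [eventually_ge_atTop 1] with n hn
        have hpos : (0 : ℝ) < (n : ℝ) := by positivity
        rw [le_div_iff₀ hpos, one_mul, ← pow_mul, hph h hh (p * n), pow_mul]
        have := le_cnt hV (has_pow hax' (V := toWord '' W) ⟨_, hmem, rfl⟩ n)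
        exact_mod_cast this
      rw [HQM.pow hφ] at h1
      have hp' : (0 : ℝ) < p := by positivity
      rw [div_le_iff₀ hp']
      linarith
  · intro h hh
    refine tendsto_nhds_unique (hlim h) ?_
    refine tendsto_const_nhds.congr fun n => ?_
    rw [hph h (fun n w hw => (hh n w hw).2) n]
    have : cnt (toWord '' W) (h ^ n).toWord = 0 := by
      apply cnt_eq_zero hV
      rintro _ ⟨w, hw, rfl⟩ hi
      exact (hh n w hw).1 (occ_of_infix hi)
    rw [this]; simp

end Pool.Agent.AscQM
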