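import Pool.Agent.Lib.MP_fa6f87_al.Homog

/-!
Quasimorphisms on ascending HNN extensions, and the passage from homogeneous quasimorphisms to
second bounded cohomology.
-/

namespace Pool.Agent.AscQM

section HNN

variable {F : Type*} [Group F] (θ : F →* F) (hθ : Function.Injective θ)

/-- the stable letter -/
noncomputable abbrev stab : AscHNN θ hθ := HNNExtension.t

/-- the base group in the extension -/
noncomputable abbrev base : F →* AscHNN θ hθ := HNNExtension.of

lemma t_mul_of' (x : F) : (stab θ hθ) * (base θ hθ) x = (base θ hθ) (θ x) * (stab θ hθ) :=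
  HNNExtension.t_mul_of (⟨x, trivial⟩ : (⊤ : Subgroup F))

lemma tpow_mul_of (k : ℕ) (x : F) : (stab θ hθ) ^ k * (base θ hθ) x = (base θ hθ) (iter θ k x) * (stab θ hθ) ^ k := by
  induction k generalizing x with
  | zero => simp
  | succ k ih => rw [pow_succ, mul_assoc, t_mul_of', ← mul_assoc, ih, iter_succ, mul_assoc]

lemma of_mul_tpow_inv (k : ℕ) (x : F) : (base θ hθ) x * ((stab θ hθ) ^ k)⁻¹ = ((stab θ hθ) ^ k)⁻¹ * (base θ hθ) (iter θ k x) := by
  rw [mul_inv_eq_iff_eq_mul, mul_assoc, eq_inv_mul_iff_mul_eq]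
  exact tpow_mul_of θ hθ k x

/-- the exponent sum of `t` -/
noncomputable def expSum : AscHNN θ hθ →* Multiplicative ℤ :=
  HNNExtension.lift 1 (Multiplicative.ofAdd 1) (by intro a; simp)

/-- the normal form `t ^ (-a) f t ^ b` -/
def IsForm (g : AscHNN θ hθ) (a : ℕ) (f : F) (b : ℕ) : Prop := g = ((stab θ hθ) ^ a)⁻¹ * (base θ hθ) f * (stab θ hθ) ^ b

lemma IsForm.mul {g h : AscHNN θ hθ} {a b c d : ℕ} {x y : F} (hg : IsForm θ hθ g a x b)
    (hh : IsForm θ hθ h c y d) :
    (∃ k, IsForm θ hθ (g * h) a (x * iter θ k y) (k + d)) ∨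
      ∃ k, IsForm θ hθ (g * h) (a + k) (iter θ k x * y) d := by
  unfold IsForm at *
  rcases le_total c b with hcb | hcb
  · left
    obtain ⟨k, rfl⟩ := Nat.exists_eq_add_of_le hcb
    refine ⟨k, ?_⟩
    have e1 : (stab θ hθ) ^ (c + k) * ((stab θ hθ) ^ c)⁻¹ = (stab θ hθ) ^ k := by
      rw [add_comm, pow_add, mul_inv_cancel_right]
    calc g * h = ((stab θ hθ) ^ a)⁻¹ * (base θ hθ) x * ((stab θ hθ) ^ (c + k) * ((stab θ hθ) ^ c)⁻¹) * (base θ hθ) y * (stab θ hθ) ^ d := by
          rw [hg, hh]; group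
      _ = ((stab θ hθ) ^ a)⁻¹ * (base θ hθ) x * ((stab θ hθ) ^ k * (base θ hθ) y) * (stab θ hθ) ^ d := by rw [e1]; group
      _ = _ := by rw [tpow_mul_of, map_mul, pow_add]; group
  · right
    obtain ⟨k, rfl⟩ := Nat.exists_eq_add_of_le hcb
    refine ⟨k, ?_⟩
    have e1 : (stab θ hθ) ^ b * ((stab θ hθ) ^ (b + k))⁻¹ = ((stab θ hθ) ^ k)⁻¹ := by
      rw [add_comm, pow_add, mul_inv_rev, mul_inv_cancel_left]
    calc g * h = ((stab θ hθ) ^ a)⁻¹ * (base θ hθ) x * ((stab θ hθ) ^ b * ((stab θ hθ) ^ (b + k))⁻¹) * (base θ hθ) y * (stab θ hθ) ^ d := by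
          rw [hg, hh]; group
      _ = ((stab θ hθ) ^ a)⁻¹ * ((base θ hθ) x * ((stab θ hθ) ^ k)⁻¹) * (base θ hθ) y * (stab θ hθ) ^ d := by rw [e1]; group
      _ = _ := by rw [of_mul_tpow_inv, map_mul, add_comm a k, pow_add, mul_inv_rev]; group

lemma exists_form (g : AscHNN θ hθ) : ∃ a x b, IsForm θ hθ g a x b := by
  induction g using HNNExtension.induction_on with
  | of x => exact ⟨0, x, 0, by simp [IsForm]⟩
  | t => exact ⟨0, 1, 1, by simp [IsForm]⟩
  | mul g h hg hh =>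
    obtain ⟨a, x, b, hg⟩ := hg
    obtain ⟨c, y, d, hh⟩ := hh
    rcases hg.mul θ hθ hh with ⟨k, h⟩ | ⟨k, h⟩
    · exact ⟨_, _, _, h⟩
    · exact ⟨_, _, _, h⟩
  | inv g hg =>
    obtain ⟨a, x, b, hg⟩ := hg
    refine ⟨b, x⁻¹, a, ?_⟩
    unfold IsForm at *
    rw [hg, map_inv]
    group

lemma expSum_form {g : AscHNN θ hθ} {a b : ℕ} {x : F} (hg : IsForm θ hθ g a x b) :
    expSum θ hθ g = Multiplicative.ofAdd ((b : ℤ) - a) := by
  unfold IsForm at hg
  have h1 : expSum θ hθ (stab θ hθ) = Multiplicative.ofAdd 1 := HNNExtension.lift_t _ _ _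
  have h2 : expSum θ hθ ((base θ hθ) x) = 1 := HNNExtension.lift_of _ _ _ _
  rw [hg, MonoidHom.map_mul, MonoidHom.map_mul, MonoidHom.map_inv, MonoidHom.map_pow,
    MonoidHom.map_pow, h1, h2, mul_one, ← ofAdd_nsmul, ← ofAdd_nsmul, ← ofAdd_neg, ← ofAdd_add]
  congr 1
  simp
  ring

lemma IsForm.eq_of_le {g : AscHNN θ hθ} {a b c d : ℕ} {x y : F} (hg : IsForm θ hθ g a x b)
    (hg' : IsForm θ hθ g c y d) (hac : a ≤ c) : ∃ k, y = iter θ k x := by
  have h1 := expSum_form θ hθ hg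
  have h2 := expSum_form θ hθ hg'
  rw [h1] at h2
  have h2 : (b : ℤ) - a = (d : ℤ) - c := h2
  obtain ⟨k, rfl⟩ := Nat.exists_eq_add_of_le hac
  obtain rfl : d = b + k := by omega
  refine ⟨k, ?_⟩
  unfold IsForm at *
  rw [hg] at hg'
  have e : (base θ hθ) y = (base θ hθ) (iter θ k x) := by
    have h3 : (stab θ hθ) ^ k * (base θ hθ) x * ((stab θ hθ) ^ k)⁻¹ = (base θ hθ) (iter θ k x) := by
      rw [tpow_mul_of, mul_inv_cancel_right]
    have h4 : (stab θ hθ) ^ (a + k) * (((stab θ hθ) ^ a)⁻¹ * (base θ hθ) x * (stab θ hθ) ^ b) * ((stab θ hθ) ^ (b + k))⁻¹ = (base θ hθ) y := by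
      rw [hg']; group
    rw [← h3, ← h4, add_comm a k, pow_add, add_comm b k, pow_add]
    group
  exact HNNExtension.of_injective _ e

variable {θ} in
lemma iter_inv {ψ : F → ℝ} (hψ : ψ ∈ invHQM θ) (k : ℕ) (x : F) : ψ (iter θ k x) = ψ x := by
  induction k generalizing x with
  | zero => rfl
  | succ k ih => rw [iter_succ, ih, hψ.2]

lemma IsForm.eq {ψ : F → ℝ} (hψ : ψ ∈ invHQM θ) {g : AscHNN θ hθ} {a b c d : ℕ} {x y : F}
    (hg : IsForm θ hθ g a x b) (hg' : IsForm θ hθ g c y d) : ψ x = ψ y := by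
  rcases le_total a c with h | h
  · obtain ⟨k, rfl⟩ := hg.eq_of_le θ hθ hg' h
    rw [iter_inv hψ]
  · obtain ⟨k, rfl⟩ := hg'.eq_of_le θ hθ hg h
    rw [iter_inv hψ]

/-- An invariant homogeneous quasimorphism extends to the ascending HNN extension. -/
theorem exists_extension {ψ : F → ℝ} (hψ : ψ ∈ invHQM θ) :
    ∃ Ψ ∈ HQM (AscHNN θ hθ), ∀ x, Ψ ((base θ hθ) x) = ψ x := by
  choose A X B hform using exists_form θ hθ
  obtain ⟨D, hD⟩ := hψ.1.1
  have hdef : ∀ g h : AscHNN θ hθ, |ψ (X (g * h)) - ψ (X g) - ψ (X h)| ≤ D := by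
    intro g h
    rcases (hform g).mul θ hθ (hform h) with ⟨k, h1⟩ | ⟨k, h1⟩
    · rw [(hform (g * h)).eq θ hθ hψ h1, ← iter_inv hψ k (X h)]
      exact hD _ _
    · rw [(hform (g * h)).eq θ hθ hψ h1, ← iter_inv hψ k (X g)]
      exact hD _ _
  obtain ⟨Ψ, hΨ, hclose, -⟩ := homogenise (fun g => ψ (X g)) D hdef
  refine ⟨Ψ, hΨ, ?_⟩
  have h1 : (fun x => Ψ ((base θ hθ) x)) ∈ HQM F := by
    refine ⟨?_, fun x n => ?_⟩
    · obtain ⟨E, hE⟩ := hΨ.1
      exact ⟨E, fun x y => by simp only [map_mul]; exact hE _ _⟩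
    · simp only [map_zpow]
      exact hΨ.2 _ _
  have h2 : (fun x => Ψ ((base θ hθ) x)) = ψ := by
    refine HQM.eq_of_bounded h1 hψ.1 (C := D) fun x => ?_
    have h3 := hclose ((base θ hθ) x)
    have h4 : ψ (X ((base θ hθ) x)) = ψ x :=
      (hform ((base θ hθ) x)).eq θ hθ hψ (a := _) (c := 0) (d := 0) (y := x) (by simp [IsForm])
    rw [h4] at h3
    exact h3
  exact fun x => congrFun h2 x

theorem not_finite_HQM_ascHNN (h : ¬ FiniteDimensional ℝ (invHQM θ)) :
    ¬ FiniteDimensional ℝ (HQM (AscHNN θ hθ)) := by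
  intro hfin
  apply h
  let R : (AscHNN θ hθ → ℝ) →ₗ[ℝ] (F → ℝ) := LinearMap.funLeft ℝ ℝ (base θ hθ)
  have hle : invHQM θ ≤ (HQM (AscHNN θ hθ)).map R := by
    intro ψ hψ
    obtain ⟨Ψ, hΨ, h1⟩ := exists_extension θ hθ hψ
    exact ⟨Ψ, hΨ, funext h1⟩
  have : FiniteDimensional ℝ ((HQM (AscHNN θ hθ)).map R) := inferInstance
  exact Submodule.finiteDimensional_of_le hle

end HNN

section H2b

variable {G : Type*} [Group G]

/-- the coboundary of a homogeneous quasimorphism -/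
def coboundary : HQM G →ₗ[ℝ] Z2b G where
  toFun φ := ⟨fun g h => φ.1 h - φ.1 (g * h) + φ.1 g, by
    obtain ⟨D, hD⟩ := φ.2.1
    refine ⟨⟨D, fun g h => ?_⟩, fun g h k => ?_⟩
    · have := hD g h
      rw [← abs_neg] at this
      convert this using 2
      ring
    · simp only [mul_assoc]
      ring⟩
  map_add' φ ψ := by
    ext g h
    simp
    ring
  map_smul' c φ := by
    ext g h
    simp
    ring

lemma ker_finite [Group.FG G] :
    FiniteDimensional ℝ (LinearMap.ker ((((B2b G).comap (Z2b G).subtype).mkQ) ∘ₗ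
      (coboundary : HQM G →ₗ[ℝ] Z2b G))) := by
  classical
  obtain ⟨S, hS⟩ := (Group.fg_def.mp (inferInstance : Group.FG G))
  set N := LinearMap.ker ((((B2b G).comap (Z2b G).subtype).mkQ) ∘ₗ
      (coboundary : HQM G →ₗ[ℝ] Z2b G)) with hN
  -- the elements of the kernel are homomorphisms
  have hhom : ∀ φ : HQM G, φ ∈ N → ∀ g h, φ.1 (g * h) = φ.1 g + φ.1 h := by
    intro φ hφ
    rw [hN, LinearMap.mem_ker, LinearMap.comp_apply, Submodule.mkQ_apply,
      Submodule.Quotient.mk_eq_zero] at hφ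
    obtain ⟨b, ⟨D, hD⟩, hb⟩ := hφ
    have hb' : ∀ g h, φ.1 h - φ.1 (g * h) + φ.1 g = b h - b (g * h) + b g := fun g h => hb g h
    set χ : G → ℝ := fun g => φ.1 g - b g with hχ
    have hχadd : ∀ g h, χ (g * h) = χ g + χ h := by
      intro g h
      have := hb' g h
      simp only [hχ]
      linarith
    have hχ1 : χ 1 = 0 := by
      have := hχadd 1 1
      rw [mul_one] at this
      linarith
    have hχinv : ∀ g, χ g⁻¹ = - χ g := by
      intro g
      have := hχadd g g⁻¹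
      rw [mul_inv_cancel, hχ1] at this
      linarith
    have hχpow : ∀ g, ∀ n : ℕ, χ (g ^ n) = n * χ g := by
      intro g n
      induction n with
      | zero => simp [hχ1]
      | succ n ih => rw [pow_succ, hχadd, ih]; push_cast; ring
    have hχm : χ ∈ HQM G := by
      refine ⟨⟨0, fun g h => by rw [hχadd]; simp⟩, fun g n => ?_⟩
      obtain ⟨k, rfl | rfl⟩ := n.eq_nat_or_neg
      · rw [zpow_natCast, hχpow]; simp
      · rw [zpow_neg, zpow_natCast, hχinv, hχpow]; push_cast; ring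
    have heq : φ.1 = χ := HQM.eq_of_bounded φ.2 hχm (C := D) fun g => by
      simp only [hχ]
      rw [sub_sub_cancel]
      exact hD g
    intro g h
    rw [heq]
    exact hχadd g h
  let ρ : N →ₗ[ℝ] (S → ℝ) :=
    { toFun := fun φ s => φ.1.1 s
      map_add' := fun φ ψ => rfl
      map_smul' := fun c φ => rfl }
  refine FiniteDimensional.of_injective ρ ?_
  rw [injective_iff_map_eq_zero]
  intro φ hφ
  have h0 : ∀ s ∈ S, φ.1.1 s = 0 := fun s hs => congrFun hφ ⟨s, hs⟩
  have hadd := hhom φ.1 φ.2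
  have h1 : φ.1.1 1 = 0 := HQM.one φ.1.2
  let Z : Subgroup G :=
    { carrier := {g | φ.1.1 g = 0}
      mul_mem' := fun {a b} ha hb => by
        show φ.1.1 (a * b) = 0
        rw [hadd, show φ.1.1 a = 0 from ha, show φ.1.1 b = 0 from hb, add_zero]
      one_mem' := h1
      inv_mem' := fun {a} ha => by
        show φ.1.1 a⁻¹ = 0
        rw [HQM.inv φ.1.2, show φ.1.1 a = 0 from ha, neg_zero] }
  have hZ : Z = ⊤ := by
    rw [eq_top_iff, ← hS, Subgroup.closure_le]
    exact fun s hs => h0 s hs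
  apply Subtype.ext
  apply Subtype.ext
  funext g
  have : g ∈ Z := by rw [hZ]; trivial
  exact this

theorem not_finite_H2b [Group.FG G] (h : ¬ FiniteDimensional ℝ (HQM G)) :
    ¬ FiniteDimensional ℝ (H2b G) := by
  intro hfin
  apply h
  set f := (((B2b G).comap (Z2b G).subtype).mkQ) ∘ₗ (coboundary : HQM G →ₗ[ℝ] Z2b G) with hf
  have h1 : FiniteDimensional ℝ (LinearMap.ker f) := ker_finite
  have h2 : FiniteDimensional ℝ (HQM G ⧸ LinearMap.ker f) :=
    Module.Finite.equiv f.quotKerEquivRange.symm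
  exact Module.Finite.of_submodule_quotient (LinearMap.ker f)

theorem fg_ascHNN {F : Type*} [Group F] [hF : Group.FG F] (θ : F →* F)
    (hθ : Function.Injective θ) : Group.FG (AscHNN θ hθ) := by
  classical
  obtain ⟨S, hS⟩ := Group.fg_def.mp hF
  refine Group.fg_def.mpr ⟨insert HNNExtension.t (S.image HNNExtension.of), ?_⟩
  set Z : Subgroup (AscHNN θ hθ) := Subgroup.closure
    ((insert HNNExtension.t (S.image HNNExtension.of) : Finset (AscHNN θ hθ)) :
      Set (AscHNN θ hθ)) with hZ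
  rw [eq_top_iff]
  rintro g -
  have hof : ∀ x : F, (HNNExtension.of x : AscHNN θ hθ) ∈ Z := by
    intro x
    have hx : x ∈ Subgroup.closure (S : Set F) := by rw [hS]; trivial
    have h1 : Subgroup.closure (S : Set F) ≤
        Z.comap (HNNExtension.of : F →* AscHNN θ hθ) := by
      rw [Subgroup.closure_le]
      intro s hs
      refine Subgroup.subset_closure ?_
      simp only [Finset.coe_insert, Finset.coe_image]
      exact Or.inr ⟨s, hs, rfl⟩
    exact h1 hx
  induction g using HNNExtension.induction_on with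
  | of x => exact hof x
  | t =>
    refine Subgroup.subset_closure ?_
    simp
  | mul g h hg hh => exact Z.mul_mem hg hh
  | inv g hg => exact Z.inv_mem hg

theorem final_assembly {F : Type*} [Group F] [Group.FG F] (θ : F →* F)
    (hθ : Function.Injective θ) (h : ¬ FiniteDimensional ℝ (invHQM θ)) :
    ¬ FiniteDimensional ℝ (H2b (AscHNN θ hθ)) :=
  have := fg_ascHNN θ hθ
  not_finite_H2b (not_finite_HQM_ascHNN θ hθ h)

end H2b

end Pool.Agent.AscQM
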