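import Pool.Agent.Lib.MP_fa6f87_al.Base

/-!
The hull of `θ ^ i` is not contained in a translate of the hull of `θ ^ (i + 1)`.
-/

namespace Pool.Agent.AscQM

open FreeGroup

section P8

variable {α β : Type*} [DecidableEq α] [Fintype α] [DecidableEq β] [Fintype β]

/-- if the hull is contained in a translate of itself then it is equal to it -/
lemma Hull.translate_eq {σ : FreeGroup α →* FreeGroup β} (hσ : Function.Injective σ)
    (h2 : 2 ≤ Fintype.card α) {g : FreeGroup β} (h : ∀ v ∈ Hull σ, g⁻¹ * v ∈ Hull σ) :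
    ∀ v ∈ Hull σ, g * v ∈ Hull σ := by
  have hne : Nonempty α := Fintype.card_pos_iff.mp (by omega)
  obtain ⟨b, hb⟩ := Hull.exists_br hσ h2
  have hpow : ∀ n : ℕ, ∀ v ∈ Hull σ, g⁻¹ ^ n * v ∈ Hull σ := by
    intro n
    induction n with
    | zero => intro v hv; simpa using hv
    | succ n ih =>
      intro v hv
      rw [pow_succ', mul_assoc]
      exact h _ (ih v hv)
  have hbr : ∀ n : ℕ, IsBr (Hull σ) (g⁻¹ ^ n * b) := by
    intro n
    obtain ⟨x, hx, y, hy, z, hz, h1, h3, h4, h5, h6, h7⟩ := hb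
    exact ⟨g⁻¹ ^ n * x, hpow n x hx, g⁻¹ ^ n * y, hpow n y hy, g⁻¹ ^ n * z, hpow n z hz,
      fun e => h1 (mul_left_cancel e), fun e => h3 (mul_left_cancel e),
      fun e => h4 (mul_left_cancel e), h5.mul_left _, h6.mul_left _, h7.mul_left _⟩
  obtain ⟨R, -, hR⟩ := Hull.branch_orbits hσ
  choose f ρ hρ he using fun n => hR _ (hbr n)
  obtain ⟨a, c, hac, hab⟩ : ∃ a c : ℕ, a < c ∧ ρ a = ρ c := by
    obtain ⟨a, c, hne, heq⟩ := Finite.exists_ne_map_eq_of_infinite
      (fun n : ℕ => (⟨ρ n, hρ n⟩ : R))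
    have heq' : ρ a = ρ c := congrArg Subtype.val heq
    rcases lt_or_gt_of_ne hne with h1 | h1
    · exact ⟨a, c, h1, heq'⟩
    · exact ⟨c, a, h1, heq'.symm⟩
  obtain ⟨k, rfl⟩ := Nat.exists_eq_add_of_lt hac
  have e1 : g ^ (k + 1) = σ (f a * (f (a + k + 1))⁻¹) := by
    have h1 := he a
    have h3 := he (a + k + 1)
    rw [← hab] at h3
    have h4 : ρ a = (σ (f (a + k + 1)))⁻¹ * (g⁻¹ ^ (a + k + 1) * b) := by rw [h3]; group
    rw [h4] at h1
    have h5 : g⁻¹ ^ a = σ (f a) * (σ (f (a + k + 1)))⁻¹ * g⁻¹ ^ (a + k + 1) := by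
      apply mul_right_cancel (b := b)
      rw [h1]; group
    rw [_root_.map_mul, _root_.map_inv]
    have h6 : g⁻¹ ^ a * g ^ (a + k + 1) = σ (f a) * (σ (f (a + k + 1)))⁻¹ := by
      rw [h5, mul_assoc, inv_pow, inv_mul_cancel, mul_one]
    rw [← h6, add_assoc, pow_add g a, inv_pow, inv_mul_cancel_left]
  intro v hv
  have h1 : g * v = g ^ (k + 1) * (g⁻¹ ^ k * v) := by
    rw [pow_succ', inv_pow]
    group
  rw [h1, e1]
  exact Hull.smul (hpow k v hv) _

theorem P8 {θ : FreeGroup α →* FreeGroup α} (hθ : Function.Injective θ)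
    (hns : ¬ Function.Surjective θ) (h2 : 2 ≤ Fintype.card α) (i : ℕ) (g : FreeGroup α) :
    ∃ v ∈ Hull (iter θ i), g⁻¹ * v ∉ Hull (iter θ (i + 1)) := by
  have hne : Nonempty α := Fintype.card_pos_iff.mp (by omega)
  by_contra hcon
  push Not at hcon
  apply hns
  have hsub : Hull (iter θ (i + 1)) ⊆ Hull (iter θ i) := Hull.iter_antitone θ (Nat.le_succ i)
  have hi := iter_injective θ hθ i
  have hi' := iter_injective θ hθ (i + 1)
  -- `g X_i = X_i`
  have h3 : ∀ v ∈ Hull (iter θ i), g * v ∈ Hull (iter θ i) :=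
    Hull.translate_eq hi h2 fun v hv => hsub (hcon v hv)
  -- `g X_{i+1} = X_{i+1}`
  have h4 : ∀ v ∈ Hull (iter θ (i + 1)), g * v ∈ Hull (iter θ (i + 1)) :=
    Hull.translate_eq hi' h2 fun v hv => hcon v (hsub hv)
  -- `X_i = X_{i+1}`
  have h5 : ∀ v ∈ Hull (iter θ i), v ∈ Hull (iter θ (i + 1)) := by
    intro v hv
    have := h4 _ (hcon v hv)
    rwa [mul_inv_cancel_left] at this
  obtain ⟨R, hR⟩ := Hull.exists_transversal (iter θ (i + 1))
  obtain ⟨v, hv⟩ := Hull.nonempty hi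
  refine surjective_of_cofinite hθ h2 {s | iter θ i s * v ∈ R} ?_ ?_
  · refine Set.Finite.preimage (f := fun s => iter θ i s * v) ?_ R.finite_toSet
    intro x _ y _ hxy
    exact hi (mul_right_cancel hxy)
  · intro y
    obtain ⟨f, ρ, hρ, hf⟩ := hR.cover _ (h5 _ (Hull.smul hv y))
    refine ⟨f, (θ f)⁻¹ * y, ?_, by group⟩
    show iter θ i ((θ f)⁻¹ * y) * v ∈ R
    have : iter θ i ((θ f)⁻¹ * y) * v = ρ := by
      rw [_root_.map_mul, _root_.map_inv, mul_assoc, hf, iter_succ, inv_mul_cancel_left]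
    rw [this]
    exact hρ

end P8

end Pool.Agent.AscQM
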