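import Pool.Agent.Lib.MP_fa6f87_al.Geo

/-!
A cyclically reduced commutator which contains given words as subwords.
-/

namespace Pool.Agent.AscQM

open FreeGroup
open scoped commutatorElement

section Words

variable {α : Type*} [DecidableEq α]

omit [DecidableEq α] in
lemma isReduced_append {L₁ L₂ : List (α × Bool)} (h₁ : IsReduced L₁) (h₂ : IsReduced L₂)
    (h : ∀ x ∈ L₁.getLast?, ∀ y ∈ L₂.head?, x.1 = y.1 → x.2 = y.2) : IsReduced (L₁ ++ L₂) := by
  unfold FreeGroup.IsReduced at *
  rw [List.isChain_append]
  exact ⟨h₁, h₂, h⟩

omit [DecidableEq α] in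
/-- any two letters can be linked by a third one -/
lemma exists_link [Fintype α] (h2 : 2 ≤ Fintype.card α) (x y : α × Bool) :
    ∃ z : α × Bool, (x.1 = z.1 → x.2 = z.2) ∧ (z.1 = y.1 → z.2 = y.2) := by
  have : Nontrivial α := Fintype.one_lt_card_iff_nontrivial.1 (by omega)
  obtain ⟨c, hc⟩ := exists_ne x.1
  exact ⟨(c, y.2), fun h => absurd h.symm hc, fun _ => rfl⟩

omit [DecidableEq α] in
lemma exists_list [Fintype α] (h2 : 2 ≤ Fintype.card α) (a : α) (S : Finset (FreeGroup α))
    [DecidableEq α] :
    ∃ P : List (α × Bool), IsReduced P ∧ P.head? = some (a, true) ∧ P.getLast? = some (a, true) ∧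
      ∀ u ∈ S, ∃ A B, P = A ++ (u.toWord ++ B) := by
  classical
  induction S using Finset.induction_on with
  | empty =>
    exact ⟨[(a, true)], IsReduced.singleton, rfl, rfl, by simp⟩
  | insert u S _ ih =>
    obtain ⟨P, hP, hh, hl, hS⟩ := ih
    by_cases hu : u.toWord = []
    · refine ⟨P, hP, hh, hl, fun v hv => ?_⟩
      rcases Finset.mem_insert.1 hv with rfl | hv
      · exact ⟨P, [], by simp [hu]⟩
      · exact hS v hv
    · obtain ⟨f, U0, hU⟩ : ∃ f U0, u.toWord = f :: U0 := List.exists_cons_of_ne_nil hu
      obtain ⟨g, hg⟩ : ∃ g, u.toWord.getLast? = some g := by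
        rw [← Option.isSome_iff_exists, List.getLast?_isSome]
        exact hu
      obtain ⟨z, hz1, hz2⟩ := exists_link h2 (a, true) f
      obtain ⟨y, hy1, hy2⟩ := exists_link h2 g (a, true)
      have hUr : IsReduced u.toWord := isReduced_toWord
      have e1 : IsReduced (P ++ [z]) := by
        refine isReduced_append hP IsReduced.singleton ?_
        intro x hx w hw
        rw [hl] at hx
        simp only [Option.mem_def, Option.some.injEq, List.head?_cons] at hx hw
        subst hx; subst hw
        exact hz1
      have e2 : IsReduced ([z] ++ u.toWord) := by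
        refine isReduced_append IsReduced.singleton hUr ?_
        intro x hx w hw
        rw [hU] at hw
        simp only [Option.mem_def, Option.some.injEq, List.head?_cons,
          List.getLast?_singleton] at hx hw
        subst hx; subst hw
        exact hz2
      have e3 : IsReduced (u.toWord ++ [y]) := by
        refine isReduced_append hUr IsReduced.singleton ?_
        intro x hx w hw
        rw [hg] at hx
        simp only [Option.mem_def, Option.some.injEq, List.head?_cons] at hx hw
        subst hx; subst hw
        exact hy1
      have e4 : IsReduced ([y] ++ [(a, true)]) := by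
        refine isReduced_append IsReduced.singleton IsReduced.singleton ?_
        intro x hx w hw
        simp only [Option.mem_def, Option.some.injEq, List.head?_cons,
          List.getLast?_singleton] at hx hw
        subst hx; subst hw
        exact hy2
      have f1 : IsReduced (P ++ [z] ++ u.toWord) := IsReduced.append_overlap e1 e2 (by simp)
      have f2 : IsReduced ((P ++ [z]) ++ u.toWord ++ [y]) := IsReduced.append_overlap f1 e3 hu
      have f3 : IsReduced (((P ++ [z]) ++ u.toWord) ++ [y] ++ [(a, true)]) :=
        IsReduced.append_overlap f2 e4 (by simp)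
      refine ⟨((P ++ [z]) ++ u.toWord) ++ [y] ++ [(a, true)], f3, ?_, ?_, ?_⟩
      · obtain ⟨P0, rfl⟩ : ∃ P0, P = (a, true) :: P0 := by
          cases P with
          | nil => simp at hh
          | cons x P0 =>
            simp only [List.head?_cons, Option.some.injEq] at hh
            exact ⟨P0, by rw [hh]⟩
        simp
      · exact List.getLast?_concat
      · intro v hv
        rcases Finset.mem_insert.1 hv with rfl | hv
        · exact ⟨P ++ [z], [y] ++ [(a, true)], by simp⟩
        · obtain ⟨A, B, hAB⟩ := hS v hv
          refine ⟨A, B ++ ([z] ++ u.toWord ++ [y] ++ [(a, true)]), ?_⟩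
          rw [hAB]
          simp

lemma norm_mk_of_isReduced {L : List (α × Bool)} (h : IsReduced L) :
    (mk L).norm = L.length := by
  unfold FreeGroup.norm
  rw [toWord_mk, h.reduce_eq]

theorem exists_word_containing [Fintype α] (h2 : 2 ≤ Fintype.card α) (a b : α) (hab : a ≠ b)
    (S : Finset (FreeGroup α)) :
    ∃ c : FreeGroup α, c ∈ commutator (FreeGroup α) ∧ c ≠ 1 ∧ OnAxis c 1 ∧
      ∀ u ∈ S, ∃ x, d 1 x + d x (x * u) + d (x * u) c = d 1 c := by
  classical
  obtain ⟨P, hP, hh, hl, hS⟩ := exists_list h2 a S
  have hPne : P ≠ [] := by rintro rfl; simp at hh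
  set L : List (α × Bool) := P ++ [(b, true)] ++ invRev P ++ [(b, false)] with hL
  have hIr : IsReduced (invRev P) := isReduced_invRev hP
  have hIne : invRev P ≠ [] := by
    intro h
    apply hPne
    have := congrArg List.length h
    rw [invRev_length] at this
    exact List.length_eq_zero_iff.1 this
  have hIh : (invRev P).head? = some (a, false) := by
    unfold invRev
    rw [List.head?_reverse, List.getLast?_map, hl]
    rfl
  have hIl : (invRev P).getLast? = some (a, false) := by
    unfold invRev
    rw [List.getLast?_reverse, List.head?_map, hh]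
    rfl
  have e1 : IsReduced (P ++ [(b, true)]) := by
    refine isReduced_append hP IsReduced.singleton ?_
    intro x hx w hw
    rw [hl] at hx
    simp only [Option.mem_def, Option.some.injEq, List.head?_cons] at hx hw
    subst hx; subst hw
    exact fun h => absurd h hab
  have e2 : IsReduced ([(b, true)] ++ invRev P) := by
    refine isReduced_append IsReduced.singleton hIr ?_
    intro x hx w hw
    rw [hIh] at hw
    simp only [Option.mem_def, Option.some.injEq, List.getLast?_singleton] at hx hw
    subst hx; subst hw
    exact fun h => absurd h.symm hab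
  have e3 : IsReduced (invRev P ++ [(b, false)]) := by
    refine isReduced_append hIr IsReduced.singleton ?_
    intro x hx w hw
    rw [hIl] at hx
    simp only [Option.mem_def, Option.some.injEq, List.head?_cons] at hx hw
    subst hx; subst hw
    exact fun h => absurd h hab
  have f1 : IsReduced (P ++ [(b, true)] ++ invRev P) := IsReduced.append_overlap e1 e2 (by simp)
  have hLr : IsReduced L := IsReduced.append_overlap f1 e3 hIne
  have hLh : L.head? = some (a, true) := by
    cases P with
    | nil => simp at hh
    | cons x P0 =>
      simp only [List.head?_cons, Option.some.injEq] at hh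
      simp [hL, hh]
  have hLl : L.getLast? = some (b, false) := by rw [hL]; exact List.getLast?_concat
  have hLL : IsReduced (L ++ L) := by
    refine isReduced_append hLr hLr ?_
    intro x hx w hw
    rw [hLl] at hx
    rw [hLh] at hw
    simp only [Option.mem_def, Option.some.injEq] at hx hw
    subst hx; subst hw
    exact fun h => absurd h.symm hab
  have hLlen : 0 < L.length := by simp [hL]
  have hc : mk L = ⁅mk P, of b⁆ := by
    rw [commutatorElement_def, hL, ← mul_mk, ← mul_mk, ← mul_mk, inv_mk]
    rfl
  refine ⟨mk L, ?_, ?_, ?_, ?_⟩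
  · rw [hc]
    exact Subgroup.commutator_mem_commutator (Subgroup.mem_top _) (Subgroup.mem_top _)
  · intro h
    have h1 := norm_mk_of_isReduced hLr
    rw [h, FreeGroup.norm_one] at h1
    omega
  · unfold OnAxis Btw
    rw [mul_one, mul_one]
    have h1 : d (mk L)⁻¹ 1 = L.length := by
      rw [d_comm, d_one_left, norm_inv_eq, norm_mk_of_isReduced hLr]
    have h2 : d 1 (mk L) = L.length := by rw [d_one_left, norm_mk_of_isReduced hLr]
    have h3 : d (mk L)⁻¹ (mk L) = L.length + L.length := by
      unfold d
      rw [inv_inv, mul_mk, norm_mk_of_isReduced hLL, List.length_append]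
    rw [h1, h2, h3]
  · intro u hu
    obtain ⟨A, B, hAB⟩ := hS u hu
    set B' := B ++ ([(b, true)] ++ invRev P ++ [(b, false)]) with hB'
    have hL2 : L = A ++ (u.toWord ++ B') := by
      rw [hB', hL, hAB]
      simp
    have hAr : IsReduced A := isReduced_sub hLr ⟨[], u.toWord ++ B', by rw [hL2]; simp⟩
    have hBr : IsReduced B' := isReduced_sub hLr ⟨A ++ u.toWord, [], by rw [hL2]; simp⟩
    refine ⟨mk A, ?_⟩
    have hu2 : mk A * u = mk (A ++ u.toWord) := by
      rw [← mul_mk, mk_toWord]
    have h1 : d 1 (mk A) = A.length := by rw [d_one_left, norm_mk_of_isReduced hAr]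
    have h2 : d (mk A) (mk A * u) = u.toWord.length := by
      unfold d
      rw [inv_mul_cancel_left]; rfl
    have h3 : d (mk A * u) (mk L) = B'.length := by
      unfold d
      rw [hu2, hL2, ← List.append_assoc, ← mul_mk (L₁ := A ++ u.toWord), inv_mul_cancel_left,
        norm_mk_of_isReduced hBr]
    have h4 : d 1 (mk L) = L.length := by rw [d_one_left, norm_mk_of_isReduced hLr]
    rw [h1, h2, h3, h4, hL2]
    simp only [List.length_append]
    omega

end Words

end Pool.Agent.AscQM
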