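import Pool.Agent.Lib.MP_fa6f87_al.Base
import Pool.Agent.Lib.MP_fa6f87_al.P8
import Pool.Agent.Lib.MP_fa6f87_al.Words

/-!
Existence of a word whose core at record times is not contained in a translate of the next hull.
-/

namespace Pool.Agent.AscQM

open FreeGroup

section LemmaB

variable {α : Type*} [DecidableEq α] [Fintype α]

omit [Fintype α] in
/-- balls are convex -/
lemma ball_convex {p x y z : FreeGroup α} {n : ℕ} (hz : Btw x z y) (h1 : d p x ≤ n)
    (h2 : d p y ≤ n) : d p z ≤ n := by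
  rcases hz.or p with h | h
  · have h' : d x z + d z p = d x p := h
    rw [d_comm p x] at h1
    rw [d_comm p z]
    omega
  · have h' : d p z + d z y = d p y := h
    omega

/-- S1: the cosets `f` such that `σ f` moves the small hull onto a long segment are determined by
one vertex upstairs -/
lemma exists_anchor [Nonempty α] {σ τ : FreeGroup α →* FreeGroup α} (hσ : Function.Injective σ)
    (hτ : Function.Injective τ) {p q m : FreeGroup α} (hm : Btw p m q)
    (h1 : Lam σ + 2 * lam σ < d p m) (h2 : Lam σ + 2 * lam σ < d m q) :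
    ∃ m' : FreeGroup α, ∀ f : FreeGroup α, (σ f)⁻¹ * p ∈ Hull (σ.comp τ) →
      (σ f)⁻¹ * q ∈ Hull (σ.comp τ) → f⁻¹ * m' ∈ Hull τ := by
  -- points upstairs
  have aux : ∀ f p : FreeGroup α, (σ f)⁻¹ * p ∈ Hull (σ.comp τ) →
      ∃ u, f⁻¹ * u ∈ Hull τ ∧ d (T σ u) p ≤ lam σ := by
    intro f p hp
    obtain ⟨u, hu, hd⟩ := Hull.near_comp hτ hp
    refine ⟨f * u, by rwa [inv_mul_cancel_left], ?_⟩
    rw [T_mul, ← d_mul_left (σ f)⁻¹, inv_mul_cancel_left]
    exact hd
  by_cases hex : ∃ f₀ : FreeGroup α, (σ f₀)⁻¹ * p ∈ Hull (σ.comp τ) ∧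
      (σ f₀)⁻¹ * q ∈ Hull (σ.comp τ)
  swap
  · push Not at hex
    exact ⟨1, fun f hp hq => absurd hq (hex f hp)⟩
  obtain ⟨f₀, hp₀, hq₀⟩ := hex
  obtain ⟨u₀, -, hu₀⟩ := aux _ _ hp₀
  obtain ⟨w₀, -, hw₀⟩ := aux _ _ hq₀
  have hm1 : Btw p m (T σ w₀) := hm.move (by rw [d_comm]; omega)
  have hm2 : Btw (T σ u₀) m (T σ w₀) := by
    refine (hm1.symm.move ?_).symm
    rw [d_comm p, d_comm m p]; omega
  obtain ⟨m', hm', hd'⟩ := exists_near hm2
  refine ⟨m', fun f hp hq => ?_⟩
  obtain ⟨u, hu, hud⟩ := aux _ _ hp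
  obtain ⟨w, hw, hwd⟩ := aux _ _ hq
  -- `m'` is not close to `p` or `q`
  have far : ∀ (s x y : FreeGroup α), Lam σ + 2 * lam σ < d s m → d (T σ x) s ≤ lam σ →
      d (T σ y) s ≤ lam σ → ¬ Btw x m' y := by
    intro s x y hs hx hy hb
    obtain ⟨z, hz1, hz2⟩ := bcc_T hσ hb
    rw [d_comm] at hx hy
    have h3 := ball_convex hz1 hx hy
    have h4 := d_tri s z m
    have h5 := d_tri z (T σ m') m
    rw [d_comm z (T σ m')] at h5
    omega
  have key : Btw u m' w := by
    rcases hm'.or u with h | h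
    · exact absurd h (far p u₀ u h1 hu₀ hud)
    · rcases h.or w with h | h
      · exact h
      · exact absurd h (far q w w₀ (by rw [d_comm]; exact h2) hwd hw₀)
  exact Hull.convex _ hu _ hw _ (key.mul_left f⁻¹)

/-- translates of sets -/
def Tr (g : FreeGroup α) (Y : Set (FreeGroup α)) : Set (FreeGroup α) := {v | g⁻¹ * v ∈ Y}

omit [DecidableEq α] [Fintype α] in
lemma Tr_mul (g h : FreeGroup α) (Y : Set (FreeGroup α)) : Tr (g * h) Y = Tr g (Tr h Y) := by
  ext v
  show (g * h)⁻¹ * v ∈ Y ↔ h⁻¹ * (g⁻¹ * v) ∈ Y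
  rw [mul_inv_rev, mul_assoc]

omit [DecidableEq α] [Fintype α] in
lemma Tr_one (Y : Set (FreeGroup α)) : Tr 1 Y = Y := by
  ext v
  simp [Tr]

lemma Tr_hull (σ : FreeGroup α →* FreeGroup α) (g : FreeGroup α) :
    Tr (σ g) (Hull σ) = Hull σ := by
  ext v
  show (σ g)⁻¹ * v ∈ Hull σ ↔ v ∈ Hull σ
  rw [← _root_.map_inv]
  exact Hull.smul_iff _

omit [Fintype α] in
lemma Tr_convex {Y : Set (FreeGroup α)} (hY : Convex Y) (g : FreeGroup α) : Convex (Tr g Y) := by
  intro x hx y hy z hz
  exact hY _ hx _ hy _ (hz.mul_left g⁻¹)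

/-- the translates of the `k + 1`-st hull which contain the core of `u`, for which the translate
of the `k`-th hull contains the `i`-th hull, but not the smaller translate -/
def fam (θ : FreeGroup α →* FreeGroup α) (i k : ℕ) (u : FreeGroup α) :
    Set (Set (FreeGroup α)) :=
  {Y | (∃ g, Y = Tr g (Hull (iter θ (k + 1))) ∧ Hull (iter θ i) ⊆ Tr g (Hull (iter θ k))) ∧
    ¬ Hull (iter θ i) ⊆ Y ∧ core (iter θ i) 1 u ⊆ Y}

lemma fam_mono {θ : FreeGroup α →* FreeGroup α} {i k : ℕ} {y u u' : FreeGroup α}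
    (h : d 1 y + d y (y * u) + d (y * u) u' = d 1 u') {Y : Set (FreeGroup α)}
    (hY : Y ∈ fam θ i k u') : Tr (iter θ i y)⁻¹ Y ∈ fam θ i k u := by
  obtain ⟨⟨g, hg, hsub⟩, hn, hc⟩ := hY
  refine ⟨⟨(iter θ i y)⁻¹ * g, ?_, ?_⟩, ?_, ?_⟩
  · rw [Tr_mul, ← hg]
  · intro v hv
    show ((iter θ i y)⁻¹ * g)⁻¹ * v ∈ Hull (iter θ k)
    rw [mul_inv_rev, inv_inv, mul_assoc]
    exact hsub (Hull.smul hv y)
  · intro hcon
    apply hn
    intro v hv
    have h1 : (iter θ i y)⁻¹ * v ∈ Hull (iter θ i) := by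
      rw [← _root_.map_inv]
      exact Hull.smul hv _
    have h2 := hcon h1
    have h3 : (iter θ i y)⁻¹⁻¹ * ((iter θ i y)⁻¹ * v) ∈ Y := h2
    rwa [inv_inv, mul_inv_cancel_left] at h3
  · intro v hv
    show (iter θ i y)⁻¹⁻¹ * v ∈ Y
    rw [inv_inv]
    apply hc
    have h4 : iter θ i y * v ∈ core (iter θ i) (y * 1) (y * u) := (core.smul y).mpr hv
    rw [mul_one] at h4
    exact core.mono (x' := 1) (y' := u') h h4

/-- the words are long enough -/
def Long (θ : FreeGroup α →* FreeGroup α) (i k : ℕ) (u : FreeGroup α) : Prop :=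
  ∃ p ∈ core (iter θ i) 1 u, ∃ q ∈ core (iter θ i) 1 u, ∃ m, Btw p m q ∧
    Lam (iter θ k) + 2 * lam (iter θ k) < d p m ∧ Lam (iter θ k) + 2 * lam (iter θ k) < d m q

/-- S1 and S2: the family has bounded size -/
lemma fam_card [Nonempty α] {θ : FreeGroup α →* FreeGroup α} (hθ : Function.Injective θ)
    (h2 : 2 ≤ Fintype.card α) : ∃ M : ℕ, ∀ i k u, Long θ i k u →
      (fam θ i k u).Finite ∧ (fam θ i k u).ncard ≤ M := by
  classical
  obtain ⟨R₁, hR₁⟩ := Hull.exists_transversal θ
  refine ⟨2 * (Fintype.card α - 1) * R₁.card, fun i k u hu => ?_⟩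
  obtain ⟨p, hp, q, hq, m, hm, hpm, hmq⟩ := hu
  obtain ⟨R, hRc, hR⟩ := Hull.branch_orbits (iter_injective θ hθ k)
  obtain ⟨b, hb⟩ := Hull.exists_br (iter_injective θ hθ i) h2
  -- the anchors
  have anchor : ∀ ρ : FreeGroup α, ∃ m' : FreeGroup α, ∀ f : FreeGroup α,
      (iter θ k f)⁻¹ * ((b * ρ⁻¹)⁻¹ * p) ∈ Hull ((iter θ k).comp θ) →
      (iter θ k f)⁻¹ * ((b * ρ⁻¹)⁻¹ * q) ∈ Hull ((iter θ k).comp θ) → f⁻¹ * m' ∈ Hull θ := by
    intro ρ
    apply exists_anchor (iter_injective θ hθ k) hθ (m := (b * ρ⁻¹)⁻¹ * m) (hm.mul_left _)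
    · rw [d_mul_left]; exact hpm
    · rw [d_mul_left]; exact hmq
  choose A hA using anchor
  set S : Finset (Set (FreeGroup α)) := (R ×ˢ R₁).image
    (fun x => Tr (b * x.1⁻¹ * iter θ k (A x.1 * x.2⁻¹)) (Hull (iter θ (k + 1)))) with hS
  have hsub : fam θ i k u ⊆ (S : Set (Set (FreeGroup α))) := by
    rintro Y ⟨⟨g, hg, hsub⟩, hn, hc⟩
    -- the branch vertex
    have hbr : IsBr (Hull (iter θ k)) (g⁻¹ * b) := by
      obtain ⟨x, hx, y, hy, z, hz, h1, h3, h4, h5, h6, h7⟩ := hb
      exact ⟨g⁻¹ * x, hsub hx, g⁻¹ * y, hsub hy, g⁻¹ * z, hsub hz,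
        fun e => h1 (mul_left_cancel e), fun e => h3 (mul_left_cancel e),
        fun e => h4 (mul_left_cancel e), h5.mul_left _, h6.mul_left _, h7.mul_left _⟩
    obtain ⟨f₁, ρ, hρ, he⟩ := hR _ hbr
    -- `g = b ρ⁻¹ (θ^k f₁)⁻¹`
    have hg' : g = b * ρ⁻¹ * iter θ k f₁⁻¹ := by
      have : g⁻¹ = iter θ k f₁ * ρ * b⁻¹ := by rw [← he]; group
      rw [← inv_inv g, this, _root_.map_inv]; group
    have hY : Y = Tr (b * ρ⁻¹) (Tr (iter θ k f₁⁻¹) (Hull (iter θ (k + 1)))) := by
      rw [← Tr_mul, ← hg', hg]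
    have hpY : (iter θ k f₁⁻¹)⁻¹ * ((b * ρ⁻¹)⁻¹ * p) ∈ Hull ((iter θ k).comp θ) := by
      have := hc hp
      rw [hY] at this
      exact this
    have hqY : (iter θ k f₁⁻¹)⁻¹ * ((b * ρ⁻¹)⁻¹ * q) ∈ Hull ((iter θ k).comp θ) := by
      have := hc hq
      rw [hY] at this
      exact this
    have h3 := hA ρ f₁⁻¹ hpY hqY
    obtain ⟨g₁, ρ₁, hρ₁, he₁⟩ := hR₁.cover _ h3
    have h4 : f₁⁻¹ = A ρ * ρ₁⁻¹ * θ g₁⁻¹ := by
      have : (f₁⁻¹)⁻¹ = θ g₁ * ρ₁ * (A ρ)⁻¹ := by rw [← he₁]; group
      rw [← inv_inv f₁⁻¹, this, _root_.map_inv]; group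
    rw [hS, Finset.coe_image]
    refine ⟨(ρ, ρ₁), by simpa using ⟨hρ, hρ₁⟩, ?_⟩
    show Tr (b * ρ⁻¹ * iter θ k (A ρ * ρ₁⁻¹)) (Hull (iter θ (k + 1))) = Y
    rw [hY, ← Tr_mul, h4, _root_.map_mul (iter θ k) (A ρ * ρ₁⁻¹), ← mul_assoc (b * ρ⁻¹), Tr_mul _
      (iter θ k (θ g₁⁻¹)), ← iter_succ, Tr_hull]
  have hfin : (fam θ i k u).Finite := S.finite_toSet.subset hsub
  refine ⟨hfin, ?_⟩
  calc (fam θ i k u).ncard ≤ (S : Set (Set (FreeGroup α))).ncard :=
        Set.ncard_le_ncard hsub S.finite_toSet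
    _ = S.card := Set.ncard_coe_finset S
    _ ≤ (R ×ˢ R₁).card := Finset.card_image_le
    _ = R.card * R₁.card := Finset.card_product _ _
    _ ≤ _ := Nat.mul_le_mul_right _ hRc

/-- the elements `u z` generate -/
lemma generate (h2 : 2 ≤ Fintype.card α) {u : FreeGroup α} (hu : u ≠ 1)
    (H : Subgroup (FreeGroup α))
    (hH : ∀ z : FreeGroup α, z.norm ≤ 3 → d 1 (u * z) + d (u * z) (u * z * u) = d 1 (u * z * u) →
      d 1 u + d u (u * z * u) = d 1 (u * z * u) → u * z ∈ H) : H = ⊤ := by
  classical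
  have hune : u.toWord ≠ [] := by
    intro h
    exact hu (toWord_eq_nil_iff.mp h)
  obtain ⟨f, U0, hU⟩ : ∃ f U0, u.toWord = f :: U0 := List.exists_cons_of_ne_nil hune
  obtain ⟨e, he⟩ : ∃ e, u.toWord.getLast? = some e := by
    rw [← Option.isSome_iff_exists, List.getLast?_isSome]
    exact hune
  obtain ⟨l, hl1, hl2⟩ := exists_link h2 e f
  have hUr : IsReduced u.toWord := isReduced_toWord
  -- reduced words give membership
  have key : ∀ L : List (α × Bool), IsReduced L → L.length ≤ 3 → L.head? = some l →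
      L.getLast? = some l → u * mk L ∈ H := by
    intro L hL hlen hhead hlast
    have hLne : L ≠ [] := by rintro rfl; simp at hhead
    have e1 : IsReduced (u.toWord ++ L) := by
      refine isReduced_append hUr hL ?_
      intro x hx w hw
      rw [he] at hx
      rw [hhead] at hw
      simp only [Option.mem_def, Option.some.injEq] at hx hw
      subst hx; subst hw
      exact hl1
    have e2 : IsReduced (L ++ u.toWord) := by
      refine isReduced_append hL hUr ?_
      intro x hx w hw
      rw [hlast] at hx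
      rw [hU] at hw
      simp only [Option.mem_def, Option.some.injEq, List.head?_cons] at hx hw
      subst hx; subst hw
      exact hl2
    have e3 : IsReduced (u.toWord ++ L ++ u.toWord) := IsReduced.append_overlap e1 e2 hLne
    have n1 : (u * mk L).norm = u.toWord.length + L.length := by
      have h1 : u * mk L = mk (u.toWord ++ L) := by rw [← mul_mk, mk_toWord]
      rw [h1, norm_mk_of_isReduced e1, List.length_append]
    have n2 : (mk L * u).norm = L.length + u.toWord.length := by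
      have h1 : mk L * u = mk (L ++ u.toWord) := by rw [← mul_mk, mk_toWord]
      rw [h1, norm_mk_of_isReduced e2, List.length_append]
    have n3 : (u * mk L * u).norm = u.toWord.length + L.length + u.toWord.length := by
      have h1 : u * mk L * u = mk (u.toWord ++ L ++ u.toWord) := by
        rw [← mul_mk, ← mul_mk, mk_toWord]
      rw [h1, norm_mk_of_isReduced e3, List.length_append, List.length_append]
    refine hH (mk L) (by rw [norm_mk_of_isReduced hL]; exact hlen) ?_ ?_
    · rw [d_one_left, d_one_left, n1, n3, d_def, inv_mul_cancel_left]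
      rfl
    · rw [d_one_left, d_one_left, n3, d_def, mul_assoc, inv_mul_cancel_left, n2]
      show u.toWord.length + _ = _
      omega
  have k1 : u * mk [l] ∈ H := key [l] IsReduced.singleton (by simp) rfl rfl
  have hll : IsReduced ([l] ++ [l]) := by
    refine isReduced_append IsReduced.singleton IsReduced.singleton ?_
    intro x hx w hw
    simp only [Option.mem_def, Option.some.injEq, List.head?_cons,
      List.getLast?_singleton] at hx hw
    subst hx; subst hw
    exact fun _ => rfl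
  have k2 : u * mk ([l] ++ [l]) ∈ H := key ([l] ++ [l]) hll (by simp) rfl rfl
  have k3 : mk [l] ∈ H := by
    have h1 : (u * mk [l])⁻¹ * (u * mk ([l] ++ [l])) = mk [l] := by
      rw [← mul_mk]; group
    rw [← h1]
    exact H.mul_mem (H.inv_mem k1) k2
  have k4 : ∀ y : α × Bool, mk [y] ∈ H := by
    intro y
    by_cases hy : l.1 = y.1 ∧ l.2 ≠ y.2
    · have h1 : mk [y] = (mk [l])⁻¹ := by
        rw [inv_mk]
        have : y = (l.1, !l.2) := by
          ext
          · exact hy.1.symm
          · have h3 := hy.2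
            revert h3
            cases l.2 <;> cases y.2 <;> simp
        rw [this]
        rfl
      rw [h1]
      exact H.inv_mem k3
    · have hly : IsReduced ([l] ++ [y]) := by
        refine isReduced_append IsReduced.singleton IsReduced.singleton ?_
        intro x hx w hw
        simp only [Option.mem_def, Option.some.injEq, List.head?_cons,
          List.getLast?_singleton] at hx hw
        subst hx; subst hw
        intro h1
        by_contra h3
        exact hy ⟨h1, h3⟩
      have hyl : IsReduced ([y] ++ [l]) := by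
        refine isReduced_append IsReduced.singleton IsReduced.singleton ?_
        intro x hx w hw
        simp only [Option.mem_def, Option.some.injEq, List.head?_cons,
          List.getLast?_singleton] at hx hw
        subst hx; subst hw
        intro h1
        by_contra h3
        exact hy ⟨h1.symm, fun h => h3 h.symm⟩
      have hlyl : IsReduced ([l] ++ [y] ++ [l]) := IsReduced.append_overlap hly hyl (by simp)
      have k5 := key ([l] ++ [y] ++ [l]) hlyl (by simp) rfl rfl
      have h1 : mk [y] = (u * mk [l])⁻¹ * (u * mk ([l] ++ [y] ++ [l])) * (mk [l])⁻¹ := by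
        rw [← mul_mk, ← mul_mk]; group
      rw [h1]
      exact H.mul_mem (H.mul_mem (H.inv_mem k1) k5) (H.inv_mem k3)
  rw [eq_top_iff]
  intro g _
  induction g using FreeGroup.induction_on with
  | C1 => exact H.one_mem
  | of a => exact k4 (a, true)
  | inv_of a _ => exact H.inv_mem (k4 (a, true))
  | mul x y hx hy => exact H.mul_mem (hx (Subgroup.mem_top _)) (hy (Subgroup.mem_top _))

/-- some word of bounded length has an empty family -/
lemma exists_empty [Nonempty α] {θ : FreeGroup α →* FreeGroup α}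
    (h2 : 2 ≤ Fintype.card α) {i k M : ℕ}
    (hM : ∀ u, Long θ i k u → (fam θ i k u).Finite ∧ (fam θ i k u).ncard ≤ M)
    {u₀ : FreeGroup α} (hu₀ : u₀ ≠ 1) (hlong : ∀ u z, d 1 u₀ + d u₀ (u₀ * z) = d 1 (u₀ * z) →
      u = u₀ * z → Long θ i k u) {L : ℕ → ℕ} (hL0 : u₀.norm ≤ L 0)
    (hL : ∀ j, 2 * L j + 3 ≤ L (j + 1)) :
    ∃ u : FreeGroup α, u.norm ≤ L M ∧ fam θ i k u = ∅ := by
  classical
  by_contra hcon
  push Not at hcon
  have hLmono : Monotone L := monotone_nat_of_le_succ fun j => by have := hL j; omega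
  have step : ∀ t, t ≤ M + 1 → ∃ u z : FreeGroup α, u = u₀ * z ∧
      d 1 u₀ + d u₀ (u₀ * z) = d 1 (u₀ * z) ∧ u.norm ≤ L t ∧ (fam θ i k u).ncard + t ≤ M := by
    intro t
    induction t with
    | zero =>
      intro _
      refine ⟨u₀, 1, by simp, by simp, hL0, ?_⟩
      have := (hM u₀ (hlong u₀ 1 (by simp) (by simp))).2
      simpa using this
    | succ t ih =>
      intro ht
      obtain ⟨u, z₀, hu, hz₀, hn, hcard⟩ := ih (by omega)
      have hne : (fam θ i k u).Nonempty := by
        apply hcon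
        exact hn.trans (hLmono (by omega))
      have hfin := (hM u (hlong u z₀ hz₀ hu)).1
      have hu1 : u ≠ 1 := by
        rintro rfl
        rw [← hu] at hz₀
        rw [d_self, d_one_left] at hz₀
        apply hu₀
        apply FreeGroup.norm_eq_zero.mp
        omega
      -- the stabiliser
      by_cases hall : ∀ z : FreeGroup α, z.norm ≤ 3 →
          d 1 (u * z) + d (u * z) (u * z * u) = d 1 (u * z * u) →
          d 1 u + d u (u * z * u) = d 1 (u * z * u) → fam θ i k (u * z * u) = fam θ i k u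
      · exfalso
        let H : Subgroup (FreeGroup α) :=
          { carrier := {g | ∀ Y, Tr (iter θ i g) Y ∈ fam θ i k u ↔ Y ∈ fam θ i k u}
            one_mem' := fun Y => by rw [_root_.map_one, Tr_one]
            mul_mem' := fun {a b} ha hb Y => by rw [_root_.map_mul, Tr_mul, ha, hb]
            inv_mem' := fun {a} ha Y => by
              rw [← ha, ← Tr_mul, ← _root_.map_mul, mul_inv_cancel, _root_.map_one, Tr_one] }
        have hH : H = ⊤ := by
          apply generate h2 hu1 H
          intro z hz h3 h4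
          have h5 := hall z hz h3 h4
          have h6 : ∀ Y ∈ fam θ i k u, Tr (iter θ i (u * z))⁻¹ Y ∈ fam θ i k u := by
            intro Y hY
            rw [← h5] at hY
            exact fam_mono (u' := u * z * u) (by simpa using h3) hY
          have hinj : Function.Injective (Tr (iter θ i (u * z))⁻¹) := by
            intro Y Z hYZ
            have := congrArg (Tr (iter θ i (u * z))) hYZ
            rwa [← Tr_mul, ← Tr_mul, mul_inv_cancel, Tr_one, Tr_one] at this
          have h7 : ∀ Y, Tr (iter θ i (u * z))⁻¹ Y ∈ fam θ i k u ↔ Y ∈ fam θ i k u := by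
            intro Y
            refine ⟨fun h => ?_, h6 Y⟩
            have himg : (Tr (iter θ i (u * z))⁻¹) '' (fam θ i k u) = fam θ i k u := by
              apply Set.eq_of_subset_of_ncard_le _ _ hfin
              · rintro _ ⟨Z, hZ, rfl⟩
                exact h6 Z hZ
              · rw [Set.ncard_image_of_injective _ hinj]
            rw [← himg] at h
            obtain ⟨Z, hZ, hZY⟩ := h
            rw [← hinj hZY]
            exact hZ
          have h8 : (u * z)⁻¹ ∈ H := by
            intro Y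
            rw [_root_.map_inv]
            exact h7 Y
          rw [← inv_inv (u * z)]
          exact H.inv_mem h8
        obtain ⟨Y, hY⟩ := hne
        have hY' := hY
        obtain ⟨⟨g, hg, -⟩, hn', hc⟩ := hY
        obtain ⟨p, hp, -⟩ := hlong u z₀ hz₀ hu
        apply hn'
        have hconv : Convex Y := by rw [hg]; exact Tr_convex Hull.convex g
        refine Hull.subset_of_convex hconv (y := p) fun h => ?_
        have h9 : h⁻¹ ∈ H := by rw [hH]; exact Subgroup.mem_top _
        have h10 : Tr (iter θ i h⁻¹) Y ∈ fam θ i k u := (h9 Y).mpr hY'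
        have h11 := h10.2.2 hp
        have h12 : (iter θ i h⁻¹)⁻¹ * p ∈ Y := h11
        rwa [_root_.map_inv, inv_inv] at h12
      · push Not at hall
        obtain ⟨z, hz, h3, h4, h5⟩ := hall
        have hsub : fam θ i k (u * z * u) ⊆ fam θ i k u := by
          intro Y hY
          have := fam_mono (y := 1) (u := u) (u' := u * z * u) (by simpa using h4) hY
          rwa [_root_.map_one, inv_one, Tr_one] at this
        have hlt := Set.ncard_lt_ncard (hsub.ssubset_of_ne h5) hfin
        have e : d u₀ u + d u (u * z * u) = d u₀ (u * z * u) := by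
          rw [← hu] at hz₀
          have t1 := d_tri u₀ u (u * z * u)
          have t2 := d_tri 1 u₀ (u * z * u)
          omega
        refine ⟨u * z * u, u₀⁻¹ * (u * z * u), by group, ?_, ?_, by omega⟩
        · rw [mul_inv_cancel_left]
          rw [← hu] at hz₀
          omega
        · have n1 := norm_mul_le (u * z) u
          have n2 := norm_mul_le u z
          have := hL t
          omega
  obtain ⟨u, -, -, -, -, h⟩ := step (M + 1) le_rfl
  omega

/-- a word which contains high powers of the short words is long at record times -/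
lemma long_of_occ [Nonempty α] {θ : FreeGroup α →* FreeGroup α} (hθ : Function.Injective θ)
    {i k : ℕ} (hi : IsRec θ i) (hk : k ≤ i) {u : FreeGroup α}
    (hu : ∀ g : FreeGroup α, ((∃ a, g = of a) ∨ ∃ a b, a ≠ b ∧ g = of a * of b) →
      ∃ y, d 1 y + d y (y * g ^ (16 * Fintype.card α + 8)) +
        d (y * g ^ (16 * Fintype.card α + 8)) u = d 1 u) : Long θ i k u := by
  have hσ := iter_injective θ hθ i
  set Q := 16 * Fintype.card α + 8 with hQ
  obtain ⟨g, hg, -, hglen⟩ := star hσ
  obtain ⟨y, hy⟩ := hu g hg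
  have h1 : Q * lam (iter θ i) ≤ d (T (iter θ i) y) (T (iter θ i) (y * g ^ Q)) := by
    rw [d_T_eq, inv_mul_cancel_left, _root_.map_pow]
    exact (Nat.mul_le_mul_left Q hglen).trans (mul_tl_le _ _ _)
  have h2 : Btw y (y * g ^ Q) u := by
    have t1 := d_tri 1 y u
    have t2 := d_tri y (y * g ^ Q) u
    unfold Btw
    omega
  have h3 : Btw 1 y u := by
    have t1 := d_tri 1 y u
    have t2 := d_tri y (y * g ^ Q) u
    unfold Btw
    omega
  have h4 := d_T_superadd hσ h2
  have h5 := d_T_superadd hσ h3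
  have h6 := Lam_le (iter θ i)
  have h7 := Lam_le (iter θ k)
  have h8 : 1 ≤ lam (iter θ i) := lam_pos hσ
  have h9 : lam (iter θ k) ≤ lam (iter θ i) := hi k hk
  set lm := lam (iter θ i) with hlm
  set r := Fintype.card α with hr
  have h6' : Lam (iter θ i) ≤ 2 * (r * lm) := by
    refine h6.trans ?_
    have : r * 1 ≤ r * lm := Nat.mul_le_mul_left r h8
    rw [Nat.mul_add]
    omega
  have h7' : Lam (iter θ k) ≤ 2 * (r * lm) := by
    refine h7.trans ?_
    have h10 : r * 1 ≤ r * lm := Nat.mul_le_mul_left r h8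
    have h11 : r * lam (iter θ k) ≤ r * lm := Nat.mul_le_mul_left r h9
    rw [Nat.mul_add]
    omega
  have hD : 8 * (r * lm) + 8 * lm ≤ d (T (iter θ i) 1) (T (iter θ i) u) := by
    have : Q * lm = 16 * (r * lm) + 8 * lm := by rw [hQ]; ring
    omega
  set A := Lam (iter θ i) + 1 with hA
  set B := Lam (iter θ k) + 2 * lam (iter θ k) + 1 with hB
  obtain ⟨p, hp1, hp2⟩ := d_interp (T (iter θ i) 1) (T (iter θ i) u) A (by omega)
  obtain ⟨q, hq1, hq2⟩ := d_interp p (T (iter θ i) u) (2 * B) (by omega)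
  obtain ⟨m, hm1, hm2⟩ := d_interp p q B (by omega)
  have bp1 : Btw (T (iter θ i) 1) p (T (iter θ i) u) := by unfold Btw; omega
  have bq0 : Btw p q (T (iter θ i) u) := by unfold Btw; omega
  have bq1 : Btw (T (iter θ i) 1) q (T (iter θ i) u) := bp1.trans_right bq0
  have bq2 : Btw (T (iter θ i) 1) p q := bp1.trans_right' bq0
  have bq3 : d (T (iter θ i) 1) p + d p q = d (T (iter θ i) 1) q := bq2
  refine ⟨p, core.mem hσ bp1 (by omega) (by omega), q, core.mem hσ bq1 (by omega) (by omega), m,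
    ?_, by omega, by omega⟩
  unfold Btw
  omega

theorem exists_word {θ : FreeGroup α →* FreeGroup α} (hθ : Function.Injective θ)
    (hns : ¬ Function.Surjective θ) (h2 : 2 ≤ Fintype.card α) :
    ∃ w : FreeGroup α, ∀ i, IsRec θ i → ∀ g : FreeGroup α,
      ∃ v ∈ core (iter θ i) 1 w, g⁻¹ * v ∉ Hull (iter θ (i + 1)) := by
  classical
  have hne : Nonempty α := Fintype.card_pos_iff.mp (by omega)
  have : Nontrivial α := Fintype.one_lt_card_iff_nontrivial.1 (by omega)
  obtain ⟨a₀, b₀, hab⟩ := exists_pair_ne α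
  obtain ⟨M, hM⟩ := fam_card hθ h2
  set Q := 16 * Fintype.card α + 8 with hQ
  -- the first word
  obtain ⟨u₀, -, hu₀, -, hS₀⟩ := exists_word_containing h2 a₀ b₀ hab
    ((Finset.univ.image fun a : α => of a ^ Q) ∪
      (Finset.univ.image fun x : α × α => (of x.1 * of x.2) ^ Q))
  have hocc : ∀ g : FreeGroup α, ((∃ a, g = of a) ∨ ∃ a b, a ≠ b ∧ g = of a * of b) →
      ∃ y, d 1 y + d y (y * g ^ Q) + d (y * g ^ Q) u₀ = d 1 u₀ := by
    rintro g (⟨a, rfl⟩ | ⟨a, b, -, rfl⟩)
    · apply hS₀
      apply Finset.mem_union_left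
      exact Finset.mem_image.mpr ⟨a, Finset.mem_univ _, rfl⟩
    · apply hS₀
      apply Finset.mem_union_right
      exact Finset.mem_image.mpr ⟨(a, b), Finset.mem_univ _, rfl⟩
  -- the scales
  obtain ⟨L, hL0, hL⟩ : ∃ L : ℕ → ℕ, u₀.norm ≤ L 0 ∧ ∀ j, 2 * L j + 3 ≤ L (j + 1) :=
    ⟨fun j => Nat.rec u₀.norm (fun _ l => 2 * l + 3) j, le_rfl, fun j => le_rfl⟩
  have hfin : {u : FreeGroup α | u.norm ≤ L M}.Finite := by
    have := finite_ball (1 : FreeGroup α) (L M)
    simpa only [d_one_left] using this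
  obtain ⟨w, -, -, -, hw⟩ := exists_word_containing h2 a₀ b₀ hab hfin.toFinset
  refine ⟨w, fun i hi g => ?_⟩
  have key : ∀ k ≤ i + 1, ∀ g, core (iter θ i) 1 w ⊆ Tr g (Hull (iter θ k)) →
      Hull (iter θ i) ⊆ Tr g (Hull (iter θ k)) := by
    intro k
    induction k with
    | zero =>
      intro _ g _ v _
      show g⁻¹ * v ∈ Hull (MonoidHom.id (FreeGroup α))
      rw [Hull.id_eq]
      exact Set.mem_univ _
    | succ k ih =>
      intro hk g hc
      by_contra hcon
      have hsub : Hull (iter θ i) ⊆ Tr g (Hull (iter θ k)) := by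
        apply ih (by omega)
        intro v hv
        exact Hull.iter_antitone θ (Nat.le_succ k) (hc hv)
      have hY : Tr g (Hull (iter θ (k + 1))) ∈ fam θ i k w := ⟨⟨g, rfl, hsub⟩, hcon, hc⟩
      obtain ⟨u, hu, hempty⟩ := exists_empty h2 (hM i k) hu₀
        (fun u z hz huz => by
          apply long_of_occ hθ hi (by omega)
          intro g hg
          obtain ⟨y, hy⟩ := hocc g hg
          refine ⟨y, ?_⟩
          change d 1 y + d y (y * g ^ Q) + d (y * g ^ Q) u = d 1 u
          rw [← huz] at hz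
          have t1 := d_tri 1 y u
          have t2 := d_tri y (y * g ^ Q) u
          have t3 := d_tri (y * g ^ Q) u₀ u
          omega) hL0 hL
      obtain ⟨y, hy⟩ := hw u (by simpa using hu)
      have := fam_mono hy hY
      rw [hempty] at this
      exact this
  by_contra hcon
  push Not at hcon
  obtain ⟨v, hv, hv'⟩ := P8 hθ hns h2 i g
  exact hv' (key (i + 1) le_rfl g (fun v hv => hcon v hv) hv)

end LemmaB

end Pool.Agent.AscQM
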