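import Pool.Agent.Lib.MP_fa6f87_al.Base
import Pool.Agent.Lib.MP_fa6f87_al.Words

/-!
Axes of `θ^i (c b)` do not overlap for a long time.
-/

namespace Pool.Agent.AscQM

open FreeGroup

section Line

variable {α : Type*} [DecidableEq α]

lemma OnAxis.zpow_smul' {h z : FreeGroup α} (hz : OnAxis h z) (n : ℤ) : OnAxis h (h ^ n * z) :=
  hz.pow_smul n

/-- an axis has only two directions at each of its points -/
lemma OnAxis.two_dirs {h z p : FreeGroup α} (hh : h ≠ 1) (hz : OnAxis h z) (hp : OnAxis h p)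
    (hne : p ≠ z) : ¬ Btw p z (h * z) ∨ ¬ Btw p z (h⁻¹ * z) := by
  by_contra hcon
  push Not at hcon
  obtain ⟨h1, h2⟩ := hcon
  have h3 : Btw z (h * z) (h * p) := by
    have := (h2.mul_left h).symm
    rwa [mul_inv_cancel_left] at this
  have h4 := (h1.join h3 (mul_ne_self hh z).symm).1
  have h5 := hp.tl_eq
  have h6 := hz.tl_eq
  have h7 : 0 < d p z := one_le_d hne
  unfold Btw at h3 h4
  rw [d_mul_left] at h3
  omega

/-- an axis is a line -/
lemma OnAxis.line {h a b c : FreeGroup α} (hh : h ≠ 1) (ha : OnAxis h a) (hb : OnAxis h b)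
    (hc : OnAxis h c) : Btw a b c ∨ Btw b a c ∨ Btw a c b := by
  obtain ⟨m, h1, h2, h3⟩ := exists_med a b c
  have hm : OnAxis h m := ha.convex hb h1
  by_cases ea : m = a
  · subst ea; right; left; exact h2
  by_cases eb : m = b
  · subst eb; left; exact h3
  by_cases ec : m = c
  · subst ec; right; right; exact h1
  exfalso
  have tr : ∀ {p q z : FreeGroup α}, ¬ Btw p m z → ¬ Btw q m z → ¬ Btw p m q :=
    fun hp hq h => (h.or _).elim hp fun h' => hq h'.symm
  rcases hm.two_dirs hh ha (Ne.symm ea) with da | da <;>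
    rcases hm.two_dirs hh hb (Ne.symm eb) with db | db <;>
    rcases hm.two_dirs hh hc (Ne.symm ec) with dc | dc
  · exact tr da db h1
  · exact tr da db h1
  · exact tr da dc h3
  · exact tr db dc h2
  · exact tr db dc h2
  · exact tr da dc h3
  · exact tr da db h1
  · exact tr da db h1

/-- points of the axis close to the middle of a segment of the axis are on the segment -/
lemma OnAxis.btw_of_near {h p q m v : FreeGroup α} (hh : h ≠ 1) (hp : OnAxis h p)
    (hq : OnAxis h q) (hv : OnAxis h v) (hm : Btw p m q) (h1 : d v m ≤ d p m)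
    (h2 : d v m ≤ d m q) : Btw p v q := by
  rcases hp.line hh hv hq with h3 | h3 | h3
  · exact h3
  · -- `p` between `v` and `q`
    have h4 : Btw v p m := h3.trans_right' hm
    have : d v p = 0 := by unfold Btw at h4; omega
    rw [d_eq_zero.mp this]; exact btw_left _ _
  · have h4 : Btw v q m := h3.symm.trans_right' hm.symm
    have : d v q = 0 := by
      unfold Btw at h4
      rw [d_comm q m] at h4
      omega
    rw [d_eq_zero.mp this]; exact btw_right _ _

/-- some translate of a point of the axis is close to a given point of the axis -/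
lemma OnAxis.exists_near {h u m : FreeGroup α} (hh : h ≠ 1) (hu : OnAxis h u)
    (hm : OnAxis h m) : ∃ k : ℤ, d (h ^ k * u) m ≤ tl h := by
  classical
  have hex : ∃ n : ℕ, ∃ k : ℤ, d (h ^ k * u) m = n := ⟨_, 0, rfl⟩
  obtain ⟨k, hk⟩ := Nat.find_spec hex
  have hmin : ∀ k' : ℤ, d (h ^ k * u) m ≤ d (h ^ k' * u) m := by
    intro k'
    rw [hk]; exact Nat.find_min' hex ⟨k', rfl⟩
  refine ⟨k, ?_⟩
  by_contra hcon
  push Not at hcon
  have hpos := tl_pos hh
  set v := h ^ k * u with hv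
  have hvax : OnAxis h v := hu.pow_smul k
  have h1 := hmin (k + 1)
  have h2 := hmin (k - 1)
  have e1 : h ^ (k + 1) * u = h * v := by rw [hv, zpow_add, zpow_one, ← mul_assoc]; group
  have e2 : h ^ (k - 1) * u = h⁻¹ * v := by rw [hv, zpow_sub, zpow_one, ← mul_assoc]; group
  rw [e1] at h1
  rw [e2] at h2
  have t1 := hvax.tl_eq
  have t2 : d v (h⁻¹ * v) = tl h := by rw [hvax.inv.tl_eq, tl_inv]
  -- `m` is in one of the two directions
  have hb : Btw (h⁻¹ * v) v (h * v) := hvax
  have hvm : v ≠ m := by rintro e; rw [e] at hcon; simp at hcon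
  have hne : m ≠ v := Ne.symm hvm
  rcases hvax.line hh hvax.smul hm with h3 | h3 | h3
  · unfold Btw at h3; omega
  · -- v between h v and m
    have hinv : OnAxis h (h⁻¹ * v) := by
      have := hvax.pow_smul (-1)
      rwa [zpow_neg_one] at this
    rcases hvax.line hh hinv hm with h4 | h4 | h4
    · unfold Btw at h4; omega
    · rcases hvax.two_dirs hh hm hne with h5 | h5
      · exact h5 h3.symm
      · exact h5 h4.symm
    · unfold Btw at h4
      omega
  · unfold Btw at h3
    omega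

end Line

section Lower

variable {α β : Type*} [DecidableEq α] [Fintype α] [DecidableEq β] {σ : FreeGroup α →* FreeGroup β}

omit [DecidableEq α] [Fintype α] in
lemma OnAxis.d_pow_le {h z : FreeGroup β} (hz : OnAxis h z) (y : FreeGroup β) (N : ℕ) :
    d y (h ^ N * y) ≤ N * tl h + 2 * d y z := by
  have h1 := d_tri y z (h ^ N * y)
  have h2 := d_tri z (h ^ N * z) (h ^ N * y)
  have h3 := hz.pow_dist N
  rw [d_mul_left, d_comm z y] at h2
  rw [hz.tl_eq] at h3
  omega

/-- lower bound for the translation length -/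
lemma tl_lower (hσ : Function.Injective σ) {c x y : FreeGroup α} (hc : OnAxis c 1)
    (h : d 1 x + d x y + d y c = d 1 c) : d (T σ x) (T σ y) ≤ tl (σ c) + 6 * Lam σ := by
  have t1 := d_tri 1 x c
  have t2 := d_tri x y c
  have b1 : Btw 1 x c := by unfold Btw; omega
  have b2 : Btw x y c := by unfold Btw; omega
  have s1 := d_T_superadd hσ b1
  have s2 := d_T_superadd hσ b2
  have s3 : ∀ N : ℕ, (N + 1) * d (T σ 1) (T σ c) ≤ d (T σ 1) (T σ (c ^ (N + 1))) +
      2 * Lam σ * N := by
    intro N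
    induction N with
    | zero => simp
    | succ N ih =>
      have hb : Btw 1 (c ^ (N + 1)) (c ^ (N + 2)) := by
        have e1 := hc.pow_dist (N + 1)
        have e2 := hc.pow_dist (N + 2)
        rw [mul_one, mul_one] at e1 e2
        have e3 : d (c ^ (N + 1)) (c ^ (N + 2)) = d 1 c := by
          rw [pow_succ c (N + 1)]
          have := d_mul_left (c ^ (N + 1)) 1 c
          rwa [mul_one] at this
        unfold Btw
        rw [e1, e2, e3]; ring
      have s4 := d_T_superadd hσ hb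
      have e4 : d (T σ (c ^ (N + 1))) (T σ (c ^ (N + 2))) = d (T σ 1) (T σ c) := by
        rw [d_T_eq, d_T_eq]
        congr 3
        rw [pow_succ c (N + 1)]; group
      rw [e4] at s4
      have : (N + 1 + 1) * d (T σ 1) (T σ c) = (N + 1) * d (T σ 1) (T σ c) +
          d (T σ 1) (T σ c) := by ring
      rw [this]
      have : 2 * Lam σ * (N + 1) = 2 * Lam σ * N + 2 * Lam σ := by ring
      rw [this]
      linarith
  obtain ⟨z, hz⟩ := exists_onAxis (σ c)
  by_contra hcon
  push Not at hcon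
  set N := 2 * d (bp σ) z with hN
  have s5 := s3 N
  have s6 := hz.d_pow_le (bp σ) (N + 1)
  have e5 : T σ (c ^ (N + 1)) = σ c ^ (N + 1) * bp σ := by
    unfold T; rw [_root_.map_pow]
  rw [e5, T_one] at s5
  have s7 : d (T σ x) (T σ y) ≤ d (T σ 1) (T σ c) + 4 * Lam σ := by omega
  rw [T_one] at s7
  nlinarith

/-- the special short words -/
def IsGen (g : FreeGroup α) : Prop := (∃ a, g = of a) ∨ ∃ a b, a ≠ b ∧ g = of a * of b

omit [DecidableEq α] in
lemma finite_isGen : {g : FreeGroup α | IsGen g}.Finite := by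
  have h1 : (Set.range (of : α → FreeGroup α)).Finite := Set.finite_range _
  have h2 : (Set.range (fun p : α × α => of p.1 * of p.2)).Finite := Set.finite_range _
  refine (h1.union h2).subset ?_
  rintro g (⟨a, rfl⟩ | ⟨a, b, -, rfl⟩)
  · exact Or.inl ⟨a, rfl⟩
  · exact Or.inr ⟨(a, b), rfl⟩

omit [Fintype α] in
lemma onAxis_one_iff {g : FreeGroup α} (h : (g * g).norm = 2 * g.norm) : OnAxis g 1 := by
  unfold OnAxis Btw
  rw [mul_one, mul_one, d_def, d_def, d_def, inv_inv, mul_one, inv_one, one_mul, h]; ring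

omit [Fintype α] in
lemma IsGen.onAxis {g : FreeGroup α} (hg : IsGen g) : OnAxis g 1 := by
  apply onAxis_one_iff
  rcases hg with ⟨a, rfl⟩ | ⟨a, b, -, rfl⟩
  · have e1 : (of a * of a : FreeGroup α) = mk [(a, true), (a, true)] := rfl
    rw [norm_of, e1]
    unfold FreeGroup.norm
    rw [toWord_mk]; simp [reduce]
  · have e1 : (of a * of b * (of a * of b) : FreeGroup α) =
      mk [(a, true), (b, true), (a, true), (b, true)] := rfl
    have e2 : (of a * of b : FreeGroup α) = mk [(a, true), (b, true)] := rfl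
    rw [e1, e2]
    unfold FreeGroup.norm
    rw [toWord_mk, toWord_mk]; simp [reduce]

/-- words which contain all high powers of the special words, and the word `w` -/
structure Good (w : FreeGroup α) (Q : ℕ) (c : FreeGroup α) : Prop where
  comm : c ∈ commutator (FreeGroup α)
  ne : c ≠ 1
  ax : OnAxis c 1
  w : ∃ x, d 1 x + d x (x * w) + d (x * w) c = d 1 c
  g : ∀ g, IsGen g → ∃ x, d 1 x + d x (x * g ^ Q) + d (x * g ^ Q) c = d 1 c

lemma exists_good (h2 : 2 ≤ Fintype.card α) (w : FreeGroup α) (Q : ℕ) : ∃ c, Good w Q c := by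
  classical
  obtain ⟨a, b, hab⟩ := Fintype.one_lt_card_iff.mp (show 1 < Fintype.card α by omega)
  obtain ⟨c, h1, h3, h4, h5⟩ := exists_word_containing h2 a b hab
    (insert w ((finite_isGen (α := α)).toFinset.image fun g => g ^ Q))
  refine ⟨c, h1, h3, h4, h5 w (Finset.mem_insert_self _ _), fun g hg => h5 _ ?_⟩
  refine Finset.mem_insert_of_mem (Finset.mem_image_of_mem _ ?_)
  simpa using hg

omit [Fintype α] in
lemma onAxis_of_row {c x y : FreeGroup α} (hc : OnAxis c 1)
    (h : d 1 x + d x y + d y c = d 1 c) : OnAxis c x ∧ OnAxis c y := by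
  have t1 := d_tri 1 x c
  have t2 := d_tri x y c
  have t3 := d_tri 1 x y
  have t4 := d_tri 1 y c
  have hc' : OnAxis c c := by
    have := hc.smul
    rwa [mul_one] at this
  exact ⟨hc.convex hc' (by unfold Btw; omega), hc.convex hc' (by unfold Btw; omega)⟩

omit [DecidableEq α] in
lemma d_T_pow [DecidableEq α] {g : FreeGroup α} (hg : OnAxis (σ g) (bp σ)) (x : FreeGroup α)
    (Q : ℕ) : d (T σ x) (T σ (x * g ^ Q)) = Q * tl (σ g) := by
  rw [d_T_eq]
  have : x⁻¹ * (x * g ^ Q) = g ^ Q := by group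
  rw [this, _root_.map_pow, hg.pow_dist, hg.tl_eq]

lemma Good.lam_le [Nonempty α] (hσ : Function.Injective σ) {w : FreeGroup α} {Q : ℕ}
    {c : FreeGroup α} (hc : Good w Q c) (hQ : 12 * Fintype.card α + 1 ≤ Q) :
    lam σ ≤ tl (σ c) := by
  obtain ⟨g, hg, hgax, hgl⟩ := star hσ
  obtain ⟨x, hx⟩ := hc.g g hg
  have h1 := tl_lower hσ hc.ax hx
  rw [d_T_pow hgax] at h1
  have h2 := Lam_le σ
  have h3 := lam_pos hσ
  have h4 : Q * lam σ ≤ Q * tl (σ g) := Nat.mul_le_mul_left _ hgl
  have h5 : (12 * Fintype.card α + 1) * lam σ ≤ Q * lam σ := Nat.mul_le_mul_right _ hQ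
  have h6 : Fintype.card α * (lam σ + 1) ≤ 2 * (Fintype.card α * lam σ) := by
    have : Fintype.card α * 1 ≤ Fintype.card α * lam σ := Nat.mul_le_mul_left _ h3
    nlinarith
  nlinarith

/-- the total exponent -/
def expo : FreeGroup α →* Multiplicative ℤ := FreeGroup.lift fun _ => Multiplicative.ofAdd 1

omit [DecidableEq α] [Fintype α] in
lemma expo_comm {c : FreeGroup α} (hc : c ∈ commutator (FreeGroup α)) : expo c = 1 :=
  Abelianization.commutator_subset_ker expo hc

omit [DecidableEq α] [Fintype α] in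
lemma expo_gen {g : FreeGroup α} (hg : IsGen g) {n : ℤ} (h : expo g ^ n = 1) : n = 0 := by
  rcases hg with ⟨a, rfl⟩ | ⟨a, b, -, rfl⟩
  · have e : expo (of a) = Multiplicative.ofAdd (1 : ℤ) := by simp [expo]
    rw [e, ← ofAdd_zsmul, ← ofAdd_zero] at h
    have := Multiplicative.ofAdd.injective h
    simpa using this
  · have e : expo (of a * of b) = Multiplicative.ofAdd (2 : ℤ) := by
      simp only [expo, _root_.map_mul, lift_apply_of, ← ofAdd_add]
      norm_num
    rw [e, ← ofAdd_zsmul, ← ofAdd_zero] at h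
    have := Multiplicative.ofAdd.injective h
    simpa using this

lemma Good.not_commute [Nonempty α] (hσ : Function.Injective σ) {w : FreeGroup α} {Q : ℕ}
    {c c' : FreeGroup α} (hc : Good w Q c) (hc' : c' ≠ 1)
    (hQ : c'.norm + 4 * Fintype.card α + 3 ≤ Q) (φ : FreeGroup β) :
    ¬ Commute (σ c) (φ * σ c' * φ⁻¹) := by
  intro hcomm
  obtain ⟨g, hg, hgax, hgl⟩ := star hσ
  replace hg : IsGen g := hg
  obtain ⟨x, hx⟩ := hc.g g hg
  obtain ⟨ax, ay⟩ := onAxis_of_row hc.ax hx
  set y := x * g ^ Q with hy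
  set t := tl (σ g) with ht
  have hD : d (T σ x) (T σ y) = Q * t := d_T_pow hgax x Q
  have h2 := Lam_le σ
  have h3 := lam_pos hσ
  have hinj : ∀ {z : FreeGroup α}, z ≠ 1 → σ z ≠ 1 := by
    intro z hz he
    exact hz (hσ (by rw [he, _root_.map_one]))
  have hne : σ c ≠ 1 := hinj hc.ne
  have hBne : φ * σ c' * φ⁻¹ ≠ 1 := by
    intro h
    have : σ c' = 1 := by
      have h' := congrArg (fun z => φ⁻¹ * z * φ) h
      simpa [mul_assoc] using h'
    exact hinj hc' this
  have hg1 : g ≠ 1 := by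
    intro h1
    have h4 : tl (1 : FreeGroup β) = 0 := by
      have := tl_le (1 : FreeGroup β) 1
      simpa using this
    have h5 : t = 0 := by rw [ht, h1, _root_.map_one, h4]
    omega
  have hEne : σ (x * g * x⁻¹) ≠ 1 := by
    apply hinj
    intro h
    apply hg1
    have h' := congrArg (fun z => x⁻¹ * z * x) h
    simpa [mul_assoc] using h'
  have hlamt : lam σ ≤ t := hgl
  -- arithmetic
  have hB : tl (φ * σ c' * φ⁻¹) ≤ c'.norm * lam σ := by
    rw [tl_conj]; exact tl_map_le σ c'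
  have hE : tl (σ (x * g * x⁻¹)) = t := by
    rw [_root_.map_mul, _root_.map_mul, _root_.map_inv, tl_conj]
  have a1 : c'.norm * lam σ ≤ c'.norm * t := Nat.mul_le_mul_left _ hlamt
  have a2 : Fintype.card α * (lam σ + 1) ≤ Fintype.card α * (2 * t) :=
    Nat.mul_le_mul_left _ (by omega)
  have a3 : (c'.norm + 4 * Fintype.card α + 3) * t ≤ Q * t := Nat.mul_le_mul_right _ hQ
  have a4 : c'.norm * lam σ + t + 2 * Lam σ + 2 ≤ Q * t := by
    have : (c'.norm + 4 * Fintype.card α + 3) * t = c'.norm * t +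
        2 * (Fintype.card α * (2 * t)) + 3 * t := by ring
    omega
  have a5 : 2 * Lam σ + 2 ≤ d (T σ x) (T σ y) := by rw [hD]; omega
  obtain ⟨v₁, hv1, hv1'⟩ := d_interp (T σ x) (T σ y) (Lam σ + 1) (by omega)
  obtain ⟨v₂, hv2, hv2'⟩ := d_interp (T σ x) (T σ y) (d (T σ x) (T σ y) - (Lam σ + 1))
    (by omega)
  have b1 : Btw (T σ x) v₁ (T σ y) := by unfold Btw; omega
  have b2 : Btw (T σ x) v₂ (T σ y) := by unfold Btw; omega
  have c1 : v₁ ∈ core σ x y := core.mem hσ b1 (by omega) (by omega)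
  have c2 : v₂ ∈ core σ x y := core.mem hσ b2 (by omega) (by omega)
  have hdist : d v₁ v₂ = Q * t - 2 * Lam σ - 2 := by
    have := b1.dist b2 (by omega)
    omega
  have o1 := core.subset_axis hσ ax ay c1
  have o2 := core.subset_axis hσ ax ay c2
  have gx : OnAxis (x * g * x⁻¹) x := by
    have := hg.onAxis.mul_pow x
    rwa [mul_one] at this
  have gy : OnAxis (x * g * x⁻¹) y := by
    have := gx.pow_smul (Q : ℤ)
    have e : (x * g * x⁻¹) ^ (Q : ℤ) * x = y := by
      rw [zpow_natCast, conj_pow, hy]; group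
    rwa [e] at this
  have o3 := core.subset_axis hσ gx gy c1
  have o4 := core.subset_axis hσ gx gy c2
  have o5 := onAxis_of_commute hne hBne hcomm o1
  have o6 := onAxis_of_commute hne hBne hcomm o2
  have hcomm2 := commute_of_overlap hBne hEne o5 o6 o3 o4 (by rw [hE, hdist]; omega)
  obtain ⟨s, u, hs, hu, e1⟩ := exists_zpow_eq_of_commute hne hBne hcomm
  obtain ⟨p, q, hp, hq, e2⟩ := exists_zpow_eq_of_commute hBne hEne hcomm2
  have e3 : σ (c ^ (s * p)) = σ ((x * g * x⁻¹) ^ (q * u)) := by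
    rw [_root_.map_zpow, _root_.map_zpow, zpow_mul, e1, ← zpow_mul, mul_comm u p, zpow_mul, e2,
      ← zpow_mul]
  have e4 := congrArg expo (hσ e3)
  rw [_root_.map_zpow, _root_.map_zpow, expo_comm hc.comm, one_zpow, _root_.map_mul,
    _root_.map_mul, _root_.map_inv, mul_inv_cancel_comm] at e4
  have := expo_gen hg e4.symm
  rcases mul_eq_zero.mp this with h | h
  · exact hq h
  · exact hu h

end Lower

section NoRev

variable {α : Type*} [DecidableEq α] [Fintype α] {θ : FreeGroup α →* FreeGroup α}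

omit [DecidableEq α] [Fintype α] in
lemma conj_ne_one {h : FreeGroup α} (hh : h ≠ 1) (φ : FreeGroup α) : φ * h * φ⁻¹ ≠ 1 := by
  intro h1
  apply hh
  have h' := congrArg (fun z => φ⁻¹ * z * φ) h1
  simpa [mul_assoc] using h'

/-- a long overlap with the axis of a later iterate is impossible -/
lemma long_overlap (hθ : Function.Injective θ) {i j : ℕ} (hij : i < j) {w : FreeGroup α}
    (hw : ∀ g : FreeGroup α, ∃ v ∈ core (iter θ i) 1 w, g⁻¹ * v ∉ Hull (iter θ (i + 1)))
    {Q : ℕ} {c : FreeGroup α} (hc : Good w Q c) (hlam : lam (iter θ i) ≤ tl (iter θ i c))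
    {c' : FreeGroup α} (hc' : c' ≠ 1) {P : ℕ} (hP : 2 * w.norm + 2 ≤ P) {φ p q : FreeGroup α}
    (hp : OnAxis (φ * iter θ i c * φ⁻¹) p) (hq : OnAxis (φ * iter θ i c * φ⁻¹) q)
    (hp' : OnAxis (iter θ j c') p) (hq' : OnAxis (iter θ j c') q)
    (hd : P * tl (iter θ i c) ≤ d p q) : False := by
  have hσ : Function.Injective (iter θ i) := iter_injective θ hθ i
  set σ := iter θ i with hσd
  set A := φ * σ c * φ⁻¹ with hA
  set t := tl (σ c) with ht
  have hσc : σ c ≠ 1 := fun he => hc.ne (hσ (by rw [he, _root_.map_one]))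
  have hA1 : A ≠ 1 := conj_ne_one hσc φ
  have htA : tl A = t := tl_conj _ _
  obtain ⟨x, hx⟩ := hc.w
  obtain ⟨ax, ay⟩ := onAxis_of_row hc.ax hx
  obtain ⟨v₀, hv₀, -⟩ := hw 1
  have hax : ∀ v ∈ core σ 1 w, OnAxis A (φ * (σ x * v)) := by
    intro v hv
    have h1 : σ x * v ∈ core σ (x * 1) (x * w) := (core.smul x).mpr hv
    rw [mul_one] at h1
    exact (core.subset_axis hσ ax ay h1).mul_pow φ
  have hPt : (w.norm + 1) * t + (w.norm + 1) * t ≤ d p q := by
    have : (2 * w.norm + 2) * t ≤ P * t := Nat.mul_le_mul_right _ hP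
    nlinarith
  obtain ⟨m, hm1, hm2⟩ := d_interp p q ((w.norm + 1) * t) (by omega)
  have hm : Btw p m q := by unfold Btw; omega
  have hmA : OnAxis A m := hp.convex hq hm
  obtain ⟨k, hk⟩ := (hax v₀ hv₀).exists_near hA1 hmA
  obtain ⟨v, hv, hvn⟩ := hw (A ^ k * (φ * σ x))⁻¹
  apply hvn
  have e1 : (A ^ k * (φ * σ x))⁻¹⁻¹ * v = A ^ k * (φ * (σ x * v)) := by group
  rw [e1]
  set u := A ^ k * (φ * (σ x * v)) with hu
  have huA : OnAxis A u := (hax v hv).pow_smul k
  have hdu : d u (A ^ k * (φ * (σ x * v₀))) = d v v₀ := by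
    rw [hu, d_mul_left, d_mul_left, d_mul_left]
  have hvv : d v v₀ ≤ w.norm * t := by
    have h1 : Btw (T σ 1) v (T σ w) := core.btw hv
    have h3 : Btw (T σ 1) v₀ (T σ w) := core.btw hv₀
    have h4 : d v v₀ ≤ d (T σ 1) (T σ w) := by
      rcases le_total (d (T σ 1) v) (d (T σ 1) v₀) with hle | hle
      · have := h1.dist h3 hle
        unfold Btw at h1 h3
        omega
      · have := h3.dist h1 hle
        rw [d_comm v₀ v] at this
        unfold Btw at h1 h3
        omega
    have h5 := d_T_le σ 1 w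
    rw [d_one_left] at h5
    have h6 : w.norm * lam σ ≤ w.norm * t := Nat.mul_le_mul_left _ hlam
    omega
  have hum : d u m ≤ (w.norm + 1) * t := by
    have := d_tri u (A ^ k * (φ * (σ x * v₀))) m
    rw [htA] at hk
    have e : (w.norm + 1) * t = w.norm * t + t := by ring
    omega
  have hbtw : Btw p u q := OnAxis.btw_of_near hA1 hp hq huA hm (by omega) (by omega)
  have h1 : OnAxis (iter θ j c') u := hp'.convex hq' hbtw
  have h3 : u ∈ Hull (iter θ j) := Hull.of_onAxis (iter_injective θ hθ j) hc' h1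
  exact Hull.iter_antitone θ hij h3

/-- elements with commuting powers of conjugates cannot come from different levels -/
lemma not_commute_levels (hθ : Function.Injective θ)
    (hrec : ∀ N, ∃ i ≥ N, IsRec θ i) {w : FreeGroup α}
    (hw : ∀ i, IsRec θ i → ∀ g : FreeGroup α, ∃ v ∈ core (iter θ i) 1 w,
      g⁻¹ * v ∉ Hull (iter θ (i + 1)))
    {Q Q' : ℕ} {c c' : FreeGroup α} (hc : Good w Q c) (hc' : Good w Q' c')
    (hlam : ∀ i, lam (iter θ i) ≤ tl (iter θ i c')) {i j : ℕ} (hij : j < i)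
    (φ : FreeGroup α) : ¬ Commute (φ * iter θ i c * φ⁻¹) (iter θ j c') := by
  intro hcomm
  obtain ⟨R, hR, hRrec⟩ := hrec j
  obtain ⟨n, rfl⟩ : ∃ n, R = j + n := ⟨R - j, by omega⟩
  -- apply `θ ^ n`
  set ψ := iter θ n φ with hψ
  have h1 : Commute (ψ * iter θ (i + n) c * ψ⁻¹) (iter θ (j + n) c') := by
    have h3 := hcomm.map (iter θ n)
    have e1 : iter θ n (φ * iter θ i c * φ⁻¹) = ψ * iter θ (i + n) c * ψ⁻¹ := by
      rw [_root_.map_mul, _root_.map_mul, _root_.map_inv, ← iter_add, Nat.add_comm n i]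
    have e2 : iter θ n (iter θ j c') = iter θ (j + n) c' := by
      rw [← iter_add, Nat.add_comm n j]
    rwa [e1, e2] at h3
  have hne : ∀ k {z : FreeGroup α}, z ≠ 1 → iter θ k z ≠ 1 := fun k z hz he =>
    hz (iter_injective θ hθ k (by rw [he, _root_.map_one]))
  -- conjugate back
  set B := ψ⁻¹ * iter θ (j + n) c' * ψ⁻¹⁻¹ with hB
  have h3 : Commute (iter θ (i + n) c) B := by
    have h4 : ψ⁻¹ * (ψ * iter θ (i + n) c * ψ⁻¹ * iter θ (j + n) c') * ψ =
      ψ⁻¹ * (iter θ (j + n) c' * (ψ * iter θ (i + n) c * ψ⁻¹)) * ψ := by rw [h1.eq]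
    show iter θ (i + n) c * B = B * iter θ (i + n) c
    calc iter θ (i + n) c * B = ψ⁻¹ * (ψ * iter θ (i + n) c * ψ⁻¹ * iter θ (j + n) c') * ψ := by
          rw [hB]; group
      _ = ψ⁻¹ * (iter θ (j + n) c' * (ψ * iter θ (i + n) c * ψ⁻¹)) * ψ := h4
      _ = B * iter θ (i + n) c := by rw [hB]; group
  have hBne : B ≠ 1 := conj_ne_one (hne _ hc'.ne) _
  obtain ⟨z, hz⟩ := exists_onAxis B
  have hz2 : OnAxis B (B ^ (2 * w.norm + 2) * z) := by
    have := hz.pow_smul ((2 * w.norm + 2 : ℕ) : ℤ)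
    rwa [zpow_natCast] at this
  have o1 := onAxis_of_commute hBne (hne _ hc.ne) h3.symm hz
  have o2 := onAxis_of_commute hBne (hne _ hc.ne) h3.symm hz2
  refine long_overlap hθ (show j + n < i + n by omega) (hw _ hRrec) hc' (hlam _) hc.ne le_rfl
    hz hz2 o1 o2 ?_
  rw [hz.pow_dist, hz.tl_eq, hB, tl_conj]

/-- the geometric core of the absence of reversals -/
theorem axes_overlap (hθ : Function.Injective θ) (h2 : 2 ≤ Fintype.card α)
    (hrec : ∀ N, ∃ i ≥ N, IsRec θ i) (w : FreeGroup α)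
    (hw : ∀ i, IsRec θ i → ∀ g : FreeGroup α, ∃ v ∈ core (iter θ i) 1 w,
      g⁻¹ * v ∉ Hull (iter θ (i + 1))) (m : ℕ) :
    ∃ (c : Fin m → FreeGroup α) (P : ℕ), 2 ≤ P ∧ (∀ b, c b ∈ commutator (FreeGroup α)) ∧
      (∀ b, c b ≠ 1) ∧ ∀ (b b' : Fin m) (i j : ℕ), IsRec θ i → ∀ φ p q : FreeGroup α,
        OnAxis (φ * iter θ i (c b) * φ⁻¹) p → OnAxis (φ * iter θ i (c b) * φ⁻¹) q →
        OnAxis (iter θ j (c b')) p → OnAxis (iter θ j (c b')) q →
        P * tl (iter θ i (c b)) ≤ d p q → b = b' ∧ i = j := by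
  have : Nonempty α := Fintype.card_pos_iff.mp (by omega)
  choose f hf using exists_good (α := α) h2 w
  -- the sequence of words
  let M : ℕ → ℕ := fun n => Nat.rec (12 * Fintype.card α + 4 * Fintype.card α + 4)
    (fun _ M => M + (f M).norm) n
  have hM0 : M 0 = 12 * Fintype.card α + 4 * Fintype.card α + 4 := rfl
  have hMs : ∀ n, M (n + 1) = M n + (f (M n)).norm := fun n => rfl
  have hMmono : Monotone M := monotone_nat_of_le_succ fun n => by rw [hMs]; omega
  have hMge : ∀ n, 12 * Fintype.card α + 4 * Fintype.card α + 4 ≤ M n := fun n => by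
    rw [← hM0]; exact hMmono (Nat.zero_le n)
  have hMlt : ∀ a b, a < b → (f (M a)).norm + (12 * Fintype.card α + 4 * Fintype.card α + 4) ≤
      M b := by
    intro a b hab
    have h1 := hMmono (Nat.succ_le_of_lt hab)
    have h3 := hMs a
    have h4 := hMge a
    have h5 : M (a + 1) ≤ M b := h1
    omega
  let c : Fin m → FreeGroup α := fun b => f (M b)
  have hc : ∀ b : Fin m, Good w (M b) (c b) := fun b => hf (M b)
  have hinj := iter_injective θ hθ
  have hlam : ∀ (b : Fin m) i, lam (iter θ i) ≤ tl (iter θ i (c b)) := fun b i =>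
    (hc b).lam_le (hinj i) (by have := hMge b; omega)
  have hne : ∀ k {z : FreeGroup α}, z ≠ 1 → iter θ k z ≠ 1 := fun k z hz he =>
    hz (hinj k (by rw [he, _root_.map_one]))
  refine ⟨c, 2 * w.norm + 2 + ∑ b, (c b).norm, by omega, fun b => (hc b).comm,
    fun b => (hc b).ne, ?_⟩
  intro b b' i j hi φ p q hp hq hp' hq' hd
  have hsum : (c b').norm ≤ ∑ b, (c b).norm :=
    Finset.single_le_sum (f := fun b => (c b).norm) (fun _ _ => Nat.zero_le _)
      (Finset.mem_univ b')
  rcases lt_or_ge i j with hij | hij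
  · exfalso
    exact long_overlap hθ hij (hw i hi) (hc b) (hlam b i) (hc b').ne (by omega) hp hq hp' hq' hd
  -- the two elements commute
  have hcomm : Commute (φ * iter θ i (c b) * φ⁻¹) (iter θ j (c b')) := by
    refine commute_of_overlap (conj_ne_one (hne _ (hc b).ne) φ) (hne _ (hc b').ne) hp hq hp' hq' ?_
    rw [tl_conj]
    have h1 := tl_map_le (iter θ j) (c b')
    have h3 : (c b').norm * lam (iter θ j) ≤ (c b').norm * lam (iter θ i) :=
      Nat.mul_le_mul_left _ (hi j hij)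
    have h4 : (c b').norm * lam (iter θ i) ≤ (c b').norm * tl (iter θ i (c b)) :=
      Nat.mul_le_mul_left _ (hlam b i)
    have h5 : ((c b').norm + 1) * tl (iter θ i (c b)) ≤
        (2 * w.norm + 2 + ∑ b, (c b).norm) * tl (iter θ i (c b)) :=
      Nat.mul_le_mul_right _ (by omega)
    have h6 : ((c b').norm + 1) * tl (iter θ i (c b)) =
        (c b').norm * tl (iter θ i (c b)) + tl (iter θ i (c b)) := by ring
    omega
  rcases Nat.lt_or_ge j i with hji | hji
  · exfalso
    exact not_commute_levels hθ hrec hw (hc b) (hc b') (hlam b') hji φ hcomm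
  have hijeq : i = j := le_antisymm hji hij
  subst hijeq
  refine ⟨?_, rfl⟩
  by_contra hbb
  rcases lt_or_gt_of_ne hbb with hlt | hlt
  · -- `b < b'`
    have h1 := hMlt b b' hlt
    exact (hc b').not_commute (hinj i) (hc b).ne (by show (f (M b)).norm + _ + _ ≤ _; omega) φ
      hcomm.symm
  · -- `b' < b`
    have h1 := hMlt b' b hlt
    refine (hc b).not_commute (hinj i) (hc b').ne (by show (f (M b')).norm + _ + _ ≤ _; omega)
      φ⁻¹ ?_
    show iter θ i (c b) * (φ⁻¹ * iter θ i (c b') * φ⁻¹⁻¹) =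
      φ⁻¹ * iter θ i (c b') * φ⁻¹⁻¹ * iter θ i (c b)
    have h4 : φ⁻¹ * (φ * iter θ i (c b) * φ⁻¹ * iter θ i (c b')) * φ =
      φ⁻¹ * (iter θ i (c b') * (φ * iter θ i (c b) * φ⁻¹)) * φ := by rw [hcomm.eq]
    calc iter θ i (c b) * (φ⁻¹ * iter θ i (c b') * φ⁻¹⁻¹)
        = φ⁻¹ * (φ * iter θ i (c b) * φ⁻¹ * iter θ i (c b')) * φ := by group
      _ = φ⁻¹ * (iter θ i (c b') * (φ * iter θ i (c b) * φ⁻¹)) * φ := h4
      _ = φ⁻¹ * iter θ i (c b') * φ⁻¹⁻¹ * iter θ i (c b) := by group

omit [Fintype α] in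
/-- an occurrence of a word in a power of a cyclically reduced word -/
lemma Occ.onAxis {h u : FreeGroup α} (hh : OnAxis h 1) {n : ℕ} (ho : Occ u (h ^ n)) :
    ∃ f, OnAxis h f ∧ OnAxis h (f * u) ∧ Btw 1 f (h ^ n) ∧ Btw f (f * u) (h ^ n) ∧
      d f (f * u) = u.norm := by
  obtain ⟨f, hf⟩ := ho
  have e1 : d f (f * u) = u.norm := by
    have := d_mul_left f 1 u
    rw [mul_one] at this
    rw [this, d_one_left]
  have t1 := d_tri 1 f (h ^ n)
  have t2 := d_tri f (f * u) (h ^ n)
  have t3 := d_tri 1 (f * u) (h ^ n)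
  have t4 := d_tri 1 f (f * u)
  have hn : OnAxis h (h ^ n) := by
    have := hh.pow_smul (n : ℤ)
    rwa [zpow_natCast, mul_one] at this
  refine ⟨f, hh.convex hn ?_, hh.convex hn ?_, ?_, ?_, e1⟩ <;> unfold Btw <;> omega

omit [Fintype α] in
lemma tl_zpow (h : FreeGroup α) (a : ℤ) : tl (h ^ a) = a.natAbs * tl h := by
  obtain ⟨n, rfl | rfl⟩ := a.eq_nat_or_neg
  · rw [zpow_natCast, tl_pow]; simp
  · rw [zpow_neg, zpow_natCast, tl_inv, tl_pow]; simp

omit [Fintype α] in
/-- a long power does not occur reversed in the powers of the same word -/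
lemma not_occ_inv {h : FreeGroup α} (h1 : h ≠ 1) (hh : OnAxis h 1) {P : ℕ} (hP : 2 ≤ P) (n : ℕ) :
    ¬ Occ (h ^ P)⁻¹ (h ^ n) := by
  intro ho
  obtain ⟨f, hf, hfu, hb1, hb2, hdist⟩ := ho.onAxis hh
  set k := f * h⁻¹ * f⁻¹ with hk
  have hkP : k ^ P * f = f * (h ^ P)⁻¹ := by
    rw [hk, conj_pow, inv_pow]; group
  have hkf : OnAxis k f := by
    have := hh.inv.mul_pow f
    rwa [mul_one] at this
  have hkfu : OnAxis k (f * (h ^ P)⁻¹) := by
    rw [← hkP]
    have := hkf.pow_smul (P : ℤ)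
    rwa [zpow_natCast] at this
  have htk : tl k = tl h := by rw [hk, tl_conj, tl_inv]
  have hnorm : ((h ^ P)⁻¹).norm = P * tl h := by
    rw [norm_inv_eq]
    have := hh.pow_dist P
    rw [hh.tl_eq, mul_one, d_one_left] at this
    exact this
  have htpos := tl_pos h1
  have hk1 : k ≠ 1 := by
    intro h3
    rw [h3] at htk
    have : tl (1 : FreeGroup α) = 0 := by
      have := tl_le (1 : FreeGroup α) 1
      simpa using this
    omega
  have hcomm : Commute k h := by
    refine commute_of_overlap hk1 h1 hkf hkfu hf hfu ?_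
    rw [hdist, hnorm, htk]
    nlinarith
  obtain ⟨a, b, ha, hb, hab⟩ := exists_zpow_eq_of_commute hk1 h1 hcomm
  have hnat : a.natAbs = b.natAbs := by
    have h3 := tl_zpow k a
    rw [hab, tl_zpow, htk] at h3
    exact (Nat.eq_of_mul_eq_mul_right htpos h3).symm
  rcases Int.natAbs_eq_natAbs_iff.mp hnat with h3 | h3
  · -- `k = h`
    subst h3
    have h4 : k = h := (zpow_left_inj ha).mp hab
    have h5 := not_conj_inv (g := f) (h := h⁻¹) (inv_ne_one.mpr h1)
    rw [inv_inv] at h5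
    exact h5 h4
  · -- `k = h⁻¹`
    have hab' : k ^ a = h⁻¹ ^ a := by
      rw [hab, inv_zpow, ← zpow_neg, h3, neg_neg]
    have h4 : k = h⁻¹ := (zpow_left_inj ha).mp hab'
    rw [← hkP, h4, inv_pow] at hb2
    -- distances
    have e1 : d f ((h ^ P)⁻¹ * f) = P * tl h := by
      have := hf.inv.pow_dist P
      rw [hf.inv.tl_eq, tl_inv, inv_pow] at this
      exact this
    have e2 : d ((h ^ P)⁻¹ * f) (h ^ n) = d f (h ^ (n + P)) := by
      rw [d_inv_left, ← pow_add, add_comm]
    have e3 : d 1 (h ^ n) = n * tl h := by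
      have := hh.pow_dist n
      rw [hh.tl_eq, mul_one] at this
      exact this
    have e4 : d 1 (h ^ (n + P)) = (n + P) * tl h := by
      have := hh.pow_dist (n + P)
      rw [hh.tl_eq, mul_one] at this
      rw [this]
    have e5 : d (h ^ n) (h ^ (n + P)) = P * tl h := by
      have := (hh.pow_smul (n : ℤ)).pow_dist P
      rw [(hh.pow_smul (n : ℤ)).tl_eq, zpow_natCast, mul_one, ← pow_add, add_comm P n] at this
      exact this
    have hb3 : Btw 1 (h ^ n) (h ^ (n + P)) := by
      unfold Btw; rw [e3, e4, e5]; ring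
    have hb4 : Btw 1 f (h ^ (n + P)) := hb3.trans_left hb1
    unfold Btw at hb1 hb2 hb4
    rw [e1, e2] at hb2
    have e6 : (n + P) * tl h = n * tl h + P * tl h := by ring
    have e7 : 0 < P * tl h := Nat.mul_pos (by omega) htpos
    omega

/-- **No reversal, no mixing.** -/
theorem no_reversal (hθ : Function.Injective θ) (h2 : 2 ≤ Fintype.card α)
    (hrec : ∀ N, ∃ i ≥ N, IsRec θ i) (w : FreeGroup α)
    (hw : ∀ i, IsRec θ i → ∀ g : FreeGroup α, ∃ v ∈ core (iter θ i) 1 w,
      g⁻¹ * v ∉ Hull (iter θ (i + 1))) (m : ℕ) :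
    ∃ (c : Fin m → FreeGroup α) (P : ℕ), 1 ≤ P ∧ (∀ b, c b ∈ commutator (FreeGroup α)) ∧
      (∀ b, c b ≠ 1) ∧ ∀ s : Fin m → ℕ → FreeGroup α,
        (∀ b i, OnAxis (iter θ i (c b)) (s b i)) →
        (∀ b i j n, IsRec θ i → ¬ Occ (((s b i)⁻¹ * iter θ i (c b) * s b i) ^ P)⁻¹
          (((s b j)⁻¹ * iter θ j (c b) * s b j) ^ n)) ∧
        (∀ b b' i j n, b ≠ b' → IsRec θ i →
          ¬ Occ (((s b i)⁻¹ * iter θ i (c b) * s b i) ^ P)
            (((s b' j)⁻¹ * iter θ j (c b') * s b' j) ^ n) ∧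
          ¬ Occ (((s b i)⁻¹ * iter θ i (c b) * s b i) ^ P)⁻¹
            (((s b' j)⁻¹ * iter θ j (c b') * s b' j) ^ n)) := by
  obtain ⟨c, P, hP, hc1, hc2, hov⟩ := axes_overlap hθ h2 hrec w hw m
  refine ⟨c, P, by omega, hc1, hc2, ?_⟩
  intro s hs
  have hax : ∀ b i, OnAxis ((s b i)⁻¹ * iter θ i (c b) * s b i) 1 := by
    intro b i
    have := (hs b i).mul_pow (s b i)⁻¹
    rwa [inv_mul_cancel, inv_inv] at this
  have key : ∀ b b' i j n, IsRec θ i → ∀ u : FreeGroup α,
      (u = ((s b i)⁻¹ * iter θ i (c b) * s b i) ^ P ∨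
        u = (((s b i)⁻¹ * iter θ i (c b) * s b i) ^ P)⁻¹) →
      Occ u (((s b' j)⁻¹ * iter θ j (c b') * s b' j) ^ n) → b = b' ∧ i = j := by
    intro b b' i j n hi u hu ho
    set h := (s b i)⁻¹ * iter θ i (c b) * s b i with hh
    set h' := (s b' j)⁻¹ * iter θ j (c b') * s b' j with hh'
    obtain ⟨f, hf, hfu, -, -, hd⟩ := ho.onAxis (hax b' j)
    have hu' : OnAxis h u := by
      rcases hu with rfl | rfl
      · have := (hax b i).pow_smul (P : ℤ)
        rwa [zpow_natCast, mul_one] at this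
      · have := (hax b i).pow_smul (-(P : ℤ))
        rwa [zpow_neg, zpow_natCast, mul_one] at this
    have hnorm : u.norm = P * tl (iter θ i (c b)) := by
      have h1 : (h ^ P).norm = P * tl h := by
        have := (hax b i).pow_dist P
        rw [(hax b i).tl_eq, mul_one, d_one_left] at this
        exact this
      have h3 : tl h = tl (iter θ i (c b)) := by
        have := tl_conj (s b i)⁻¹ (iter θ i (c b))
        rwa [inv_inv] at this
      rcases hu with rfl | rfl
      · rw [h1, h3]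
      · rw [norm_inv_eq, h1, h3]
    have e1 : ∀ φ : FreeGroup α, φ * (s b i)⁻¹ * iter θ i (c b) * (φ * (s b i)⁻¹)⁻¹ =
        φ * h * φ⁻¹ := by
      intro φ; rw [hh]; group
    have e2 : s b' j * h' * (s b' j)⁻¹ = iter θ j (c b') := by rw [hh']; group
    refine hov b b' i j hi (s b' j * f * (s b i)⁻¹) (s b' j * f) (s b' j * (f * u)) ?_ ?_ ?_ ?_ ?_
    · rw [e1]
      have := (hax b i).mul_pow (s b' j * f)
      rwa [mul_one] at this
    · rw [e1]
      have := hu'.mul_pow (s b' j * f)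
      rwa [mul_assoc (s b' j) f u] at this
    · have := hf.mul_pow (s b' j)
      rwa [e2] at this
    · have := hfu.mul_pow (s b' j)
      rwa [e2] at this
    · rw [d_mul_left, hd, hnorm]
  refine ⟨?_, ?_⟩
  · intro b i j n hi ho
    obtain ⟨-, rfl⟩ := key b b i j n hi _ (Or.inr rfl) ho
    have hne : (s b i)⁻¹ * iter θ i (c b) * s b i ≠ 1 := by
      have h1 : iter θ i (c b) ≠ 1 := fun he =>
        hc2 b (iter_injective θ hθ i (by rw [he, _root_.map_one]))
      have := conj_ne_one h1 (s b i)⁻¹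
      rwa [inv_inv] at this
    exact not_occ_inv hne (hax b i) hP n ho
  · intro b b' i j n hbb hi
    exact ⟨fun ho => hbb (key b b' i j n hi _ (Or.inl rfl) ho).1,
      fun ho => hbb (key b b' i j n hi _ (Or.inr rfl) ho).1⟩

end NoRev

end Pool.Agent.AscQM
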