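import Pool.Agent.Lib.MP_fa6f87_al.Base

/-!
Density of records under exponential growth.
-/

namespace Pool.Agent.AscQM

open FreeGroup

section RecordsProof

variable {α : Type*} [DecidableEq α] [Fintype α]

lemma iter_succ_comp (θ : FreeGroup α →* FreeGroup α) (k : ℕ) :
    iter θ (k + 1) = (iter θ k).comp θ := rfl

/-- one more application of `θ` multiplies `lam` by at most a constant -/
lemma lam_succ_le (θ : FreeGroup α →* FreeGroup α) {C : ℕ} (hC : ∀ a, (θ (of a)).norm ≤ C)
    (k : ℕ) : lam (iter θ (k + 1)) ≤ C * lam (iter θ k) := by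
  refine (lam_le (iter θ (k + 1)) (bp (iter θ k))).trans ?_
  unfold disp
  refine Finset.sup_le fun a _ => ?_
  have h1 := d_T_le (iter θ k) 1 (θ (of a))
  rw [T_one, d_one_left] at h1
  have h2 : iter θ (k + 1) (of a) * bp (iter θ k) = T (iter θ k) (θ (of a)) := rfl
  rw [h2]
  exact h1.trans (Nat.mul_le_mul_right _ (hC a))

theorem rec_density [Nonempty α] {θ : FreeGroup α →* FreeGroup α} (hθ : Function.Injective θ)
    (hg : ExpGrowth θ) : ∃ S : Set ℕ, S.Infinite ∧ ∃ ε : ℝ, 0 < ε ∧ ∀ N ∈ S,
      ε * N ≤ {i | i < N ∧ IsRec θ i}.ncard := by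
  classical
  obtain ⟨g, μ, hμ, hfr⟩ := hg
  -- the multiplicative constant
  obtain ⟨C, hC2, hC⟩ : ∃ C : ℕ, 2 ≤ C ∧ ∀ a, (θ (of a)).norm ≤ C := by
    refine ⟨max 2 (Finset.univ.sup fun a => (θ (of a)).norm), le_max_left _ _, fun a => ?_⟩
    exact (Finset.le_sup (f := fun a => (θ (of a)).norm) (Finset.mem_univ a)).trans
      (le_max_right _ _)
  set l : ℕ → ℕ := fun k => lam (iter θ k) with hl
  have hl1 : ∀ k, 1 ≤ l k := fun k => lam_pos (iter_injective θ hθ k)
  have hstep : ∀ k, l (k + 1) ≤ C * l k := fun k => lam_succ_le θ hC k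
  -- the counting function
  set r : ℕ → ℕ := fun N => ((Finset.range (N + 1)).filter fun i => IsRec θ i).card with hr
  have hrmono : ∀ N, r N ≤ r (N + 1) := by
    intro N
    apply Finset.card_le_card
    apply Finset.filter_subset_filter
    exact Finset.range_subset_range.2 (by omega)
  have hrsucc : ∀ N, IsRec θ (N + 1) → r (N + 1) = r N + 1 := by
    intro N hN
    simp only [hr]
    rw [Finset.range_add_one (n := N + 1), Finset.filter_insert, if_pos hN,
      Finset.card_insert_of_notMem]
    simp
  have hmax : ∀ N, ∀ k ≤ N, l k ≤ l 0 * C ^ r N := by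
    intro N
    induction N with
    | zero =>
      intro k hk
      obtain rfl : k = 0 := by omega
      exact Nat.le_mul_of_pos_right _ (by positivity)
    | succ N ih =>
      have hmon : l 0 * C ^ r N ≤ l 0 * C ^ r (N + 1) :=
        Nat.mul_le_mul_left _ (Nat.pow_le_pow_right (by omega) (hrmono N))
      intro k hk
      rcases Nat.lt_or_ge k (N + 1) with h | h
      · exact (ih k (by omega)).trans hmon
      · obtain rfl : k = N + 1 := by omega
        by_cases hrec : IsRec θ (N + 1)
        · rw [hrsucc N hrec, pow_succ]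
          calc l (N + 1) ≤ C * l N := hstep N
            _ ≤ C * (l 0 * C ^ r N) := Nat.mul_le_mul_left _ (ih N le_rfl)
            _ = l 0 * (C ^ r N * C) := by ring
        · unfold IsRec at hrec
          push Not at hrec
          obtain ⟨j, hj, hj2⟩ := hrec
          have hjN : j ≤ N := by
            by_contra hcon
            obtain rfl : j = N + 1 := by omega
            exact lt_irrefl _ hj2
          exact (le_of_lt hj2).trans ((ih j hjN).trans hmon)
  -- real estimates
  have hCpos : (0 : ℝ) < Real.log C := Real.log_pos (by exact_mod_cast (by omega : 1 < C))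
  have hμpos : (0 : ℝ) < Real.log μ := Real.log_pos hμ
  set ε : ℝ := Real.log μ / (2 * Real.log C) with hε
  have hεpos : 0 < ε := by positivity
  set A : ℝ := Real.log (g.norm * l 0) with hA
  have hev : ∀ᶠ N : ℕ in Filter.atTop, A + Real.log μ / 2 ≤ N * (Real.log μ / 2) := by
    have h1 : Filter.Tendsto (fun N : ℕ => (N : ℝ) * (Real.log μ / 2)) Filter.atTop
        Filter.atTop :=
      tendsto_natCast_atTop_atTop.atTop_mul_const (by positivity)
    exact h1.eventually_ge_atTop _
  have hfr2 := (hfr.and_eventually (hev.and (Filter.eventually_ge_atTop 1)))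
  refine ⟨(fun N => N + 1) '' {N | μ ^ N ≤ tl (iter θ N g) ∧
    (A + Real.log μ / 2 ≤ N * (Real.log μ / 2) ∧ 1 ≤ N)}, ?_, ε, hεpos, ?_⟩
  · apply Set.Infinite.image (fun a _ b _ h => by simpa using h)
    rw [← Nat.frequently_atTop_iff_infinite]
    exact hfr2
  · rintro _ ⟨N, ⟨h1, h2, h3⟩, rfl⟩
    have hcard : {i | i < N + 1 ∧ IsRec θ i}.ncard = r N := by
      have e : {i | i < N + 1 ∧ IsRec θ i} =
          (((Finset.range (N + 1)).filter fun i => IsRec θ i : Finset ℕ) : Set ℕ) := by
        ext i
        simp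
      rw [e, Set.ncard_coe_finset]
    rw [hcard]
    have h4 : (tl (iter θ N g) : ℝ) ≤ g.norm * (l 0 * (C : ℝ) ^ r N) := by
      have h5 : tl (iter θ N g) ≤ g.norm * (l 0 * C ^ r N) :=
        (tl_map_le (iter θ N) g).trans (Nat.mul_le_mul_left _ (hmax N N le_rfl))
      exact_mod_cast h5
    have h5 : μ ^ N ≤ (g.norm * l 0) * (C : ℝ) ^ r N := by
      rw [mul_assoc]; exact h1.trans h4
    have hpos : (0 : ℝ) < g.norm * l 0 := by
      by_contra hcon
      push Not at hcon
      have h6 : (g.norm * l 0 : ℝ) * (C : ℝ) ^ r N ≤ 0 :=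
        mul_nonpos_of_nonpos_of_nonneg hcon (by positivity)
      have h7 : (0 : ℝ) < μ ^ N := by positivity
      linarith
    have h6 : N * Real.log μ ≤ A + r N * Real.log C := by
      have := Real.log_le_log (by positivity) h5
      rw [Real.log_pow, Real.log_mul hpos.ne' (by positivity), Real.log_pow] at this
      exact this
    have h7 : (N + 1 : ℝ) * (Real.log μ / 2) ≤ r N * Real.log C := by
      nlinarith
    rw [hε]
    push_cast
    rw [div_mul_eq_mul_div, div_le_iff₀ (by positivity)]
    nlinarith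

end RecordsProof

end Pool.Agent.AscQM
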