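import Pool.Agent.Lib.MP_fa6f87_al.Growth
import Pool.Agent.Lib.MP_fa6f87_al.LemmaB
import Pool.Agent.Lib.MP_fa6f87_al.NoRev
import Pool.Agent.Lib.MP_fa6f87_al.Records
import Pool.Agent.Lib.MP_fa6f87_al.Brooks
import Pool.Agent.Lib.MP_fa6f87_al.Averaging
import Pool.Agent.Lib.MP_fa6f87_al.HNN

/-!
Assembly: infinitely many independent invariant homogeneous quasimorphisms.
-/

namespace Pool.Agent.AscQM

open FreeGroup

section Assembly

variable {α : Type*} [Fintype α] {θ : FreeGroup α →* FreeGroup α}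

/-- there are infinitely many records -/
lemma exists_rec_of_density [DecidableEq α] {S : Set ℕ} (hS : S.Infinite) {ε : ℝ} (hε : 0 < ε)
    (h : ∀ N ∈ S, ε * N ≤ {i | i < N ∧ IsRec θ i}.ncard) (N : ℕ) : ∃ i ≥ N, IsRec θ i := by
  by_contra hcon
  push Not at hcon
  -- all records are below `N`
  obtain ⟨n, hn⟩ := exists_nat_gt ((N : ℝ) / ε)
  obtain ⟨M, hM, hnM⟩ := hS.exists_gt n
  have h1 := h M hM
  have h2 : {i | i < M ∧ IsRec θ i}.ncard ≤ N := by
    have hsub : {i | i < M ∧ IsRec θ i} ⊆ (Finset.range N : Set ℕ) := by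
      rintro i ⟨-, hi⟩
      rw [Finset.coe_range, Set.mem_Iio]
      by_contra hlt
      push Not at hlt
      exact hcon i hlt hi
    have := Set.ncard_le_ncard hsub (Finset.finite_toSet _)
    rwa [Set.ncard_coe_finset, Finset.card_range] at this
  have h3 : ε * M ≤ N := h1.trans (by exact_mod_cast h2)
  rw [div_lt_iff₀ hε] at hn
  have h4 : (n : ℝ) ≤ M := by exact_mod_cast hnM.le
  nlinarith

/-- **The invariant homogeneous quasimorphisms form an infinite-dimensional space.** -/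
theorem not_finite_inv (hθ : Function.Injective θ) (hns : ¬ Function.Surjective θ)
    (h2 : 2 ≤ Fintype.card α) : ¬ FiniteDimensional ℝ (invHQM θ) := by
  classical
  have : Nonempty α := Fintype.card_pos_iff.mp (by omega)
  obtain ⟨S, hS, ε, hε, hden⟩ := rec_density hθ (expGrowth hθ hns)
  obtain ⟨w, hw⟩ := exists_word hθ hns h2
  refine not_finite_invHQM θ fun m => ?_
  obtain ⟨c, P, hP, hc1, hc2, hrev⟩ :=
    no_reversal hθ h2 (exists_rec_of_density hS hε hden) w hw m
  choose s hs using fun (b : Fin m) (i : ℕ) => exists_onAxis (iter θ i (c b))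
  obtain ⟨hr1, hr2⟩ := hrev s hs
  set H : Fin m → ℕ → FreeGroup α := fun b i => (s b i)⁻¹ * iter θ i (c b) * s b i with hH
  have hax : ∀ b i, OnAxis (H b i) 1 := by
    intro b i
    have := (hs b i).mul_pow (s b i)⁻¹
    rwa [inv_mul_cancel, inv_inv] at this
  have hne : ∀ b i, H b i ≠ 1 := by
    intro b i
    have h1 : iter θ i (c b) ≠ 1 := fun he =>
      hc2 b (iter_injective θ hθ i (by rw [he, _root_.map_one]))
    have := conj_ne_one h1 (s b i)⁻¹
    rwa [inv_inv] at this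
  have hφ : ∀ b : Fin m, ∃ φ ∈ HQM (FreeGroup α),
      (∀ h, OnAxis h 1 → (∀ n : ℕ, ∀ w ∈ {w | ∃ i, IsRec θ i ∧ w = H b i ^ P},
        ¬ Occ w⁻¹ (h ^ n)) → 0 ≤ φ h ∧
        ∀ p : ℕ, 1 ≤ p → h ^ p ∈ {w | ∃ i, IsRec θ i ∧ w = H b i ^ P} → 1 / (p : ℝ) ≤ φ h) ∧
      (∀ h, (∀ n : ℕ, ∀ w ∈ {w | ∃ i, IsRec θ i ∧ w = H b i ^ P},
        ¬ Occ w (h ^ n) ∧ ¬ Occ w⁻¹ (h ^ n)) → φ h = 0) := by
    intro b
    apply brooks
    rintro ⟨i, -, he⟩
    exact hne b i ((pow_eq_one_iff_left (by omega)).mp he.symm)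
  choose φ hφ1 hφ2 hφ3 using hφ
  have hconj : ∀ b b' j, φ b (iter θ j (c b')) = φ b (H b' j) := by
    intro b b' j
    have := HQM.conj (hφ1 b) (s b' j)⁻¹ (iter θ j (c b'))
    rw [inv_inv] at this
    exact this.symm
  refine ⟨c, φ, S, hS, hc1, hφ1, ?_, ?_⟩
  · intro b b' j hbb
    rw [hconj]
    apply hφ3
    rintro n _ ⟨i, hi, rfl⟩
    exact hr2 b b' i j n hbb hi
  · intro b
    have hpos : (0 : ℝ) < P := by positivity
    refine ⟨ε / P, by positivity, fun N hN => ?_⟩
    have h0 : ∀ j, 0 ≤ φ b (iter θ j (c b)) := by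
      intro j
      rw [hconj]
      refine (hφ2 b _ (hax b j) ?_).1
      rintro n _ ⟨i, hi, rfl⟩
      exact hr1 b i j n hi
    have h1 : ∀ j, IsRec θ j → 1 / (P : ℝ) ≤ φ b (iter θ j (c b)) := by
      intro j hj
      rw [hconj]
      refine (hφ2 b _ (hax b j) ?_).2 P hP ⟨j, hj, rfl⟩
      rintro n _ ⟨i, hi, rfl⟩
      exact hr1 b i j n hi
    classical
    have h3 : ({i | i < N ∧ IsRec θ i}.ncard : ℝ) * (1 / P) ≤
        ∑ j ∈ Finset.range N, φ b (iter θ j (c b)) := by
      have hset : {i | i < N ∧ IsRec θ i} =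
          (((Finset.range N).filter fun i => IsRec θ i : Finset ℕ) : Set ℕ) := by
        ext i; simp
      rw [hset, Set.ncard_coe_finset]
      calc (((Finset.range N).filter fun i => IsRec θ i).card : ℝ) * (1 / P)
          = ∑ _j ∈ (Finset.range N).filter fun i => IsRec θ i, (1 / (P : ℝ)) := by
            rw [Finset.sum_const, nsmul_eq_mul]
        _ ≤ ∑ j ∈ (Finset.range N).filter fun i => IsRec θ i, φ b (iter θ j (c b)) :=
            Finset.sum_le_sum fun j hj => h1 j (Finset.mem_filter.mp hj).2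
        _ ≤ ∑ j ∈ Finset.range N, φ b (iter θ j (c b)) :=
            Finset.sum_le_sum_of_subset_of_nonneg (Finset.filter_subset _ _)
              fun j _ _ => h0 j
    have h4 := hden N hN
    calc ε / P * N = (ε * N) * (1 / P) := by ring
      _ ≤ ({i | i < N ∧ IsRec θ i}.ncard : ℝ) * (1 / P) :=
          mul_le_mul_of_nonneg_right h4 (by positivity)
      _ ≤ _ := h3

/-- **Main theorem.** The second bounded cohomology of a strictly ascending HNN extension of a
free group of finite rank `≥ 2` is infinite-dimensional. -/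
theorem not_finite_H2b_ascHNN (hθ : Function.Injective θ) (hns : ¬ Function.Surjective θ)
    (h2 : 2 ≤ Fintype.card α) : ¬ FiniteDimensional ℝ (H2b (AscHNN θ hθ)) :=
  final_assembly θ hθ (not_finite_inv hθ hns h2)

end Assembly

end Pool.Agent.AscQM
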