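import Pool.Agent.Lib.MP_fa6f87_al.Hull

/-!
Bounded cancellation with a linear constant.
-/

namespace Pool.Agent.AscQM

open FreeGroup

set_option linter.unusedSectionVars false

section vx

variable {α β : Type*} [DecidableEq α] [DecidableEq β]

/-! ### vertices of a geodesic -/

/-- the vertex at distance `i` from `g` on the geodesic to `h` -/
noncomputable def vx (g h : FreeGroup α) (i : ℕ) : FreeGroup α :=
  if hi : i ≤ d g h then (d_interp g h i hi).choose else h

lemma vx_dist {g h : FreeGroup α} {i : ℕ} (hi : i ≤ d g h) : d g (vx g h i) = i := by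
  unfold vx; rw [dif_pos hi]; exact (d_interp g h i hi).choose_spec.1

lemma vx_dist' {g h : FreeGroup α} {i : ℕ} (hi : i ≤ d g h) :
    d (vx g h i) h = d g h - i := by
  unfold vx; rw [dif_pos hi]; exact (d_interp g h i hi).choose_spec.2

lemma vx_btw {g h : FreeGroup α} {i : ℕ} (hi : i ≤ d g h) : Btw g (vx g h i) h := by
  unfold Btw; rw [vx_dist hi, vx_dist' hi]; omega

lemma vx_d {g h : FreeGroup α} {i j : ℕ} (hij : i ≤ j) (hj : j ≤ d g h) :
    d (vx g h i) (vx g h j) = j - i := by
  have h1 := (vx_btw (hij.trans hj)).dist (vx_btw hj) (by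
    rw [vx_dist (hij.trans hj), vx_dist hj]; exact hij)
  rw [vx_dist (hij.trans hj), vx_dist hj] at h1
  omega

lemma vx_zero (g h : FreeGroup α) : vx g h 0 = g := by
  have := vx_dist (g := g) (h := h) (Nat.zero_le _)
  exact (d_eq_zero.mp this).symm

lemma vx_last (g h : FreeGroup α) : vx g h (d g h) = h := by
  have := vx_dist' (g := g) (h := h) le_rfl
  rw [Nat.sub_self] at this
  exact d_eq_zero.mp this

lemma vx_eq {g h k : FreeGroup α} (hk : Btw g k h) : vx g h (d g k) = k := by
  have hle : d g k ≤ d g h := by unfold Btw at hk; omega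
  exact (vx_btw hle).eq hk (vx_dist hle)

lemma vx_inj {g h : FreeGroup α} {i j : ℕ} (hi : i ≤ d g h) (hj : j ≤ d g h)
    (he : vx g h i = vx g h j) : i = j := by
  rw [← vx_dist hi, he, vx_dist hj]

lemma vx_btw' {g h : FreeGroup α} {i j k : ℕ} (hij : i ≤ j) (hjk : j ≤ k) (hk : k ≤ d g h) :
    Btw (vx g h i) (vx g h j) (vx g h k) := by
  unfold Btw
  rw [vx_d hij (hjk.trans hk), vx_d hjk hk, vx_d (hij.trans hjk) hk]
  omega

/-- a point between two vertices of a geodesic is a vertex -/
lemma vx_of_btw {g h v : FreeGroup α} {i k : ℕ} (hik : i ≤ k) (hk : k ≤ d g h)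
    (hv : Btw (vx g h i) v (vx g h k)) : ∃ j, i ≤ j ∧ j ≤ k ∧ v = vx g h j := by
  have h1 : d (vx g h i) (vx g h k) = k - i := vx_d hik hk
  have h2 : d (vx g h i) v ≤ k - i := by unfold Btw at hv; omega
  refine ⟨i + d (vx g h i) v, by omega, by omega, ?_⟩
  refine hv.eq (vx_btw' (by omega) (by omega) hk) ?_
  rw [vx_d (by omega) (by omega)]
  omega

/-- a path that has `w` between its endpoints crosses `w` at some step -/
lemma exists_crossing (f : ℕ → FreeGroup β) {w : FreeGroup β} {a b : ℕ} (hab : a < b)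
    (h : Btw (f a) w (f b)) : ∃ s, a ≤ s ∧ s < b ∧ Btw (f s) w (f (s + 1)) := by
  induction b, hab using Nat.le_induction with
  | base => exact ⟨a, le_rfl, Nat.lt_succ_self a, h⟩
  | succ b hab ih =>
    rcases h.or (f b) with h1 | h1
    · obtain ⟨s, h2, h3, h4⟩ := ih h1
      exact ⟨s, h2, h3.trans (Nat.lt_succ_self b), h4⟩
    · exact ⟨b, by omega, Nat.lt_succ_self b, h1⟩

end vx

variable {α β : Type*} [DecidableEq α] [Fintype α] [DecidableEq β]

/-! ### positions on the images of the generators -/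

variable (σ : FreeGroup α →* FreeGroup β) (o : FreeGroup β)

/-- positions -/
abbrev Pos : Type _ := (a : α) × Fin (d o (σ (of a) * o) + 1)

/-- the location of a position -/
noncomputable def pe (π : Pos σ o) : FreeGroup β :=
  (d_interp o (σ (of π.1) * o) π.2 (Nat.lt_succ_iff.mp π.2.2)).choose

lemma pe_spec (π : Pos σ o) : Btw o (pe σ o π) (σ (of π.1) * o) ∧ d o (pe σ o π) = π.2 := by
  have h := (d_interp o (σ (of π.1) * o) π.2 (Nat.lt_succ_iff.mp π.2.2)).choose_spec
  have h1 : (π.2 : ℕ) ≤ d o (σ (of π.1) * o) := Nat.lt_succ_iff.mp π.2.2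
  refine ⟨?_, h.1⟩
  unfold Btw pe
  omega

lemma card_pos : Fintype.card (Pos σ o) = bcc σ o := by
  unfold bcc
  simp [Fintype.card_sigma]

variable {σ o}

lemma exists_pos {x y : FreeGroup α} (hxy : d x y = 1) {z : FreeGroup β}
    (hz : Btw (σ x * o) z (σ y * o)) :
    ∃ (f : FreeGroup α) (π : Pos σ o), σ f * pe σ o π = z ∧
      ((f = x ∧ f * of π.1 = y) ∨ (f = y ∧ f * of π.1 = x)) := by
  have key : ∀ (x : FreeGroup α) (a : α), Btw (σ x * o) z (σ (x * of a) * o) →
      ∃ (π : Pos σ o), σ x * pe σ o π = z ∧ π.1 = a := by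
    intro x a hz
    have e : d (σ x * o) (σ (x * of a) * o) = d o (σ (of a) * o) := by
      rw [_root_.map_mul, mul_assoc, d_mul_left]
    have hle : d (σ x * o) z ≤ d o (σ (of a) * o) := by
      unfold Btw at hz; omega
    refine ⟨⟨a, ⟨d (σ x * o) z, Nat.lt_succ_iff.mpr hle⟩⟩, ?_, rfl⟩
    obtain ⟨h1, h2⟩ := pe_spec σ o ⟨a, ⟨d (σ x * o) z, Nat.lt_succ_iff.mpr hle⟩⟩
    have h3 := h1.mul_left (σ x)
    simp only at h3 h2
    rw [← mul_assoc (σ x), ← _root_.map_mul] at h3
    refine h3.eq hz ?_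
    rw [d_mul_left, h2]
  obtain ⟨a, rfl | rfl⟩ := exists_letter hxy
  · obtain ⟨π, h1, h2⟩ := key x a hz
    exact ⟨x, π, h1, Or.inl ⟨rfl, by rw [h2]⟩⟩
  · have e : x * (of a)⁻¹ * of a = x := by group
    obtain ⟨π, h1, h2⟩ := key (x * (of a)⁻¹) a (by rw [e]; exact hz.symm)
    exact ⟨_, π, h1, Or.inr ⟨rfl, by rw [h2, e]⟩⟩

/-- the side of `v` on which an edge lies -/
noncomputable def side (v f : FreeGroup α) (a : α) : FreeGroup α :=
  nxt v (if f = v then f * of a else f)

lemma side_mul (x v f : FreeGroup α) (a : α) : side (x * v) (x * f) a = x * side v f a := by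
  unfold side
  by_cases h : f = v
  · rw [if_pos h, if_pos (by rw [h]), mul_assoc, nxt_mul_left]
  · rw [if_neg h, if_neg (fun h' => h (mul_left_cancel h')), nxt_mul_left]

lemma side_eq {v f x y : FreeGroup α} {a : α} (hxy : d x y = 1)
    (he : (f = x ∧ f * of a = y) ∨ (f = y ∧ f * of a = x)) (hv : x ≠ v) :
    side v f a = nxt v x := by
  unfold side
  by_cases h : f = v
  · rw [if_pos h]
    rcases he with ⟨h1, h2⟩ | ⟨h1, h2⟩
    · exact absurd (h1.symm.trans h) hv
    · rw [h2]
  · rw [if_neg h]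
    rcases he with ⟨h1, h2⟩ | ⟨h1, h2⟩
    · rw [h1]
    · by_contra hne
      rw [h1] at hne h
      have h3 := (nxt_ne_iff h hv).mp hne
      have h4 : d v x ≠ 0 := fun h0 => hv (d_eq_zero.mp h0).symm
      have h5 : d y v ≠ 0 := fun h0 => h (d_eq_zero.mp h0)
      unfold Btw at h3
      rw [d_comm y x] at h3
      omega

lemma side_eq' {v f x y : FreeGroup α} {a : α} (hxy : d x y = 1)
    (he : (f = x ∧ f * of a = y) ∨ (f = y ∧ f * of a = x)) (hv : y ≠ v) :
    side v f a = nxt v y :=
  side_eq (by rw [d_comm]; exact hxy) he.symm hv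

/-- abstract form: the vectors `e π_i - e ρ_i` are independent if no `ρ_i` can be reached from
`π_i` through later links -/
lemma card_le_of_links {P : Type*} [Fintype P] {D : ℕ} (p q : Fin D → P)
    (h : ∀ i, ¬ Relation.ReflTransGen (fun x y => ∃ j, i < j ∧
      ((x = p j ∧ y = q j) ∨ (x = q j ∧ y = p j))) (p i) (q i)) : D ≤ Fintype.card P := by
  classical
  have hli : LinearIndependent ℝ (fun i : Fin D =>
      (Pi.single (p i) (1 : ℝ) - Pi.single (q i) 1 : P → ℝ)) := by
    rw [Fintype.linearIndependent_iff]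
    intro g hg i
    induction i using WellFoundedLT.induction with
    | ind i ih =>
      set r : P → P → Prop := fun x y => ∃ j, i < j ∧
        ((x = p j ∧ y = q j) ∨ (x = q j ∧ y = p j)) with hr
      have hrs : ∀ x y, r x y → r y x := by
        rintro x y ⟨j, h1, h2 | h2⟩
        · exact ⟨j, h1, Or.inr ⟨h2.2, h2.1⟩⟩
        · exact ⟨j, h1, Or.inl ⟨h2.2, h2.1⟩⟩
      set f : P → ℝ := fun x => if Relation.ReflTransGen r (p i) x then 1 else 0 with hf
      have hfr : ∀ x y, r x y → f x = f y := by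
        intro x y hxy
        have : Relation.ReflTransGen r (p i) x ↔ Relation.ReflTransGen r (p i) y :=
          ⟨fun h => h.tail hxy, fun h => h.tail (hrs x y hxy)⟩
        simp only [hf, this]
      have h1 : ∑ x, f x * (∑ j, g j • (Pi.single (p j) (1 : ℝ) - Pi.single (q j) 1 : P → ℝ)) x
          = 0 := by rw [hg]; simp
      have h2 : ∑ x, f x * (∑ j, g j • (Pi.single (p j) (1 : ℝ) - Pi.single (q j) 1 : P → ℝ)) x
          = ∑ j, g j * (f (p j) - f (q j)) := by
        simp only [Finset.sum_apply, Pi.smul_apply, Pi.sub_apply, smul_eq_mul, Finset.mul_sum]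
        rw [Finset.sum_comm]
        refine Finset.sum_congr rfl fun j _ => ?_
        have h3 : ∀ x, f x * (g j * ((Pi.single (p j) (1 : ℝ) : P → ℝ) x -
            (Pi.single (q j) (1 : ℝ) : P → ℝ) x)) =
            g j * (f x * (Pi.single (p j) (1 : ℝ) : P → ℝ) x) -
            g j * (f x * (Pi.single (q j) (1 : ℝ) : P → ℝ) x) := by
          intro x; ring
        simp only [h3, Finset.sum_sub_distrib, ← Finset.mul_sum]
        have h4 : ∀ y, ∑ x, f x * (Pi.single y (1 : ℝ) : P → ℝ) x = f y := by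
          intro y
          rw [Finset.sum_eq_single y]
          · simp
          · intro b _ hb
            rw [Pi.single_eq_of_ne hb]; simp
          · intro h; exact absurd (Finset.mem_univ y) h
        rw [h4, h4]; ring
      rw [h2, Finset.sum_eq_single i] at h1
      · have h3 : f (p i) = 1 := by simp only [hf]; rw [if_pos Relation.ReflTransGen.refl]
        have h4 : f (q i) = 0 := by simp only [hf]; rw [if_neg (h i)]
        rw [h3, h4] at h1
        simpa using h1
      · intro j _ hj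
        rcases lt_or_gt_of_ne hj with h3 | h3
        · rw [ih j h3]; simp
        · rw [hfr (p j) (q j) ⟨j, h3, Or.inl ⟨rfl, rfl⟩⟩]; simp
      · intro h; exact absurd (Finset.mem_univ i) h
  have := hli.fintype_card_le_finrank
  simpa using this

/-- data attached to a point `w` crossed before and after time `m'` -/
lemma exists_bcc_link (g h : FreeGroup α) {L U m' : ℕ} (hL : L < m') (hU : m' ≤ U) (hU' : U < d g h)
    {z w : FreeGroup β}
    (hzL : Btw (σ (vx g h L) * o) z (σ (vx g h (L + 1)) * o))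
    (hzU : Btw (σ (vx g h U) * o) z (σ (vx g h (U + 1)) * o))
    (hmax : ∀ l, L + 1 ≤ l → l ≤ U → d z (σ (vx g h l) * o) ≤ d z (σ (vx g h m') * o))
    (hw : Btw z w (σ (vx g h m') * o)) :
    ∃ (f f' : FreeGroup α) (π ρ : Pos σ o), σ f * pe σ o π = w ∧ σ f' * pe σ o ρ = w ∧
      (∀ v, side v f π.1 ≠ side v f' ρ.1 → d (σ v * o) w + d z w ≤ d z (σ (vx g h m') * o)) ∧
      side (vx g h m') f π.1 ≠ side (vx g h m') f' ρ.1 := by
  classical
  set t : ℕ → FreeGroup β := fun l => σ (vx g h l) * o with ht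
  -- the last crossing before `m'`
  have hex1 : ∃ s, L ≤ s ∧ s < m' ∧ Btw (t s) w (t (s + 1)) := by
    rcases hw.or (t (L + 1)) with h1 | h1
    · exact ⟨L, le_rfl, hL, hzL.trans_right h1⟩
    · rcases Nat.lt_or_ge (L + 1) m' with h2 | h2
      · obtain ⟨s, h3, h4, h5⟩ := exists_crossing t h2 h1
        exact ⟨s, by omega, h4, h5⟩
      · have h3 : L + 1 = m' := by omega
        rw [← h3] at h1
        have h4 := h1.eq_of_self
        exact ⟨L, le_rfl, hL, by rw [h4]; exact btw_right _ _⟩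
  have hex2 : ∃ s, m' ≤ s ∧ s ≤ U ∧ Btw (t s) w (t (s + 1)) := by
    rcases hw.or (t U) with h1 | h1
    · exact ⟨U, hU, le_rfl, (hzU.symm.trans_right h1).symm⟩
    · rcases Nat.lt_or_ge m' U with h2 | h2
      · obtain ⟨s, h3, h4, h5⟩ := exists_crossing t h2 h1.symm
        exact ⟨s, h3, h4.le, h5⟩
      · have h3 : m' = U := by omega
        rw [← h3] at h1
        have h4 := h1.eq_of_self
        exact ⟨m', le_rfl, hU, by rw [h4]; exact btw_left _ _⟩
  obtain ⟨P, hPL, hPm, hPc, hPlast⟩ : ∃ P, L ≤ P ∧ P < m' ∧ Btw (t P) w (t (P + 1)) ∧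
      ∀ s, P < s → s < m' → ¬ Btw (t s) w (t (s + 1)) := by
    obtain ⟨s₀, a1, a2, a3⟩ := hex1
    have hne : ((Finset.Ico L m').filter fun s => Btw (t s) w (t (s + 1))).Nonempty :=
      ⟨s₀, by simp only [Finset.mem_filter, Finset.mem_Ico]; exact ⟨⟨a1, a2⟩, a3⟩⟩
    obtain ⟨P, hP, hmx⟩ := Finset.exists_max_image _ id hne
    simp only [Finset.mem_filter, Finset.mem_Ico, id] at hP hmx
    refine ⟨P, hP.1.1, hP.1.2, hP.2, fun s h1 h2 h3 => ?_⟩
    have := hmx s ⟨⟨by omega, h2⟩, h3⟩
    omega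
  obtain ⟨Q, hQm, hQU, hQc, hQfirst⟩ : ∃ Q, m' ≤ Q ∧ Q ≤ U ∧ Btw (t Q) w (t (Q + 1)) ∧
      ∀ s, m' ≤ s → s < Q → ¬ Btw (t s) w (t (s + 1)) := by
    obtain ⟨s₀, a1, a2, a3⟩ := hex2
    have hne : ((Finset.Icc m' U).filter fun s => Btw (t s) w (t (s + 1))).Nonempty :=
      ⟨s₀, by simp only [Finset.mem_filter, Finset.mem_Icc]; exact ⟨⟨a1, a2⟩, a3⟩⟩
    obtain ⟨Q, hQ, hmn⟩ := Finset.exists_min_image _ id hne
    simp only [Finset.mem_filter, Finset.mem_Icc, id] at hQ hmn
    refine ⟨Q, hQ.1.1, hQ.1.2, hQ.2, fun s h1 h2 h3 => ?_⟩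
    have := hmn s ⟨⟨h1, by omega⟩, h3⟩
    omega
  have hQn : Q + 1 ≤ d g h := by omega
  have hstepP : d (vx g h P) (vx g h (P + 1)) = 1 := by
    rw [vx_d (by omega) (by omega)]; omega
  have hstepQ : d (vx g h Q) (vx g h (Q + 1)) = 1 := by
    rw [vx_d (by omega) (by omega)]; omega
  obtain ⟨f, π, hf, hfe⟩ := exists_pos hstepP hPc
  obtain ⟨f', ρ, hf', hfe'⟩ := exists_pos hstepQ hQc
  -- vertices between the two crossings
  have hM : ∀ l, P + 1 ≤ l → l ≤ Q → d (t l) w + d z w ≤ d z (t m') := by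
    intro l h1 h2
    have h3 : ¬ Btw (t l) w (t m') ∨ l = m' := by
      rcases lt_trichotomy l m' with h4 | h4 | h4
      · left
        intro h5
        obtain ⟨s, h6, h7, h8⟩ := exists_crossing t h4 h5
        exact hPlast s (by omega) h7 h8
      · exact Or.inr h4
      · left
        intro h5
        obtain ⟨s, h6, h7, h8⟩ := exists_crossing t h4 h5.symm
        exact hQfirst s h6 (by omega) h8
    have h4 : Btw z w (t l) := by
      rcases h3 with h3 | h3
      · rcases hw.or (t l) with h5 | h5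
        · exact h5
        · exact absurd h5 h3
      · rw [h3]; exact hw
    have h5 := hmax l (by omega) (by omega)
    unfold Btw at h4
    rw [d_comm (t l) w]
    have h6 : d z (t l) ≤ d z (t m') := h5
    omega
  refine ⟨f, f', π, ρ, hf, hf', ?_, ?_⟩
  · intro v hv
    obtain ⟨a, ha1, ha2, ha3, ha4, ha5⟩ : ∃ a, P ≤ a ∧ a ≤ P + 1 ∧ vx g h a ≠ v ∧
        side v f π.1 = nxt v (vx g h a) ∧ (a = P → v = vx g h (P + 1)) := by
      by_cases h1 : vx g h (P + 1) = v
      · have h2 : vx g h P ≠ v := by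
          intro h3
          rw [← h1] at h3
          have := vx_inj (by omega) (by omega) h3
          omega
        exact ⟨P, le_rfl, by omega, h2, side_eq hstepP hfe h2, fun _ => h1.symm⟩
      · exact ⟨P + 1, by omega, le_rfl, h1, side_eq' hstepP hfe h1, fun h => by omega⟩
    obtain ⟨b, hb1, hb2, hb3, hb4, hb5⟩ : ∃ b, Q ≤ b ∧ b ≤ Q + 1 ∧ vx g h b ≠ v ∧
        side v f' ρ.1 = nxt v (vx g h b) ∧ (b = Q + 1 → v = vx g h Q) := by
      by_cases h1 : vx g h Q = v
      · have h2 : vx g h (Q + 1) ≠ v := by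
          intro h3
          rw [← h1] at h3
          have := vx_inj (by omega) (by omega) h3
          omega
        exact ⟨Q + 1, by omega, le_rfl, h2, side_eq' hstepQ hfe' h2, fun _ => h1.symm⟩
      · exact ⟨Q, le_rfl, by omega, h1, side_eq hstepQ hfe' h1, fun h => by omega⟩
    rw [ha4, hb4] at hv
    have h1 := (nxt_ne_iff ha3 hb3).mp hv
    obtain ⟨l, h2, h3, h4⟩ := vx_of_btw (g := g) (h := h) (by omega) (by omega) h1
    have h5 : P + 1 ≤ l := by
      rcases Nat.lt_or_ge P a with h6 | h6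
      · omega
      · have h7 := ha5 (by omega)
        rw [h4] at h7
        have := vx_inj (by omega) (by omega) h7
        omega
    have h6 : l ≤ Q := by
      rcases Nat.lt_or_ge b (Q + 1) with h6 | h6
      · omega
      · have h7 := hb5 (by omega)
        rw [h4] at h7
        have := vx_inj (by omega) (by omega) h7
        omega
    rw [h4]
    exact hM l h5 h6
  · have h1 : vx g h P ≠ vx g h m' := fun h3 => by
      have := vx_inj (by omega) (by omega) h3
      omega
    have h2 : vx g h (Q + 1) ≠ vx g h m' := fun h3 => by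
      have := vx_inj (by omega) (by omega) h3
      omega
    rw [side_eq hstepP hfe h1, side_eq' hstepQ hfe' h2]
    exact (nxt_ne_iff h1 h2).mpr (vx_btw' (by omega) (by omega) hQn)

/-- bounded cancellation -/
theorem bcc_lemma (hσ : Function.Injective σ) (o : FreeGroup β)
    {g k h : FreeGroup α} (hk : Btw g k h) :
    ∃ z, Btw (σ g * o) z (σ h * o) ∧ d (σ k * o) z ≤ bcc σ o := by
  obtain ⟨z, hz1, hz2, hz3⟩ := exists_med (σ g * o) (σ h * o) (σ k * o)
  refine ⟨z, hz1, ?_⟩
  by_cases h1 : k = g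
  · rw [h1] at hz3 ⊢
    rw [hz3.eq_of_self]; simp
  by_cases h2 : k = h
  · rw [h2] at hz2 ⊢
    rw [hz2.eq_of_self]; simp
  set m := d g k with hm
  have hk' := vx_eq hk
  have hm0 : 0 < m := one_le_d (Ne.symm h1)
  have hmn : m < d g h := by
    have := one_le_d h2
    unfold Btw at hk; omega
  set t : ℕ → FreeGroup β := fun l => σ (vx g h l) * o with ht
  have htm : t m = σ k * o := by simp only [ht]; rw [hk']
  have ht0 : t 0 = σ g * o := by simp only [ht]; rw [vx_zero]
  have htn : t (d g h) = σ h * o := by simp only [ht]; rw [vx_last]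
  obtain ⟨L, -, hLm, hL⟩ := exists_crossing t hm0 (by rw [ht0, htm]; exact hz3)
  obtain ⟨U, hUm, hUn, hU⟩ := exists_crossing t hmn (by rw [htn, htm]; exact hz2.symm)
  obtain ⟨m', hm', hmax⟩ := Finset.exists_max_image (Finset.Icc (L + 1) U) (fun l => d z (t l))
    ⟨m, by simp only [Finset.mem_Icc]; omega⟩
  simp only [Finset.mem_Icc] at hm' hmax
  have hmm := hmax m ⟨by omega, hUm⟩
  rw [htm] at hmm
  have hmm' : d (σ k * o) z ≤ d z (t m') := by rw [d_comm]; exact hmm
  refine hmm'.trans ?_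
  -- the links
  set D := d z (t m') with hD
  have hlink : ∀ i : Fin D, ∃ (f f' : FreeGroup α) (π ρ : Pos σ o),
      σ f * pe σ o π = vx z (t m') i ∧ σ f' * pe σ o ρ = vx z (t m') i ∧
      (∀ v, side v f π.1 ≠ side v f' ρ.1 → d (σ v * o) (vx z (t m') i) + i ≤ D) ∧
      side (vx g h m') f π.1 ≠ side (vx g h m') f' ρ.1 := by
    intro i
    have hi : (i : ℕ) ≤ d z (t m') := i.2.le
    obtain ⟨f, f', π, ρ, a1, a2, a3, a4⟩ := exists_bcc_link (σ := σ) (o := o) g h
      (L := L) (U := U) (m' := m') (by omega) (by omega) hUn hL hU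
      (fun l b1 b2 => hmax l ⟨b1, b2⟩) (w := vx z (t m') i) (vx_btw hi)
    refine ⟨f, f', π, ρ, a1, a2, fun v hv => ?_, a4⟩
    have := a3 v hv
    rwa [vx_dist hi] at this
  choose f f' π ρ hf hf' hK hs using hlink
  rw [← card_pos]
  refine card_le_of_links π ρ fun i hreach => ?_
  have key : ∀ π', Relation.ReflTransGen (fun x y => ∃ j, i < j ∧
      ((x = π j ∧ y = ρ j) ∨ (x = ρ j ∧ y = π j))) (π i) π' →
      ∃ x, σ x * pe σ o π' = vx z (t m') i ∧
        side (vx g h m') x π'.1 = side (vx g h m') (f i) (π i).1 := by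
    intro π' hπ'
    have hdi : d (t m') (vx z (t m') i) = D - i := by
      rw [d_comm]; exact vx_dist' (g := z) (h := t m') i.2.le
    induction hπ' with
    | refl => exact ⟨f i, hf i, rfl⟩
    | tail _ hstep ih =>
      obtain ⟨x, hx1, hx2⟩ := ih
      obtain ⟨j, hij, hj⟩ := hstep
      have hij' : (i : ℕ) < j := hij
      have hjD := j.2
      have hbound : ∀ y : FreeGroup α, σ y * vx z (t m') j = vx z (t m') i →
          side (y⁻¹ * vx g h m') (f j) (π j).1 = side (y⁻¹ * vx g h m') (f' j) (ρ j).1 := by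
        intro y hy
        by_contra hne
        have h3 := hK j _ hne
        have h4 : d (σ (y⁻¹ * vx g h m') * o) (vx z (t m') j)
            = d (t m') (vx z (t m') i) := by
          have e1 : σ y * (σ (y⁻¹ * vx g h m') * o) = t m' := by
            simp only [ht]; rw [_root_.map_mul, _root_.map_inv]; group
          rw [← hy, ← d_mul_left (σ y), e1]
        rw [h4, hdi] at h3
        omega
      rcases hj with ⟨hj1, hj2⟩ | ⟨hj1, hj2⟩
      · subst hj1 hj2
        set y := x * (f j)⁻¹ with hy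
        have hy1 : σ y * vx z (t m') j = vx z (t m') i := by
          rw [← hf j, ← hx1, hy, _root_.map_mul, _root_.map_inv]; group
        have hxy : x = y * f j := by rw [hy]; group
        have e : y * (y⁻¹ * vx g h m') = vx g h m' := by group
        refine ⟨y * f' j, ?_, ?_⟩
        · rw [_root_.map_mul, mul_assoc, hf' j, hy1]
        · rw [← hx2, hxy]
          have h5 := hbound y hy1
          have h6 := side_mul y (y⁻¹ * vx g h m') (f j) (π j).1
          have h7 := side_mul y (y⁻¹ * vx g h m') (f' j) (ρ j).1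
          rw [e] at h6 h7
          rw [h6, h7, h5]
      · subst hj1 hj2
        set y := x * (f' j)⁻¹ with hy
        have hy1 : σ y * vx z (t m') j = vx z (t m') i := by
          rw [← hf' j, ← hx1, hy, _root_.map_mul, _root_.map_inv]; group
        have hxy : x = y * f' j := by rw [hy]; group
        have e : y * (y⁻¹ * vx g h m') = vx g h m' := by group
        refine ⟨y * f j, ?_, ?_⟩
        · rw [_root_.map_mul, mul_assoc, hf j, hy1]
        · rw [← hx2, hxy]
          have h5 := hbound y hy1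
          have h6 := side_mul y (y⁻¹ * vx g h m') (f j) (π j).1
          have h7 := side_mul y (y⁻¹ * vx g h m') (f' j) (ρ j).1
          rw [e] at h6 h7
          rw [h6, h7, h5]
  obtain ⟨x, hx1, hx2⟩ := key _ hreach
  have hx3 : x = f' i := by
    rw [← hf' i] at hx1
    exact hσ (mul_right_cancel hx1)
  rw [hx3] at hx2
  exact hs i hx2.symm

lemma bcc_T (hσ : Function.Injective σ) {g k h : FreeGroup α} (hk : Btw g k h) :
    ∃ z, Btw (T σ g) z (T σ h) ∧ d (T σ k) z ≤ Lam σ := bcc_lemma hσ (bp σ) hk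

lemma d_T_superadd (hσ : Function.Injective σ) {g k h : FreeGroup α} (hk : Btw g k h) :
    d (T σ g) (T σ k) + d (T σ k) (T σ h) ≤ d (T σ g) (T σ h) + 2 * Lam σ := by
  obtain ⟨z, h1, h2⟩ := bcc_T hσ hk
  have h3 := d_tri (T σ g) z (T σ k)
  have h4 := d_tri (T σ k) z (T σ h)
  rw [d_comm z (T σ k)] at h3
  unfold Btw at h1
  omega

end Pool.Agent.AscQM
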