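import Pool.Agent.Lib.MP_fa6f87_al.HNN

/-!
Rank one: ascending HNN extensions of `ℤ` are the groups `BS(1, m)`; transfer along isomorphisms.
-/

namespace Pool.Agent.AscQM

/-- The Baumslag–Solitar group `BS(1, m) = ⟨a, t ∣ t a t⁻¹ = a ^ m⟩`
(`a` is the generator `0`, `t` is the generator `1`). -/
abbrev BS1 (m : ℤ) : Type :=
  PresentedGroup ({FreeGroup.of 1 * FreeGroup.of 0 * (FreeGroup.of 1)⁻¹ * (FreeGroup.of 0 ^ m)⁻¹} :
    Set (FreeGroup (Fin 2)))

section BS

variable (m : ℤ) (θ : FreeGroup (Fin 1) →* FreeGroup (Fin 1)) (hθ : Function.Injective θ)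

lemma BS1_rel : (PresentedGroup.of 1 : BS1 m) * PresentedGroup.of 0 * (PresentedGroup.of 1)⁻¹ =
    PresentedGroup.of 0 ^ m := by
  have h : PresentedGroup.mk ({FreeGroup.of 1 * FreeGroup.of 0 * (FreeGroup.of 1)⁻¹ *
      (FreeGroup.of 0 ^ m)⁻¹} : Set (FreeGroup (Fin 2)))
      (FreeGroup.of 1 * FreeGroup.of 0 * (FreeGroup.of 1)⁻¹ * (FreeGroup.of 0 ^ m)⁻¹) = 1 :=
    PresentedGroup.one_of_mem rfl
  simp only [map_mul, map_inv, map_zpow] at h
  exact mul_inv_eq_one.mp h

/-- the two images of a generator -/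
noncomputable def bsGen (i : Fin 2) : AscHNN θ hθ := if i = 0 then HNNExtension.of (FreeGroup.of 0)
  else HNNExtension.t

lemma asc_rel (x : FreeGroup (Fin 1)) :
    (HNNExtension.t : AscHNN θ hθ) * HNNExtension.of x = HNNExtension.of (θ x) * HNNExtension.t := by
  have := HNNExtension.t_mul_of (φ := (Subgroup.topEquiv).trans (MonoidHom.ofInjective hθ))
    (⟨x, Subgroup.mem_top x⟩ : (⊤ : Subgroup (FreeGroup (Fin 1))))
  exact this

variable {m θ}

lemma bsGen_rel (hm : θ (FreeGroup.of 0) = FreeGroup.of 0 ^ m) :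
    ∀ r ∈ ({FreeGroup.of 1 * FreeGroup.of 0 * (FreeGroup.of 1)⁻¹ * (FreeGroup.of 0 ^ m)⁻¹} :
      Set (FreeGroup (Fin 2))), FreeGroup.lift (bsGen θ hθ) r = 1 := by
  rintro r rfl
  simp only [map_mul, map_inv, map_zpow, FreeGroup.lift_apply_of, bsGen]
  simp only [Fin.isValue, one_ne_zero, if_false, if_true]
  rw [asc_rel, hm, map_zpow]
  group

/-- the homomorphism from the presented group -/
noncomputable def bsTo (hm : θ (FreeGroup.of 0) = FreeGroup.of 0 ^ m) : BS1 m →* AscHNN θ hθ :=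
  PresentedGroup.toGroup (bsGen_rel hθ hm)

/-- the homomorphism from the HNN extension -/
noncomputable def bsFrom (hm : θ (FreeGroup.of 0) = FreeGroup.of 0 ^ m) : AscHNN θ hθ →* BS1 m :=
  HNNExtension.lift (FreeGroup.lift fun _ => PresentedGroup.of 0) (PresentedGroup.of 1) (by
    rintro ⟨a, ha⟩
    have key : ∀ x : FreeGroup (Fin 1), (PresentedGroup.of 1 : BS1 m) *
        (FreeGroup.lift fun _ => (PresentedGroup.of 0 : BS1 m)) x * (PresentedGroup.of 1)⁻¹ =
        (FreeGroup.lift fun _ => (PresentedGroup.of 0 : BS1 m)) (θ x) := by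
      intro x
      have : ((MulAut.conj (PresentedGroup.of 1 : BS1 m)).toMonoidHom.comp
          (FreeGroup.lift fun _ => (PresentedGroup.of 0 : BS1 m))) =
          (FreeGroup.lift fun _ => (PresentedGroup.of 0 : BS1 m)).comp θ := by
        ext i
        fin_cases i
        simp only [MonoidHom.comp_apply, FreeGroup.lift_apply_of, MulEquiv.coe_toMonoidHom,
          MulAut.conj_apply]
        change _ = (FreeGroup.lift fun _ => (PresentedGroup.of 0 : BS1 m)) (θ (FreeGroup.of 0))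
        rw [hm, map_zpow, FreeGroup.lift_apply_of, BS1_rel]
      exact DFunLike.congr_fun this x
    have := key a
    rw [mul_inv_eq_iff_eq_mul] at this
    exact this)

lemma bs_equiv (hm : θ (FreeGroup.of 0) = FreeGroup.of 0 ^ m) :
    Nonempty (AscHNN θ hθ ≃* BS1 m) := by
  refine ⟨MonoidHom.toMulEquiv (bsFrom hθ hm) (bsTo hθ hm) ?_ ?_⟩
  · apply HNNExtension.hom_ext
    · ext i
      fin_cases i
      simp [bsFrom, bsTo, bsGen]
    · simp [bsFrom, bsTo, bsGen]
  · apply PresentedGroup.ext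
    intro i
    fin_cases i
    · simp [bsFrom, bsTo, bsGen]
    · simp [bsFrom, bsTo, bsGen]

end BS

section transfer

variable {G H : Type*} [Group G] [Group H]

lemma not_finite_HQM_of_equiv (e : G ≃* H) (h : ¬ FiniteDimensional ℝ (HQM H)) :
    ¬ FiniteDimensional ℝ (HQM G) := by
  intro hfin
  apply h
  have hmem : ∀ φ ∈ HQM H, (φ ∘ e) ∈ HQM G := by
    rintro φ ⟨⟨D, hD⟩, hφ⟩
    refine ⟨⟨D, fun g h => ?_⟩, fun g n => ?_⟩
    · simp only [Function.comp_apply, map_mul]; exact hD _ _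
    · simp only [Function.comp_apply, map_zpow]; exact hφ _ _
  let f : HQM H →ₗ[ℝ] HQM G :=
    { toFun := fun φ => ⟨φ.1 ∘ e, hmem φ.1 φ.2⟩
      map_add' := fun _ _ => rfl
      map_smul' := fun _ _ => rfl }
  refine FiniteDimensional.of_injective f ?_
  intro φ ψ hφψ
  apply Subtype.ext
  funext x
  have h1 : φ.1 ∘ e = ψ.1 ∘ e := congrArg Subtype.val hφψ
  have h2 := congrFun h1 (e.symm x)
  simpa using h2

end transfer

end Pool.Agent.AscQM
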