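import Pool.Agent.Lib.MP_fa6f87_al.Maps

/-!
Transversals, directions, branch vertices: definitions.
-/

namespace Pool.Agent.AscQM

open FreeGroup

variable {α β : Type*} [DecidableEq β]

/-- `R` is a transversal for the action of `σ` on `Y` -/
structure IsTransversal (σ : FreeGroup α →* FreeGroup β) (Y : Set (FreeGroup β))
    (R : Finset (FreeGroup β)) : Prop where
  mem : ∀ ρ ∈ R, ρ ∈ Y
  cover : ∀ y ∈ Y, ∃ g, ∃ ρ ∈ R, y = σ g * ρ
  inj : ∀ ρ ∈ R, ∀ ρ' ∈ R, ∀ g, σ g * ρ = ρ' → ρ = ρ'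

/-- the letters `l` with `v * l ∈ Y` -/
noncomputable def dirs [Fintype β] (Y : Set (FreeGroup β)) (v : FreeGroup β) :
    Finset (β × Bool) := by
  classical exact Finset.univ.filter fun l => v * mk [l] ∈ Y

/-- branch vertices -/
def IsBr (Y : Set (FreeGroup β)) (v : FreeGroup β) : Prop :=
  ∃ x ∈ Y, ∃ y ∈ Y, ∃ z ∈ Y, x ≠ v ∧ y ≠ v ∧ z ≠ v ∧ Btw x v y ∧ Btw y v z ∧ Btw x v z

end Pool.Agent.AscQM
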