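import Pool.Agent.Lib.MP_fa6f87_al.Move
import Pool.Agent.Lib.MP_fa6f87_al.BrDef

/-!
The Euler characteristic of the quotient of an invariant subtree.
-/

namespace Pool.Agent.AscQM

open FreeGroup

section Potential

variable {β : Type*}

/-- the step of the potential construction -/
def potStep (ω : FreeGroup β → β → ℝ) (b : β) : Equiv.Perm (FreeGroup β × ℝ) where
  toFun x := (x.1 * of b, x.2 + ω x.1 b)
  invFun x := (x.1 * (of b)⁻¹, x.2 - ω (x.1 * (of b)⁻¹) b)
  left_inv x := by simp
  right_inv x := by simp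

/-- the right action on `FreeGroup β × ℝ` -/
def potHom (ω : FreeGroup β → β → ℝ) : FreeGroup β →* (Equiv.Perm (FreeGroup β × ℝ))ᵐᵒᵖ :=
  FreeGroup.lift fun b => MulOpposite.op (potStep ω b)

lemma potHom_mul_of (ω : FreeGroup β → β → ℝ) (v : FreeGroup β) (b : β) (x : FreeGroup β × ℝ) :
    (potHom ω (v * of b)).unop x = potStep ω b ((potHom ω v).unop x) := by
  rw [_root_.map_mul, MulOpposite.unop_mul, Equiv.Perm.mul_apply]
  congr 1

lemma potHom_fst (ω : FreeGroup β → β → ℝ) (v : FreeGroup β) (x : FreeGroup β × ℝ) :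
    ((potHom ω v).unop x).1 = x.1 * v := by
  induction v using FreeGroup.induction_on generalizing x with
  | C1 => simp
  | of b =>
    have := potHom_mul_of ω 1 b x
    rw [one_mul] at this
    rw [this]; simp [potStep]
  | inv_of b ih =>
    have h1 : (potHom ω (of b)).unop ((potHom ω (of b)⁻¹).unop x) = x := by
      rw [← Equiv.Perm.mul_apply, ← MulOpposite.unop_mul, ← _root_.map_mul, inv_mul_cancel,
        _root_.map_one]
      rfl
    have h2 := ih ((potHom ω (of b)⁻¹).unop x)
    rw [h1] at h2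
    rw [h2]; simp
  | mul u v hu hv =>
    rw [_root_.map_mul, MulOpposite.unop_mul, Equiv.Perm.mul_apply, hv, hu, mul_assoc]

/-- every function on the edges of the Cayley tree is the difference of a function on the
vertices -/
lemma exists_potential (ω : FreeGroup β → β → ℝ) :
    ∃ f : FreeGroup β → ℝ, ∀ v b, f (v * of b) = f v + ω v b := by
  refine ⟨fun v => ((potHom ω v).unop (1, 0)).2, fun v b => ?_⟩
  show ((potHom ω (v * of b)).unop (1, 0)).2 = _
  rw [potHom_mul_of]
  show ((potHom ω v).unop (1, 0)).2 + ω ((potHom ω v).unop (1, 0)).1 b = _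
  rw [potHom_fst, one_mul]

end Potential

section Hom

variable {α : Type*}

/-- the homomorphism to `ℝ` with given values on the generators, evaluated at `g` -/
noncomputable def hev (χ : α → ℝ) (g : FreeGroup α) : ℝ :=
  Multiplicative.toAdd (FreeGroup.lift (fun a => Multiplicative.ofAdd (χ a)) g)

lemma hev_mul (χ : α → ℝ) (g h : FreeGroup α) : hev χ (g * h) = hev χ g + hev χ h := by
  simp [hev]

lemma hev_one (χ : α → ℝ) : hev χ 1 = 0 := by simp [hev]

lemma hev_inv (χ : α → ℝ) (g : FreeGroup α) : hev χ g⁻¹ = -hev χ g := by simp [hev]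

lemma hev_of (χ : α → ℝ) (a : α) : hev χ (of a) = χ a := by simp [hev]

/-- uniqueness -/
lemma hev_unique {φ : FreeGroup α → ℝ} (hφ : ∀ g h, φ (g * h) = φ g + φ h) (g : FreeGroup α) :
    φ g = hev (fun a => φ (of a)) g := by
  have h1 : φ 1 = 0 := by
    have := hφ 1 1
    rw [mul_one] at this
    linarith
  induction g using FreeGroup.induction_on with
  | C1 => rw [h1, hev_one]
  | of a => rw [hev_of]
  | inv_of a _ =>
    rw [hev_inv, hev_of]
    have := hφ (of a)⁻¹ (of a)
    rw [inv_mul_cancel, h1] at this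
    linarith
  | mul g h hg hh => rw [hφ, hev_mul, hg, hh]

lemma hev_add (χ χ' : α → ℝ) (g : FreeGroup α) : hev (χ + χ') g = hev χ g + hev χ' g := by
  have := hev_unique (φ := fun g => hev χ g + hev χ' g)
    (fun g h => by simp only [hev_mul]; ring) g
  rw [this]
  congr 1
  funext a
  simp [hev_of]

lemma hev_smul (c : ℝ) (χ : α → ℝ) (g : FreeGroup α) : hev (c • χ) g = c * hev χ g := by
  have := hev_unique (φ := fun g => c * hev χ g)
    (fun g h => by simp only [hev_mul]; ring) g
  rw [this]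
  congr 1
  funext a
  simp [hev_of]

end Hom

section Tree

variable {β : Type*} [DecidableEq β]

/-- a function which does not change along the edges of a convex set is constant on it -/
lemma const_of_edges {Y : Set (FreeGroup β)} (hconv : Convex Y) {f : FreeGroup β → ℝ}
    (hf : ∀ v b, v ∈ Y → v * of b ∈ Y → f (v * of b) = f v) {x y : FreeGroup β} (hx : x ∈ Y)
    (hy : y ∈ Y) : f x = f y := by
  have key : ∀ n, ∀ x, x ∈ Y → d x y = n → f x = f y := by
    intro n
    induction n with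
    | zero => intro x _ h; rw [d_eq_zero.mp h]
    | succ n ih =>
      intro x hx h
      have hne : x ≠ y := by rintro rfl; simp at h
      have hz : nxt x y ∈ Y := hconv x hx y hy _ (nxt_btw x y)
      have h1 := ih (nxt x y) hz (by rw [nxt_dist' hne]; omega)
      rw [← h1]
      obtain ⟨a, ha | ha⟩ := exists_letter (nxt_dist hne)
      · rw [ha] at hz ⊢
        exact (hf x a hx hz).symm
      · have e : nxt x y * of a = x := by rw [ha]; group
        have := hf (nxt x y) a hz (by rw [e]; exact hx)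
        rw [e] at this
        exact this
  exact key _ x hx rfl

end Tree

section Euler

variable {α β : Type*} [DecidableEq β]

theorem exists_transversal (σ : FreeGroup α →* FreeGroup β) (Y : Set (FreeGroup β))
    (hinv : ∀ g, ∀ y ∈ Y, σ g * y ∈ Y) (S : Set (FreeGroup β)) (hS : S.Finite)
    (hcov : ∀ y ∈ Y, ∃ g, ∃ s ∈ S, y = σ g * s) : ∃ R, IsTransversal σ Y R := by
  classical
  let r : Setoid (FreeGroup β) :=
    { r := fun x y => ∃ g, y = σ g * x
      iseqv :=
        { refl := fun x => ⟨1, by simp⟩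
          symm := by
            rintro x y ⟨g, rfl⟩
            exact ⟨g⁻¹, by simp⟩
          trans := by
            rintro x y z ⟨g, rfl⟩ ⟨h, rfl⟩
            exact ⟨h * g, by simp [mul_assoc]⟩ } }
  have hr : ∀ x y, Quotient.mk r x = Quotient.mk r y ↔ ∃ g, y = σ g * x := fun x y => by
    rw [Quotient.eq]; rfl
  have hout : ∀ x, ∃ g, x = σ g * (Quotient.mk r x).out := fun x => by
    rw [← hr, Quotient.out_eq]
  have hS' : (S ∩ Y).Finite := hS.inter_of_left Y
  refine ⟨hS'.toFinset.image fun s => (Quotient.mk r s).out, ?_, ?_, ?_⟩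
  · intro ρ hρ
    obtain ⟨s, hs, rfl⟩ := Finset.mem_image.mp hρ
    rw [Set.Finite.mem_toFinset] at hs
    obtain ⟨g, hg⟩ := hout s
    have e : (Quotient.mk r s).out = σ g⁻¹ * s := by
      nth_rw 2 [hg]
      simp
    rw [e]; exact hinv _ _ hs.2
  · intro y hy
    obtain ⟨g, s, hs, rfl⟩ := hcov y hy
    have hsY : s ∈ Y := by
      have := hinv g⁻¹ _ hy
      simpa using this
    obtain ⟨h, hh⟩ := hout s
    refine ⟨g * h, (Quotient.mk r s).out, Finset.mem_image.mpr ⟨s, ?_, rfl⟩, ?_⟩
    · rw [Set.Finite.mem_toFinset]; exact ⟨hs, hsY⟩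
    · rw [_root_.map_mul, mul_assoc, ← hh]
  · intro ρ hρ ρ' hρ' g hg
    obtain ⟨s, hs, rfl⟩ := Finset.mem_image.mp hρ
    obtain ⟨s', hs', rfl⟩ := Finset.mem_image.mp hρ'
    have h1 : Quotient.mk r (Quotient.mk r s).out = Quotient.mk r (Quotient.mk r s').out :=
      (hr _ _).mpr ⟨g, hg.symm⟩
    rw [Quotient.out_eq, Quotient.out_eq] at h1
    rw [h1]

variable {σ : FreeGroup α →* FreeGroup β} {Y : Set (FreeGroup β)} {R : Finset (FreeGroup β)}

omit [DecidableEq β] in
/-- uniqueness of the representation -/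
lemma IsTransversal.unique (hσ : Function.Injective σ) (hR : IsTransversal σ Y R)
    {ρ ρ' : FreeGroup β} (hρ : ρ ∈ R) (hρ' : ρ' ∈ R) {g g' : FreeGroup α}
    (h : σ g * ρ = σ g' * ρ') : ρ = ρ' ∧ g = g' := by
  have h1 : ρ = ρ' := by
    refine hR.inj ρ hρ ρ' hρ' (g'⁻¹ * g) ?_
    rw [_root_.map_mul, mul_assoc, h, _root_.map_inv, inv_mul_cancel_left]
  subst h1
  exact ⟨rfl, hσ (mul_right_cancel h)⟩

omit [DecidableEq β] in
/-- the number of representatives with `ρ * s ∈ Y` -/
lemma card_shift_le [DecidablePred (· ∈ Y)] (hR : IsTransversal σ Y R)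
    (hinv : ∀ g, ∀ y ∈ Y, σ g * y ∈ Y) (s : FreeGroup β) :
    (R.filter fun ρ => ρ * s ∈ Y).card ≤ (R.filter fun ρ => ρ * s⁻¹ ∈ Y).card := by
  have h : ∀ ρ ∈ R.filter (fun ρ => ρ * s ∈ Y), ∃ ρ' ∈ R, ∃ g, ρ * s = σ g * ρ' := by
    intro ρ hρ
    obtain ⟨g, ρ', h1, h2⟩ := hR.cover _ (Finset.mem_filter.mp hρ).2
    exact ⟨ρ', h1, g, h2⟩
  choose! rep hrep g hg using h
  refine Finset.card_le_card_of_injOn rep ?_ ?_
  · intro ρ hρ
    have hρ' : ρ ∈ R.filter (fun ρ => ρ * s ∈ Y) := hρ
    simp only [Finset.coe_filter, Set.mem_ofPred_eq]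
    refine ⟨hrep ρ hρ', ?_⟩
    have e : rep ρ * s⁻¹ = σ (g ρ)⁻¹ * ρ := by
      have := hg ρ hρ'
      rw [_root_.map_inv, eq_inv_mul_iff_mul_eq, ← mul_assoc, ← this, mul_assoc,
        mul_inv_cancel, mul_one]
    rw [e]
    exact hinv _ _ (hR.mem ρ (Finset.mem_filter.mp hρ').1)
  · intro ρ hρ ρ₁ hρ₁ he
    have hρ' : ρ ∈ R.filter (fun ρ => ρ * s ∈ Y) := hρ
    have hρ₁' : ρ₁ ∈ R.filter (fun ρ => ρ * s ∈ Y) := hρ₁
    have h1 := hg ρ hρ'
    have h2 := hg ρ₁ hρ₁'
    rw [← he] at h2
    refine hR.inj ρ (Finset.mem_filter.mp hρ').1 ρ₁ (Finset.mem_filter.mp hρ₁').1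
      (g ρ₁ * (g ρ)⁻¹) ?_
    have h3 : σ (g ρ₁ * (g ρ)⁻¹) * (ρ * s) = ρ₁ * s := by
      rw [h1, h2, _root_.map_mul, _root_.map_inv]; group
    rw [← mul_assoc] at h3
    exact mul_right_cancel h3

variable [Fintype β]

omit [DecidableEq β] in
lemma sum_dirs [DecidablePred (· ∈ Y)] (hR : IsTransversal σ Y R)
    (hinv : ∀ g, ∀ y ∈ Y, σ g * y ∈ Y) :
    ∑ ρ ∈ R, (dirs Y ρ).card =
      2 * ((R ×ˢ (Finset.univ : Finset β)).filter fun p => p.1 * of p.2 ∈ Y).card := by
  have h1 : ∀ ρ, (dirs Y ρ).card = ∑ b : β, ((if ρ * of b ∈ Y then 1 else 0) +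
      (if ρ * (of b)⁻¹ ∈ Y then 1 else 0)) := by
    intro ρ
    unfold dirs
    rw [Finset.card_filter, ← Finset.univ_product_univ, Finset.sum_product]
    refine Finset.sum_congr rfl fun b _ => ?_
    rw [Fintype.sum_bool]
    have e : (mk [(b, false)] : FreeGroup β) = (of b)⁻¹ := by simp [of, invRev]
    rw [e]
    refine congrArg₂ _ ?_ ?_ <;> congr
  have h2 : ∀ b : β, ∑ ρ ∈ R, (if ρ * (of b)⁻¹ ∈ Y then 1 else 0) =
      ∑ ρ ∈ R, (if ρ * of b ∈ Y then 1 else 0) := by
    intro b
    rw [← Finset.card_filter, ← Finset.card_filter]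
    refine le_antisymm ?_ (card_shift_le hR hinv _)
    have := card_shift_le hR hinv (of b)⁻¹
    rwa [inv_inv] at this
  have h3 : ((R ×ˢ (Finset.univ : Finset β)).filter fun p => p.1 * of p.2 ∈ Y).card =
      ∑ b : β, ∑ ρ ∈ R, (if ρ * of b ∈ Y then 1 else 0) := by
    rw [Finset.card_filter, Finset.sum_product_right]
  calc ∑ ρ ∈ R, (dirs Y ρ).card = ∑ ρ ∈ R, ∑ b : β, ((if ρ * of b ∈ Y then 1 else 0) +
      (if ρ * (of b)⁻¹ ∈ Y then 1 else 0)) := Finset.sum_congr rfl fun ρ _ => h1 ρ
    _ = ∑ b : β, ∑ ρ ∈ R, ((if ρ * of b ∈ Y then 1 else 0) +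
      (if ρ * (of b)⁻¹ ∈ Y then 1 else 0)) := Finset.sum_comm
    _ = ∑ b : β, (2 * ∑ ρ ∈ R, (if ρ * of b ∈ Y then 1 else 0)) := by
        refine Finset.sum_congr rfl fun b _ => ?_
        rw [Finset.sum_add_distrib, h2]; ring
    _ = _ := by rw [← Finset.mul_sum, h3]

variable [Fintype α]

theorem card_edges [DecidablePred (· ∈ Y)] (hσ : Function.Injective σ) (hconv : Convex Y)
    (hinv : ∀ g, ∀ y ∈ Y, σ g * y ∈ Y) (hne : Y.Nonempty) (hR : IsTransversal σ Y R) :
    ((R ×ˢ (Finset.univ : Finset β)).filter fun p => p.1 * of p.2 ∈ Y).card + 1 =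
      R.card + Fintype.card α := by
  set E := (R ×ˢ (Finset.univ : Finset β)).filter fun p => p.1 * of p.2 ∈ Y with hE
  -- representatives
  have hRne : Nonempty R := by
    obtain ⟨y, hy⟩ := hne
    obtain ⟨g, ρ, h1, -⟩ := hR.cover y hy
    exact ⟨⟨ρ, h1⟩⟩
  have hcov : ∀ y, y ∈ Y → ∃ ρ : R, ∃ g, y = σ g * ρ := by
    intro y hy
    obtain ⟨g, ρ, h1, h2⟩ := hR.cover y hy
    exact ⟨⟨ρ, h1⟩, g, h2⟩
  choose! rep gg hrep using hcov
  have hrepu : ∀ {y : FreeGroup β} (_ : y ∈ Y) (ρ : R) (g : FreeGroup α), y = σ g * ρ →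
      rep y = ρ ∧ gg y = g := by
    intro y hy ρ g h
    have h1 := hrep y hy
    have h2 := hR.unique hσ (rep y).2 ρ.2 (h1.symm.trans h)
    exact ⟨Subtype.ext h2.1, h2.2⟩
  have hRY : ∀ ρ : R, (ρ : FreeGroup β) ∈ Y := fun ρ => hR.mem _ ρ.2
  have hEm : ∀ e : E, e.1.1 ∈ R ∧ e.1.1 * of e.1.2 ∈ Y := by
    intro e
    have := Finset.mem_filter.mp e.2
    exact ⟨(Finset.mem_product.mp this.1).1, this.2⟩
  -- the difference map
  let D : ((R → ℝ) × (α → ℝ)) →ₗ[ℝ] (E → ℝ) :=
    { toFun := fun x e => x.1 (rep (e.1.1 * of e.1.2)) + hev x.2 (gg (e.1.1 * of e.1.2)) -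
        x.1 ⟨e.1.1, (hEm e).1⟩
      map_add' := by
        intro x y
        funext e
        simp only [Prod.fst_add, Prod.snd_add, Pi.add_apply, hev_add]
        ring
      map_smul' := by
        intro c x
        funext e
        simp only [Prod.smul_fst, Prod.smul_snd, Pi.smul_apply, smul_eq_mul, hev_smul,
          RingHom.id_apply]
        ring }
  -- the function on `Y` belonging to a pair
  let F : ((R → ℝ) × (α → ℝ)) → FreeGroup β → ℝ := fun x y => x.1 (rep y) + hev x.2 (gg y)
  have hFR : ∀ x (ρ : R), F x ρ = x.1 ρ := by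
    intro x ρ
    have h := hrepu (hRY ρ) ρ 1 (by simp)
    simp only [F, h.1, h.2, hev_one, add_zero]
  have hFeq : ∀ x g y, y ∈ Y → F x (σ g * y) = F x y + hev x.2 g := by
    intro x g y hy
    have h := hrepu (hinv g y hy) (rep y) (g * gg y) (by
      rw [_root_.map_mul, mul_assoc, ← hrep y hy])
    simp only [F, h.1, h.2, hev_mul]
    ring
  have hDF : ∀ x (e : E), D x e = F x (e.1.1 * of e.1.2) - F x e.1.1 := by
    intro x e
    rw [hFR x ⟨e.1.1, (hEm e).1⟩]
    rfl
  -- edges of `Y` are translates of edges in `E`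
  have hedge : ∀ v b, v ∈ Y → v * of b ∈ Y → ((rep v : FreeGroup β), b) ∈ E := by
    intro v b hv hvb
    rw [hE, Finset.mem_filter, Finset.mem_product]
    refine ⟨⟨(rep v).2, Finset.mem_univ _⟩, ?_⟩
    have e1 : (rep v : FreeGroup β) * of b = σ (gg v)⁻¹ * (v * of b) := by
      have e0 := hrep v hv
      calc (rep v : FreeGroup β) * of b = σ (gg v)⁻¹ * (σ (gg v) * rep v * of b) := by
            rw [_root_.map_inv]; group
        _ = σ (gg v)⁻¹ * (v * of b) := by rw [← e0]
    show (rep v : FreeGroup β) * of b ∈ Y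
    rw [e1]
    exact hinv _ _ hvb
  -- surjectivity
  have hsurj : Function.Surjective D := by
    intro ω
    let ω' : FreeGroup β → β → ℝ := fun v b =>
      if h : v ∈ Y ∧ v * of b ∈ Y then ω ⟨((rep v : FreeGroup β), b), hedge v b h.1 h.2⟩ else 0
    obtain ⟨f, hf⟩ := exists_potential ω'
    have hω' : ∀ g v b, v ∈ Y → v * of b ∈ Y → ω' (σ g * v) b = ω' v b := by
      intro g v b hv hvb
      have h1 : σ g * v ∈ Y := hinv g v hv
      have h2 : σ g * v * of b ∈ Y := by rw [mul_assoc]; exact hinv g _ hvb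
      have h3 : rep (σ g * v) = rep v := (hrepu h1 (rep v) (g * gg v) (by
        rw [_root_.map_mul, mul_assoc, ← hrep v hv])).1
      simp only [ω', dif_pos (And.intro h1 h2), dif_pos (And.intro hv hvb)]
      congr 1
      apply Subtype.ext
      simp only [h3]
    obtain ⟨y₀, hy₀⟩ := hne
    -- the cocycle
    let χ : FreeGroup α → ℝ := fun g => f (σ g * y₀) - f y₀
    have hχ : ∀ g y, y ∈ Y → f (σ g * y) = f y + χ g := by
      intro g y hy
      have h1 := const_of_edges hconv (f := fun v => f (σ g * v) - f v) (by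
        intro v b hv hvb
        have e1 : f (σ g * (v * of b)) = f (σ g * v) + ω' (σ g * v) b := by
          rw [← mul_assoc]; exact hf _ _
        simp only [e1, hf v b, hω' g v b hv hvb]
        ring) hy hy₀
      simp only [χ]
      linarith
    have hχmul : ∀ g h, χ (g * h) = χ g + χ h := by
      intro g h
      have h1 := hχ (g * h) y₀ hy₀
      have h2 := hχ g (σ h * y₀) (hinv h _ hy₀)
      have h3 := hχ h y₀ hy₀
      rw [_root_.map_mul, mul_assoc, h2, h3] at h1
      linarith
    have hχhev := hev_unique hχmul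
    refine ⟨(fun ρ => f ρ, fun a => χ (of a)), ?_⟩
    funext e
    have hFf : ∀ y, y ∈ Y → F (fun ρ => f ρ, fun a => χ (of a)) y = f y := by
      intro y hy
      have h1 : f y = f (rep y) + χ (gg y) := by
        have h2 := hχ (gg y) (rep y) (hRY _)
        rwa [← hrep y hy] at h2
      simp only [F]
      rw [h1, hχhev (gg y)]
    rw [hDF, hFf _ (hEm e).2, hFf _ (hR.mem _ (hEm e).1), hf]
    have h4 : e.1.1 ∈ Y ∧ e.1.1 * of e.1.2 ∈ Y := ⟨hR.mem _ (hEm e).1, (hEm e).2⟩
    have h5 : rep e.1.1 = ⟨e.1.1, (hEm e).1⟩ := (hrepu h4.1 ⟨e.1.1, (hEm e).1⟩ 1 (by simp)).1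
    simp only [ω', dif_pos h4]
    rw [add_sub_cancel_left]
    congr 1
    apply Subtype.ext
    simp only [h5]
  -- the kernel
  have hker : Module.finrank ℝ (LinearMap.ker D) = 1 := by
    rw [finrank_eq_one_iff']
    refine ⟨⟨((fun _ => 1), 0), ?_⟩, ?_, ?_⟩
    · rw [LinearMap.mem_ker]
      funext e
      rw [hDF]
      have h1 : ∀ y, F ((fun _ => 1), 0) y = 1 := by
        intro y
        have h2 : hev (0 : α → ℝ) (gg y) = 0 := by
          have := hev_smul 0 (0 : α → ℝ) (gg y)
          rwa [zero_smul, zero_mul] at this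
        simp only [F, h2, add_zero]
      rw [h1, h1]; simp
    · intro h
      have h1 := congrArg (fun x => x.1.1 (Classical.choice hRne)) h
      simp at h1
    · rintro ⟨x, hx⟩
      rw [LinearMap.mem_ker] at hx
      have hconst : ∀ {y z}, y ∈ Y → z ∈ Y → F x y = F x z := by
        intro y z hy hz
        refine const_of_edges hconv ?_ hy hz
        intro v b hv hvb
        have h1 := congrFun hx ⟨((rep v : FreeGroup β), b), hedge v b hv hvb⟩
        rw [hDF] at h1
        simp only [Pi.zero_apply] at h1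
        have h2 : F x v = F x (rep v) + hev x.2 (gg v) := by
          have h4 := hFeq x (gg v) _ (hRY (rep v))
          rwa [← hrep v hv] at h4
        have h3 : F x (v * of b) = F x ((rep v : FreeGroup β) * of b) + hev x.2 (gg v) := by
          have h5 := hedge v b hv hvb
          rw [hE, Finset.mem_filter] at h5
          have h4 := hFeq x (gg v) _ h5.2
          rwa [← mul_assoc, ← hrep v hv] at h4
        rw [h2, h3]
        linarith
      refine ⟨x.1 (Classical.choice hRne), ?_⟩
      apply Subtype.ext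
      apply Prod.ext
      · funext ρ
        have := hconst (hRY (Classical.choice hRne)) (hRY ρ)
        rw [hFR, hFR] at this
        simpa using this
      · funext a
        have h1 := hFeq x (of a) _ (hRY (Classical.choice hRne))
        rw [hconst (hinv (of a) _ (hRY (Classical.choice hRne))) (hRY (Classical.choice hRne)),
          hev_of] at h1
        have : x.2 a = 0 := by linarith
        simp [this]
  have hrn := LinearMap.finrank_range_add_finrank_ker D
  rw [hker, LinearMap.range_eq_top.mpr hsurj, finrank_top] at hrn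
  have h1 : Module.finrank ℝ (E → ℝ) = E.card := by
    rw [Module.finrank_fintype_fun_eq_card, Fintype.card_coe]
  have h2 : Module.finrank ℝ ((R → ℝ) × (α → ℝ)) = R.card + Fintype.card α := by
    rw [Module.finrank_prod, Module.finrank_fintype_fun_eq_card,
      Module.finrank_fintype_fun_eq_card, Fintype.card_coe]
  rw [h1, h2] at hrn
  exact hrn

theorem euler (hσ : Function.Injective σ) (hconv : Convex Y)
    (hinv : ∀ g, ∀ y ∈ Y, σ g * y ∈ Y)
    (hne : Y.Nonempty) (hR : IsTransversal σ Y R) :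
    ∑ ρ ∈ R, (dirs Y ρ).card + 2 = 2 * R.card + 2 * Fintype.card α := by
  classical
  rw [sum_dirs hR hinv]
  have := card_edges hσ hconv hinv hne hR
  omega

end Euler

end Pool.Agent.AscQM
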