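import Pool.Agent.Lib.MP_fa6f87_al.Core
import Pool.Agent.Lib.MP_fa6f87_al.Euler

/-!
Branch vertices of hulls: consequences of the Euler characteristic count.
-/

namespace Pool.Agent.AscQM

open FreeGroup

set_option linter.unusedSectionVars false

section BranchBasic
variable {β : Type*} [DecidableEq β] [Fintype β]

lemma mem_dirs {Y : Set (FreeGroup β)} {v : FreeGroup β} {l : β × Bool} :
    l ∈ dirs Y v ↔ v * mk [l] ∈ Y := by
  unfold dirs
  simp

lemma exists_dir {Y : Set (FreeGroup β)} {v w : FreeGroup β} (hw : w ∈ Y) (hd : d v w = 1) :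
    ∃ l ∈ dirs Y v, w = v * mk [l] := by
  obtain ⟨l, hl⟩ := exists_letter' hd
  exact ⟨l, mem_dirs.mpr (hl ▸ hw), hl⟩

lemma exists_dir_nxt {Y : Set (FreeGroup β)} (hY : Convex Y) {v w : FreeGroup β} (hv : v ∈ Y)
    (hw : w ∈ Y) (hne : v ≠ w) : ∃ l ∈ dirs Y v, nxt v w = v * mk [l] :=
  exists_dir (hY v hv w hw _ (nxt_btw v w)) (nxt_dist hne)

lemma IsBr.mem_conv {Y : Set (FreeGroup β)} (hY : Convex Y) {v : FreeGroup β} (h : IsBr Y v) :
    v ∈ Y := by
  obtain ⟨x, hx, y, hy, z, hz, -, -, -, h1, -, -⟩ := h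
  exact hY x hx y hy v h1

lemma IsBr.three_le {Y : Set (FreeGroup β)} (hY : Convex Y) {v : FreeGroup β} (h : IsBr Y v) :
    3 ≤ (dirs Y v).card := by
  have hv := h.mem_conv hY
  obtain ⟨x, hx, y, hy, z, hz, hx', hy', hz', h1, h2, h3⟩ := h
  obtain ⟨l1, hl1, e1⟩ := exists_dir_nxt hY hv hx hx'.symm
  obtain ⟨l2, hl2, e2⟩ := exists_dir_nxt hY hv hy hy'.symm
  obtain ⟨l3, hl3, e3⟩ := exists_dir_nxt hY hv hz hz'.symm
  have n12 : l1 ≠ l2 := by
    rintro rfl
    exact (nxt_ne_iff hx' hy').mpr h1 (e1.trans e2.symm)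
  have n23 : l2 ≠ l3 := by
    rintro rfl
    exact (nxt_ne_iff hy' hz').mpr h2 (e2.trans e3.symm)
  have n13 : l1 ≠ l3 := by
    rintro rfl
    exact (nxt_ne_iff hx' hz').mpr h3 (e1.trans e3.symm)
  calc 3 = ({l1, l2, l3} : Finset (β × Bool)).card := by
        rw [Finset.card_eq_three.mpr ⟨l1, l2, l3, n12, n13, n23, rfl⟩]
    _ ≤ _ := Finset.card_le_card (by
        intro l hl
        simp only [Finset.mem_insert, Finset.mem_singleton] at hl
        rcases hl with rfl | rfl | rfl <;> assumption)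

lemma btw_of_letters {v : FreeGroup β} {l l' : β × Bool} (h : l ≠ l') :
    Btw (v * mk [l]) v (v * mk [l']) := by
  have h1 : d v (v * mk [l]) = 1 := d_mul_of v l
  have h2 : d v (v * mk [l']) = 1 := d_mul_of v l'
  have n1 : v * mk [l] ≠ v := by
    intro h; rw [h, d_self] at h1; omega
  have n2 : v * mk [l'] ≠ v := by
    intro h; rw [h, d_self] at h2; omega
  refine (nxt_ne_iff n1 n2).mp ?_
  rw [← nxt_unique h1 (btw_right _ _), ← nxt_unique h2 (btw_right _ _)]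
  intro h3
  exact h (mk_singleton_injective (mul_left_cancel h3))

lemma isBr_of_three_le {Y : Set (FreeGroup β)} {v : FreeGroup β} (h : 3 ≤ (dirs Y v).card) :
    IsBr Y v := by
  obtain ⟨s, hs, hs3⟩ := Finset.exists_subset_card_eq h
  obtain ⟨l1, l2, l3, n12, n13, n23, rfl⟩ := Finset.card_eq_three.mp hs3
  have m1 : v * mk [l1] ∈ Y := mem_dirs.mp (hs (by simp))
  have m2 : v * mk [l2] ∈ Y := mem_dirs.mp (hs (by simp))
  have m3 : v * mk [l3] ∈ Y := mem_dirs.mp (hs (by simp))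
  have hne : ∀ l : β × Bool, v * mk [l] ≠ v := by
    intro l h
    have := d_mul_of v l
    rw [h, d_self] at this
    omega
  exact ⟨_, m1, _, m2, _, m3, hne _, hne _, hne _, btw_of_letters n12, btw_of_letters n23,
    btw_of_letters n13⟩

end BranchBasic

section Branch
variable {α β : Type*} [DecidableEq α] [Fintype α] [DecidableEq β] [Fintype β]

theorem Hull.exists_transversal (σ : FreeGroup α →* FreeGroup β) :
    ∃ R, IsTransversal σ (Hull σ) R := by
  refine Pool.Agent.AscQM.exists_transversal σ (Hull σ) (fun g y hy => Hull.smul hy g)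
    {s | d (bp σ) s ≤ lam σ} (finite_ball _ _) ?_
  intro y hy
  obtain ⟨g, hg⟩ := Hull.near hy
  refine ⟨g, (σ g)⁻¹ * y, ?_, by group⟩
  show d (bp σ) ((σ g)⁻¹ * y) ≤ lam σ
  rw [d_comm, d_inv_left, d_comm]
  exact hg

lemma Hull.two_le_dirs {σ : FreeGroup α →* FreeGroup β} {v : FreeGroup β} (hv : v ∈ Hull σ) :
    2 ≤ (dirs (Hull σ) v).card := by
  obtain ⟨g, h, hg, hh, hb⟩ := Hull.orbit hv v 1
  have n1 : σ g * v ≠ v := by
    intro h; rw [h, d_self] at hg; omega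
  have n2 : σ h * v ≠ v := by
    intro h; rw [h, d_self] at hh; omega
  obtain ⟨l1, hl1, e1⟩ := exists_dir_nxt Hull.convex hv (Hull.smul hv g) n1.symm
  obtain ⟨l2, hl2, e2⟩ := exists_dir_nxt Hull.convex hv (Hull.smul hv h) n2.symm
  have n12 : l1 ≠ l2 := by
    rintro rfl
    exact (nxt_ne_iff n1 n2).mpr hb (e1.trans e2.symm)
  calc 2 = ({l1, l2} : Finset (β × Bool)).card := (Finset.card_pair n12).symm
    _ ≤ _ := Finset.card_le_card (by
        intro l hl
        simp only [Finset.mem_insert, Finset.mem_singleton] at hl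
        rcases hl with rfl | rfl <;> assumption)

lemma Hull.mul_mem_iff {σ : FreeGroup α →* FreeGroup β} (g : FreeGroup α) (ρ : FreeGroup β)
    (w : FreeGroup β) : σ g * ρ * w ∈ Hull σ ↔ ρ * w ∈ Hull σ := by
  rw [mul_assoc]; exact Hull.smul_iff g

lemma Hull.dirs_smul {σ : FreeGroup α →* FreeGroup β} (g : FreeGroup α) (ρ : FreeGroup β) :
    dirs (Hull σ) (σ g * ρ) = dirs (Hull σ) ρ := by
  ext l
  rw [mem_dirs, mem_dirs, Hull.mul_mem_iff]

lemma Hull.isBr_smul {σ : FreeGroup α →* FreeGroup β} (g : FreeGroup α) (ρ : FreeGroup β) :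
    IsBr (Hull σ) (σ g * ρ) ↔ IsBr (Hull σ) ρ := by
  constructor
  · intro h
    have := h.three_le Hull.convex
    rw [Hull.dirs_smul] at this
    exact isBr_of_three_le this
  · intro h
    have := h.three_le Hull.convex
    rw [← Hull.dirs_smul g] at this
    exact isBr_of_three_le this

/-- The Euler count for the hull with all terms nonnegative. -/
lemma Hull.euler [Nonempty α] {σ : FreeGroup α →* FreeGroup β}
    (hσ : Function.Injective σ) {R : Finset (FreeGroup β)} (hR : IsTransversal σ (Hull σ) R) :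
    ∑ ρ ∈ R, ((dirs (Hull σ) ρ).card - 2) = 2 * (Fintype.card α - 1) := by
  have h1 := Pool.Agent.AscQM.euler hσ Hull.convex (fun g y hy => Hull.smul hy g)
    (Hull.nonempty hσ) hR
  have h2 : ∑ ρ ∈ R, ((dirs (Hull σ) ρ).card - 2) + 2 * R.card =
      ∑ ρ ∈ R, (dirs (Hull σ) ρ).card := by
    rw [mul_comm, ← smul_eq_mul, ← Finset.sum_const, ← Finset.sum_add_distrib]
    refine Finset.sum_congr rfl fun ρ hρ => ?_
    have := Hull.two_le_dirs (hR.mem ρ hρ)
    omega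
  have h3 : 0 < Fintype.card α := Fintype.card_pos
  omega

/-- few orbits of branch vertices -/
theorem Hull.branch_orbits [Nonempty α] {σ : FreeGroup α →* FreeGroup β}
    (hσ : Function.Injective σ) :
    ∃ R : Finset (FreeGroup β), R.card ≤ 2 * (Fintype.card α - 1) ∧
      ∀ v, IsBr (Hull σ) v → ∃ g, ∃ ρ ∈ R, v = σ g * ρ := by
  classical
  obtain ⟨R, hR⟩ := Hull.exists_transversal σ
  refine ⟨R.filter fun ρ => IsBr (Hull σ) ρ, ?_, ?_⟩
  · rw [← Hull.euler hσ hR]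
    calc (R.filter fun ρ => IsBr (Hull σ) ρ).card
        = ∑ ρ ∈ R.filter (fun ρ => IsBr (Hull σ) ρ), 1 := by simp
      _ ≤ ∑ ρ ∈ R.filter (fun ρ => IsBr (Hull σ) ρ), ((dirs (Hull σ) ρ).card - 2) := by
        refine Finset.sum_le_sum fun ρ hρ => ?_
        have := (Finset.mem_filter.mp hρ).2.three_le Hull.convex
        omega
      _ ≤ ∑ ρ ∈ R, ((dirs (Hull σ) ρ).card - 2) :=
        Finset.sum_le_sum_of_subset (Finset.filter_subset _ _)
  · intro v hv
    obtain ⟨g, ρ, hρ, rfl⟩ := hR.cover v (hv.mem_conv Hull.convex)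
    exact ⟨g, ρ, Finset.mem_filter.mpr ⟨hρ, (Hull.isBr_smul g ρ).mp hv⟩, rfl⟩

/-- few orbits of directions at branch vertices -/
theorem Hull.branch_dirs [Nonempty α] {σ : FreeGroup α →* FreeGroup β}
    (hσ : Function.Injective σ) :
    ∃ R : Finset (FreeGroup β × FreeGroup β), R.card ≤ 6 * (Fintype.card α - 1) ∧
      ∀ v w, IsBr (Hull σ) v → w ∈ Hull σ → d v w = 1 →
        ∃ g, ∃ ρ ∈ R, v = σ g * ρ.1 ∧ w = σ g * ρ.2 := by
  classical
  obtain ⟨R, hR⟩ := Hull.exists_transversal σ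
  refine ⟨(R.filter fun ρ => IsBr (Hull σ) ρ).biUnion fun ρ =>
    (dirs (Hull σ) ρ).image fun l => (ρ, ρ * mk [l]), ?_, ?_⟩
  · refine Finset.card_biUnion_le.trans ?_
    have h6 : 6 * (Fintype.card α - 1) = 3 * ∑ ρ ∈ R, ((dirs (Hull σ) ρ).card - 2) := by
      rw [Hull.euler hσ hR]; ring
    rw [h6, Finset.mul_sum]
    calc ∑ ρ ∈ R.filter (fun ρ => IsBr (Hull σ) ρ),
          ((dirs (Hull σ) ρ).image fun l => (ρ, ρ * mk [l])).card
          ≤ ∑ ρ ∈ R.filter (fun ρ => IsBr (Hull σ) ρ), 3 * ((dirs (Hull σ) ρ).card - 2) := by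
            refine Finset.sum_le_sum fun ρ hρ => ?_
            have h1 := (Finset.mem_filter.mp hρ).2.three_le Hull.convex
            have h2 := Finset.card_image_le (s := dirs (Hull σ) ρ) (f := fun l => (ρ, ρ * mk [l]))
            omega
      _ ≤ ∑ ρ ∈ R, 3 * ((dirs (Hull σ) ρ).card - 2) :=
        Finset.sum_le_sum_of_subset (Finset.filter_subset _ _)
  · intro v w hv hw hd
    obtain ⟨g, ρ, hρ, rfl⟩ := hR.cover v (hv.mem_conv Hull.convex)
    obtain ⟨l, hl, rfl⟩ := exists_dir hw hd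
    rw [Hull.dirs_smul] at hl
    refine ⟨g, (ρ, ρ * mk [l]), ?_, rfl, mul_assoc _ _ _⟩
    rw [Finset.mem_biUnion]
    exact ⟨ρ, Finset.mem_filter.mpr ⟨hρ, (Hull.isBr_smul g ρ).mp hv⟩,
      Finset.mem_image_of_mem _ hl⟩

theorem Hull.exists_br {σ : FreeGroup α →* FreeGroup β} (hσ : Function.Injective σ)
    (h2 : 2 ≤ Fintype.card α) : ∃ v, IsBr (Hull σ) v := by
  have hne : Nonempty α := Fintype.card_pos_iff.mp (by omega)
  obtain ⟨R, hR⟩ := Hull.exists_transversal σ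
  have h1 := Hull.euler hσ hR
  by_contra hcon
  push Not at hcon
  have h3 : ∑ ρ ∈ R, ((dirs (Hull σ) ρ).card - 2) = 0 := by
    refine Finset.sum_eq_zero fun ρ _ => ?_
    by_contra h4
    exact hcon ρ (isBr_of_three_le (by omega))
  omega

/-- if finitely many orbits of `θ` cover everything then `θ` is surjective -/
theorem surjective_of_cofinite {θ : FreeGroup α →* FreeGroup α} (hθ : Function.Injective θ)
    (h2 : 2 ≤ Fintype.card α) (S : Set (FreeGroup α)) (hS : S.Finite)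
    (hcov : ∀ y, ∃ g, ∃ s ∈ S, y = θ g * s) : Function.Surjective θ := by
  classical
  obtain ⟨R, hR⟩ := exists_transversal θ Set.univ (fun _ _ _ => Set.mem_univ _) S hS
    (fun y _ => hcov y)
  have h1 := euler hθ convex_univ (fun _ _ _ => Set.mem_univ _) ⟨1, Set.mem_univ _⟩ hR
  have h3 : ∀ ρ : FreeGroup α, (dirs (Set.univ : Set (FreeGroup α)) ρ).card =
      2 * Fintype.card α := by
    intro ρ
    have : dirs (Set.univ : Set (FreeGroup α)) ρ = Finset.univ := by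
      ext l; simp [mem_dirs]
    rw [this, Finset.card_univ, Fintype.card_prod, Fintype.card_bool, mul_comm]
  simp only [h3, Finset.sum_const, smul_eq_mul] at h1
  have h4 : R.card = 1 := by
    obtain ⟨k, hk⟩ := Nat.exists_eq_add_of_le h2
    rw [hk] at h1
    have h5 : (2 * (1 + k)) * R.card = 2 * (1 + k) := by
      ring_nf at h1 ⊢
      omega
    exact Nat.eq_of_mul_eq_mul_left (by omega : 0 < 2 * (1 + k)) (by rw [h5]; ring)
  obtain ⟨ρ, hρ⟩ := Finset.card_eq_one.mp h4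
  obtain ⟨g0, ρ0, hρ0, h0⟩ := hR.cover 1 (Set.mem_univ _)
  rw [hρ, Finset.mem_singleton] at hρ0
  subst hρ0
  have e0 : ρ0 = (θ g0)⁻¹ := (inv_eq_of_mul_eq_one_right h0.symm).symm
  intro y
  obtain ⟨g, ρ', hρ', hy⟩ := hR.cover y (Set.mem_univ _)
  rw [hρ, Finset.mem_singleton] at hρ'
  subst hρ'
  exact ⟨g * g0⁻¹, by rw [_root_.map_mul, _root_.map_inv, hy, e0]⟩

/-- a map between free groups whose hull (with cofinite action) is strictly smaller has smaller
rank -/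
theorem card_lt_of_hull {γ : Type*} [DecidableEq γ] [Fintype γ] [Nonempty γ]
    {σ : FreeGroup α →* FreeGroup β} (hσ : Function.Injective σ)
    {τ : FreeGroup γ →* FreeGroup α} (hτ : Function.Injective τ)
    {X : Set (FreeGroup β)} (hX : X = Hull σ) {y m : FreeGroup β} (hy : y ∈ X) (hm : m ∈ X)
    (hym : ∀ g, y ≠ σ g * m)
    (hD : ∀ g, g ∈ τ.range ↔ ∀ h, ¬ Btw y (σ h * m) (σ g * y)) :
    Fintype.card γ < Fintype.card α := by
  classical
  subst hX
  -- `α` is nonempty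
  have hα : Nonempty α := by
    obtain ⟨c⟩ := ‹Nonempty γ›
    by_contra hemp
    rw [not_nonempty_iff] at hemp
    have h1 : τ (of c) = 1 := Subsingleton.elim _ _
    rw [← _root_.map_one τ] at h1
    exact of_ne_one c (hτ h1)
  set C : Set (FreeGroup β) := {u | u ∈ Hull σ ∧ ∀ h, ¬ Btw y (σ h * m) u} with hCdef
  have hCconv : Convex C := by
    rintro u ⟨hu1, hu2⟩ u' ⟨hu1', hu2'⟩ z hz
    refine ⟨Hull.convex u hu1 u' hu1' z hz, fun h hb => ?_⟩
    by_cases hzp : σ h * m = z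
    · rw [← hzp] at hz
      rcases hz.or y with h1 | h1
      · exact hu2 h h1.symm
      · exact hu2' h h1
    · rcases hb.or u with h1 | h1
      · exact hu2 h h1
      · have h2 : Btw (σ h * m) z u' := hz.trans_left' h1
        exact hu2' h (hb.join h2 hzp).1
  have hsub : Hull (σ.comp τ) ⊆ C := by
    refine Hull.subset_of_convex hCconv (y := y) fun k => ?_
    refine ⟨Hull.smul hy (τ k), ?_⟩
    exact (hD (τ k)).mp ⟨k, rfl⟩
  have hdiff : ∀ u g, u ∈ C → σ g * u ∈ C → g ∈ τ.range := by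
    rintro u g ⟨hu1, hu2⟩ ⟨hu1', hu2'⟩
    rw [hD]
    intro h hb
    rcases hb.or (σ g * u) with h1 | h1
    · exact hu2' h h1
    · have h3 := h1.mul_left (σ g)⁻¹
      rw [inv_mul_cancel_left, inv_mul_cancel_left] at h3
      have e : (σ g)⁻¹ * (σ h * m) = σ (g⁻¹ * h) * m := by
        rw [_root_.map_mul, _root_.map_inv, mul_assoc]
      rw [e] at h3
      exact hu2 _ h3.symm
  have hστ : Function.Injective (σ.comp τ) := hσ.comp hτ
  obtain ⟨R, hR⟩ := Hull.exists_transversal σ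
  obtain ⟨Q, hQ⟩ := Hull.exists_transversal (σ.comp τ)
  have eR := Hull.euler hσ hR
  have eQ := Hull.euler hστ hQ
  -- representatives
  have hrep : ∀ ρ : FreeGroup β, ∃ ρ' : FreeGroup β, ρ ∈ Q → ρ' ∈ R ∧ ∃ g, ρ = σ g * ρ' := by
    intro ρ
    by_cases hρ : ρ ∈ Q
    · obtain ⟨g, ρ', hρ', e⟩ := hR.cover ρ (hsub (hQ.mem ρ hρ)).1
      exact ⟨ρ', fun _ => ⟨hρ', g, e⟩⟩
    · exact ⟨1, fun h => absurd h hρ⟩
  choose rep hrep using hrep
  have hinj : Set.InjOn rep Q := by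
    intro ρ₁ h1 ρ₂ h2 he
    obtain ⟨-, g₁, e₁⟩ := hrep ρ₁ h1
    obtain ⟨-, g₂, e₂⟩ := hrep ρ₂ h2
    have e3 : ρ₂ = σ (g₂ * g₁⁻¹) * ρ₁ := by
      rw [_root_.map_mul, _root_.map_inv]
      conv_rhs => rw [e₁]
      rw [e₂, he]; group
    obtain ⟨k, hk⟩ := hdiff ρ₁ (g₂ * g₁⁻¹) (hsub (hQ.mem ρ₁ h1)) (by
      rw [← e3]; exact hsub (hQ.mem ρ₂ h2))
    refine hQ.inj ρ₁ h1 ρ₂ h2 k ?_
    rw [MonoidHom.comp_apply, hk, ← e3]
  have hle : ∀ ρ ∈ Q, (dirs (Hull (σ.comp τ)) ρ) ⊆ (dirs (Hull σ) (rep ρ)) := by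
    intro ρ hρ l hl
    obtain ⟨-, g, e⟩ := hrep ρ hρ
    rw [mem_dirs] at hl ⊢
    have h1 := Hull.comp_subset τ hl
    rw [e] at h1
    exact (Hull.mul_mem_iff g (rep ρ) _).mp h1
  -- a point of the small hull where the big hull leaves it
  have hmC : m ∉ Hull (σ.comp τ) := by
    intro h
    refine (hsub h).2 1 ?_
    rw [_root_.map_one, one_mul]
    exact btw_right _ _
  obtain ⟨v, hv, l, hl1, hl2⟩ : ∃ v ∈ Hull (σ.comp τ), ∃ l : β × Bool,
      v * mk [l] ∈ Hull σ ∧ v * mk [l] ∉ Hull (σ.comp τ) := by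
    have key : ∀ n, ∀ u ∈ Hull (σ.comp τ), d u m = n → ∃ v ∈ Hull (σ.comp τ), ∃ l : β × Bool,
      v * mk [l] ∈ Hull σ ∧ v * mk [l] ∉ Hull (σ.comp τ) := by
      intro n
      induction n with
      | zero =>
        intro u hu hd
        rw [d_eq_zero.mp hd] at hu
        exact absurd hu hmC
      | succ n ih =>
        intro u hu hd
        have hne : u ≠ m := by rintro rfl; simp at hd
        by_cases hw : nxt u m ∈ Hull (σ.comp τ)
        · exact ih _ hw (by rw [nxt_dist' hne]; omega)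
        · obtain ⟨l, hl, e⟩ := exists_dir_nxt Hull.convex (Hull.comp_subset τ hu) hm hne
          refine ⟨u, hu, l, ?_, ?_⟩
          · exact mem_dirs.mp hl
          · rw [← e]; exact hw
    obtain ⟨u, hu⟩ := Hull.nonempty hστ
    exact key _ u hu rfl
  obtain ⟨k, ρ₀, hρ₀, e₀⟩ := hQ.cover v hv
  have hlt : (dirs (Hull (σ.comp τ)) ρ₀).card < (dirs (Hull σ) (rep ρ₀)).card := by
    apply Finset.card_lt_card
    refine ⟨hle ρ₀ hρ₀, fun hcon => hl2 ?_⟩
    have h1 : l ∈ dirs (Hull σ) (rep ρ₀) := by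
      obtain ⟨-, g, e⟩ := hrep ρ₀ hρ₀
      rw [mem_dirs]
      rw [e₀, MonoidHom.comp_apply] at hl1
      have h2 := (Hull.mul_mem_iff (τ k) ρ₀ _).mp hl1
      rw [e] at h2
      exact (Hull.mul_mem_iff g (rep ρ₀) _).mp h2
    have h2 := mem_dirs.mp (hcon h1)
    rw [e₀]
    exact (Hull.mul_mem_iff k ρ₀ _).mpr h2
  have hlt' : ∑ ρ ∈ Q, ((dirs (Hull (σ.comp τ)) ρ).card - 2) <
      ∑ ρ ∈ Q, ((dirs (Hull σ) (rep ρ)).card - 2) := by
    refine Finset.sum_lt_sum (fun ρ hρ => ?_) ⟨ρ₀, hρ₀, ?_⟩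
    · have := Finset.card_le_card (hle ρ hρ)
      omega
    · have := Hull.two_le_dirs (hQ.mem ρ₀ hρ₀)
      omega
  have hle' : ∑ ρ ∈ Q, ((dirs (Hull σ) (rep ρ)).card - 2) ≤
      ∑ ρ ∈ R, ((dirs (Hull σ) ρ).card - 2) := by
    rw [← Finset.sum_image (f := fun ρ => (dirs (Hull σ) ρ).card - 2) hinj]
    refine Finset.sum_le_sum_of_subset ?_
    intro ρ hρ
    obtain ⟨ρ', h1, rfl⟩ := Finset.mem_image.mp hρ
    exact (hrep ρ' h1).1
  have hγ : 0 < Fintype.card γ := Fintype.card_pos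
  have hα' : 0 < Fintype.card α := Fintype.card_pos
  omega

end Branch

end Pool.Agent.AscQM
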