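import Pool.Agent.Lib.MP_fa6f87_al.Maps

/-!
Records and exponential growth: definitions.
-/

namespace Pool.Agent.AscQM

open FreeGroup

variable {α : Type*} [DecidableEq α] [Fintype α]

/-- `i` is a record if no earlier iterate has larger `lam` -/
def IsRec (θ : FreeGroup α →* FreeGroup α) (i : ℕ) : Prop :=
  ∀ k ≤ i, lam (iter θ k) ≤ lam (iter θ i)

/-- exponential growth -/
def ExpGrowth (θ : FreeGroup α →* FreeGroup α) : Prop :=
  ∃ g, ∃ μ : ℝ, 1 < μ ∧ ∃ᶠ k in Filter.atTop, μ ^ k ≤ tl (iter θ k g)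

end Pool.Agent.AscQM
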