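import Pool.Agent.Lib.MP_fa6f87_al.Geo

/-!
Axes: convexity, overlap and commutation.
-/

namespace Pool.Agent.AscQM

open FreeGroup

section Overlap

variable {α : Type*} [DecidableEq α]

lemma onAxis_iff_tl {h z : FreeGroup α} : OnAxis h z ↔ d z (h * z) = tl h := by
  refine ⟨OnAxis.tl_eq, fun hz => ?_⟩
  by_cases hh : h = 1
  · subst hh; simp [OnAxis]
  · by_contra hcon
    have h1 : h⁻¹ * z ≠ z := mul_ne_self (inv_ne_one.mpr hh) z
    have h2 : h * z ≠ z := mul_ne_self hh z
    have h3 : nxt z (h⁻¹ * z) = nxt z (h * z) := by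
      by_contra h4
      exact hcon ((nxt_ne_iff h1 h2).mp h4)
    have h5 := displacement_nxt hh h3.symm
    have h6 := tl_le h (nxt z (h * z))
    omega

lemma OnAxis.convex {h p q u : FreeGroup α} (hp : OnAxis h p) (hq : OnAxis h q)
    (hu : Btw p u q) : OnAxis h u := by
  rw [onAxis_iff_tl] at *
  refine le_antisymm ?_ (tl_le h u)
  have h1 := d_four u (h * u) p q
  have h2 := d_tri p (h * p) (h * u)
  have h3 := d_tri q (h * q) (h * u)
  rw [d_mul_left] at h2 h3
  rw [d_comm (h * u) q, d_comm (h * u) p, d_comm u p] at h1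
  rw [d_comm q u] at h3
  unfold Btw at hu
  omega

/-- on a long segment of the axis `h` translates in one of the two directions -/
lemma OnAxis.orient {h p q : FreeGroup α} (hp : OnAxis h p) (hq : OnAxis h q)
    (hd : tl h ≤ d p q) :
    (Btw p (h * p) q ∧ Btw p q (h * q)) ∨ (Btw p (h⁻¹ * p) q ∧ Btw p q (h⁻¹ * q)) := by
  have tp := hp.tl_eq
  have tq := hq.tl_eq
  rcases Btw.or hp q with h1 | h1
  · left
    have h2 : Btw p (h * p) (h * q) := by
      have := h1.mul_left h
      rwa [mul_inv_cancel_left] at this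
    have h3 : Btw p q (h * q) := by
      unfold Btw at h2 ⊢
      rw [d_mul_left] at h2
      omega
    exact ⟨h2.left h3 (by omega), h3⟩
  · right
    have tp' : d p (h⁻¹ * p) = tl h := by rw [hp.inv.tl_eq, tl_inv]
    have tq' : d q (h⁻¹ * q) = tl h := by rw [hq.inv.tl_eq, tl_inv]
    have h2 : Btw p (h⁻¹ * p) (h⁻¹ * q) := by
      have := h1.symm.mul_left h⁻¹
      rwa [inv_mul_cancel_left] at this
    have h3 : Btw p q (h⁻¹ * q) := by
      unfold Btw at h2 ⊢
      rw [d_mul_left] at h2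
      omega
    exact ⟨h2.left h3 (by omega), h3⟩

/-- translation along a segment -/
lemma Btw.translate {h p q x : FreeGroup α} (hp : d p (h * p) = tl h)
    (h1 : Btw p (h * p) q) (h2 : Btw p q (h * q)) (hq : d q (h * q) = tl h) (hx : Btw p x q)
    (hd : tl h + d p x ≤ d p q) : Btw p (h * x) q ∧ d p (h * x) = tl h + d p x := by
  have h3 : Btw p (h * p) (h * q) := h2.trans_left h1
  have h4 : Btw (h * p) (h * x) (h * q) := hx.mul_left h
  have h5 : Btw p (h * x) (h * q) := h3.trans_right h4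
  have h6 : Btw p (h * p) (h * x) := h3.trans_right' h4
  have h7 : d p (h * x) = tl h + d p x := by
    unfold Btw at h6
    rw [d_mul_left] at h6
    omega
  exact ⟨h5.left h2 (by omega), h7⟩

/-- two elements whose axes share a long segment commute -/
lemma commute_of_overlap {h₁ h₂ p q : FreeGroup α} (_h1 : h₁ ≠ 1) (_h2 : h₂ ≠ 1)
    (hp1 : OnAxis h₁ p) (hq1 : OnAxis h₁ q) (hp2 : OnAxis h₂ p) (hq2 : OnAxis h₂ q)
    (hd : tl h₁ + tl h₂ ≤ d p q) : Commute h₁ h₂ := by
  have key : ∀ k₁ k₂ : FreeGroup α, tl k₁ + tl k₂ ≤ d p q → OnAxis k₁ p → OnAxis k₁ q →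
      OnAxis k₂ p → OnAxis k₂ q → Btw p (k₁ * p) q ∧ Btw p q (k₁ * q) →
      Btw p (k₂ * p) q ∧ Btw p q (k₂ * q) → Commute k₁ k₂ := by
    intro k₁ k₂ hd a1 a2 a3 a4 ⟨b1, b2⟩ ⟨b3, b4⟩
    have c1 := Btw.translate a1.tl_eq b1 b2 a2.tl_eq b3 (by rw [a3.tl_eq]; exact hd)
    have c2 := Btw.translate a3.tl_eq b3 b4 a4.tl_eq b1 (by rw [a1.tl_eq]; omega)
    have c3 : k₁ * (k₂ * p) = k₂ * (k₁ * p) := by
      refine c1.1.eq c2.1 ?_
      rw [c1.2, c2.2, a1.tl_eq, a3.tl_eq, add_comm]
    rw [← mul_assoc, ← mul_assoc] at c3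
    exact mul_right_cancel c3
  rcases hp1.orient hq1 (by omega) with e1 | e1 <;> rcases hp2.orient hq2 (by omega) with e2 | e2
  · exact key _ _ hd hp1 hq1 hp2 hq2 e1 e2
  · have := key h₁ h₂⁻¹ (by rw [tl_inv]; exact hd) hp1 hq1 hp2.inv hq2.inv e1 e2
    exact Commute.inv_right_iff.mp this
  · have := key h₁⁻¹ h₂ (by rw [tl_inv]; exact hd) hp1.inv hq1.inv hp2 hq2 e1 e2
    exact Commute.inv_left_iff.mp this
  · have := key h₁⁻¹ h₂⁻¹ (by rw [tl_inv, tl_inv]; exact hd) hp1.inv hq1.inv hp2.inv hq2.inv e1 e2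
    exact Commute.inv_inv_iff.mp this

omit [DecidableEq α] in
/-- two commuting elements lie in a cyclic subgroup -/
lemma exists_zpow_of_commute {h₁ h₂ : FreeGroup α} (hc : Commute h₁ h₂) :
    ∃ (c : FreeGroup α) (a b : ℤ), h₁ = c ^ a ∧ h₂ = c ^ b := by
  classical
  set N : Subgroup (FreeGroup α) := Subgroup.closure {h₁, h₂} with hN
  have hcomm : ∀ x ∈ N, ∀ y ∈ N, x * y = y * x := by
    intro x hx y hy
    have h1 : N ≤ Subgroup.centralizer {h₁, h₂} := by
      rw [hN, Subgroup.closure_le]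
      rintro z hz
      rw [SetLike.mem_coe, Subgroup.mem_centralizer_iff]
      rintro w hw
      rcases hz with rfl | rfl <;> rcases hw with rfl | rfl
      · rfl
      · exact hc.symm
      · exact hc
      · rfl
    have h2 : N ≤ Subgroup.centralizer (N : Set (FreeGroup α)) := by
      nth_rw 1 [hN]
      rw [Subgroup.closure_le]
      intro z hz
      rw [SetLike.mem_coe, Subgroup.mem_centralizer_iff]
      intro w hw
      have := h1 hw
      rw [Subgroup.mem_centralizer_iff] at this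
      exact (this z hz).symm
    have h3 := h2 hy
    rw [Subgroup.mem_centralizer_iff] at h3
    exact h3 x hx
  let b := IsFreeGroup.basis N
  have hsub : Subsingleton (IsFreeGroup.Generators N) := by
    refine ⟨fun i j => ?_⟩
    by_contra hij
    have h1 : (b i : N) * b j = b j * b i := Subtype.ext (hcomm _ (b i).2 _ (b j).2)
    have h2 := congrArg b.repr h1
    rw [_root_.map_mul, _root_.map_mul, FreeGroupBasis.repr_apply_coe,
      FreeGroupBasis.repr_apply_coe] at h2
    have h3 := congrArg toWord h2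
    have e : ∀ i j : IsFreeGroup.Generators N, i ≠ j →
        (of i * of j : FreeGroup (IsFreeGroup.Generators N)).toWord = [(i, true), (j, true)] := by
      intro i j hij
      rw [show (of i * of j : FreeGroup (IsFreeGroup.Generators N)) =
        mk [(i, true), (j, true)] from rfl, toWord_mk]
      simp [reduce, hij]
    rw [e i j hij, e j i (Ne.symm hij)] at h3
    simp only [List.cons.injEq, Prod.mk.injEq] at h3
    exact hij h3.1.1
  have hcyc : ∃ c : N, ∀ x : N, ∃ n : ℤ, x = c ^ n := by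
    rcases isEmpty_or_nonempty (IsFreeGroup.Generators N) with he | ⟨⟨i⟩⟩
    · refine ⟨1, fun x => ⟨0, ?_⟩⟩
      apply b.repr.injective
      exact Subsingleton.elim _ _
    · have hu : Unique (IsFreeGroup.Generators N) := ⟨⟨i⟩, fun j => Subsingleton.elim _ _⟩
      refine ⟨b i, fun x => ?_⟩
      have key : ∀ y : FreeGroup (IsFreeGroup.Generators N), ∃ n : ℤ, y = (of i) ^ n := by
        intro y
        induction y using FreeGroup.induction_on with
        | C1 => exact ⟨0, by simp⟩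
        | of j => exact ⟨1, by rw [Subsingleton.elim j i, zpow_one]⟩
        | inv_of j _ => exact ⟨-1, by rw [Subsingleton.elim j i, zpow_neg_one]⟩
        | mul x y hx hy =>
          obtain ⟨m, rfl⟩ := hx
          obtain ⟨n, rfl⟩ := hy
          exact ⟨m + n, by rw [zpow_add]⟩
      obtain ⟨n, hn⟩ := key (b.repr x)
      refine ⟨n, ?_⟩
      apply b.repr.injective
      rw [hn, _root_.map_zpow, FreeGroupBasis.repr_apply_coe]
  obtain ⟨c, hcy⟩ := hcyc
  obtain ⟨m, hm⟩ := hcy ⟨h₁, Subgroup.subset_closure (by simp)⟩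
  obtain ⟨n, hn⟩ := hcy ⟨h₂, Subgroup.subset_closure (by simp)⟩
  refine ⟨c, m, n, ?_, ?_⟩
  · have := congrArg Subtype.val hm
    simpa using this
  · have := congrArg Subtype.val hn
    simpa using this

omit [DecidableEq α] in
lemma exists_zpow_eq_of_commute {h₁ h₂ : FreeGroup α} (h1 : h₁ ≠ 1) (h2 : h₂ ≠ 1)
    (hc : Commute h₁ h₂) : ∃ p q : ℤ, p ≠ 0 ∧ q ≠ 0 ∧ h₁ ^ p = h₂ ^ q := by
  obtain ⟨c, a, b, rfl, rfl⟩ := exists_zpow_of_commute hc
  refine ⟨b, a, ?_, ?_, ?_⟩
  · rintro rfl; simp at h2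
  · rintro rfl; simp at h1
  · rw [← zpow_mul, ← zpow_mul, mul_comm]

/-- the axis of a power is the axis -/
lemma OnAxis.of_pow {h z : FreeGroup α} {n : ℕ} (hn : n ≠ 0) (hz : OnAxis (h ^ n) z) :
    OnAxis h z := by
  by_cases hh : h = 1
  · subst hh; simp [OnAxis]
  obtain ⟨y, hy⟩ := exists_onAxis h
  set k := d y z with hk
  have hyk : OnAxis (h ^ (n * k)) y := hy.pow _
  have hzk : OnAxis (h ^ (n * k)) z := by rw [pow_mul]; exact hz.pow k
  set g := h ^ (n * k) with hg
  have htl : k ≤ tl g := by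
    rw [hg, tl_pow]
    have := tl_pos hh
    have h3 : 1 * k ≤ n * k := Nat.mul_le_mul_right k (Nat.one_le_iff_ne_zero.mpr hn)
    nlinarith
  have tz := hzk.tl_eq
  have ty := hyk.tl_eq
  rcases Btw.or hyk z with h1 | h1
  · have h2 : Btw y (g * y) (g * z) := by
      have := h1.mul_left g
      rwa [mul_inv_cancel_left] at this
    have h3 : Btw y z (g * z) := by
      unfold Btw at h2 ⊢
      rw [d_mul_left] at h2
      omega
    have h4 : Btw y z (g * y) := h3.left h2 (by omega)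
    refine hy.convex ?_ h4
    have := hy.pow_smul (n * k : ℕ)
    rwa [zpow_natCast, ← hg] at this
  · have ty' : d y (g⁻¹ * y) = tl g := by rw [hyk.inv.tl_eq, tl_inv]
    have tz' : d z (g⁻¹ * z) = tl g := by rw [hzk.inv.tl_eq, tl_inv]
    have h2 : Btw y (g⁻¹ * y) (g⁻¹ * z) := by
      have := h1.symm.mul_left g⁻¹
      rwa [inv_mul_cancel_left] at this
    have h3 : Btw y z (g⁻¹ * z) := by
      unfold Btw at h2 ⊢
      rw [d_mul_left] at h2
      omega
    have h4 : Btw y z (g⁻¹ * y) := h3.left h2 (by omega)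
    refine hy.convex ?_ h4
    have := hy.pow_smul (-(n * k : ℕ))
    rwa [zpow_neg, zpow_natCast, ← hg] at this

lemma onAxis_zpow_iff {h z : FreeGroup α} {n : ℤ} (hn : n ≠ 0) :
    OnAxis (h ^ n) z ↔ OnAxis h z := by
  obtain ⟨k, rfl | rfl⟩ := n.eq_nat_or_neg
  · rw [zpow_natCast]
    exact ⟨OnAxis.of_pow (by simpa using hn), fun h => h.pow k⟩
  · rw [zpow_neg, zpow_natCast]
    constructor
    · intro h1
      have := h1.inv
      rw [inv_inv] at this
      exact OnAxis.of_pow (by simpa using hn) this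
    · intro h1
      exact (h1.pow k).inv

lemma onAxis_of_commute {h₁ h₂ z : FreeGroup α} (h1 : h₁ ≠ 1) (h2 : h₂ ≠ 1)
    (hc : Commute h₁ h₂) (hz : OnAxis h₁ z) : OnAxis h₂ z := by
  obtain ⟨p, q, hp, hq, he⟩ := exists_zpow_eq_of_commute h1 h2 hc
  rw [← onAxis_zpow_iff hq, ← he, onAxis_zpow_iff hp]
  exact hz

omit [DecidableEq α] in
lemma not_conj_inv {g h : FreeGroup α} (h1 : h ≠ 1) : g * h * g⁻¹ ≠ h⁻¹ := by
  classical
  intro hcon
  have hne : ∀ n : ℕ, n ≠ 0 → h ^ n ≠ 1 := fun n hn he => h1 ((pow_eq_one_iff_left hn).mp he)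
  have hg : g ^ 2 ≠ 1 := by
    intro h2
    have h3 : g = 1 := (pow_eq_one_iff_left (by norm_num)).mp h2
    rw [h3] at hcon
    have h4 : h * h = 1 := by
      have : h = h⁻¹ := by simpa using hcon
      nth_rw 2 [this]
      simp
    exact hne 2 (by norm_num) (by rw [sq]; exact h4)
  have hc : Commute (g ^ 2) h := by
    have h3 : g * h = h⁻¹ * g := by rw [← hcon]; group
    have h4 : g * h⁻¹ = h * g := by
      have h5 := congrArg (·⁻¹) hcon
      simp only [mul_inv_rev, inv_inv] at h5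
      have h6 := congrArg (· * g) h5
      simpa [mul_assoc] using h6
    show g ^ 2 * h = h * g ^ 2
    rw [sq, mul_assoc, h3, ← mul_assoc, h4, mul_assoc]
  obtain ⟨p, q, hp, hq, he⟩ := exists_zpow_eq_of_commute hg h1 hc
  have h5 : g * h ^ q * g⁻¹ = h ^ q := by
    rw [← he, ← zpow_natCast, ← zpow_mul]
    group
  have h6 : g * h ^ q * g⁻¹ = (h ^ q)⁻¹ := by
    rw [← conj_zpow, hcon, inv_zpow]
  have h7 : h ^ q * h ^ q = 1 := by
    nth_rw 1 [← h5, h6]
    simp
  have h8 : (h ^ q) ^ 2 = 1 := by rw [sq]; exact h7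
  have h9 : h ^ q = 1 := (pow_eq_one_iff_left (by norm_num)).mp h8
  obtain ⟨k, rfl | rfl⟩ := q.eq_nat_or_neg
  · rw [zpow_natCast] at h9
    exact hne k (by simpa using hq) h9
  · rw [zpow_neg, zpow_natCast, inv_eq_one] at h9
    exact hne k (by simpa using hq) h9

end Overlap

end Pool.Agent.AscQM
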