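import Pool.Agent.Lib.MP_fa6f87_al.Maps
import Pool.Agent.Lib.MP_fa6f87_al.Overlap

/-!
At the best base point some word of length at most two is as long as possible on its axis.
-/

namespace Pool.Agent.AscQM

open FreeGroup

section Star

variable {α β : Type*} [DecidableEq α] [Fintype α] [DecidableEq β]

lemma tl_map_le (σ : FreeGroup α →* FreeGroup β) (g : FreeGroup α) :
    tl (σ g) ≤ g.norm * lam σ := by
  have h1 := tl_le (σ g) (bp σ)
  have h2 := d_T_le σ 1 g
  rw [T_one, d_one_left] at h2
  exact h1.trans h2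

omit [DecidableEq α] in
lemma lam_pos [Nonempty α] {σ : FreeGroup α →* FreeGroup β} (hσ : Function.Injective σ) :
    1 ≤ lam σ := by
  obtain ⟨a⟩ := ‹Nonempty α›
  refine le_trans (one_le_d ?_) (d_bp_le σ a)
  refine (mul_ne_self ?_ _).symm
  intro h
  rw [← _root_.map_one σ] at h
  exact of_ne_one a (hσ h)

omit [DecidableEq α] in
/-- at the best base point some short word is as long as possible on its axis -/
theorem star [Nonempty α] {σ : FreeGroup α →* FreeGroup β} (hσ : Function.Injective σ) :
    ∃ g : FreeGroup α, ((∃ a, g = of a) ∨ ∃ a b, a ≠ b ∧ g = of a * of b) ∧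
      OnAxis (σ g) (bp σ) ∧ lam σ ≤ tl (σ g) := by
  set x := bp σ with hx
  have hne1 : ∀ a, σ (of a) ≠ 1 := by
    intro a h
    rw [← _root_.map_one σ] at h
    exact of_ne_one a (hσ h)
  obtain ⟨a, -, ha⟩ := Finset.exists_mem_eq_sup Finset.univ Finset.univ_nonempty
    (fun a => d x (σ (of a) * x))
  have ha' : d x (σ (of a) * x) = lam σ := by
    rw [← disp_bp]; exact ha.symm
  by_cases hax : OnAxis (σ (of a)) x
  · exact ⟨of a, Or.inl ⟨a, rfl⟩, hax, by rw [← hax.tl_eq, ha']⟩
  set A := σ (of a) with hA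
  have hA1 : A ≠ 1 := hne1 a
  have hAi1 : A⁻¹ * x ≠ x := mul_ne_self (inv_ne_one.mpr hA1) x
  have hAx : A * x ≠ x := mul_ne_self hA1 x
  have hnx : nxt x (A * x) = nxt x (A⁻¹ * x) := by
    by_contra h4
    exact hax ((nxt_ne_iff hAx hAi1).mp h4).symm
  set x' := nxt x (A * x) with hx'
  have hdrop := displacement_nxt hA1 hnx
  rw [← hx', ha'] at hdrop
  -- a generator with large displacement at `x'`
  obtain ⟨b, -, hb⟩ := Finset.exists_mem_eq_sup Finset.univ Finset.univ_nonempty
    (fun a => d x' (σ (of a) * x'))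
  have hb' : lam σ ≤ d x' (σ (of b) * x') := by
    have := lam_le σ x'
    unfold disp at this
    rw [hb] at this
    exact this
  have hab : a ≠ b := by
    rintro rfl
    rw [← hA] at hb'
    omega
  have hbx := d_bp_le σ b
  rw [← hx] at hbx
  set B := σ (of b) with hB
  have hB1 : B ≠ 1 := hne1 b
  have hBi1 : B⁻¹ * x ≠ x := mul_ne_self (inv_ne_one.mpr hB1) x
  have hBx : B * x ≠ x := mul_ne_self hB1 x
  by_cases hp : nxt x (B * x) = x'
  · by_cases hm : nxt x (B⁻¹ * x) = x'
    · exfalso
      have := displacement_nxt hB1 (hp.trans hm.symm)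
      rw [hp] at this
      omega
    · have hax : OnAxis B x := ((nxt_ne_iff hBx hBi1).mp (by rw [hp]; exact Ne.symm hm)).symm
      have hax' : OnAxis B x' := by
        refine hax.convex hax.smul ?_
        rw [← hp]
        exact nxt_btw _ _
      exact ⟨of b, Or.inl ⟨b, rfl⟩, hax, by rw [← hB, ← hax'.tl_eq]; exact hb'⟩
  · by_cases hm : nxt x (B⁻¹ * x) = x'
    · have hax : OnAxis B x := ((nxt_ne_iff hBx hBi1).mp (by rw [hm]; exact hp)).symm
      have hax' : OnAxis B x' := by
        refine hax.convex (q := B⁻¹ * x) (by simpa using hax.pow_smul (-1)) ?_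
        rw [← hm]
        exact nxt_btw _ _
      exact ⟨of b, Or.inl ⟨b, rfl⟩, hax, by rw [← hB, ← hax'.tl_eq]; exact hb'⟩
    · -- the product
      have h1 : Btw x (A * x) (A * (B * x)) := by
        have : Btw (A⁻¹ * x) x (B * x) := by
          refine (nxt_ne_iff hAi1 hBx).mp ?_
          rw [← hnx]
          exact Ne.symm hp
        have := this.mul_left A
        rwa [mul_inv_cancel_left] at this
      have h2 : Btw x (B⁻¹ * x) (B⁻¹ * (A⁻¹ * x)) := by
        have : Btw (B * x) x (A⁻¹ * x) := by
          refine (nxt_ne_iff hBx hAi1).mp ?_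
          rw [← hnx]
          exact hp
        have := this.mul_left B⁻¹
        rwa [inv_mul_cancel_left] at this
      have hAB : A * (B * x) ≠ x := by
        intro h
        rw [h] at h1
        exact hAx h1.eq_of_self
      have hABi : B⁻¹ * (A⁻¹ * x) ≠ x := by
        intro h
        rw [h] at h2
        exact hBi1 h2.eq_of_self
      have h3 : nxt x (A * (B * x)) = x' := (nxt_eq_of_btw h1 hAx).symm
      have h4 : nxt x (B⁻¹ * (A⁻¹ * x)) = nxt x (B⁻¹ * x) := (nxt_eq_of_btw h2 hBi1).symm
      have h5 : Btw (B⁻¹ * (A⁻¹ * x)) x (A * (B * x)) := by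
        refine (nxt_ne_iff hABi hAB).mp ?_
        rw [h3, h4]
        exact hm
      refine ⟨of a * of b, Or.inr ⟨a, b, hab, rfl⟩, ?_, ?_⟩
      · unfold OnAxis
        rw [_root_.map_mul, ← hA, ← hB, mul_inv_rev, mul_assoc, mul_assoc]
        exact h5
      · have h6 : OnAxis (σ (of a * of b)) x := by
          unfold OnAxis
          rw [_root_.map_mul, ← hA, ← hB, mul_inv_rev, mul_assoc, mul_assoc]
          exact h5
        rw [← h6.tl_eq, _root_.map_mul, ← hA, ← hB, mul_assoc]
        unfold Btw at h1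
        rw [ha'] at h1
        omega

end Star

end Pool.Agent.AscQM
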