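import Pool.Agent.Lib.MP_fa6f87_al.Core
import Pool.Agent.Lib.MP_fa6f87_al.Star
import Pool.Agent.Lib.MP_fa6f87_al.RecDef
import Pool.Agent.Lib.MP_fa6f87_al.Branch

/-!
All base lemmas.
-/
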