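import Pool.Agent.Lib.MP_fa6f87_al.Base

/-!
Finitely generated subgroups of free groups: free bases, and subgroups acting cofinitely on
convex sets.
-/

namespace Pool.Agent.AscQM

open FreeGroup

section Basis

/-- the set of letters of a free generating set occurring in `x` -/
lemma finite_of_fg_freeGroup {X : Type*} [Group.FG (FreeGroup X)] : Finite X := by
  classical
  obtain ⟨S, hS⟩ := (Group.fg_def (G := FreeGroup X)).mp inferInstance
  set Y : Finset X := S.biUnion fun s => (s.toWord.map Prod.fst).toFinset with hY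
  have hall : ∀ x : X, x ∈ Y := by
    intro x
    by_contra hx
    let φ : FreeGroup X →* Multiplicative ℤ :=
      FreeGroup.lift fun y => if y = x then Multiplicative.ofAdd 1 else 1
    have h1 : ∀ s ∈ S, φ s = 1 := by
      intro s hs
      have h2 : ∀ p ∈ s.toWord, p.1 ≠ x := by
        intro p hp he
        apply hx
        rw [hY, Finset.mem_biUnion]
        exact ⟨s, hs, by rw [List.mem_toFinset, List.mem_map]; exact ⟨p, hp, he⟩⟩
      have h3 : φ s = φ (mk s.toWord) := by rw [mk_toWord]
      rw [h3]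
      have h4 : φ (mk s.toWord) = (s.toWord.map fun p =>
          cond p.2 ((fun y => if y = x then Multiplicative.ofAdd (1 : ℤ) else 1) p.1)
            ((fun y => if y = x then Multiplicative.ofAdd (1 : ℤ) else 1) p.1)⁻¹).prod :=
        FreeGroup.lift_mk
      rw [h4]
      apply List.prod_eq_one
      intro q hq
      rw [List.mem_map] at hq
      obtain ⟨p, hp, rfl⟩ := hq
      have := h2 p hp
      simp only [if_neg this]
      cases p.2 <;> simp
    have h5 : (Subgroup.closure (S : Set (FreeGroup X))) ≤ φ.ker := by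
      rw [Subgroup.closure_le]
      intro s hs
      exact h1 s hs
    have h6 : φ (of x) = 1 := by
      have : of x ∈ Subgroup.closure (S : Set (FreeGroup X)) := by rw [hS]; trivial
      exact h5 this
    have h7 : φ (of x) = Multiplicative.ofAdd 1 := by simp [φ]
    rw [h7] at h6
    have : (1 : ℤ) = 0 := h6
    omega
  exact Finite.of_injective (β := Y) (fun x => ⟨x, hall x⟩) fun x y h => by
    simpa using h

variable {α : Type*}

theorem basis_of_fg (D : Subgroup (FreeGroup α)) (h : D.FG) :
    ∃ (s : ℕ) (τ : FreeGroup (Fin s) →* FreeGroup α), Function.Injective τ ∧ τ.range = D := by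
  have : IsFreeGroup D := subgroupIsFreeOfIsFree D
  have : Group.FG D := (Group.fg_iff_subgroup_fg D).mpr h
  let e : D ≃* FreeGroup (IsFreeGroup.Generators D) := IsFreeGroup.toFreeGroup D
  have : Group.FG (FreeGroup (IsFreeGroup.Generators D)) :=
    Group.fg_of_surjective (f := e.toMonoidHom) e.surjective
  have : Finite (IsFreeGroup.Generators D) := finite_of_fg_freeGroup
  obtain ⟨s, ⟨eq⟩⟩ := Finite.exists_equiv_fin (IsFreeGroup.Generators D)
  let f : FreeGroup (Fin s) ≃* D := (FreeGroup.freeGroupCongr eq.symm).trans e.symm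
  refine ⟨s, D.subtype.comp f.toMonoidHom, ?_, ?_⟩
  · intro x y hxy
    exact f.injective (Subtype.ext hxy)
  · ext x
    constructor
    · rintro ⟨y, rfl⟩
      exact (f y).2
    · intro hx
      exact ⟨f.symm ⟨x, hx⟩, by simp⟩

end Basis

section Cofinite

variable {β : Type*} [DecidableEq β]

/-- every point of `C` is close to the orbit of `v` -/
lemma near_orbit (K : Subgroup (FreeGroup β)) {C : Set (FreeGroup β)} (hC : Convex C)
    (hinv : ∀ k ∈ K, ∀ y ∈ C, k * y ∈ C) {v : FreeGroup β} (hv : v ∈ C)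
    {S : Finset (FreeGroup β)} (hcov : ∀ y ∈ C, ∃ k ∈ K, ∃ s ∈ S, y = k * s)
    {y : FreeGroup β} (hy : y ∈ C) : ∃ h ∈ K, d y (h * v) + 1 ≤ S.card := by
  classical
  -- distance to the orbit
  have hne : ∀ y, {n | ∃ h ∈ K, d y (h * v) = n}.Nonempty := fun y => ⟨_, 1, K.one_mem, rfl⟩
  let D : FreeGroup β → ℕ := fun y => sInf {n | ∃ h ∈ K, d y (h * v) = n}
  have hD1 : ∀ y, ∃ h ∈ K, d y (h * v) = D y := fun y => Nat.sInf_mem (hne y)
  have hD2 : ∀ y, ∀ h ∈ K, D y ≤ d y (h * v) := fun y h hh => Nat.sInf_le ⟨h, hh, rfl⟩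
  have hD3 : ∀ k ∈ K, ∀ y, D (k * y) ≤ D y := by
    intro k hk y
    obtain ⟨h, hh, he⟩ := hD1 y
    have := hD2 (k * y) (k * h) (K.mul_mem hk hh)
    rw [mul_assoc, d_mul_left, he] at this
    exact this
  have hD4 : ∀ k ∈ K, ∀ y, D (k * y) = D y := by
    intro k hk y
    refine le_antisymm (hD3 k hk y) ?_
    have := hD3 k⁻¹ (K.inv_mem hk) (k * y)
    rwa [inv_mul_cancel_left] at this
  obtain ⟨h, hh, he⟩ := hD1 y
  have hhv : h * v ∈ C := hinv h hh v hv
  refine ⟨h, hh, ?_⟩
  rw [he]
  -- the points at distance `j` from `y` on the geodesic to `h * v`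
  have hpt : ∀ j : Fin (D y + 1), ∃ z ∈ C, D z = D y - j := by
    intro j
    have hj : (j : ℕ) ≤ D y := Nat.lt_succ_iff.mp j.2
    obtain ⟨z, hz1, hz2⟩ := d_interp y (h * v) j (by rw [he]; exact hj)
    have hb : Btw y z (h * v) := by
      unfold Btw; rw [hz1, hz2, he]; omega
    refine ⟨z, hC y hy _ hhv z hb, ?_⟩
    apply le_antisymm
    · have := hD2 z h hh
      rw [hz2, he] at this
      exact this
    · obtain ⟨h', hh', he'⟩ := hD1 z
      have h1 := hD2 y h' hh'
      have h2 := d_tri y z (h' * v)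
      omega
  choose z hz1 hz2 using hpt
  choose k hk s hs hks using fun j => hcov (z j) (hz1 j)
  have hinj : Function.Injective s := by
    intro i j hij
    have h1 : D (z i) = D (s i) := by rw [hks i, hD4 _ (hk i)]
    have h2 : D (z j) = D (s j) := by rw [hks j, hD4 _ (hk j)]
    rw [hij, ← h2, hz2, hz2] at h1
    have hi := Nat.lt_succ_iff.mp i.2
    have hj := Nat.lt_succ_iff.mp j.2
    apply Fin.ext
    omega
  have hcard : Fintype.card (Fin (D y + 1)) ≤ S.card := by
    rw [← Fintype.card_coe S]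
    exact Fintype.card_le_of_injective (fun j => (⟨s j, hs j⟩ : S)) fun i j hij => by
      apply hinj; simpa using hij
  simpa using hcard

/-- a subgroup acting cofinitely on a convex set is generated by elements of small
displacement -/
theorem closure_of_cofinite (K : Subgroup (FreeGroup β)) {C : Set (FreeGroup β)} (hC : Convex C)
    (hinv : ∀ k ∈ K, ∀ y ∈ C, k * y ∈ C) {v : FreeGroup β} (hv : v ∈ C)
    {S : Finset (FreeGroup β)} (hcov : ∀ y ∈ C, ∃ k ∈ K, ∃ s ∈ S, y = k * s) :
    Subgroup.closure {h | h ∈ K ∧ d v (h * v) ≤ 2 * S.card + 1} = K := by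
  apply le_antisymm
  · rw [Subgroup.closure_le]
    exact fun h hh => hh.1
  have key : ∀ n : ℕ, ∀ p ∈ C, d v p = n → ∀ h ∈ K, d p (h * v) ≤ S.card →
      h ∈ Subgroup.closure {h | h ∈ K ∧ d v (h * v) ≤ 2 * S.card + 1} := by
    intro n
    induction n with
    | zero =>
      intro p _ hd h hh hdp
      have : v = p := d_eq_zero.mp hd
      subst this
      exact Subgroup.subset_closure ⟨hh, by omega⟩
    | succ n ih =>
      intro p hp hd h hh hdp
      have hne : p ≠ v := by
        rintro rfl
        simp at hd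
      have h1 := nxt_dist hne
      have h2 := nxt_dist' hne
      have h3 : nxt p v ∈ C := hC p hp v hv _ (nxt_btw p v)
      obtain ⟨h', hh', hd'⟩ := near_orbit K hC hinv hv hcov h3
      have h4 := ih (nxt p v) h3 (by rw [d_comm, h2, d_comm, hd]; omega) h' hh' (by omega)
      have h5 : h'⁻¹ * h ∈ Subgroup.closure {h | h ∈ K ∧ d v (h * v) ≤ 2 * S.card + 1} := by
        apply Subgroup.subset_closure
        refine ⟨K.mul_mem (K.inv_mem hh') hh, ?_⟩
        have e : d v (h'⁻¹ * h * v) = d (h' * v) (h * v) := by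
          rw [← d_mul_left h']; congr 1; group
        rw [e]
        have t1 := d_tri (h' * v) (nxt p v) (h * v)
        have t2 := d_tri (nxt p v) p (h * v)
        rw [d_comm (h' * v) (nxt p v)] at t1
        rw [d_comm (nxt p v) p, h1] at t2
        omega
      have := Subgroup.mul_mem _ h4 h5
      rwa [mul_inv_cancel_left] at this
  intro h hh
  have hp : h * v ∈ C := hinv h hh v hv
  exact key (d v (h * v)) (h * v) hp rfl h hh (by simp)

theorem fg_of_cofinite [Finite β] (K : Subgroup (FreeGroup β)) {C : Set (FreeGroup β)}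
    (hC : Convex C) (hinv : ∀ k ∈ K, ∀ y ∈ C, k * y ∈ C) (hne : C.Nonempty)
    {S : Set (FreeGroup β)} (hS : S.Finite) (hcov : ∀ y ∈ C, ∃ k ∈ K, ∃ s ∈ S, y = k * s) :
    K.FG := by
  classical
  obtain ⟨v, hv⟩ := hne
  obtain ⟨S', rfl⟩ := hS.exists_finset_coe
  have h1 := closure_of_cofinite K hC hinv hv (S := S')
    (fun y hy => by obtain ⟨k, hk, s, hs, h⟩ := hcov y hy; exact ⟨k, hk, s, hs, h⟩)
  rw [← h1, Subgroup.fg_iff]
  refine ⟨_, rfl, ?_⟩
  have h2 : ({h | h ∈ K ∧ d v (h * v) ≤ 2 * S'.card + 1} : Set (FreeGroup β)) ⊆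
      (fun y => y * v⁻¹) '' {y | d v y ≤ 2 * S'.card + 1} := by
    intro h hh
    exact ⟨h * v, hh.2, by simp⟩
  exact ((finite_ball v _).image _).subset h2

end Cofinite

end Pool.Agent.AscQM
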