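import Pool.Agent.Lib.MP_fa6f87_al.BCC
import Pool.Agent.Lib.MP_fa6f87_al.Overlap

/-!
Cores: the parts of the images of segments that survive all prolongations.
-/

namespace Pool.Agent.AscQM

open FreeGroup

set_option linter.unusedSectionVars false

variable {α β : Type*} [DecidableEq α] [Fintype α] [DecidableEq β]

variable {σ : FreeGroup α →* FreeGroup β}

/-- the part of `[T x, T y]` that survives in all prolongations -/
def core (σ : FreeGroup α →* FreeGroup β) (x y : FreeGroup α) : Set (FreeGroup β) :=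
  {v | ∀ x' y', d x' x + d x y + d y y' = d x' y' → Btw (T σ x') v (T σ y')}

lemma core.btw {x y : FreeGroup α} {v : FreeGroup β} (hv : v ∈ core σ x y) :
    Btw (T σ x) v (T σ y) := hv x y (by simp)

lemma core.mono {x y x' y' : FreeGroup α} (h : d x' x + d x y + d y y' = d x' y') :
    core σ x y ⊆ core σ x' y' := by
  intro v hv a b hab
  refine hv a b ?_
  have h1 := d_tri a x' x
  have h2 := d_tri y y' b
  have h3 := d_tri a x b
  have h4 := d_tri x y b
  omega

lemma core.smul' {x y : FreeGroup α} {v : FreeGroup β} (g : FreeGroup α)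
    (hv : v ∈ core σ x y) : σ g * v ∈ core σ (g * x) (g * y) := by
  intro a b hab
  have h1 := hv (g⁻¹ * a) (g⁻¹ * b) (by
    rw [d_mul_left] at hab
    rw [d_mul_left, d_inv_left, d_comm y (g⁻¹ * b), d_inv_left, d_comm b, ← hab])
  have h2 := h1.mul_left (σ g)
  rw [← T_mul, ← T_mul, mul_inv_cancel_left, mul_inv_cancel_left] at h2
  exact h2

lemma core.smul {x y : FreeGroup α} {v : FreeGroup β} (g : FreeGroup α) :
    σ g * v ∈ core σ (g * x) (g * y) ↔ v ∈ core σ x y := by
  refine ⟨fun h => ?_, core.smul' g⟩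
  have := core.smul' g⁻¹ h
  rwa [_root_.map_inv, inv_mul_cancel_left, inv_mul_cancel_left, inv_mul_cancel_left] at this

/-- the projection point of bounded cancellation sees `v` -/
lemma sep_of_bcc {p q r v z : FreeGroup β} {L : ℕ} (hv : Btw p v q) (hz : Btw r z q)
    (hd : d p z ≤ L) (hpv : L < d p v) : ¬ Btw p v r := by
  intro h
  have h1 : Btw p v z := by
    rcases h.or z with h2 | h2
    · exact h2
    · rcases hv.or z with h3 | h3
      · exact h3
      · -- v between z and r, and between z and q; z between r and q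
        have h4 : d z v = 0 := by
          have h5 := h2.symm
          unfold Btw at h2 h3 hz
          have h6 := d_tri r v q
          rw [d_comm v r, d_comm z r] at h2
          omega
        rw [d_eq_zero.mp h4]; exact btw_right _ _
  unfold Btw at h1
  omega

lemma core.mem (hσ : Function.Injective σ) {x y : FreeGroup α} {v : FreeGroup β}
    (hv : Btw (T σ x) v (T σ y)) (h1 : Lam σ < d (T σ x) v) (h2 : Lam σ < d v (T σ y)) :
    v ∈ core σ x y := by
  intro x' y' h
  obtain ⟨h3, h4⟩ := row_iff.mp h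
  have h5 : Btw x' x y := by
    have := d_tri x' y y'
    unfold Btw at *
    have h6 := d_tri x' x y
    omega
  have h7 : Btw x' y y' := by
    unfold Btw at *
    omega
  -- first replace `x` by `x'`
  have h8 : Btw (T σ x') v (T σ y) := by
    obtain ⟨z, hz1, hz2⟩ := bcc_T hσ h5
    have h9 := sep_of_bcc hv hz1 hz2 h1
    rcases hv.or (T σ x') with h10 | h10
    · exact absurd h10 h9
    · exact h10
  obtain ⟨z, hz1, hz2⟩ := bcc_T hσ h7
  have h9 := sep_of_bcc h8.symm hz1.symm hz2 (by rw [d_comm]; exact h2)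
  rcases h8.symm.or (T σ y') with h10 | h10
  · exact absurd h10 h9
  · exact h10.symm

/-- orbit points leave every ball -/
lemma finite_smul_ball [Fintype β] (hσ : Function.Injective σ) (p v : FreeGroup β) (n : ℕ) :
    {g : FreeGroup α | d v (σ g * p) < n}.Finite := by
  refine Set.Finite.of_finite_image (f := fun g => σ g * p) ?_ ?_
  · refine (finite_dist_lt v n).subset ?_
    rintro _ ⟨g, hg, rfl⟩
    exact hg
  · intro g _ h _ he
    exact hσ (mul_right_cancel he)

/-- far vertices have far images -/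
lemma exists_far [Fintype β] (hσ : Function.Injective σ) (p v : FreeGroup β)
    (x : FreeGroup α) (n : ℕ) : ∃ N, ∀ g, N ≤ d x g → n ≤ d v (σ g * p) := by
  have hfin := finite_smul_ball hσ p v n
  obtain ⟨N, hN⟩ := (hfin.image (fun g => d x g)).bddAbove
  refine ⟨N + 1, fun g hg => ?_⟩
  by_contra hlt
  push Not at hlt
  have := hN ⟨g, hlt, rfl⟩
  simp only at this
  omega

lemma core.subset_hull [Nonempty α] [Fintype β] (hσ : Function.Injective σ)
    (x y : FreeGroup α) : core σ x y ⊆ Hull σ := by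
  intro v hv
  refine Hull.of_orbit (bp σ) fun n => ?_
  obtain ⟨N, hN⟩ := exists_far hσ (bp σ) v x n
  obtain ⟨M, hM⟩ := exists_far hσ (bp σ) v y n
  by_cases hxy : x = y
  · subst hxy
    obtain ⟨x', h1, h2⟩ := exists_prolong x x N
    obtain ⟨y', h3, h4⟩ := exists_prolong x' x M
    refine ⟨x', y', hN _ (by rw [h2]), hM _ (by rw [h4]), ?_⟩
    exact hv x' y' (by rw [d_self]; unfold Btw at h3; omega)
  · obtain ⟨x', h1, h2⟩ := exists_prolong y x N
    obtain ⟨y', h3, h4⟩ := exists_prolong x y M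
    refine ⟨x', y', hN _ (by rw [h2]), hM _ (by rw [h4]), ?_⟩
    exact hv x' y' (row_of_join h1.symm h3 hxy)

/-- a point between points far on both sides of an axis is on the axis -/
lemma onAxis_of_far {h x₀ v : FreeGroup β} (hh : h ≠ 1) (M : ℕ)
    (hv : ∀ n : ℕ, ∃ p q, d x₀ p ≤ M ∧ d x₀ q ≤ M ∧ Btw (h⁻¹ ^ n * p) v (h ^ n * q)) :
    OnAxis h v := by
  obtain ⟨z, hz⟩ := exists_onAxis h
  -- choose n large
  set n := d v z + d x₀ z + M + 1 with hn
  obtain ⟨p, q, hp, hq, hv'⟩ := hv (n + n)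
  have h1 : n + n ≤ d z (h ^ (n + n) * z) := by
    rw [hz.pow_dist]
    exact Nat.le_mul_of_pos_right _ (one_le_d (mul_ne_self hh z).symm)
  have h2 : n + n ≤ d z (h⁻¹ ^ (n + n) * z) := by
    rw [hz.inv.pow_dist]
    exact Nat.le_mul_of_pos_right _ (one_le_d (mul_ne_self (inv_ne_one.mpr hh) z).symm)
  have hpz : d p z ≤ M + d x₀ z := by
    have := d_tri p x₀ z
    rw [d_comm p x₀] at this
    omega
  have hqz : d q z ≤ M + d x₀ z := by
    have := d_tri q x₀ z
    rw [d_comm q x₀] at this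
    omega
  have h3 : Btw (h⁻¹ ^ (n + n) * z) v (h ^ (n + n) * z) := by
    have h4 : Btw (h⁻¹ ^ (n + n) * z) v (h ^ (n + n) * q) := by
      refine hv'.move_left ?_
      rw [d_mul_left]
      have h5 := d_tri z v (h⁻¹ ^ (n + n) * z)
      have h6 := d_tri v (h⁻¹ ^ (n + n) * p) (h⁻¹ ^ (n + n) * z)
      rw [d_mul_left] at h6
      rw [d_comm z v] at h5
      omega
    refine h4.move ?_
    rw [d_mul_left]
    have h5 := d_tri z v (h ^ (n + n) * z)
    have h6 := d_tri v (h ^ (n + n) * q) (h ^ (n + n) * z)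
    rw [d_mul_left] at h6
    rw [d_comm z v] at h5
    omega
  have e1 : OnAxis h (h⁻¹ ^ (n + n) * z) := by
    have := hz.pow_smul (-((n + n : ℕ) : ℤ))
    rwa [zpow_neg, zpow_natCast, ← inv_pow] at this
  have e2 : OnAxis h (h ^ (n + n) * z) := by
    have := hz.pow_smul ((n + n : ℕ) : ℤ)
    rwa [zpow_natCast] at this
  exact e1.convex e2 h3

/-- two points of an axis are in a row with their translates -/
lemma OnAxis.row {c x y : FreeGroup α} (hc : c ≠ 1) (hx : OnAxis c x) (hy : OnAxis c y) :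
    d (c⁻¹ * x) x + d x y + d y (c * y) = d (c⁻¹ * x) (c * y) ∨
    d (c * x) x + d x y + d y (c⁻¹ * y) = d (c * x) (c⁻¹ * y) := by
  by_cases hxy : x = y
  · subst hxy
    left
    rw [d_self, Nat.add_zero]
    exact hx
  have e1 : 0 < d (c * x) x := Nat.pos_of_ne_zero fun h =>
    mul_ne_self hc x (d_eq_zero.mp h)
  have e2 : 0 < d (c⁻¹ * x) x := Nat.pos_of_ne_zero fun h =>
    mul_ne_self (inv_ne_one.mpr hc) x (d_eq_zero.mp h)
  rcases hx.or y with h1 | h1
  · rcases hy.or x with h2 | h2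
    · -- impossible
      exfalso
      have h3 := row_of_join h1 h2.symm hxy
      rw [d_mul_left] at h3
      omega
    · left; exact row_of_join h1 h2 hxy
  · rcases hy.symm.or x with h2 | h2
    · exfalso
      have h3 := row_of_join h1.symm h2.symm hxy
      rw [d_mul_left] at h3
      omega
    · right; exact row_of_join h1.symm h2 hxy

lemma core.subset_axis (hσ : Function.Injective σ) {c x y : FreeGroup α}
    (hx : OnAxis c x) (hy : OnAxis c y) {v : FreeGroup β} (hv : v ∈ core σ x y) :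
    OnAxis (σ c) v := by
  by_cases hc : c = 1
  · subst hc; simp [OnAxis]
  have hσc : σ c ≠ 1 := fun h => hc (hσ (by rw [h, _root_.map_one]))
  refine onAxis_of_far hσc (x₀ := T σ x) (d (T σ x) (T σ y)) fun n => ?_
  rcases Nat.eq_zero_or_pos n with h0 | h0
  · refine ⟨T σ x, T σ y, by simp, le_rfl, ?_⟩
    rw [h0]; simpa using core.btw hv
  have hcn : c ^ n ≠ 1 := fun h => hc ((pow_eq_one_iff_left (by omega)).mp h)
  rcases OnAxis.row hcn (hx.pow n) (hy.pow n) with h | h
  · refine ⟨T σ x, T σ y, by simp, le_rfl, ?_⟩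
    have := hv _ _ h
    rwa [T_mul, T_mul, _root_.map_inv, _root_.map_pow, ← inv_pow] at this
  · refine ⟨T σ y, T σ x, le_rfl, by simp, ?_⟩
    have := (hv _ _ h).symm
    rwa [T_mul, T_mul, _root_.map_inv, _root_.map_pow, ← inv_pow] at this

/-- the trimmed core -/
def TC (σ : FreeGroup α →* FreeGroup β) (x y : FreeGroup α) : Set (FreeGroup β) :=
  {v | Btw (T σ x) v (T σ y) ∧ Lam σ < d (T σ x) v ∧ Lam σ < d v (T σ y)}

lemma TC.left (hσ : Function.Injective σ) {x y u : FreeGroup α} {v : FreeGroup β}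
    (hv : v ∈ TC σ x y) (hu : Btw u x y) : ¬ Btw (T σ u) v (T σ x) := by
  obtain ⟨z, hz1, hz2⟩ := bcc_T hσ hu
  have := sep_of_bcc hv.1 hz1 hz2 hv.2.1
  exact fun h => this h.symm

lemma TC.right (hσ : Function.Injective σ) {x y u : FreeGroup α} {v : FreeGroup β}
    (hv : v ∈ TC σ x y) (hu : Btw x y u) : ¬ Btw (T σ u) v (T σ y) := by
  obtain ⟨z, hz1, hz2⟩ := bcc_T hσ hu
  have := sep_of_bcc hv.1.symm hz1.symm hz2 (by rw [d_comm]; exact hv.2.2)
  exact fun h => this h.symm

lemma TC.sep (hσ : Function.Injective σ) {x y u u' : FreeGroup α} {v : FreeGroup β}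
    (hv : v ∈ TC σ x y) (hu : Btw u x y) (hu' : Btw x y u') : Btw (T σ u) v (T σ u') := by
  have h1 := TC.left hσ hv hu
  have h2 := TC.right hσ hv hu'
  rcases hv.1.or (T σ u) with h3 | h3
  · exact absurd h3.symm h1
  · rcases h3.or (T σ u') with h4 | h4
    · exact h4
    · exact absurd h4 h2

lemma TC.smul' {x y : FreeGroup α} {v : FreeGroup β} (g : FreeGroup α)
    (h : v ∈ TC σ x y) : σ g * v ∈ TC σ (g * x) (g * y) := by
  have h' : Btw (T σ x) v (T σ y) ∧ Lam σ < d (T σ x) v ∧ Lam σ < d v (T σ y) := h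
  show Btw (T σ (g * x)) (σ g * v) (T σ (g * y)) ∧ Lam σ < d (T σ (g * x)) (σ g * v) ∧
    Lam σ < d (σ g * v) (T σ (g * y))
  rw [T_mul, T_mul, d_mul_left, d_mul_left]
  exact ⟨h'.1.mul_left _, h'.2⟩

lemma TC.smul {x y : FreeGroup α} {v : FreeGroup β} (g : FreeGroup α) :
    σ g * v ∈ TC σ (g * x) (g * y) ↔ v ∈ TC σ x y := by
  refine ⟨fun h => ?_, TC.smul' g⟩
  have := TC.smul' g⁻¹ h
  rwa [_root_.map_inv, inv_mul_cancel_left, inv_mul_cancel_left, inv_mul_cancel_left] at this

end Pool.Agent.AscQM
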