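import Pool.Agent.Lib.MP_fa6f87_al.Maps

/-!
The sets `Sep`.
-/

namespace Pool.Agent.AscQM

open FreeGroup

variable {α β : Type*} [DecidableEq β]

/-- the elements `g` such that no point of the orbit of `m` lies between `p` and `σ g * q` -/
def Sep (σ : FreeGroup α →* FreeGroup β) (m p q : FreeGroup β) : Set (FreeGroup α) :=
  {g | ∀ h, ¬ Btw p (σ h * m) (σ g * q)}

lemma mem_Sep {σ : FreeGroup α →* FreeGroup β} {m p q : FreeGroup β} {g : FreeGroup α} :
    g ∈ Sep σ m p q ↔ ∀ h, ¬ Btw p (σ h * m) (σ g * q) := Iff.rfl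

end Pool.Agent.AscQM
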