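import Pool.Agent.Lib.MP_fa6f87_al.Base
import Pool.Agent.Lib.MP_fa6f87_al.SepDef

/-!
Natural edges of convex subsets of the Cayley tree of a free group.
-/

namespace Pool.Agent.AscQM

open FreeGroup

section Basic

variable {α : Type*} [DecidableEq α]

/-- not being separated by `v` is transitive -/
lemma nbtw_trans {a b c v : FreeGroup α} (h1 : ¬ Btw a v b) (h2 : ¬ Btw b v c) :
    ¬ Btw a v c :=
  fun h => (h.or b).elim h1 h2

lemma Btw.antisymm {u m x : FreeGroup α} (h1 : Btw u m x) (h2 : Btw u x m) : m = x := by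
  unfold Btw at *
  rw [d_comm x m] at h2
  exact d_eq_zero.mp (by omega)

lemma same_left {x y m u u' : FreeGroup α} (hu : Btw u x y) (hu' : Btw u' x y) (hm : Btw x m y)
    (hne : m ≠ x) : ¬ Btw u m u' := by
  intro h
  have h1 : Btw u x m := hu.trans_right' hm
  have h2 : Btw u' x m := hu'.trans_right' hm
  rcases h.or x with h3 | h3
  · exact hne (h3.antisymm h1)
  · exact hne (h3.symm.antisymm h2)

lemma same_right {x y m u u' : FreeGroup α} (hu : Btw x y u) (hu' : Btw x y u') (hm : Btw x m y)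
    (hne : m ≠ y) : ¬ Btw u m u' :=
  same_left (x := y) (y := x) hu.symm hu'.symm hm.symm hne

lemma opp_side {x y m u u' : FreeGroup α} (hu : Btw u x y) (hu' : Btw x y u') (hm : Btw x m y)
    (hne : x ≠ y) : Btw u m u' := by
  have h1 := (hu.join hu' hne).2
  exact h1.trans_left (hu.trans_right hm)

/-- strictly between -/
def SIn (b c w : FreeGroup α) : Prop := Btw b w c ∧ w ≠ b ∧ w ≠ c

lemma SIn.symm {b c w : FreeGroup α} (h : SIn b c w) : SIn c b w := ⟨h.1.symm, h.2.2, h.2.1⟩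

lemma SIn.mul_left {b c w : FreeGroup α} (h : SIn b c w) (g : FreeGroup α) :
    SIn (g * b) (g * c) (g * w) :=
  ⟨h.1.mul_left g, fun e => h.2.1 (mul_left_cancel e), fun e => h.2.2 (mul_left_cancel e)⟩

variable {X : Set (FreeGroup α)}

lemma IsBr.mem (hX : Convex X) {v : FreeGroup α} (h : IsBr X v) : v ∈ X := by
  obtain ⟨x, hx, y, hy, z, hz, -, -, -, hb, -, -⟩ := h
  exact hX x hx y hy v hb

/-- position of a point with respect to a segment without interior branch vertices -/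
lemma pos_of_no_branch {x y u : FreeGroup α} (hx : x ∈ X) (hy : y ∈ X) (hu : u ∈ X)
    (hnb : ∀ v, SIn x y v → ¬ IsBr X v) : Btw u x y ∨ Btw x y u ∨ Btw x u y := by
  obtain ⟨m, h1, h2, h3⟩ := exists_med x y u
  by_cases e1 : m = x
  · subst e1; left; exact h2.symm
  by_cases e2 : m = y
  · subst e2; right; left; exact h3
  by_cases e3 : m = u
  · subst e3; right; right; exact h1
  exfalso
  exact hnb m ⟨h1, e1, e2⟩ ⟨x, hx, y, hy, u, hu, Ne.symm e1, Ne.symm e2, Ne.symm e3, h1, h2, h3⟩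

/-- `b` and `c` are the endpoints of a natural edge of `X` -/
def NE (X : Set (FreeGroup α)) (b c : FreeGroup α) : Prop :=
  IsBr X b ∧ IsBr X c ∧ b ≠ c ∧ ∀ v, SIn b c v → ¬ IsBr X v

lemma NE.symm {b c : FreeGroup α} (h : NE X b c) : NE X c b :=
  ⟨h.2.1, h.1, h.2.2.1.symm, fun v hv => h.2.2.2 v hv.symm⟩

lemma NE.pos (hX : Convex X) {b c u : FreeGroup α} (h : NE X b c) (hu : u ∈ X) :
    Btw u b c ∨ Btw b c u ∨ Btw b u c :=
  pos_of_no_branch (h.1.mem hX) (h.2.1.mem hX) hu h.2.2.2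

lemma NE.pos_br (hX : Convex X) {b c u : FreeGroup α} (h : NE X b c) (hu : IsBr X u) :
    Btw u b c ∨ Btw b c u := by
  rcases h.pos hX (hu.mem hX) with h1 | h1 | h1
  · exact Or.inl h1
  · exact Or.inr h1
  · by_cases e1 : u = b
    · subst e1; left; exact btw_left _ _
    by_cases e2 : u = c
    · subst e2; right; exact btw_right _ _
    exact absurd hu (h.2.2.2 u ⟨h1, e1, e2⟩)

private lemma NE.unique_aux {b b' c c' : FreeGroup α} (h : NE X b b')
    (h' : NE X c c') (h1 : Btw c b b') (h2 : Btw b b' c') :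
    c = b ∧ c' = b' := by
  have hj := h1.join h2 h.2.2.1
  have e1 : b = c ∨ b = c' := by
    by_contra hcon
    push Not at hcon
    exact h'.2.2.2 b ⟨hj.1, hcon.1, hcon.2⟩ h.1
  have e2 : b' = c ∨ b' = c' := by
    by_contra hcon
    push Not at hcon
    exact h'.2.2.2 b' ⟨hj.2, hcon.1, hcon.2⟩ h.2.1
  rcases e1 with e1 | e1
  · rcases e2 with e2 | e2
    · exact absurd (e1.trans e2.symm) h.2.2.1
    · exact ⟨e1.symm, e2.symm⟩
  · subst e1
    exact absurd (h2.eq_of_self).symm h.2.2.1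

lemma NE.unique (hX : Convex X) {b b' c c' w : FreeGroup α} (h : NE X b b') (h' : NE X c c')
    (hw : SIn b b' w) (hw' : SIn c c' w) : (c = b ∧ c' = b') ∨ (c = b' ∧ c' = b) := by
  rcases h.pos_br hX h'.1 with h1 | h1 <;> rcases h.pos_br hX h'.2.1 with h2 | h2
  · exact absurd hw'.1 (same_left h1 h2 hw.1 hw.2.1)
  · left; exact NE.unique_aux h h' h1 h2
  · right
    obtain ⟨e1, e2⟩ := NE.unique_aux h h'.symm h2 h1
    exact ⟨e2, e1⟩
  · exact absurd hw'.1 (same_right h1 h2 hw.1 hw.2.2)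

/-- (NE2) a natural edge is determined by its first step -/
lemma NE.eq_of_nxt {b c c' : FreeGroup α} (hX : Convex X) (h : NE X b c) (h' : NE X b c')
    (hn : nxt b c = nxt b c') : c = c' := by
  have h1 : ¬ Btw c b c' := fun h3 =>
    (nxt_ne_iff h.2.2.1.symm h'.2.2.1.symm).mpr h3 hn
  rcases h.pos_br hX h'.2.1 with h2 | h2
  · exact absurd h2.symm h1
  · by_contra hne
    exact h'.2.2.2 c ⟨h2, h.2.2.1.symm, hne⟩ h.2.1

/-- (P5) branch vertices do not see the difference between points of the same natural edge -/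
lemma NE.btw_iff (hX : Convex X) {b c v v' p q : FreeGroup α} (h : NE X b c) (hv : SIn b c v)
    (hv' : SIn b c v') (hp : IsBr X p) (hq : IsBr X q) : Btw p v q ↔ Btw p v' q := by
  rcases h.pos_br hX hp with h1 | h1 <;> rcases h.pos_br hX hq with h2 | h2
  · exact iff_of_false (same_left h1 h2 hv.1 hv.2.1) (same_left h1 h2 hv'.1 hv'.2.1)
  · exact iff_of_true (opp_side h1 h2 hv.1 h.2.2.1) (opp_side h1 h2 hv'.1 h.2.2.1)
  · exact iff_of_true (opp_side h2 h1 hv.1 h.2.2.1).symm (opp_side h2 h1 hv'.1 h.2.2.1).symm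
  · exact iff_of_false (same_right h1 h2 hv.1 hv.2.2) (same_right h1 h2 hv'.1 hv'.2.2)

end Basic

section Hulls

variable {α β : Type*} [DecidableEq α] [Fintype α] [DecidableEq β] [Fintype β]
  {σ : FreeGroup α →* FreeGroup β}

omit [Fintype β] in
lemma IsBr.smul {v : FreeGroup β} (h : IsBr (Hull σ) v) (g : FreeGroup α) :
    IsBr (Hull σ) (σ g * v) := by
  obtain ⟨x, hx, y, hy, z, hz, n1, n2, n3, h1, h2, h3⟩ := h
  exact ⟨σ g * x, Hull.smul hx g, σ g * y, Hull.smul hy g, σ g * z, Hull.smul hz g,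
    fun e => n1 (mul_left_cancel e), fun e => n2 (mul_left_cancel e),
    fun e => n3 (mul_left_cancel e), h1.mul_left _, h2.mul_left _, h3.mul_left _⟩

lemma IsBr.smul_iff {v : FreeGroup β} (g : FreeGroup α) :
    IsBr (Hull σ) (σ g * v) ↔ IsBr (Hull σ) v := by
  refine ⟨fun h => ?_, fun h => h.smul g⟩
  have := h.smul g⁻¹
  rwa [_root_.map_inv, inv_mul_cancel_left] at this

lemma NE.smul {b c : FreeGroup β} (h : NE (Hull σ) b c) (g : FreeGroup α) :
    NE (Hull σ) (σ g * b) (σ g * c) := by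
  refine ⟨h.1.smul g, h.2.1.smul g, fun e => h.2.2.1 (mul_left_cancel e), fun v hv hbr => ?_⟩
  have h1 := hv.mul_left (σ g)⁻¹
  rw [inv_mul_cancel_left, inv_mul_cancel_left] at h1
  have h2 := hbr.smul g⁻¹
  rw [_root_.map_inv] at h2
  exact h.2.2.2 _ h1 h2

lemma exists_NE (hσ : Function.Injective σ) (h2 : 2 ≤ Fintype.card α) {v : FreeGroup β}
    (hv : v ∈ Hull σ) (hnb : ¬ IsBr (Hull σ) v) : ∃ b c, NE (Hull σ) b c ∧ SIn b c v := by
  obtain ⟨b₀, hb₀⟩ := Hull.exists_br hσ h2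
  obtain ⟨g, h, -, -, hgh⟩ := Hull.orbit hv b₀ 0
  have hex : ∃ n : ℕ, ∃ b c, IsBr (Hull σ) b ∧ IsBr (Hull σ) c ∧ Btw b v c ∧ d b c = n :=
    ⟨_, _, _, hb₀.smul g, hb₀.smul h, hgh, rfl⟩
  classical
  obtain ⟨b, c, hb, hc, hbc, hd⟩ := Nat.find_spec hex
  have hmin : ∀ b' c', IsBr (Hull σ) b' → IsBr (Hull σ) c' → Btw b' v c' → d b c ≤ d b' c' := by
    intro b' c' h1 h2 h3
    rw [hd]
    exact Nat.find_min' hex ⟨b', c', h1, h2, h3, rfl⟩
  have hvb : v ≠ b := fun e => hnb (e ▸ hb)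
  have hvc : v ≠ c := fun e => hnb (e ▸ hc)
  refine ⟨b, c, ⟨hb, hc, ?_, ?_⟩, hbc, hvb, hvc⟩
  · rintro rfl
    exact hvb hbc.eq_of_self
  · rintro u ⟨hu, hub, huc⟩ hbr
    have e1 : 0 < d b u := one_le_d (Ne.symm hub)
    have e2 : 0 < d u c := one_le_d huc
    have e3 : d b u + d u c = d b c := hu
    rcases hbc.or u with h3 | h3
    · have := hmin b u hb hbr h3
      omega
    · have := hmin u c hbr hc h3
      omega

omit [DecidableEq α] [Fintype α] in
lemma eq_one_of_sq {h : FreeGroup α} (hh : h * h = 1) : h = 1 := by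
  have h2 : h ^ 2 = 1 := by rw [sq]; exact hh
  exact (pow_eq_one_iff_left (by norm_num)).mp h2

omit [DecidableEq α] [Fintype α] [DecidableEq β] [Fintype β] in
lemma eq_one_of_fix (hσ : Function.Injective σ) {h : FreeGroup α} {b : FreeGroup β}
    (hh : σ h * b = b) : h = 1 := by
  have : σ h = σ 1 := by rw [_root_.map_one]; simpa using hh
  exact hσ this

/-- (NE1) -/
lemma NE.eq_one (hσ : Function.Injective σ) {b c v : FreeGroup β} (h : NE (Hull σ) b c)
    (hv : SIn b c v) {g : FreeGroup α} (hg : SIn b c (σ g * v)) : g = 1 := by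
  rcases h.unique Hull.convex (h.smul g) hg (hv.mul_left (σ g)) with ⟨h1, -⟩ | ⟨h1, h2⟩
  · exact eq_one_of_fix hσ h1
  · apply eq_one_of_sq
    apply eq_one_of_fix hσ (b := b)
    rw [_root_.map_mul, mul_assoc, h1, h2]

/-- a segment without branch vertices lies inside a natural edge -/
lemma exists_NE_seg (hσ : Function.Injective σ) (h2 : 2 ≤ Fintype.card α) {x y : FreeGroup β}
    (hx : x ∈ Hull σ) (hy : y ∈ Hull σ) (hnb : ∀ u, Btw x u y → ¬ IsBr (Hull σ) u) :
    ∃ b c, NE (Hull σ) b c ∧ ∀ u, Btw x u y → SIn b c u := by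
  obtain ⟨b, c, hbc, hxs⟩ := exists_NE hσ h2 hx (hnb x (btw_left _ _))
  refine ⟨b, c, hbc, ?_⟩
  have hyb : ¬ Btw y b c := by
    intro h1
    have h3 : Btw y b x := h1.trans_right' hxs.1
    exact hnb b h3.symm hbc.1
  have hyc : ¬ Btw b c y := by
    intro h1
    have h3 : Btw y c x := h1.symm.trans_right' hxs.1.symm
    exact hnb c h3.symm hbc.2.1
  have hyy : Btw b y c := by
    rcases hbc.pos Hull.convex hy with h | h | h
    · exact absurd h hyb
    · exact absurd h hyc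
    · exact h
  intro u hu
  have hub : u ≠ b := fun e => hnb u hu (e ▸ hbc.1)
  have huc : u ≠ c := fun e => hnb u hu (e ▸ hbc.2.1)
  refine ⟨?_, hub, huc⟩
  -- `u` between `x` and `y`, both between `b` and `c`
  rcases le_total (d b x) (d b y) with hle | hle
  · have h3 : Btw x y c := hxs.1.right hyy hle
    have h4 : Btw x u c := h3.trans_left hu
    exact hxs.1.trans_right h4
  · have h3 : Btw y x c := hyy.right hxs.1 hle
    have h4 : Btw y u c := h3.trans_left hu.symm
    exact hyy.trans_right h4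

/-- (S3) translates of a segment without branch vertices are disjoint -/
lemma eq_one_of_seg (hσ : Function.Injective σ) (h2 : 2 ≤ Fintype.card α) {x y : FreeGroup β}
    (hx : x ∈ Hull σ) (hy : y ∈ Hull σ) (hnb : ∀ u, Btw x u y → ¬ IsBr (Hull σ) u)
    {u : FreeGroup β} {g : FreeGroup α} (hu : Btw x u y) (hgu : Btw x (σ g * u) y) : g = 1 := by
  obtain ⟨b, c, hbc, hin⟩ := exists_NE_seg hσ h2 hx hy hnb
  exact hbc.eq_one hσ (hin u hu) (hin _ hgu)

omit [DecidableEq α] [Fintype α] [Fintype β] in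
/-- (S2) -/
lemma pos_of_seg {x y u : FreeGroup β} (hx : x ∈ Hull σ) (hy : y ∈ Hull σ)
    (hnb : ∀ u, Btw x u y → ¬ IsBr (Hull σ) u) (hu : u ∈ Hull σ) :
    Btw u x y ∨ Btw x y u ∨ Btw x u y :=
  pos_of_no_branch hx hy hu fun v hv => hnb v hv.1

/-- nontrivial translates of points of the segment are on one of the two sides -/
lemma side_of_seg (hσ : Function.Injective σ) (h2 : 2 ≤ Fintype.card α) {x y : FreeGroup β}
    (hx : x ∈ Hull σ) (hy : y ∈ Hull σ) (hnb : ∀ u, Btw x u y → ¬ IsBr (Hull σ) u)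
    {u : FreeGroup β} {g : FreeGroup α} (hu : Btw x u y) (hg : g ≠ 1) :
    Btw (σ g * u) x y ∨ Btw x y (σ g * u) := by
  have hu' : u ∈ Hull σ := Hull.convex x hx y hy u hu
  rcases pos_of_seg hx hy hnb (Hull.smul hu' g) with h | h | h
  · exact Or.inl h
  · exact Or.inr h
  · exact absurd (eq_one_of_seg hσ h2 hx hy hnb hu h) hg

end Hulls

end Pool.Agent.AscQM
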