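import Pool.Agent.Lib.MP_fa6f87_al.Volume
import Pool.Agent.Lib.MP_fa6f87_al.NatEdge

/-!
Deep vertices of multiplicity one (blueprint E3).
-/

namespace Pool.Agent.AscQM

open FreeGroup

section Deep

variable {α β : Type*} [DecidableEq α] [Fintype α] [DecidableEq β] [Fintype β]

/-- vertices close to branch vertices lie in few orbits -/
lemma card_shallow_le [Nonempty α] {σ : FreeGroup α →* FreeGroup β} (hσ : Function.Injective σ)
    {R : Finset (FreeGroup β)} (hR : IsTransversal σ (Hull σ) R) (R₀ : ℕ) :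
    ∃ S ⊆ R, S.card ≤ 2 * (Fintype.card α - 1) * (finite_ball (1 : FreeGroup β) R₀).toFinset.card ∧
      ∀ ρ ∈ R, ρ ∉ S → ∀ u, IsBr (Hull σ) u → R₀ < d ρ u := by
  classical
  obtain ⟨Rb, hRb, hcov⟩ := Hull.branch_orbits hσ
  set Ball := (finite_ball (1 : FreeGroup β) R₀).toFinset with hBall
  set S := R.filter (fun ρ => ∃ u, IsBr (Hull σ) u ∧ d ρ u ≤ R₀) with hS
  refine ⟨S, Finset.filter_subset _ _, ?_, ?_⟩
  · -- an injection into `Rb × Ball`
    have h1 : ∀ ρ ∈ S, ∃ g, ∃ b ∈ Rb, ∃ w ∈ Ball, ρ = σ g * (b * w) := by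
      intro ρ hρ
      rw [hS, Finset.mem_filter] at hρ
      obtain ⟨hρR, u, hu, hd⟩ := hρ
      obtain ⟨g, b, hb, rfl⟩ := hcov u hu
      refine ⟨g, b, hb, b⁻¹ * ((σ g)⁻¹ * ρ), ?_, by group⟩
      rw [hBall, Set.Finite.mem_toFinset, Set.mem_ofPred_eq]
      have : d (1 : FreeGroup β) (b⁻¹ * ((σ g)⁻¹ * ρ)) = d ρ (σ g * b) := by
        rw [← d_mul_left b, mul_one, mul_inv_cancel_left, ← d_mul_left (σ g), mul_inv_cancel_left,
          d_comm]
      rw [this]; exact hd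
    choose! gg bb hbb ww hww heq using h1
    calc S.card ≤ (Rb ×ˢ Ball).card := by
          refine Finset.card_le_card_of_injOn (fun ρ => (bb ρ, ww ρ)) ?_ ?_
          · intro ρ hρ
            exact Finset.mem_coe.mpr (Finset.mem_product.mpr ⟨hbb ρ hρ, hww ρ hρ⟩)
          · intro ρ hρ ρ' hρ' he
            have e1 : bb ρ = bb ρ' := congrArg Prod.fst he
            have e2 : ww ρ = ww ρ' := congrArg Prod.snd he
            have hρR : ρ ∈ R := (Finset.mem_filter.mp (Finset.mem_coe.mp hρ)).1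
            have hρR' : ρ' ∈ R := (Finset.mem_filter.mp (Finset.mem_coe.mp hρ')).1
            refine hR.inj ρ hρR ρ' hρR' (gg ρ' * (gg ρ)⁻¹) ?_
            have h2 := heq ρ hρ
            have h3 := heq ρ' hρ'
            rw [e1, e2] at h2
            rw [_root_.map_mul, _root_.map_inv]
            calc σ (gg ρ') * (σ (gg ρ))⁻¹ * ρ = σ (gg ρ') * ((σ (gg ρ))⁻¹ * ρ) := by group
              _ = σ (gg ρ') * (bb ρ' * ww ρ') := by
                  rw [inv_mul_eq_iff_eq_mul.mpr h2]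
              _ = ρ' := h3.symm
      _ = Rb.card * Ball.card := Finset.card_product _ _
      _ ≤ _ := Nat.mul_le_mul_right _ hRb
  · intro ρ hρ hn u hu
    by_contra hlt
    push Not at hlt
    exact hn (Finset.mem_filter.mpr ⟨hρ, u, hu, hlt⟩)

/-- the basic counting step -/
lemma vol_step [Nonempty α] {θ : FreeGroup α →* FreeGroup α} (hθ : Function.Injective θ)
    (hmult : ∀ k n, ∀ m ∈ Hull (iter θ k), ∃ g, iter θ k g * m ∈ Hull (iter θ (k + n)))
    {k n R₀ : ℕ}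
    (hno : ∀ m ∈ Hull (iter θ (k + n)), (∀ u, IsBr (Hull (iter θ k)) u → R₀ < d m u) →
      ∃ g, iter θ k g * m ∈ Hull (iter θ (k + n)) ∧
        ∀ f, iter θ k g * m ≠ iter θ (k + n) f * m)
    {R R' : Finset (FreeGroup α)} (hR : IsTransversal (iter θ k) (Hull (iter θ k)) R)
    (hR' : IsTransversal (iter θ (k + n)) (Hull (iter θ (k + n))) R') :
    2 * R.card ≤ R'.card +
      2 * (Fintype.card α - 1) * (finite_ball (1 : FreeGroup α) R₀).toFinset.card := by
  classical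
  obtain ⟨S, hSR, hScard, hdeep⟩ := card_shallow_le (iter_injective θ hθ k) hR R₀
  -- the projection `R' → R`
  have hpi : ∀ ρ ∈ R', ∃ ρ' ∈ R, ∃ g, ρ = iter θ k g * ρ' := by
    intro ρ hρ
    obtain ⟨g, ρ', h1, h2⟩ := hR.cover ρ (Hull.iter_antitone θ (Nat.le_add_right k n) (hR'.mem ρ hρ))
    exact ⟨ρ', h1, g, h2⟩
  choose! π hπR hπ using hpi
  have hsum : R'.card = ∑ ρ' ∈ R, (R'.filter fun ρ => π ρ = ρ').card :=
    Finset.card_eq_sum_card_fiberwise (fun ρ hρ => hπR ρ hρ)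
  -- a point of `Hull (k+n)` in the orbit of `ρ'` gives an element of the fibre
  have hfib : ∀ ρ' ∈ R, ∀ g, iter θ k g * ρ' ∈ Hull (iter θ (k + n)) →
      ∃ ρ ∈ R', π ρ = ρ' ∧ ∃ f, iter θ k g * ρ' = iter θ (k + n) f * ρ := by
    intro ρ' hρ' g hg
    obtain ⟨f, ρ, hρ, he⟩ := hR'.cover _ hg
    refine ⟨ρ, hρ, ?_, f, he⟩
    obtain ⟨g', hg'⟩ := hπ ρ hρ
    refine (hR.inj ρ' hρ' (π ρ) (hπR ρ hρ) ((g')⁻¹ * ((iter θ n f)⁻¹ * g)) ?_).symm
    have h1 : iter θ (k + n) f = iter θ k (iter θ n f) := iter_add θ k n f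
    rw [h1] at he
    calc iter θ k ((g')⁻¹ * ((iter θ n f)⁻¹ * g)) * ρ'
        = (iter θ k g')⁻¹ * ((iter θ k (iter θ n f))⁻¹ * (iter θ k g * ρ')) := by
          rw [_root_.map_mul, _root_.map_mul, _root_.map_inv, _root_.map_inv]; group
      _ = (iter θ k g')⁻¹ * ρ := by rw [he]; group
      _ = π ρ := by
          conv_lhs => rw [hg']
          group
  have h1 : ∀ ρ' ∈ R, 1 ≤ (R'.filter fun ρ => π ρ = ρ').card := by
    intro ρ' hρ'
    obtain ⟨g, hg⟩ := hmult k n ρ' (hR.mem ρ' hρ')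
    obtain ⟨ρ, hρ, h2, -⟩ := hfib ρ' hρ' g hg
    exact Finset.card_pos.mpr ⟨ρ, Finset.mem_filter.mpr ⟨hρ, h2⟩⟩
  have h2 : ∀ ρ' ∈ R, ρ' ∉ S → 2 ≤ (R'.filter fun ρ => π ρ = ρ').card := by
    intro ρ' hρ' hS
    obtain ⟨g, hg⟩ := hmult k n ρ' (hR.mem ρ' hρ')
    have hd : ∀ u, IsBr (Hull (iter θ k)) u → R₀ < d (iter θ k g * ρ') u := by
      intro u hu
      have h3 := hdeep ρ' hρ' hS ((iter θ k g)⁻¹ * u) (by
        have := hu.smul g⁻¹
        rwa [_root_.map_inv] at this)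
      rwa [← d_mul_left (iter θ k g), mul_inv_cancel_left] at h3
    obtain ⟨g', hg', hne⟩ := hno _ hg hd
    obtain ⟨ρ₁, hρ₁, e₁, f₁, e₁'⟩ := hfib ρ' hρ' g hg
    have hg'' : iter θ k (g' * g) * ρ' ∈ Hull (iter θ (k + n)) := by
      rw [_root_.map_mul, mul_assoc]; exact hg'
    obtain ⟨ρ₂, hρ₂, e₂, f₂, e₂'⟩ := hfib ρ' hρ' (g' * g) hg''
    have hρne : ρ₁ ≠ ρ₂ := by
      rintro rfl
      apply hne (f₂ * f₁⁻¹)
      calc iter θ k g' * (iter θ k g * ρ') = iter θ k (g' * g) * ρ' := by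
            rw [_root_.map_mul, mul_assoc]
        _ = iter θ (k + n) f₂ * ρ₁ := e₂'
        _ = iter θ (k + n) (f₂ * f₁⁻¹) * (iter θ k g * ρ') := by
            rw [e₁', _root_.map_mul, _root_.map_inv]; group
    exact Finset.one_lt_card.mpr ⟨ρ₁, Finset.mem_filter.mpr ⟨hρ₁, e₁⟩, ρ₂,
      Finset.mem_filter.mpr ⟨hρ₂, e₂⟩, hρne⟩
  have h3 : ∑ ρ' ∈ R, (if ρ' ∈ S then 1 else 2) ≤ R'.card := by
    rw [hsum]
    apply Finset.sum_le_sum
    intro ρ' hρ'
    split_ifs with h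
    · exact h1 ρ' hρ'
    · exact h2 ρ' hρ' h
  have h4 : ∑ ρ' ∈ R, (if ρ' ∈ S then 1 else 2) + S.card = 2 * R.card := by
    have e1 : S.card = ∑ ρ' ∈ R, (if ρ' ∈ S then 1 else 0) := by
      rw [Finset.sum_ite_mem, Finset.inter_eq_right.mpr hSR]
      simp
    rw [e1, ← Finset.sum_add_distrib, mul_comm, ← smul_eq_mul, ← Finset.sum_const]
    apply Finset.sum_congr rfl
    intro x _
    split_ifs <;> rfl
  omega

theorem exists_deep [Nonempty α] {θ : FreeGroup α →* FreeGroup α} (hθ : Function.Injective θ)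
    (hns : ¬ Function.Surjective θ) (h2 : 2 ≤ Fintype.card α) (hsub : ¬ ExpGrowth θ)
    (hmult : ∀ k n, ∀ m ∈ Hull (iter θ k), ∃ g, iter θ k g * m ∈ Hull (iter θ (k + n)))
    (n R₀ : ℕ) :
    ∃ k, ∃ m ∈ Hull (iter θ (k + n)), (∀ u, IsBr (Hull (iter θ k)) u → R₀ < d m u) ∧
      ∀ g, iter θ k g * m ∈ Hull (iter θ (k + n)) →
        ∃ f, iter θ k g * m = iter θ (k + n) f * m := by
  classical
  by_contra hcon
  push Not at hcon
  -- volumes
  have hex : ∀ k, ∃ R, IsTransversal (iter θ k) (Hull (iter θ k)) R := fun k =>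
    Hull.exists_transversal (iter θ k)
  choose R hR using hex
  set B := 2 * (Fintype.card α - 1) * (finite_ball (1 : FreeGroup α) R₀).toFinset.card with hB
  have hstep : ∀ k, 2 * (R k).card ≤ (R (k + n)).card + B := fun k =>
    vol_step hθ hmult (hcon k) (hR k) (hR (k + n))
  obtain ⟨K, hK⟩ := vol_tendsto hθ hns h2 (2 * B + 1)
  have hbig : ∀ k ≥ K, 2 * B + 1 ≤ (R k).card := fun k hk => hK k hk (R k) (hR k)
  have hgrow : ∀ j, ((3 : ℝ) / 2) ^ j ≤ (R (K + j * n)).card := by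
    intro j
    induction j with
    | zero =>
      have := hbig K le_rfl
      have h : (1 : ℝ) ≤ ((R K).card : ℝ) := by exact_mod_cast (by omega : 1 ≤ (R K).card)
      simpa using h
    | succ j ih =>
      have h1 := hstep (K + j * n)
      have h3 := hbig (K + j * n) (Nat.le_add_right _ _)
      have e : K + j * n + n = K + (j + 1) * n := by ring
      rw [e] at h1
      have h4 : (2 : ℝ) * ((R (K + j * n)).card : ℝ) ≤ (R (K + (j + 1) * n)).card + B := by
        exact_mod_cast h1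
      have h5 : (2 : ℝ) * B + 1 ≤ (R (K + j * n)).card := by exact_mod_cast h3
      rw [pow_succ]
      linarith
  rcases Nat.eq_zero_or_pos n with hn | hn
  · -- `n = 0`: the volume would be infinite
    subst hn
    simp only [Nat.mul_zero, Nat.add_zero] at hgrow
    obtain ⟨j, hj⟩ := pow_unbounded_of_one_lt ((R K).card : ℝ) (by norm_num : (1 : ℝ) < 3 / 2)
    exact absurd (hgrow j) (not_le.mpr hj)
  · -- exponential growth
    apply hsub
    set μ : ℝ := ((3 : ℝ) / 2) ^ ((1 : ℝ) / n) with hμ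
    have hn' : (0 : ℝ) < n := by exact_mod_cast hn
    have hμ1 : 1 < μ := Real.one_lt_rpow (by norm_num) (by positivity)
    have hμn : μ ^ n = 3 / 2 := by
      rw [hμ, ← Real.rpow_natCast, ← Real.rpow_mul (by norm_num)]
      rw [one_div, inv_mul_cancel₀ (ne_of_gt hn'), Real.rpow_one]
    set r : ℝ := (Fintype.card α : ℝ) with hr
    have hr1 : (0 : ℝ) < r := by
      have : 0 < Fintype.card α := by omega
      rw [hr]
      exact_mod_cast this
    have hμK : 0 < μ ^ K := by positivity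
    refine expGrowth_of_lam hθ hμ1 (c := 1 / (2 * r * μ ^ K)) (by positivity) ?_
    rw [Filter.frequently_atTop]
    intro a
    -- choose `j` large
    obtain ⟨j₀, hj₀⟩ := pow_unbounded_of_one_lt (2 * r) (by norm_num : (1 : ℝ) < 3 / 2)
    set j := max a j₀ with hj
    refine ⟨K + j * n, ?_, ?_⟩
    · have : a ≤ j := le_max_left _ _
      nlinarith
    · have h1 := hgrow j
      have h3 : ((R (K + j * n)).card : ℝ) ≤ r * ((lam (iter θ (K + j * n)) : ℝ) + 1) := by
        have := (vol_le_Lam (hR (K + j * n))).trans (Lam_le _)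
        rw [hr]
        exact_mod_cast this
      have h4 : 2 * r ≤ ((3 : ℝ) / 2) ^ j :=
        hj₀.le.trans (pow_le_pow_right₀ (by norm_num) (le_max_right _ _))
      have h5 : μ ^ (K + j * n) = μ ^ K * (3 / 2) ^ j := by
        rw [pow_add, mul_comm j n, pow_mul, hμn]
      rw [h5]
      have h6 : 1 / (2 * r * μ ^ K) * (μ ^ K * (3 / 2) ^ j) = (3 / 2) ^ j / (2 * r) := by
        field_simp
      rw [h6, div_le_iff₀ (by positivity)]
      nlinarith
end Deep

end Pool.Agent.AscQM
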