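import Mathlib

/-!
Definitions: homogeneous quasimorphisms, second bounded cohomology, ascending HNN extensions.
-/

namespace Pool.Agent.AscQM

/-- The real vector space of homogeneous quasimorphisms on a group. -/
def HQM (G : Type*) [Group G] : Submodule ℝ (G → ℝ) where
  carrier := {φ | (∃ D : ℝ, ∀ g h, |φ (g * h) - φ g - φ h| ≤ D) ∧
    ∀ (g : G) (n : ℤ), φ (g ^ n) = n * φ g}
  zero_mem' := by
    refine ⟨⟨0, fun g h => ?_⟩, fun g n => ?_⟩ <;> simp
  add_mem' := by
    rintro φ ψ ⟨⟨D, hD⟩, hφ⟩ ⟨⟨E, hE⟩, hψ⟩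
    refine ⟨⟨D + E, fun g h => ?_⟩, fun g n => ?_⟩
    · have h1 := hD g h
      have h2 := hE g h
      simp only [Pi.add_apply]
      rw [abs_le] at *
      constructor <;> linarith [h1.1, h1.2, h2.1, h2.2]
    · simp only [Pi.add_apply, hφ, hψ]; ring
  smul_mem' := by
    rintro c φ ⟨⟨D, hD⟩, hφ⟩
    refine ⟨⟨|c| * D, fun g h => ?_⟩, fun g n => ?_⟩
    · simp only [Pi.smul_apply, smul_eq_mul]
      rw [← mul_sub, ← mul_sub, abs_mul]
      exact mul_le_mul_of_nonneg_left (hD g h) (abs_nonneg c)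
    · simp only [Pi.smul_apply, smul_eq_mul, hφ]; ring

/-- The homogeneous quasimorphisms invariant under an endomorphism. -/
def invHQM {G : Type*} [Group G] (θ : G →* G) : Submodule ℝ (G → ℝ) where
  carrier := {φ | φ ∈ HQM G ∧ ∀ g, φ (θ g) = φ g}
  zero_mem' := ⟨(HQM G).zero_mem, fun _ => rfl⟩
  add_mem' := by
    rintro φ ψ ⟨h1, h2⟩ ⟨h3, h4⟩
    exact ⟨(HQM G).add_mem h1 h3, fun g => by simp [h2, h4]⟩
  smul_mem' := by
    rintro c φ ⟨h1, h2⟩
    exact ⟨(HQM G).smul_mem c h1, fun g => by simp [h2]⟩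

/-- Bounded (inhomogeneous) real 2-cocycles. -/
def Z2b (G : Type*) [Group G] : Submodule ℝ (G → G → ℝ) where
  carrier := {c | (∃ D : ℝ, ∀ g h, |c g h| ≤ D) ∧
    ∀ g h k, c h k - c (g * h) k + c g (h * k) - c g h = 0}
  zero_mem' := by
    refine ⟨⟨0, fun g h => ?_⟩, fun g h k => ?_⟩ <;> simp
  add_mem' := by
    rintro φ ψ ⟨⟨D, hD⟩, hφ⟩ ⟨⟨E, hE⟩, hψ⟩
    refine ⟨⟨D + E, fun g h => ?_⟩, fun g h k => ?_⟩
    · simp only [Pi.add_apply]
      exact (abs_add_le _ _).trans (add_le_add (hD g h) (hE g h))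
    · simp only [Pi.add_apply]; linarith [hφ g h k, hψ g h k]
  smul_mem' := by
    rintro c φ ⟨⟨D, hD⟩, hφ⟩
    refine ⟨⟨|c| * D, fun g h => ?_⟩, fun g h k => ?_⟩
    · simp only [Pi.smul_apply, smul_eq_mul]
      rw [abs_mul]
      exact mul_le_mul_of_nonneg_left (hD g h) (abs_nonneg c)
    · simp only [Pi.smul_apply, smul_eq_mul]
      have := hφ g h k
      linear_combination c * this

/-- Coboundaries of bounded 1-cochains. -/
def B2b (G : Type*) [Group G] : Submodule ℝ (G → G → ℝ) where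
  carrier := {c | ∃ b : G → ℝ, (∃ D : ℝ, ∀ g, |b g| ≤ D) ∧
    ∀ g h, c g h = b h - b (g * h) + b g}
  zero_mem' := by
    refine ⟨0, ⟨0, fun g => ?_⟩, fun g h => ?_⟩ <;> simp
  add_mem' := by
    rintro φ ψ ⟨b, ⟨D, hD⟩, hφ⟩ ⟨b', ⟨E, hE⟩, hψ⟩
    refine ⟨b + b', ⟨D + E, fun g => ?_⟩, fun g h => ?_⟩
    · simp only [Pi.add_apply]
      exact (abs_add_le _ _).trans (add_le_add (hD g) (hE g))
    · simp only [Pi.add_apply, hφ, hψ]; ring
  smul_mem' := by
    rintro c φ ⟨b, ⟨D, hD⟩, hφ⟩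
    refine ⟨c • b, ⟨|c| * D, fun g => ?_⟩, fun g h => ?_⟩
    · simp only [Pi.smul_apply, smul_eq_mul]
      rw [abs_mul]
      exact mul_le_mul_of_nonneg_left (hD g) (abs_nonneg c)
    · simp only [Pi.smul_apply, smul_eq_mul, hφ]; ring

/-- The second bounded cohomology of `G` with trivial real coefficients. -/
abbrev H2b (G : Type*) [Group G] : Type _ :=
  (Z2b G) ⧸ ((B2b G).comap (Z2b G).subtype)

/-- The ascending HNN extension `⟨F, t ∣ t x t⁻¹ = θ x, x ∈ F⟩` of `F` along an injective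
endomorphism `θ`. -/
abbrev AscHNN {F : Type*} [Group F] (θ : F →* F) (hθ : Function.Injective θ) : Type _ :=
  HNNExtension F ⊤ θ.range ((Subgroup.topEquiv).trans (MonoidHom.ofInjective hθ))

/-- Iterates of an endomorphism, `iter θ k = θ ^ k`. -/
def iter {F : Type*} [Group F] (θ : F →* F) : ℕ → (F →* F)
  | 0 => MonoidHom.id F
  | k + 1 => (iter θ k).comp θ

section iter

variable {F : Type*} [Group F] (θ : F →* F)

@[simp] lemma iter_zero (x : F) : iter θ 0 x = x := rfl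

lemma iter_succ (k : ℕ) (x : F) : iter θ (k + 1) x = iter θ k (θ x) := rfl

lemma iter_succ' (k : ℕ) (x : F) : iter θ (k + 1) x = θ (iter θ k x) := by
  induction k generalizing x with
  | zero => rfl
  | succ k ih => rw [iter_succ, ih, ← iter_succ]

lemma iter_add (k l : ℕ) (x : F) : iter θ (k + l) x = iter θ k (iter θ l x) := by
  induction l generalizing x with
  | zero => rfl
  | succ l ih => rw [← Nat.add_assoc, iter_succ, ih, ← iter_succ]

lemma iter_injective (hθ : Function.Injective θ) (k : ℕ) : Function.Injective (iter θ k) := by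
  induction k with
  | zero => exact fun _ _ h => h
  | succ k ih => exact fun x y h => hθ (ih h)

end iter

end Pool.Agent.AscQM
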