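import Mathlib

/-!
The tree metric of a free group.
-/

namespace Pool.Agent.AscQM

open FreeGroup

variable {α : Type*}

/-- length of the longest common prefix -/
def lcp [DecidableEq α] : List α → List α → ℕ
  | a :: l, b :: l' => if a = b then lcp l l' + 1 else 0
  | _, _ => 0

section lcp
variable [DecidableEq α]

lemma lcp_nil_left (l : List α) : lcp [] l = 0 := by simp [lcp]
lemma lcp_nil_right (l : List α) : lcp l [] = 0 := by cases l <;> simp [lcp]

lemma lcp_comm (l l' : List α) : lcp l l' = lcp l' l := by
  induction l generalizing l' with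
  | nil => rw [lcp_nil_left, lcp_nil_right]
  | cons a l ih =>
    cases l' with
    | nil => rw [lcp_nil_left, lcp_nil_right]
    | cons b l' =>
      simp only [lcp]
      by_cases h : a = b
      · rw [if_pos h, if_pos h.symm, ih]
      · rw [if_neg h, if_neg (Ne.symm h)]

lemma lcp_ultra (l l' l'' : List α) : lcp l l' ≤ lcp l l'' ∨ lcp l' l'' ≤ lcp l l'' := by
  induction l generalizing l' l'' with
  | nil => left; rw [lcp_nil_left, lcp_nil_left]
  | cons a l ih =>
    cases l' with
    | nil => left; rw [lcp_nil_right]; exact Nat.zero_le _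
    | cons b l' =>
      cases l'' with
      | nil => right; rw [lcp_nil_right]; exact Nat.zero_le _
      | cons c l'' =>
        simp only [lcp]
        by_cases h : a = b
        · subst h
          by_cases h' : a = c
          · subst h'
            simp only [if_true]
            rcases ih l' l'' with h1 | h1 <;> omega
          · right; simp [h']
        · left; simp [h]

end lcp

/-- sublists of consecutive letters of a reduced word are reduced -/
lemma isReduced_sub {α : Type*} {L₁ L₂ : List (α × Bool)} (h : IsReduced L₂)
    (hi : L₁ <:+: L₂) : IsReduced L₁ := by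
  obtain ⟨s, t, rfl⟩ := hi
  have h1 := (List.isChain_append.mp h).1
  exact (List.isChain_append.mp h1).2.1

variable [DecidableEq α]

lemma isReduced_invRev {L : List (α × Bool)} (h : IsReduced L) : IsReduced (invRev L) := by
  rw [isReduced_iff_reduce_eq, reduce_invRev, h.reduce_eq]

lemma length_reduce_invRev_append (L₁ L₂ : List (α × Bool)) (h₁ : IsReduced L₁)
    (h₂ : IsReduced L₂) :
    (reduce (invRev L₁ ++ L₂)).length + 2 * lcp L₁ L₂ = L₁.length + L₂.length := by
  induction L₁ generalizing L₂ with
  | nil => simp [lcp_nil_left, h₂.reduce_eq]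
  | cons a L₁ ih =>
    cases L₂ with
    | nil =>
      rw [List.append_nil, (isReduced_invRev h₁).reduce_eq, lcp_nil_right]
      simp
    | cons b L₂ =>
      have h₁' : IsReduced L₁ := isReduced_sub h₁ ⟨[a], [], by simp⟩
      have h₂' : IsReduced L₂ := isReduced_sub h₂ ⟨[b], [], by simp⟩
      have hinv : invRev (a :: L₁) = invRev L₁ ++ [(a.1, !a.2)] := by
        simp [invRev]
      by_cases h : a = b
      · subst h
        have h3 : reduce (invRev (a :: L₁) ++ a :: L₂) = reduce (invRev L₁ ++ L₂) := by
          apply reduce.sound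
          rw [hinv]
          have : mk [(a.1, !a.2)] * mk [a] = (1 : FreeGroup α) := by
            have e : mk [(a.1, !a.2)] = (mk [a] : FreeGroup α)⁻¹ := by
              rw [inv_mk]; simp [invRev]
            rw [e, inv_mul_cancel]
          calc mk (invRev L₁ ++ [(a.1, !a.2)] ++ a :: L₂)
              = mk (invRev L₁) * (mk [(a.1, !a.2)] * mk [a]) * mk L₂ := by
                rw [mul_mk, mul_mk, mul_mk]; simp
            _ = mk (invRev L₁) * mk L₂ := by rw [this, mul_one]
            _ = mk (invRev L₁ ++ L₂) := by rw [mul_mk]
        rw [h3]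
        simp only [lcp, if_true, List.length_cons]
        have := ih L₂ h₁' h₂'
        omega
      · have h4 : IsReduced (invRev (a :: L₁) ++ b :: L₂) := by
          have h5 : IsReduced (invRev (a :: L₁)) := isReduced_invRev h₁
          have h6 : IsReduced ([(a.1, !a.2)] ++ b :: L₂) := by
            simp only [List.singleton_append]
            rw [isReduced_cons_cons]
            refine ⟨?_, h₂⟩
            intro h7
            simp only at h7 ⊢
            by_contra h8
            apply h
            apply Prod.ext h7
            revert h8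
            cases a.2 <;> cases b.2 <;> simp
          rw [hinv] at h5 ⊢
          exact IsReduced.append_overlap h5 h6 (by simp)
        rw [h4.reduce_eq]
        simp only [lcp, if_neg h, List.length_append, List.length_cons, invRev_length]
        omega

/-- the tree metric -/
def d (x y : FreeGroup α) : ℕ := (x⁻¹ * y).norm

lemma d_def (x y : FreeGroup α) : d x y = (x⁻¹ * y).norm := rfl

lemma d_one_left (x : FreeGroup α) : d 1 x = x.norm := by simp [d]

lemma d_eq_zero {x y : FreeGroup α} : d x y = 0 ↔ x = y := by
  unfold d
  rw [FreeGroup.norm_eq_zero, inv_mul_eq_one]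

@[simp] lemma d_self (x : FreeGroup α) : d x x = 0 := d_eq_zero.mpr rfl

lemma d_comm (x y : FreeGroup α) : d x y = d y x := by
  unfold d
  rw [← norm_inv_eq]; congr 1; group

lemma d_mul_left (g x y : FreeGroup α) : d (g * x) (g * y) = d x y := by
  unfold d; congr 1; group

lemma d_inv_left (g x y : FreeGroup α) : d (g⁻¹ * x) y = d x (g * y) := by
  rw [← d_mul_left g, mul_inv_cancel_left]

lemma d_tri (x y z : FreeGroup α) : d x z ≤ d x y + d y z := by
  unfold d
  have : x⁻¹ * z = (x⁻¹ * y) * (y⁻¹ * z) := by group
  rw [this]; exact norm_mul_le _ _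

lemma d_lcp (x y : FreeGroup α) : d x y + 2 * lcp x.toWord y.toWord = d 1 x + d 1 y := by
  rw [d_one_left, d_one_left]
  have h := length_reduce_invRev_append x.toWord y.toWord isReduced_toWord isReduced_toWord
  unfold d FreeGroup.norm
  rw [toWord_mul, toWord_inv]
  exact h

lemma d_four_one (x y z : FreeGroup α) :
    d x y + d 1 z ≤ d x z + d 1 y ∨ d x y + d 1 z ≤ d y z + d 1 x := by
  have h1 := d_lcp x y
  have h2 := d_lcp x z
  have h3 := d_lcp z y
  have h4 := d_lcp y z
  have h5 := lcp_comm y.toWord z.toWord
  rcases lcp_ultra x.toWord z.toWord y.toWord with h | h <;> omega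

/-- the four point condition -/
lemma d_four (x y z w : FreeGroup α) :
    d x y + d z w ≤ d x z + d y w ∨ d x y + d z w ≤ d x w + d y z := by
  have h := d_four_one (w⁻¹ * x) (w⁻¹ * y) (w⁻¹ * z)
  have e : ∀ u : FreeGroup α, d 1 (w⁻¹ * u) = d u w := by
    intro u
    rw [← d_mul_left w, mul_inv_cancel_left, mul_one, d_comm]
  rw [d_mul_left, d_mul_left, d_mul_left, e, e, e] at h
  rcases h with h | h
  · left; exact h
  · right; omega

lemma d_even (x y z : FreeGroup α) : (d x y + d y z + d x z) % 2 = 0 := by
  have h1 := d_lcp x y
  have h2 := d_lcp y z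
  have h3 := d_lcp x z
  omega

lemma d_interp (x y : FreeGroup α) (n : ℕ) (hn : n ≤ d x y) :
    ∃ z, d x z = n ∧ d z y = d x y - n := by
  set w := x⁻¹ * y with hw
  have hlen : d x y = w.toWord.length := rfl
  set z := mk (w.toWord.take n) with hz
  have hr : IsReduced (w.toWord.take n) :=
    isReduced_sub isReduced_toWord (List.take_prefix n _).isInfix
  have hr' : IsReduced (w.toWord.drop n) :=
    isReduced_sub isReduced_toWord (List.drop_suffix n _).isInfix
  have h1 : z.norm = n := by
    unfold FreeGroup.norm
    rw [hz, toWord_mk, hr.reduce_eq, List.length_take]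
    omega
  have h2 : (z⁻¹ * w).norm = w.toWord.length - n := by
    have : z⁻¹ * w = mk (w.toWord.drop n) := by
      rw [inv_mul_eq_iff_eq_mul, hz, mul_mk, List.take_append_drop, mk_toWord]
    rw [this]
    unfold FreeGroup.norm
    rw [toWord_mk, hr'.reduce_eq, List.length_drop]
  refine ⟨x * z, ?_, ?_⟩
  · unfold d
    rw [inv_mul_cancel_left, h1]
  · rw [hlen, ← h2]
    unfold d
    congr 1
    rw [hw]; group

end Pool.Agent.AscQM
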