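import Pool.Agent.Lib.MP_fa6f87_al.NatEdge

/-!
The sets `Sep` of a segment without branch vertices generate the group.
-/

namespace Pool.Agent.AscQM

open FreeGroup

section GenSep

variable {α β : Type*} [DecidableEq α] [Fintype α] [DecidableEq β] [Fintype β]
  {σ : FreeGroup α →* FreeGroup β}

lemma side_of_seg' (hσ : Function.Injective σ) (h2 : 2 ≤ Fintype.card α) {x y : FreeGroup β}
    (hx : x ∈ Hull σ) (hy : y ∈ Hull σ) (hnb : ∀ u, Btw x u y → ¬ IsBr (Hull σ) u)
    {u : FreeGroup β} (hu : u = x ∨ u = y) (g : FreeGroup α) :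
    Btw (σ g * u) x y ∨ Btw x y (σ g * u) := by
  by_cases hg : g = 1
  · subst hg
    rw [_root_.map_one, one_mul]
    rcases hu with rfl | rfl
    · left; exact btw_left _ _
    · right; exact btw_right _ _
  · refine side_of_seg hσ h2 hx hy hnb ?_ hg
    rcases hu with rfl | rfl
    · exact btw_left _ _
    · exact btw_right _ _

omit [DecidableEq α] [Fintype α] [Fintype β] in
lemma Sep_inv {m p q : FreeGroup β} {g : FreeGroup α} (h : g ∈ Sep σ m p q) :
    g⁻¹ ∈ Sep σ m q p := by
  intro k hk
  have h1 := hk.symm.mul_left (σ g)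
  have e1 : σ g * (σ g⁻¹ * p) = p := by rw [_root_.map_inv]; group
  have e2 : σ g * (σ k * m) = σ (g * k) * m := by rw [_root_.map_mul]; group
  rw [e1, e2] at h1
  exact h _ h1

theorem closure_Sep (hσ : Function.Injective σ) (h2 : 2 ≤ Fintype.card α) {m x y : FreeGroup β}
    (hx : x ∈ Hull σ) (hy : y ∈ Hull σ) (hxy : Btw x m y) (hxm : x ≠ m) (hmy : m ≠ y)
    (hnb : ∀ u, Btw x u y → ¬ IsBr (Hull σ) u) :
    Subgroup.closure (Sep σ m x x ∪ Sep σ m y y ∪ Sep σ m x y) = ⊤ := by
  set K := Subgroup.closure (Sep σ m x x ∪ Sep σ m y y ∪ Sep σ m x y) with hK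
  have hne : x ≠ y := by
    rintro rfl
    exact hxm hxy.eq_of_self.symm
  have hpos : 0 < d x y := one_le_d hne
  have hsep : ∀ p q g, (p = x ∨ p = y) → (q = x ∨ q = y) → g ∈ Sep σ m p q → g ∈ K := by
    rintro p q g (rfl | rfl) (rfl | rfl) hg
    · exact Subgroup.subset_closure (Or.inl (Or.inl hg))
    · exact Subgroup.subset_closure (Or.inr hg)
    · have : g⁻¹ ∈ K := Subgroup.subset_closure (Or.inr (Sep_inv hg))
      exact (Subgroup.inv_mem_iff K).1 this
    · exact Subgroup.subset_closure (Or.inl (Or.inr hg))
  have key : ∀ n : ℕ, ∀ p q g, (p = x ∨ p = y) → (q = x ∨ q = y) → d p (σ g * q) = n →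
      g ∈ K := by
    intro n
    induction n using Nat.strong_induction_on with
    | _ n ih =>
      intro p q g hp hq hn
      by_cases hs : g ∈ Sep σ m p q
      · exact hsep p q g hp hq hs
      · unfold Sep at hs
        rw [Set.mem_ofPred_eq] at hs
        push Not at hs
        obtain ⟨h, hh⟩ := hs
        set a := σ h⁻¹ * p with ha
        set b := σ (h⁻¹ * g) * q with hb
        have hab : Btw a m b := by
          have h1 := hh.mul_left (σ h⁻¹)
          have e1 : σ h⁻¹ * (σ h * m) = m := by rw [_root_.map_inv]; group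
          have e2 : σ h⁻¹ * (σ g * q) = b := by rw [hb, _root_.map_mul]; group
          rwa [e1, e2] at h1
        have hdab : d a b = n := by
          rw [← hn, ha, hb, _root_.map_mul, mul_assoc, d_mul_left]
        have hd1 : ∀ z, d p (σ h * z) = d a z := by
          intro z
          rw [ha, ← d_mul_left (σ h) (σ h⁻¹ * p) z]
          congr 1
          rw [_root_.map_inv]; group
        have hfin : ∀ p1 q1, (p1 = x ∨ p1 = y) → (q1 = x ∨ q1 = y) → d a p1 < n → d q1 b < n →
            g ∈ K := by
          intro p1 q1 hp1 hq1 h1 h3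
          have k1 : h ∈ K := ih _ h1 p p1 h hp hp1 (hd1 p1)
          have k2 : h⁻¹ * g ∈ K := ih _ h3 q1 q (h⁻¹ * g) hq1 hq rfl
          have := K.mul_mem k1 k2
          rwa [mul_inv_cancel_left] at this
        rcases side_of_seg' hσ h2 hx hy hnb hp h⁻¹ with s1 | s1 <;>
          rcases side_of_seg' hσ h2 hx hy hnb hq (h⁻¹ * g) with s2 | s2
        · exact absurd hab (same_left s1 s2 hxy hxm.symm)
        · apply hfin x y (Or.inl rfl) (Or.inr rfl)
          · have j := s1.join s2 hne
            have j1 : d a x + d x b = d a b := j.1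
            have j2 : d x y + d y b = d x b := s2
            omega
          · have j := s1.join s2 hne
            have j1 : d a y + d y b = d a b := j.2
            have j2 : d a x + d x y = d a y := s1
            omega
        · have s1' : Btw a y x := s1.symm
          have s2' : Btw y x b := s2.symm
          apply hfin y x (Or.inr rfl) (Or.inl rfl)
          · have j := s1'.join s2' hne.symm
            have j1 : d a y + d y b = d a b := j.1
            have j2 : d y x + d x b = d y b := s2'
            have j3 := d_comm x y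
            omega
          · have j := s1'.join s2' hne.symm
            have j1 : d a x + d x b = d a b := j.2
            have j2 : d a y + d y x = d a x := s1'
            have j3 := d_comm x y
            omega
        · exact absurd hab (same_right s1 s2 hxy hmy)
  rw [eq_top_iff]
  intro g _
  exact key _ x x g (Or.inl rfl) (Or.inl rfl) rfl

end GenSep

end Pool.Agent.AscQM
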