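import Pool.Agent.Lib.MP_fa6f87_al.Dist

/-!
Betweenness, medians, directions in the Cayley tree of a free group.
-/

namespace Pool.Agent.AscQM

open FreeGroup

variable {α : Type*} [DecidableEq α]

/-- `z` lies on the geodesic from `x` to `y`. -/
def Btw (x z y : FreeGroup α) : Prop := d x z + d z y = d x y

lemma btw_comm {x z y : FreeGroup α} : Btw x z y ↔ Btw y z x := by
  unfold Btw
  rw [d_comm x z, d_comm z y, d_comm x y]; omega

lemma Btw.symm {x z y : FreeGroup α} (h : Btw x z y) : Btw y z x := btw_comm.mp h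

@[simp] lemma btw_left (x y : FreeGroup α) : Btw x x y := by simp [Btw]
@[simp] lemma btw_right (x y : FreeGroup α) : Btw x y y := by simp [Btw]

lemma btw_mul_left (g : FreeGroup α) {x z y : FreeGroup α} :
    Btw (g * x) (g * z) (g * y) ↔ Btw x z y := by
  unfold Btw
  rw [d_mul_left, d_mul_left, d_mul_left]

lemma Btw.mul_left {x z y : FreeGroup α} (h : Btw x z y) (g : FreeGroup α) :
    Btw (g * x) (g * z) (g * y) := (btw_mul_left g).mpr h

lemma Btw.eq_of_self {x z : FreeGroup α} (h : Btw x z x) : z = x := by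
  have : d x z + d z x = 0 := by
    have h' : d x z + d z x = d x x := h
    simpa using h'
  exact (d_eq_zero.mp (by omega : d x z = 0)).symm

/-- two points on a geodesic. -/
lemma Btw.dist {x z z' y : FreeGroup α} (h : Btw x z y) (h' : Btw x z' y) (hle : d x z ≤ d x z') :
    d x z + d z z' = d x z' := by
  unfold Btw at h h'
  have h1 := d_four z z' x y
  have h2 := d_tri x z z'
  rw [d_comm z x, d_comm z' x] at h1
  omega

lemma Btw.eq {x z z' y : FreeGroup α} (h : Btw x z y) (h' : Btw x z' y) (he : d x z = d x z') :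
    z = z' := by
  have := h.dist h' he.le
  exact d_eq_zero.mp (by omega)

lemma Btw.left {x z z' y : FreeGroup α} (h : Btw x z y) (h' : Btw x z' y)
    (hle : d x z ≤ d x z') : Btw x z z' := h.dist h' hle

lemma Btw.right {x z z' y : FreeGroup α} (h : Btw x z y) (h' : Btw x z' y)
    (hle : d x z ≤ d x z') : Btw z z' y := by
  have h1 := h.dist h' hle
  unfold Btw at *
  omega

lemma Btw.trans_left {x u z y : FreeGroup α} (h : Btw x z y) (h' : Btw x u z) : Btw x u y := by
  unfold Btw at *
  have h1 := d_tri x u y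
  have h2 := d_tri u z y
  omega

lemma Btw.trans_left' {x u z y : FreeGroup α} (h : Btw x z y) (h' : Btw x u z) : Btw u z y := by
  unfold Btw at *
  have h1 := d_tri x u y
  have h2 := d_tri u z y
  omega

lemma Btw.trans_right {x u z y : FreeGroup α} (h : Btw x z y) (h' : Btw z u y) : Btw x u y := by
  unfold Btw at *
  have h1 := d_tri x u y
  have h2 := d_tri x z u
  omega

lemma Btw.trans_right' {x u z y : FreeGroup α} (h : Btw x z y) (h' : Btw z u y) : Btw x z u := by
  unfold Btw at *
  have h1 := d_tri x u y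
  have h2 := d_tri x z u
  omega

lemma Btw.or {x z y : FreeGroup α} (h : Btw x z y) (u : FreeGroup α) : Btw x z u ∨ Btw u z y := by
  have h1 := d_four x y z u
  have h2 := d_tri x z u
  have h3 := d_tri u z y
  unfold Btw at *
  rw [d_comm y u, d_comm y z] at h1
  rw [d_comm u z] at h3 ⊢
  omega

/-- local geodesics are geodesics -/
lemma Btw.join {x y z w : FreeGroup α} (h : Btw x y z) (h' : Btw y z w) (hne : y ≠ z) :
    Btw x y w ∧ Btw x z w := by
  have h0 : d y z ≠ 0 := fun h => hne (d_eq_zero.mp h)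
  have h1 := d_four x z y w
  have h2 := d_tri x y w
  have h3 := d_tri x z w
  unfold Btw at *
  rw [d_comm z y] at h1
  omega

lemma exists_med (x y z : FreeGroup α) : ∃ m, Btw x m y ∧ Btw y m z ∧ Btw x m z := by
  have he := d_even x y z
  have t1 := d_tri x y z
  have t2 := d_tri y x z
  have t3 := d_tri x z y
  rw [d_comm y x] at t2
  rw [d_comm z y] at t3
  obtain ⟨m, hm1, hm2⟩ := d_interp x y ((d x y + d x z - d y z) / 2) (by omega)
  have h1 := d_four x y m z
  have h2 := d_tri x m z
  have h3 := d_tri y m z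
  rw [d_comm y m] at h1 h3
  refine ⟨m, ?_, ?_, ?_⟩
  · unfold Btw; omega
  · unfold Btw; rw [d_comm y m]; omega
  · unfold Btw; omega

/-- the first vertex after `x` on the way to `y` (equal to `x` if `x = y`). -/
noncomputable def nxt (x y : FreeGroup α) : FreeGroup α :=
  if h : 1 ≤ d x y then (d_interp x y 1 h).choose else x

lemma one_le_d {x y : FreeGroup α} (h : x ≠ y) : 1 ≤ d x y :=
  Nat.one_le_iff_ne_zero.mpr fun h0 => h (d_eq_zero.mp h0)

lemma nxt_self (x : FreeGroup α) : nxt x x = x := by
  unfold nxt; simp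

lemma nxt_dist {x y : FreeGroup α} (h : x ≠ y) : d x (nxt x y) = 1 := by
  unfold nxt
  rw [dif_pos (one_le_d h)]
  exact (d_interp x y 1 (one_le_d h)).choose_spec.1

lemma nxt_dist' {x y : FreeGroup α} (h : x ≠ y) : d (nxt x y) y = d x y - 1 := by
  unfold nxt
  rw [dif_pos (one_le_d h)]
  exact (d_interp x y 1 (one_le_d h)).choose_spec.2

lemma nxt_btw (x y : FreeGroup α) : Btw x (nxt x y) y := by
  by_cases h : x = y
  · subst h; rw [nxt_self]; exact btw_left _ _
  · have h1 := nxt_dist h
    have h2 := nxt_dist' h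
    have h3 := one_le_d h
    unfold Btw; omega

lemma nxt_unique {x y z : FreeGroup α} (h : d x z = 1) (h' : Btw x z y) : z = nxt x y := by
  have hxy : x ≠ y := by
    rintro rfl
    have := h'.eq_of_self
    subst this
    simp at h
  exact h'.eq (nxt_btw x y) (by rw [h, nxt_dist hxy])

lemma nxt_mul_left (g x y : FreeGroup α) : nxt (g * x) (g * y) = g * nxt x y := by
  by_cases h : x = y
  · subst h; rw [nxt_self, nxt_self]
  · symm
    apply nxt_unique
    · rw [d_mul_left]; exact nxt_dist h
    · exact (nxt_btw x y).mul_left g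

lemma nxt_eq_of_btw {x m y : FreeGroup α} (h : Btw x m y) (hne : m ≠ x) : nxt x m = nxt x y := by
  apply nxt_unique (nxt_dist (Ne.symm hne))
  exact h.trans_left (nxt_btw x m)

lemma nxt_ne_iff {x y z : FreeGroup α} (hy : y ≠ x) (hz : z ≠ x) :
    nxt x y ≠ nxt x z ↔ Btw y x z := by
  constructor
  · intro h
    obtain ⟨m, h1, h2, h3⟩ := exists_med x y z
    by_cases hm : m = x
    · subst hm; exact h2
    · exact absurd ((nxt_eq_of_btw h1 hm).symm.trans (nxt_eq_of_btw h3 hm)) h
  · intro h h'
    have h1 := nxt_dist' (Ne.symm hy)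
    have h2 := nxt_dist' (Ne.symm hz)
    have h3 := one_le_d hy
    have h4 := one_le_d hz
    rw [← h'] at h2
    have h5 := d_tri y (nxt x y) z
    unfold Btw at h
    rw [d_comm y x] at *
    rw [d_comm z x] at h4
    rw [d_comm (nxt x y) y] at h1
    omega

lemma finite_ball [Finite α] (x : FreeGroup α) (n : ℕ) : {y | d x y ≤ n}.Finite := by
  have h1 : {y : FreeGroup α | y.norm ≤ n}.Finite := by
    have : Set.InjOn (toWord : FreeGroup α → List (α × Bool)) {y : FreeGroup α | y.norm ≤ n} :=
      toWord_injective.injOn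
    refine Set.Finite.of_finite_image ?_ this
    refine (List.finite_length_le (α × Bool) n).subset ?_
    rintro _ ⟨y, hy, rfl⟩
    exact hy
  refine (h1.image (fun y => x * y)).subset ?_
  intro y hy
  exact ⟨x⁻¹ * y, hy, by group⟩

/-- `w` occurs as a subword of (the reduced word of) `x`. -/
def Occ (w x : FreeGroup α) : Prop := ∃ f, d 1 f + w.norm + d (f * w) x = d 1 x

/-! ### axes -/

/-- `z` lies on the axis of `h`. -/
def OnAxis (h z : FreeGroup α) : Prop := Btw (h⁻¹ * z) z (h * z)

lemma onAxis_iff {h z : FreeGroup α} : OnAxis h z ↔ Btw z (h * z) (h * (h * z)) := by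
  unfold OnAxis
  rw [← btw_mul_left h]
  rw [mul_inv_cancel_left]

omit [DecidableEq α] in
lemma mul_ne_self {h : FreeGroup α} (hh : h ≠ 1) (z : FreeGroup α) : h * z ≠ z := by
  intro h1
  exact hh (by simpa using h1)

/-- moving towards the axis decreases the displacement -/
lemma displacement_nxt {h z : FreeGroup α} (hh : h ≠ 1)
    (hn : nxt z (h * z) = nxt z (h⁻¹ * z)) :
    d (nxt z (h * z)) (h * nxt z (h * z)) + 2 = d z (h * z) := by
  set p := nxt z (h * z) with hp
  have hz1 : z ≠ h * z := (mul_ne_self hh z).symm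
  have hz2 : z ≠ h⁻¹ * z := (mul_ne_self (inv_ne_one.mpr hh) z).symm
  have e1 : Btw z p (h * z) := nxt_btw _ _
  have e2 : Btw z p (h⁻¹ * z) := by rw [hn]; exact nxt_btw _ _
  have e3 : Btw (h * z) (h * p) z := by
    have := e2.mul_left h
    rwa [mul_inv_cancel_left] at this
  have e4 : Btw z (h * p) (h * z) := e3.symm
  have f1 : d z p = 1 := nxt_dist hz1
  have f2 : d (h * z) (h * p) = 1 := by rw [d_mul_left]; exact f1
  have f3 := one_le_d hz1
  -- cases on the length
  have f4 : d z (h * p) + 1 = d z (h * z) := by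
    have := e4
    unfold Btw at this
    rw [d_comm (h * p)] at this
    omega
  by_cases hle : d z p ≤ d z (h * p)
  · have := e1.dist e4 hle
    omega
  · exfalso
    have f5 : d z (h * p) = 0 := by omega
    have f6 : z = h * p := d_eq_zero.mp f5
    have f7 : d z (h * z) = 1 := by omega
    have f8 : p = h * z := by
      apply e1.eq (btw_right _ _)
      omega
    rw [f8] at f6
    have : h * h = 1 := by
      have f9 : h * h * z = z := by rw [mul_assoc, ← f6]
      simpa using f9
    have h2 : h ^ 2 = 1 := by rw [sq]; exact this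
    exact hh ((pow_eq_one_iff_left (by norm_num)).mp h2)

lemma exists_onAxis (h : FreeGroup α) : ∃ z, OnAxis h z := by
  by_cases hh : h = 1
  · subst hh
    exact ⟨1, by simp [OnAxis]⟩
  · obtain ⟨z, hz⟩ : ∃ z : FreeGroup α, ∀ y, d z (h * z) ≤ d y (h * y) := by
      have hne : (Set.range fun z : FreeGroup α => d z (h * z)).Nonempty := ⟨_, 1, rfl⟩
      obtain ⟨z, hz⟩ := Nat.sInf_mem hne
      refine ⟨z, fun y => ?_⟩
      have hz' : d z (h * z) = sInf (Set.range fun z : FreeGroup α => d z (h * z)) := hz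
      rw [hz']
      exact Nat.sInf_le ⟨y, rfl⟩
    refine ⟨z, ?_⟩
    by_contra hcon
    have h1 : h⁻¹ * z ≠ z := mul_ne_self (inv_ne_one.mpr hh) z
    have h2 : h * z ≠ z := mul_ne_self hh z
    have h3 : nxt z (h⁻¹ * z) = nxt z (h * z) := by
      by_contra h4
      exact hcon ((nxt_ne_iff h1 h2).mp h4)
    have h5 := displacement_nxt hh h3.symm
    have h6 := hz (nxt z (h * z))
    omega

lemma OnAxis.pow_dist {h z : FreeGroup α} (hz : OnAxis h z) (n : ℕ) :
    d z (h ^ n * z) = n * d z (h * z) := by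
  by_cases hh : h = 1
  · subst hh; simp
  have key : ∀ n : ℕ, d z (h ^ n * z) = n * d z (h * z) ∧
      Btw z (h ^ n * z) (h ^ (n + 1) * z) := by
    intro n
    induction n with
    | zero => simp
    | succ n ih =>
      obtain ⟨ih1, ih2⟩ := ih
      have h1 : d z (h ^ (n + 1) * z) = (n + 1) * d z (h * z) := by
        have h2 : d (h ^ n * z) (h ^ (n + 1) * z) = d z (h * z) := by
          rw [pow_succ, mul_assoc, d_mul_left]
        unfold Btw at ih2
        rw [← ih2, ih1, h2]; ring
      refine ⟨h1, ?_⟩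
      have h3 : Btw (h ^ n * z) (h ^ (n + 1) * z) (h ^ (n + 2) * z) := by
        have := (onAxis_iff.mp hz).mul_left (h ^ n)
        rw [← mul_assoc, ← pow_succ] at this
        have e : h ^ n * (h * (h * z)) = h ^ (n + 2) * z := by
          rw [pow_add]; simp [mul_assoc, sq]
        rwa [e] at this
      refine (ih2.join h3 ?_).2
      intro h4
      rw [pow_succ, mul_assoc] at h4
      have h5 := mul_left_cancel h4
      exact mul_ne_self hh z h5.symm
  exact (key n).1

lemma OnAxis.inv {h z : FreeGroup α} (hz : OnAxis h z) : OnAxis h⁻¹ z := by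
  unfold OnAxis at *
  rw [inv_inv]
  exact hz.symm

lemma OnAxis.mul_pow {h z : FreeGroup α} (hz : OnAxis h z) (g : FreeGroup α) :
    OnAxis (g * h * g⁻¹) (g * z) := by
  unfold OnAxis at *
  have := hz.mul_left g
  convert this using 1 <;> group

lemma OnAxis.smul {h z : FreeGroup α} (hz : OnAxis h z) : OnAxis h (h * z) := by
  have := hz.mul_pow h
  convert this using 1; group

lemma OnAxis.pow_smul {h z : FreeGroup α} (hz : OnAxis h z) (n : ℤ) : OnAxis h (h ^ n * z) := by
  have := hz.mul_pow (h ^ n)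
  convert this using 1; group

lemma OnAxis.pow {h z : FreeGroup α} (hz : OnAxis h z) (n : ℕ) : OnAxis (h ^ n) z := by
  rw [onAxis_iff]
  unfold Btw
  have h1 := hz.pow_dist n
  have h2 := hz.pow_dist (2 * n)
  have e1 : h ^ n * (h ^ n * z) = h ^ (2 * n) * z := by
    rw [← mul_assoc, ← pow_add]; congr 2; ring
  rw [d_mul_left, e1, h1, h2]; ring

/-- points of the axis realise the minimal displacement -/
lemma OnAxis.le_displacement {h z : FreeGroup α} (hz : OnAxis h z) (y : FreeGroup α) :
    d z (h * z) ≤ d y (h * y) := by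
  have key : ∀ n : ℕ, n * d z (h * z) ≤ n * d y (h * y) + 2 * d z y := by
    intro n
    rw [← hz.pow_dist n]
    have h1 : ∀ n : ℕ, d y (h ^ n * y) ≤ n * d y (h * y) := by
      intro n
      induction n with
      | zero => simp
      | succ n ih =>
        have := d_tri y (h ^ n * y) (h ^ (n + 1) * y)
        have h2 : d (h ^ n * y) (h ^ (n + 1) * y) = d y (h * y) := by
          rw [pow_succ, mul_assoc, d_mul_left]
        rw [h2] at this
        linarith
    have h2 := d_tri z y (h ^ n * z)
    have h3 := d_tri y (h ^ n * y) (h ^ n * z)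
    rw [d_mul_left, d_comm y z] at h3
    have := h1 n
    omega
  by_contra hlt
  push Not at hlt
  have := key (2 * d z y + 1)
  nlinarith

/-- translation length -/
noncomputable def tl (h : FreeGroup α) : ℕ := sInf (Set.range fun z => d z (h * z))

lemma tl_le (h y : FreeGroup α) : tl h ≤ d y (h * y) := Nat.sInf_le ⟨y, rfl⟩

lemma OnAxis.tl_eq {h z : FreeGroup α} (hz : OnAxis h z) : d z (h * z) = tl h := by
  refine le_antisymm ?_ (tl_le h z)
  have hne : (Set.range fun z : FreeGroup α => d z (h * z)).Nonempty := ⟨_, 1, rfl⟩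
  refine le_csInf hne ?_
  rintro _ ⟨y, rfl⟩
  exact hz.le_displacement y

lemma tl_pos {h : FreeGroup α} (hh : h ≠ 1) : 0 < tl h := by
  obtain ⟨z, hz⟩ := exists_onAxis h
  rw [← hz.tl_eq]
  exact one_le_d (mul_ne_self hh z).symm

lemma tl_conj (g h : FreeGroup α) : tl (g * h * g⁻¹) = tl h := by
  obtain ⟨z, hz⟩ := exists_onAxis h
  rw [← hz.tl_eq, ← (hz.mul_pow g).tl_eq]
  have : g * h * g⁻¹ * (g * z) = g * (h * z) := by group
  rw [this, d_mul_left]

lemma tl_pow (h : FreeGroup α) (n : ℕ) : tl (h ^ n) = n * tl h := by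
  obtain ⟨z, hz⟩ := exists_onAxis h
  rw [← hz.tl_eq, ← (hz.pow n).tl_eq, hz.pow_dist]

lemma tl_inv (h : FreeGroup α) : tl h⁻¹ = tl h := by
  obtain ⟨z, hz⟩ := exists_onAxis h
  rw [← hz.tl_eq, ← hz.inv.tl_eq, ← d_mul_left h, mul_inv_cancel_left, d_comm]

lemma mul_tl_le (h y : FreeGroup α) (n : ℕ) : n * tl h ≤ d y (h ^ n * y) := by
  rw [← tl_pow]; exact tl_le _ _

end Pool.Agent.AscQM
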