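import Pool.Agent.Lib.MP_fa6f87_al.Core
import Pool.Agent.Lib.MP_fa6f87_al.RecDef

/-!
Translation lengths under injective homomorphisms of free groups of finite rank; transfer of
exponential growth.
-/

namespace Pool.Agent.AscQM

open FreeGroup

set_option linter.unusedSectionVars false

variable {α γ : Type*} [DecidableEq α] [Fintype α] [DecidableEq γ] [Fintype γ]

/-- images of long segments are long, linearly -/
lemma linear_lower {ι : FreeGroup γ →* FreeGroup α} (hι : Function.Injective ι) :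
    ∃ K, 1 ≤ K ∧ ∀ n : ℕ, ∀ x y : FreeGroup γ, n * K ≤ d x y →
      n + 2 * Lam ι ≤ d (T ι x) (T ι y) + (if n = 0 then 2 * Lam ι else 0) := by
  obtain ⟨K, hK⟩ := exists_far hι (bp ι) (bp ι) 1 (2 * Lam ι + 1)
  refine ⟨K + 1, Nat.le_add_left 1 K, fun n => ?_⟩
  have base : ∀ x y : FreeGroup γ, K ≤ d x y → 2 * Lam ι + 1 ≤ d (T ι x) (T ι y) := by
    intro x y hxy
    rw [d_T_eq]
    apply hK
    rw [← d_mul_left x]
    simpa using hxy
  induction n with
  | zero => intro x y _; simp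
  | succ n ih =>
    intro x y hxy
    rw [if_neg (Nat.succ_ne_zero n)]
    rcases Nat.eq_zero_or_pos n with h0 | h0
    · subst h0
      have := base x y (by omega)
      omega
    · -- split off the first piece
      have h1 : (n + 1) * (K + 1) = n * (K + 1) + (K + 1) := by ring
      obtain ⟨z, hz1, hz2⟩ := d_interp x y (K + 1) (by
        have : 0 ≤ n * (K + 1) := Nat.zero_le _
        omega)
      have hz : Btw x z y := by unfold Btw; rw [hz1, hz2]; omega
      have h2 := ih z y (by omega)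
      rw [if_neg (by omega)] at h2
      have h3 := base x z (by omega)
      have h4 := d_T_superadd hι hz
      omega

/-- translation lengths upstairs are bounded by those downstairs -/
lemma tl_le_of_injective {ι : FreeGroup γ →* FreeGroup α} (hι : Function.Injective ι) :
    ∃ K : ℕ, 1 ≤ K ∧ ∀ g, tl g ≤ K * tl (ι g) := by
  obtain ⟨K, hK1, hK⟩ := linear_lower hι
  refine ⟨K, hK1, fun g => ?_⟩
  obtain ⟨x, hx⟩ := exists_onAxis g
  obtain ⟨z, hz⟩ := exists_onAxis (ι g)
  have key : ∀ n : ℕ, n * tl g ≤ K * (n * tl (ι g) + 2 * d (T ι x) z) + K := by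
    intro n
    have h1 : d x (g ^ n * x) = n * tl g := by rw [hx.pow_dist, hx.tl_eq]
    -- number of pieces
    have h2 := hK (n * tl g / K) x (g ^ n * x) (by
      rw [h1]; exact Nat.div_mul_le_self _ _)
    have h3 : d (T ι x) (T ι (g ^ n * x)) ≤ n * tl (ι g) + 2 * d (T ι x) z := by
      rw [T_mul, _root_.map_pow]
      have h4 := d_tri (T ι x) z (ι g ^ n * T ι x)
      have h5 := d_tri z (ι g ^ n * z) (ι g ^ n * T ι x)
      rw [d_mul_left, hz.pow_dist, hz.tl_eq, d_comm z (T ι x)] at h5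
      omega
    have h6 : n * tl g / K ≤ d (T ι x) (T ι (g ^ n * x)) := by
      by_cases h0 : n * tl g / K = 0
      · omega
      · rw [if_neg h0] at h2; omega
    have h7 : n * tl g < K * (n * tl g / K) + K := by
      have := Nat.div_add_mod (n * tl g) K
      have h8 := Nat.mod_lt (n * tl g) hK1
      omega
    have h8 : K * (n * tl g / K) ≤ K * (n * tl (ι g) + 2 * d (T ι x) z) :=
      Nat.mul_le_mul_left K (h6.trans h3)
    omega
  by_contra hlt
  push Not at hlt
  set A := K * (2 * d (T ι x) z) + K with hA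
  have h1 := key (A + 1)
  have h2 : (A + 1) * (K * tl (ι g) + 1) ≤ (A + 1) * tl g := Nat.mul_le_mul_left _ hlt
  have h3 : K * ((A + 1) * tl (ι g) + 2 * d (T ι x) z) + K = (A + 1) * (K * tl (ι g)) + A := by
    rw [hA]; ring
  have h4 : (A + 1) * (K * tl (ι g) + 1) = (A + 1) * (K * tl (ι g)) + (A + 1) := by ring
  omega

lemma iter_conj (ι : FreeGroup γ →* FreeGroup α) (ψ : FreeGroup γ →* FreeGroup γ)
    (θ : FreeGroup α →* FreeGroup α) (n : ℕ) (u : FreeGroup α)
    (h : ∀ g, ι (ψ g) = u * iter θ n (ι g) * u⁻¹) (j : ℕ) :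
    ∃ v, ∀ g, ι (iter ψ j g) = v * iter θ (j * n) (ι g) * v⁻¹ := by
  induction j with
  | zero => exact ⟨1, fun g => by simp⟩
  | succ j ih =>
    obtain ⟨v, hv⟩ := ih
    refine ⟨v * iter θ (j * n) u, fun g => ?_⟩
    rw [iter_succ, hv, h, _root_.map_mul, _root_.map_mul, _root_.map_inv, ← iter_add]
    have e : j * n + n = (j + 1) * n := by ring
    rw [e]
    group

/-- **Transfer of exponential growth.** -/
theorem growth_transfer
    (ι : FreeGroup γ →* FreeGroup α) (hι : Function.Injective ι)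
    (ψ : FreeGroup γ →* FreeGroup γ) (θ : FreeGroup α →* FreeGroup α) (n : ℕ) (hn : 1 ≤ n)
    (u : FreeGroup α) (h : ∀ g, ι (ψ g) = u * iter θ n (ι g) * u⁻¹) (hψ : ExpGrowth ψ) :
    ExpGrowth θ := by
  obtain ⟨g, μ, hμ, hfr⟩ := hψ
  obtain ⟨K, hK1, hK⟩ := tl_le_of_injective hι
  have hμ0 : 0 < μ := by linarith
  -- the new growth rate
  set ν : ℝ := μ ^ ((1 : ℝ) / (2 * n)) with hν
  have hn0 : (0 : ℝ) < n := by exact_mod_cast hn
  have hν1 : 1 < ν := Real.one_lt_rpow hμ (by positivity)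
  have hνpow : ∀ j : ℕ, ν ^ (j * n) = μ ^ ((j : ℝ) / 2) := by
    intro j
    rw [hν, ← Real.rpow_natCast, ← Real.rpow_mul hμ0.le]
    congr 1
    push_cast
    field_simp
  refine ⟨ι g, ν, hν1, ?_⟩
  rw [Filter.frequently_atTop] at hfr ⊢
  intro N
  -- `K ≤ μ ^ (j / 2)` for large `j`
  obtain ⟨J, hJ⟩ : ∃ J : ℕ, ∀ j ≥ J, (K : ℝ) ≤ μ ^ ((j : ℝ) / 2) := by
    have h1 : Filter.Tendsto (fun j : ℕ => (μ ^ ((1 : ℝ) / 2)) ^ j) Filter.atTop Filter.atTop :=
      tendsto_pow_atTop_atTop_of_one_lt (Real.one_lt_rpow hμ (by norm_num))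
    obtain ⟨J, hJ⟩ := (h1.eventually_ge_atTop (K : ℝ)).exists_forall_of_atTop
    refine ⟨J, fun j hj => ?_⟩
    have h2 := hJ j hj
    rw [← Real.rpow_natCast, ← Real.rpow_mul hμ0.le] at h2
    have e : (1 : ℝ) / 2 * j = (j : ℝ) / 2 := by ring
    rwa [e] at h2
  obtain ⟨j, hj, hjg⟩ := hfr (max N J)
  refine ⟨j * n, ?_, ?_⟩
  · have h1 : N ≤ j := le_trans (le_max_left _ _) hj
    exact h1.trans (Nat.le_mul_of_pos_right j hn)
  · obtain ⟨v, hv⟩ := iter_conj ι ψ θ n u h j
    have h1 := hK (iter ψ j g)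
    rw [hv g, tl_conj] at h1
    have h2 : (tl (iter ψ j g) : ℝ) ≤ K * tl (iter θ (j * n) (ι g)) := by exact_mod_cast h1
    have h3 := hJ j (le_trans (le_max_right _ _) hj)
    have h4 : μ ^ j = μ ^ ((j : ℝ) / 2) * μ ^ ((j : ℝ) / 2) := by
      rw [← Real.rpow_add hμ0, ← Real.rpow_natCast]
      congr 1; ring
    rw [hνpow]
    have hKpos : (0 : ℝ) < K := by exact_mod_cast hK1
    have h5 : (K : ℝ) * μ ^ ((j : ℝ) / 2) ≤ K * tl (iter θ (j * n) (ι g)) := by
      calc (K : ℝ) * μ ^ ((j : ℝ) / 2) ≤ μ ^ ((j : ℝ) / 2) * μ ^ ((j : ℝ) / 2) :=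
            mul_le_mul_of_nonneg_right h3 (by positivity)
        _ = μ ^ j := h4.symm
        _ ≤ tl (iter ψ j g) := hjg
        _ ≤ _ := h2
    exact le_of_mul_le_mul_left h5 hKpos

end Pool.Agent.AscQM
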