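import Pool.Agent.Lib.MP_fa6f87_al.SepBasis
import Pool.Agent.Lib.MP_fa6f87_al.Transfer

/-!
Multiplicities are positive if `θ` has no exponential growth.
-/

namespace Pool.Agent.AscQM

open FreeGroup

variable {α : Type*} [DecidableEq α] [Fintype α]

/-- lifting an injective map that preserves a subgroup with a basis -/
lemma exists_lift {s : ℕ} {τ : FreeGroup (Fin s) →* FreeGroup α} (hτ : Function.Injective τ)
    {φ : FreeGroup α →* FreeGroup α} (hφ : Function.Injective φ)
    (h : ∀ g ∈ τ.range, φ g ∈ τ.range) :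
    ∃ ψ : FreeGroup (Fin s) →* FreeGroup (Fin s), Function.Injective ψ ∧
      ∀ g, τ (ψ g) = φ (τ g) := by
  choose f hf using fun i : Fin s => h (τ (of i)) ⟨of i, rfl⟩
  have h1 : τ.comp (FreeGroup.lift f) = φ.comp τ := by
    ext i
    simp [hf]
  refine ⟨FreeGroup.lift f, ?_, fun g => DFunLike.congr_fun h1 g⟩
  intro x y hxy
  apply hτ
  apply hφ
  have h2 := DFunLike.congr_fun h1 x
  have h3 := DFunLike.congr_fun h1 y
  simp only [MonoidHom.comp_apply] at h2 h3
  rw [← h2, ← h3, hxy]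

theorem mult_pos
    {θ : FreeGroup α →* FreeGroup α}
    (IH : ∀ s < Fintype.card α, ∀ ψ : FreeGroup (Fin s) →* FreeGroup (Fin s),
      Function.Injective ψ → ¬ Function.Surjective ψ → ExpGrowth ψ)
    (hθ : Function.Injective θ) (hsub : ¬ ExpGrowth θ) (k n : ℕ)
    {m : FreeGroup α} (hm : m ∈ Hull (iter θ k)) :
    ∃ g, iter θ k g * m ∈ Hull (iter θ (k + n)) := by
  rcases Nat.eq_zero_or_pos n with hn | hn
  · subst hn
    exact ⟨1, by simpa using hm⟩
  by_contra hcon
  push Not at hcon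
  have hnonempty : Nonempty α := by
    by_contra hemp
    rw [not_nonempty_iff] at hemp
    obtain ⟨g, h, h1, h2, h3⟩ := hm (d m 1 + 1)
    have : g = 1 := Subsingleton.elim _ _
    rw [this, _root_.map_one] at h1
    omega
  have hinj := iter_injective θ hθ
  obtain ⟨y, hy⟩ := Hull.nonempty (hinj (k + n))
  have hyk : y ∈ Hull (iter θ k) := Hull.iter_antitone θ (Nat.le_add_right k n) hy
  have hym : ∀ g, y ≠ iter θ k g * m := by
    rintro g rfl
    exact hcon g hy
  obtain ⟨s, hs, τ, hτ, hτr⟩ := Sep_basis (hinj k) hyk hm hym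
  have hmem : ∀ g, g ∈ τ.range ↔ g ∈ Sep (iter θ k) m y y := by
    intro g
    rw [← hτr]; rfl
  -- the image of `θ ^ n` lies in `Sep`
  have hrange : ∀ f, iter θ n f ∈ τ.range := by
    intro f
    rw [hmem]
    intro h hb
    rw [← iter_add] at hb
    exact hcon h (Hull.convex y hy _ (Hull.smul hy f) _ hb)
  obtain ⟨ψ, hψ, hψτ⟩ := exists_lift hτ (hinj n) (fun g _ => hrange g)
  have hnsur : ¬ Function.Surjective ψ := by
    intro hsur
    have hall : ∀ f, f ∈ τ.range := by
      intro f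
      obtain ⟨x, hx⟩ := hrange f
      obtain ⟨z, hz⟩ := hsur x
      have := hψτ z
      rw [hz, hx] at this
      exact ⟨z, (hinj n this).symm⟩
    obtain ⟨g, h, h1, h2, h3⟩ := Hull.orbit hm y 1
    have h4 := (hmem (g⁻¹ * h)).mp (hall _) g⁻¹
    apply h4
    have h5 := h3.mul_left (iter θ k g)⁻¹
    have e1 : (iter θ k g)⁻¹ * (iter θ k g * y) = y := by group
    have e2 : (iter θ k g)⁻¹ * (iter θ k h * y) = iter θ k (g⁻¹ * h) * y := by
      rw [_root_.map_mul, _root_.map_inv, mul_assoc]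
    rw [e1, e2, ← _root_.map_inv] at h5
    exact h5
  have hgrow := IH s hs ψ hψ hnsur
  exact hsub (growth_transfer τ hτ ψ θ n hn 1 (fun g => by rw [hψτ]; simp) hgrow)

end Pool.Agent.AscQM
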