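import Pool.Agent.Lib.MP_fa6f87_al.NatEdge

/-!
Persistence of the separation pattern.
-/

namespace Pool.Agent.AscQM

open FreeGroup

section Level

variable {α : Type*} [DecidableEq α] [Fintype α]

omit [DecidableEq α] [Fintype α] in
/-- the orbit map of an injective homomorphism is proper -/
lemma finite_near {β : Type*} [DecidableEq β] [Finite β] {σ : FreeGroup α →* FreeGroup β}
    (hσ : Function.Injective σ) (p v : FreeGroup β) (N : ℕ) :
    {g | d v (σ g * p) ≤ N}.Finite := by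
  have h1 := finite_ball v N
  have h2 : Function.Injective fun g : FreeGroup α => σ g * p :=
    fun g h e => hσ (mul_right_cancel e)
  exact h1.preimage h2.injOn

/-- the data of one level -/
structure Level (π e ρ τ σ : FreeGroup α →* FreeGroup α) (m x y v : FreeGroup α) : Prop where
  hπ : Function.Injective π
  he : Function.Injective e
  hτ : Function.Injective τ
  ρ_eq : ∀ g, ρ g = π (e g)
  σ_eq : ∀ g, σ g = τ (ρ g)
  h2 : 2 ≤ Fintype.card α
  hm : m ∈ Hull ρ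
  hx : x ∈ Hull π
  hy : y ∈ Hull π
  hxy : Btw x m y
  hxm : x ≠ m
  hmy : m ≠ y
  hnb : ∀ u, Btw x u y → ¬ IsBr (Hull π) u
  hv : v ∈ TC τ x y

namespace Level

variable {π e ρ τ σ : FreeGroup α →* FreeGroup α} {m x y v : FreeGroup α}

omit [DecidableEq α] in
lemma inj_ρ [DecidableEq α] (L : Level π e ρ τ σ m x y v) : Function.Injective ρ := by
  intro g h hgh
  rw [L.ρ_eq, L.ρ_eq] at hgh
  exact L.he (L.hπ hgh)

lemma inj_σ (L : Level π e ρ τ σ m x y v) : Function.Injective σ := by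
  intro g h hgh
  rw [L.σ_eq, L.σ_eq] at hgh
  exact L.inj_ρ (L.hτ hgh)

lemma hne (L : Level π e ρ τ σ m x y v) : x ≠ y := by
  rintro rfl
  exact L.hxm L.hxy.eq_of_self.symm

lemma T_eq (L : Level π e ρ τ σ m x y v) (g z : FreeGroup α) :
    T τ (ρ g * z) = σ g * T τ z := by
  rw [T_mul, L.σ_eq]

lemma eq_one (L : Level π e ρ τ σ m x y v) {u g : FreeGroup α} (hu : Btw x u y)
    (hg : Btw x (ρ g * u) y) : g = 1 := by
  rw [L.ρ_eq] at hg
  have := eq_one_of_seg L.hπ L.h2 L.hx L.hy L.hnb hu hg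
  exact L.he (by rw [this, _root_.map_one])

lemma side (L : Level π e ρ τ σ m x y v) {u g : FreeGroup α} (hu : Btw x u y) (hg : g ≠ 1) :
    Btw (ρ g * u) x y ∨ Btw x y (ρ g * u) := by
  rw [L.ρ_eq]
  refine side_of_seg L.hπ L.h2 L.hx L.hy L.hnb hu fun h => hg ?_
  exact L.he (by rw [h, _root_.map_one])

lemma side' (L : Level π e ρ τ σ m x y v) {u g : FreeGroup α} (hu : u = x ∨ u = y) :
    Btw (ρ g * u) x y ∨ Btw x y (ρ g * u) := by
  by_cases hg : g = 1
  · subst hg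
    rw [_root_.map_one, one_mul]
    rcases hu with rfl | rfl
    · left; exact btw_left _ _
    · right; exact btw_right _ _
  · rcases hu with rfl | rfl
    · exact L.side (btw_left _ _) hg
    · exact L.side (btw_right _ _) hg

lemma left (L : Level π e ρ τ σ m x y v) {a : FreeGroup α} (ha : Btw a x y) :
    ¬ Btw (T τ a) v (T τ x) := TC.left L.hτ L.hv ha

lemma right (L : Level π e ρ τ σ m x y v) {a : FreeGroup α} (ha : Btw x y a) :
    ¬ Btw (T τ a) v (T τ y) := TC.right L.hτ L.hv ha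

/-- the point `v` upstairs behaves like `m` downstairs -/
lemma key (L : Level π e ρ τ σ m x y v) {a b : FreeGroup α} (ha : Btw a x y ∨ Btw x y a)
    (hb : Btw b x y ∨ Btw x y b) : Btw a m b ↔ Btw (T τ a) v (T τ b) := by
  rcases ha with ha | ha <;> rcases hb with hb | hb
  · exact iff_of_false (same_left ha hb L.hxy L.hxm.symm)
      (nbtw_trans (L.left ha) fun h => L.left hb h.symm)
  · exact iff_of_true (opp_side ha hb L.hxy L.hne) (TC.sep L.hτ L.hv ha hb)
  · exact iff_of_true (opp_side hb ha L.hxy L.hne).symm (TC.sep L.hτ L.hv hb ha).symm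
  · exact iff_of_false (same_right ha hb L.hxy L.hmy)
      (nbtw_trans (L.right ha) fun h => L.right hb h.symm)

/-- (P1) -/
lemma mem (L : Level π e ρ τ σ m x y v) : v ∈ Hull σ := by
  refine Hull.of_orbit (T τ m) fun N => ?_
  have hfin := finite_near L.inj_σ (T τ m) v N
  obtain ⟨M, hM⟩ := (hfin.image fun g => d m (ρ g * m)).bddAbove
  obtain ⟨g, h, h1, h3, h4⟩ := Hull.orbit L.hm m (M + 1)
  have hne : ∀ g, M + 1 ≤ d m (ρ g * m) → g ≠ 1 := by
    rintro g hg rfl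
    simp at hg
  have hfar : ∀ g, M + 1 ≤ d m (ρ g * m) → N ≤ d v (σ g * T τ m) := by
    intro g hg
    by_contra hlt
    push Not at hlt
    have : d m (ρ g * m) ≤ M := hM ⟨g, hlt.le, rfl⟩
    omega
  refine ⟨g, h, hfar g h1, hfar h h3, ?_⟩
  rw [← L.T_eq, ← L.T_eq]
  exact (L.key (L.side L.hxy (hne g h1)) (L.side L.hxy (hne h h3))).mp h4

/-- every direction of `Hull σ` at `v` points to one of the two ends -/
lemma dir (L : Level π e ρ τ σ m x y v) {w : FreeGroup α} (hw : w ∈ Hull σ) (hne : w ≠ v) :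
    ¬ Btw w v (T τ x) ∨ ¬ Btw w v (T τ y) := by
  obtain ⟨g, h, h1, h3, h4⟩ := Hull.orbit hw (T τ m) (d w (T τ m) + 1)
  have hn : ∀ g, d w (T τ m) + 1 ≤ d w (σ g * T τ m) → g ≠ 1 := by
    rintro g hg rfl
    simp at hg
  have main : ∀ g, g ≠ 1 → Btw v w (σ g * T τ m) →
      ¬ Btw w v (T τ x) ∨ ¬ Btw w v (T τ y) := by
    intro g hg hb
    have h5 : ¬ Btw w v (σ g * T τ m) := fun h6 => hne (hb.symm.antisymm h6.symm)
    rw [← L.T_eq] at h5
    rcases L.side L.hxy hg with h6 | h6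
    · left; exact nbtw_trans h5 (L.left h6)
    · right; exact nbtw_trans h5 (L.right h6)
  rcases h4.or v with h5 | h5
  · exact main g (hn g h1) h5.symm
  · exact main h (hn h h3) h5

/-- (P2) -/
lemma not_br (L : Level π e ρ τ σ m x y v) : ¬ IsBr (Hull σ) v := by
  rintro ⟨a, ha, b, hb, c, hc, na, nb, nc, h1, h3, h4⟩
  have tr : ∀ {p q z : FreeGroup α}, ¬ Btw p v z → ¬ Btw q v z → ¬ Btw p v q :=
    fun hp hq => nbtw_trans hp fun h => hq h.symm
  rcases L.dir ha na with ha | ha <;> rcases L.dir hb nb with hb | hb <;>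
    rcases L.dir hc nc with hc | hc
  · exact tr ha hb h1
  · exact tr ha hb h1
  · exact tr ha hc h4
  · exact tr hb hc h3
  · exact tr hb hc h3
  · exact tr ha hc h4
  · exact tr ha hb h1
  · exact tr ha hb h1

/-- (P2') -/
lemma exists_edge (L : Level π e ρ τ σ m x y v) :
    ∃ b c, NE (Hull σ) b c ∧ SIn b c v ∧ ¬ Btw (T τ x) v b ∧ ¬ Btw (T τ y) v c := by
  obtain ⟨b, c, hbc, hin⟩ := exists_NE L.inj_σ L.h2 L.mem L.not_br
  have tr : ∀ {p q z : FreeGroup α}, ¬ Btw p v z → ¬ Btw q v z → ¬ Btw p v q :=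
    fun hp hq => nbtw_trans hp fun h => hq h.symm
  rcases L.dir (hbc.1.mem Hull.convex) hin.2.1.symm with h1 | h1 <;>
    rcases L.dir (hbc.2.1.mem Hull.convex) hin.2.2.symm with h3 | h3
  · exact absurd hin.1 (tr h1 h3)
  · exact ⟨b, c, hbc, hin, fun h => h1 h.symm, fun h => h3 h.symm⟩
  · exact ⟨c, b, hbc.symm, hin.symm, fun h => h3 h.symm, fun h => h1 h.symm⟩
  · exact absurd hin.1 (tr h1 h3)

/-- the first equivalence of (P3) -/
lemma P3a (L : Level π e ρ τ σ m x y v) {p q : FreeGroup α} (hp : p = x ∨ p = y)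
    (hq : q = x ∨ q = y) (g h : FreeGroup α) :
    Btw p (ρ h * m) (ρ g * q) ↔ Btw (T τ p) (σ h * v) (σ g * T τ q) := by
  have h1 : Btw p (ρ h * m) (ρ g * q) ↔ Btw (ρ h⁻¹ * p) m (ρ (h⁻¹ * g) * q) := by
    rw [← btw_mul_left (ρ h⁻¹)]
    have e1 : ρ h⁻¹ * (ρ h * m) = m := by rw [_root_.map_inv]; group
    have e2 : ρ h⁻¹ * (ρ g * q) = ρ (h⁻¹ * g) * q := by rw [_root_.map_mul]; group
    rw [e1, e2]
  have h3 : Btw (T τ p) (σ h * v) (σ g * T τ q) ↔
      Btw (σ h⁻¹ * T τ p) v (σ (h⁻¹ * g) * T τ q) := by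
    rw [← btw_mul_left (σ h⁻¹)]
    have e1 : σ h⁻¹ * (σ h * v) = v := by rw [_root_.map_inv]; group
    have e2 : σ h⁻¹ * (σ g * T τ q) = σ (h⁻¹ * g) * T τ q := by rw [_root_.map_mul]; group
    rw [e1, e2]
  rw [h1, h3, L.key (L.side' hp) (L.side' hq), L.T_eq, L.T_eq]

/-- no translate of `v` lies between an end and the corresponding branch vertex -/
lemma ns (L : Level π e ρ τ σ m x y v) {b c : FreeGroup α} (hbc : NE (Hull σ) b c)
    (hin : SIn b c v) (hb : ¬ Btw (T τ x) v b) (hc : ¬ Btw (T τ y) v c) (h : FreeGroup α) :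
    ¬ Btw (T τ x) (σ h * v) b ∧ ¬ Btw (T τ y) (σ h * v) c := by
  by_cases h1 : h = 1
  · subst h1
    rw [_root_.map_one, one_mul]
    exact ⟨hb, hc⟩
  have h3 : ¬ Btw (T τ x) (σ h * v) (T τ y) := by
    intro h4
    have h5 := (L.P3a (Or.inl rfl) (Or.inr rfl) 1 h).mpr
      (by rw [_root_.map_one, one_mul]; exact h4)
    rw [_root_.map_one, one_mul] at h5
    exact h1 (L.eq_one L.hxy h5)
  have hnbr : ¬ IsBr (Hull σ) (σ h * v) := by
    rw [IsBr.smul_iff]; exact L.not_br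
  have h4 : ¬ Btw b (σ h * v) c := by
    intro h5
    exact h1 (hbc.eq_one L.inj_σ hin ⟨h5, fun e => hnbr (e ▸ hbc.1),
      fun e => hnbr (e ▸ hbc.2.1)⟩)
  have hv1 : Btw (T τ x) v (T τ y) := L.hv.1
  constructor
  · refine nbtw_trans (b := v) (fun h5 => h3 (hv1.trans_left h5)) ?_
    exact fun h5 => h4 (hin.1.trans_left h5.symm)
  · refine nbtw_trans (b := v) (fun h5 => h3 (hv1.symm.trans_left h5).symm) ?_
    exact fun h5 => h4 (hin.1.symm.trans_left h5.symm).symm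

/-- (P3) -/
lemma P3 (L : Level π e ρ τ σ m x y v) {b c : FreeGroup α} (hbc : NE (Hull σ) b c)
    (hin : SIn b c v) (hb : ¬ Btw (T τ x) v b) (hc : ¬ Btw (T τ y) v c)
    {p p' q q' : FreeGroup α} (hp : (p = x ∧ p' = b) ∨ (p = y ∧ p' = c))
    (hq : (q = x ∧ q' = b) ∨ (q = y ∧ q' = c)) (g h : FreeGroup α) :
    Btw p (ρ h * m) (ρ g * q) ↔ Btw p' (σ h * v) (σ g * q') := by
  have hns : ∀ {p p' : FreeGroup α}, ((p = x ∧ p' = b) ∨ (p = y ∧ p' = c)) → ∀ h,
      ¬ Btw (T τ p) (σ h * v) p' := by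
    rintro p p' (⟨rfl, rfl⟩ | ⟨rfl, rfl⟩) h
    · exact (L.ns hbc hin hb hc h).1
    · exact (L.ns hbc hin hb hc h).2
  rw [L.P3a (hp.imp And.left And.left) (hq.imp And.left And.left)]
  have h1 := hns hp h
  have h3 : ¬ Btw (σ g * T τ q) (σ h * v) (σ g * q') := by
    intro h4
    have h5 := hns hq (g⁻¹ * h)
    apply h5
    rw [← btw_mul_left (σ g)]
    have e1 : σ g * (σ (g⁻¹ * h) * v) = σ h * v := by
      rw [_root_.map_mul, _root_.map_inv]; group
    rw [e1]; exact h4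
  constructor
  · intro h4
    by_contra h5
    exact (nbtw_trans (nbtw_trans h1 h5) fun h6 => h3 h6.symm) h4
  · intro h4
    by_contra h5
    exact (nbtw_trans (nbtw_trans (fun h6 => h1 h6.symm) h5) h3) h4

end Level

end Level

/-- **Persistence** -/
theorem persistence {α : Type*} [DecidableEq α] [Fintype α] {θ : FreeGroup α →* FreeGroup α}
    (hθ : Function.Injective θ) (h2 : 2 ≤ Fintype.card α) {k n : ℕ}
    (hn : 6 * (Fintype.card α - 1) ≤ n) {m x y : FreeGroup α}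
    (hm : m ∈ Hull (iter θ (k + n))) (hx : x ∈ Hull (iter θ (k + n)))
    (hy : y ∈ Hull (iter θ (k + n))) (hxy : Btw x m y) (hxm : x ≠ m) (hmy : m ≠ y)
    (hnb : ∀ u, Btw x u y → ¬ IsBr (Hull (iter θ k)) u)
    (hfar : ∀ j ≤ n, 2 * Lam (iter θ j) + 2 ≤ d (T (iter θ j) x) (T (iter θ j) y)) :
    ∃ l l', l < l' ∧ l' ≤ n ∧ ∃ f : FreeGroup α, ∀ g, ∀ p ∈ ({x, y} : Set (FreeGroup α)),
      ∀ q ∈ ({x, y} : Set (FreeGroup α)),
        (g ∈ Sep (iter θ (k + l)) m p q ↔ f⁻¹ * g * f ∈ Sep (iter θ (k + l')) m p q) := by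
  have : Nonempty α := Fintype.card_pos_iff.mp (by omega)
  have hant : ∀ {i j : ℕ}, i ≤ j → Hull (iter θ j) ⊆ Hull (iter θ i) :=
    fun h => Hull.iter_antitone θ h
  have hinj := iter_injective θ hθ
  set σ := iter θ (k + n) with hσdef
  -- the points upstairs
  have hex : ∀ l : Fin (n + 1), ∃ v, v ∈ TC (iter θ (n - l)) x y := by
    intro l
    have h1 := hfar (n - l) (Nat.sub_le _ _)
    obtain ⟨v, hv1, hv2⟩ := d_interp (T (iter θ (n - l)) x) (T (iter θ (n - l)) y)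
      (Lam (iter θ (n - l)) + 1) (by omega)
    exact ⟨v, by unfold Btw; omega, by omega, by omega⟩
  choose v hv using hex
  have hL : ∀ l : Fin (n + 1), Level (iter θ k) (iter θ l) (iter θ (k + l)) (iter θ (n - l)) σ
      m x y (v l) := by
    intro l
    have hl : (l : ℕ) ≤ n := Nat.lt_succ_iff.mp l.2
    refine ⟨hinj _, hinj _, hinj _, fun g => iter_add θ k l g, ?_, h2, hant (by omega) hm,
      hant (by omega) hx, hant (by omega) hy, hxy, hxm, hmy, hnb, hv l⟩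
    intro g
    rw [← iter_add, hσdef]
    congr 2
    omega
  choose b c hNE hin hb hc using fun l => (hL l).exists_edge
  have hσ : Function.Injective σ := hinj _
  obtain ⟨R, hR, hcov⟩ := Hull.branch_dirs hσ
  have hcov' : ∀ l : Fin (n + 1), ∃ g, ∃ ρ ∈ R, c l = σ g * ρ.1 ∧
      nxt (c l) (v l) = σ g * ρ.2 := by
    intro l
    refine hcov (c l) (nxt (c l) (v l)) (hNE l).2.1 ?_ (nxt_dist (hin l).2.2.symm)
    exact Hull.convex _ ((hNE l).2.1.mem Hull.convex) _ (hL l).mem _ (nxt_btw _ _)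
  choose G ρ hρR hG1 hG2 using hcov'
  obtain ⟨l, l', hll, hρ⟩ : ∃ l l' : Fin (n + 1), l < l' ∧ ρ l = ρ l' := by
    have hcard : Fintype.card R < Fintype.card (Fin (n + 1)) := by
      rw [Fintype.card_coe, Fintype.card_fin]; omega
    obtain ⟨l, l', hne, he⟩ := Fintype.exists_ne_map_eq_of_card_lt
      (fun l : Fin (n + 1) => (⟨ρ l, hρR l⟩ : R)) hcard
    have he' : ρ l = ρ l' := congrArg Subtype.val he
    rcases lt_or_gt_of_ne hne with h | h
    · exact ⟨l, l', h, he'⟩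
    · exact ⟨l', l, h, he'.symm⟩
  refine ⟨l, l', hll, Nat.lt_succ_iff.mp l'.2, G l * (G l')⁻¹, ?_⟩
  set f := G l * (G l')⁻¹ with hf
  have hfc : σ f * c l' = c l := by
    rw [hG1 l, hG1 l', hρ, hf, _root_.map_mul, _root_.map_inv]; group
  have hfn : σ f * nxt (c l') (v l') = nxt (c l) (v l) := by
    rw [hG2 l, hG2 l', hρ, hf, _root_.map_mul, _root_.map_inv]; group
  clear_value f
  have hfb : σ f * b l' = b l := by
    symm
    have h1 : NE (Hull σ) (c l) (b l) := (hNE l).symm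
    have h3 : NE (Hull σ) (c l) (σ f * b l') := by
      rw [← hfc]; exact (hNE l').symm.smul f
    refine h1.eq_of_nxt Hull.convex h3 ?_
    have e1 : nxt (c l) (v l) = nxt (c l) (b l) :=
      nxt_eq_of_btw (hin l).1.symm (hin l).2.2
    have e2 : nxt (c l') (v l') = nxt (c l') (b l') :=
      nxt_eq_of_btw (hin l').1.symm (hin l').2.2
    rw [← e1, ← hfn, e2, ← nxt_mul_left, hfc]
  have hinf : SIn (b l) (c l) (σ f * v l') := by
    rw [← hfb, ← hfc]; exact (hin l').mul_left _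
  intro g p hp q hq
  -- the corresponding branch vertices
  have hends : ∀ p ∈ ({x, y} : Set (FreeGroup α)), ∃ p₁ p₂,
      ((p = x ∧ p₁ = b l) ∨ (p = y ∧ p₁ = c l)) ∧
      ((p = x ∧ p₂ = b l') ∨ (p = y ∧ p₂ = c l')) ∧ p₁ = σ f * p₂ ∧ IsBr (Hull σ) p₁ := by
    intro p hp
    rcases hp with rfl | rfl
    · exact ⟨b l, b l', Or.inl ⟨rfl, rfl⟩, Or.inl ⟨rfl, rfl⟩, hfb.symm, (hNE l).1⟩
    · exact ⟨c l, c l', Or.inr ⟨rfl, rfl⟩, Or.inr ⟨rfl, rfl⟩, hfc.symm, (hNE l).2.1⟩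
  obtain ⟨p₁, p₂, hp1, hp2, hpe, hpb⟩ := hends p hp
  obtain ⟨q₁, q₂, hq1, hq2, hqe, hqb⟩ := hends q hq
  rw [mem_Sep, mem_Sep]
  have step : ∀ h, Btw p (iter θ (k + l) h * m) (iter θ (k + l) g * q) ↔
      Btw p (iter θ (k + l') (f⁻¹ * h * f) * m) (iter θ (k + l') (f⁻¹ * g * f) * q) := by
    intro h
    rw [(hL l).P3 (hNE l) (hin l) (hb l) (hc l) hp1 hq1,
      (hL l').P3 (hNE l') (hin l') (hb l') (hc l') hp2 hq2]
    -- replace `v l` by `σ f * v l'`
    have h1 : Btw p₁ (σ h * v l) (σ g * q₁) ↔ Btw p₁ (σ h * (σ f * v l')) (σ g * q₁) :=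
      ((hNE l).smul h).btw_iff Hull.convex ((hin l).mul_left _) (hinf.mul_left _) hpb
        (hqb.smul g)
    rw [h1, ← btw_mul_left (σ f⁻¹)]
    have e1 : σ f⁻¹ * p₁ = p₂ := by rw [hpe, _root_.map_inv]; group
    have e2 : σ f⁻¹ * (σ h * (σ f * v l')) = σ (f⁻¹ * h * f) * v l' := by
      rw [_root_.map_mul, _root_.map_mul]; group
    have e3 : σ f⁻¹ * (σ g * q₁) = σ (f⁻¹ * g * f) * q₂ := by
      rw [hqe, _root_.map_mul, _root_.map_mul]; group
    rw [e1, e2, e3]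
  constructor
  · intro hS h' hb'
    refine hS (f * h' * f⁻¹) ((step _).mpr ?_)
    have : f⁻¹ * (f * h' * f⁻¹) * f = h' := by group
    rw [this]; exact hb'
  · intro hS h hb'
    exact hS _ ((step h).mp hb')

end Pool.Agent.AscQM
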