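import Pool.Agent.Lib.MP_fa6f87_al.Deep
import Pool.Agent.Lib.MP_fa6f87_al.MultPos
import Pool.Agent.Lib.MP_fa6f87_al.Persist
import Pool.Agent.Lib.MP_fa6f87_al.GenSep
import Pool.Agent.Lib.MP_fa6f87_al.Transfer

/-!
Injective non-surjective endomorphisms of free groups grow exponentially.
-/

namespace Pool.Agent.AscQM

open FreeGroup

section Far

variable {α β : Type*} [DecidableEq α] [Fintype α] [DecidableEq β] [Fintype β]

/-- images of far points are far -/
lemma exists_far_pts {σ : FreeGroup α →* FreeGroup β} (hσ : Function.Injective σ) (N : ℕ) :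
    ∃ D, ∀ x y, D ≤ d x y → N ≤ d (T σ x) (T σ y) := by
  classical
  have hfin : {g : FreeGroup α | d (bp σ) (σ g * bp σ) ≤ N}.Finite := by
    refine Set.Finite.of_finite_image (f := fun g => σ g * bp σ)
      ((finite_ball (bp σ) N).subset ?_) ?_
    · rintro _ ⟨g, hg, rfl⟩
      exact hg
    · intro g _ h _ he
      exact hσ (mul_right_cancel he)
  refine ⟨hfin.toFinset.sup (fun g => g.norm) + 1, fun x y hxy => ?_⟩
  by_contra hlt
  push Not at hlt
  rw [d_T_eq] at hlt
  have h1 : x⁻¹ * y ∈ hfin.toFinset := by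
    rw [Set.Finite.mem_toFinset]
    exact hlt.le
  have h2 := Finset.le_sup (f := fun g : FreeGroup α => g.norm) h1
  have h3 : d x y = (x⁻¹ * y).norm := rfl
  omega

end Far

section RankOne

variable {α : Type*} [DecidableEq α] [Fintype α]

omit [Fintype α] in
lemma tl_zpow (g : FreeGroup α) (n : ℤ) : tl (g ^ n) = n.natAbs * tl g := by
  obtain ⟨k, rfl | rfl⟩ := n.eq_nat_or_neg
  · rw [zpow_natCast, tl_pow, Int.natAbs_natCast]
  · rw [zpow_neg, zpow_natCast, tl_inv, tl_pow, Int.natAbs_neg, Int.natAbs_natCast]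

lemma growth_rank_one (h1 : Fintype.card α = 1) {θ : FreeGroup α →* FreeGroup α}
    (hθ : Function.Injective θ) (hns : ¬ Function.Surjective θ) : ExpGrowth θ := by
  obtain ⟨a, ha⟩ := Fintype.card_eq_one_iff.mp h1
  have hall : ∀ g : FreeGroup α, g ∈ Subgroup.zpowers (of a) := by
    intro g
    induction g using FreeGroup.induction_on with
    | C1 => exact Subgroup.one_mem _
    | of x => exact (ha x) ▸ Subgroup.mem_zpowers _
    | inv_of x hx => exact Subgroup.inv_mem _ hx
    | mul x y hx hy => exact Subgroup.mul_mem _ hx hy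
  obtain ⟨n, hn⟩ := hall (θ (of a))
  simp only at hn
  have hn2 : 2 ≤ n.natAbs := by
    by_contra hlt
    have h3 : n = 0 ∨ n = 1 ∨ n = -1 := by omega
    rcases h3 with rfl | rfl | rfl
    · rw [zpow_zero] at hn
      have : of a = (1 : FreeGroup α) := hθ (by rw [← hn, _root_.map_one])
      exact of_ne_one a this
    · apply hns
      intro g
      obtain ⟨j, hj⟩ := hall g
      refine ⟨of a ^ j, ?_⟩
      rw [_root_.map_zpow, ← hn, zpow_one]; exact hj
    · apply hns
      intro g
      obtain ⟨j, hj⟩ := hall g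
      refine ⟨of a ^ (-j), ?_⟩
      rw [_root_.map_zpow, ← hn, ← zpow_mul]
      simpa using hj
  have hiter : ∀ k, iter θ k (of a) = of a ^ (n ^ k) := by
    intro k
    induction k with
    | zero => simp
    | succ k ih =>
      rw [iter_succ', ih, _root_.map_zpow, ← hn, ← zpow_mul, pow_succ, mul_comm]
  refine ⟨of a, 2, one_lt_two, Filter.Eventually.frequently (Filter.Eventually.of_forall ?_)⟩
  intro k
  rw [hiter, tl_zpow, Int.natAbs_pow]
  have h3 : 1 ≤ tl (of a : FreeGroup α) := tl_pos (of_ne_one a)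
  have h4 : 2 ^ k ≤ n.natAbs ^ k := Nat.pow_le_pow_left hn2 k
  have h5 : 2 ^ k ≤ n.natAbs ^ k * tl (of a : FreeGroup α) :=
    h4.trans (Nat.le_mul_of_pos_right _ h3)
  exact_mod_cast h5

end RankOne

section Main

variable {α : Type*} [DecidableEq α] [Fintype α]

theorem growth_step {θ : FreeGroup α →* FreeGroup α}
    (IH : ∀ s < Fintype.card α, ∀ ψ : FreeGroup (Fin s) →* FreeGroup (Fin s),
      Function.Injective ψ → ¬ Function.Surjective ψ → ExpGrowth ψ)
    (hθ : Function.Injective θ) (hns : ¬ Function.Surjective θ) : ExpGrowth θ := by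
  classical
  rcases Nat.lt_or_ge (Fintype.card α) 2 with h | h2
  · rcases (by omega : Fintype.card α = 0 ∨ Fintype.card α = 1) with h0 | h1
    · exfalso
      have : IsEmpty α := Fintype.card_eq_zero_iff.mp h0
      exact hns fun y => ⟨1, Subsingleton.elim _ _⟩
    · exact growth_rank_one h1 hθ hns
  by_contra hsub
  have hnonempty : Nonempty α := Fintype.card_pos_iff.mp (by omega)
  have hinj := iter_injective θ hθ
  have hant : ∀ {i j : ℕ}, i ≤ j → Hull (iter θ j) ⊆ Hull (iter θ i) :=
    fun h => Hull.iter_antitone θ h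
  have hmult : ∀ k n, ∀ m ∈ Hull (iter θ k), ∃ g, iter θ k g * m ∈ Hull (iter θ (k + n)) :=
    fun k n m hm => mult_pos IH hθ hsub k n hm
  set n := 6 * (Fintype.card α - 1) with hn
  have hfar : ∃ D, ∀ j ≤ n, ∀ x y, D ≤ d x y →
      2 * Lam (iter θ j) + 2 ≤ d (T (iter θ j) x) (T (iter θ j) y) := by
    choose D hD using fun j => exists_far_pts (hinj j) (2 * Lam (iter θ j) + 2)
    refine ⟨(Finset.range (n + 1)).sup D, fun j hj x y hxy => hD j x y (le_trans ?_ hxy)⟩
    exact Finset.le_sup (Finset.mem_range.mpr (by omega))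
  obtain ⟨D, hD⟩ := hfar
  obtain ⟨k, m, hm, hdeep, hone⟩ := exists_deep hθ hns h2 hsub hmult n (D + 1)
  -- the two points `x`, `y`
  obtain ⟨g, h, hg, hh, hgh⟩ := Hull.orbit hm m (D + 1)
  obtain ⟨x, hx1, hx2⟩ := d_interp m (iter θ (k + n) g * m) (D + 1) hg
  obtain ⟨y, hy1, hy2⟩ := d_interp m (iter θ (k + n) h * m) (D + 1) hh
  have hbx : Btw m x (iter θ (k + n) g * m) := by unfold Btw; omega
  have hby : Btw m y (iter θ (k + n) h * m) := by unfold Btw; omega
  have hx : x ∈ Hull (iter θ (k + n)) := Hull.convex m hm _ (Hull.smul hm g) x hbx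
  have hy : y ∈ Hull (iter θ (k + n)) := Hull.convex m hm _ (Hull.smul hm h) y hby
  have hxy : Btw x m y := (hgh.trans_left' hbx.symm).trans_right' hby
  have hxm : x ≠ m := by rintro rfl; rw [d_self] at hx1; omega
  have hmy : m ≠ y := by rintro rfl; rw [d_self] at hy1; omega
  have hdxy : d x y = 2 * (D + 1) := by
    have := hxy
    unfold Btw at this
    rw [d_comm x m, hx1, hy1] at this
    omega
  have hnb : ∀ u, Btw x u y → ¬ IsBr (Hull (iter θ k)) u := by
    intro u hu hbr
    have h3 := hdeep u hbr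
    rcases le_total (d x u) (d x m) with hle | hle
    · have h4 := hu.dist hxy hle
      rw [d_comm u m, d_comm x m, hx1] at h4
      omega
    · have h4 := hxy.dist hu hle
      have h5 := hu
      unfold Btw at h5
      rw [d_comm x m, hx1] at h4
      omega
  have hnb' : ∀ i, ∀ u, Btw x u y → ¬ IsBr (Hull (iter θ (k + i))) u := by
    intro i u hu hbr
    apply hnb u hu
    obtain ⟨a, ha, b, hb, c, hc, h1, h2, h3, h4, h5, h6⟩ := hbr
    exact ⟨a, hant (Nat.le_add_right k i) ha, b, hant (Nat.le_add_right k i) hb, c,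
      hant (Nat.le_add_right k i) hc, h1, h2, h3, h4, h5, h6⟩
  obtain ⟨l, l', hll', hl'n, f, hpers⟩ := persistence hθ h2 le_rfl hm hx hy hxy hxm hmy hnb
    (fun j hj => hD j hj x y (by omega))
  set δ := l' - l with hδ
  have hδ1 : 1 ≤ δ := by omega
  have hkl : k + l + δ = k + l' := by omega
  have hpX : ∀ i ≤ n, ∀ p ∈ ({x, y} : Set (FreeGroup α)), p ∈ Hull (iter θ (k + i)) := by
    intro i hi p hp
    rcases hp with rfl | hp
    · exact hant (by omega) hx
    · rw [Set.mem_singleton_iff] at hp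
      subst hp
      exact hant (by omega) hy
  -- (i)
  have hpush : ∀ p ∈ ({x, y} : Set (FreeGroup α)), ∀ q ∈ ({x, y} : Set (FreeGroup α)), ∀ g,
      g ∈ Sep (iter θ (k + l')) m p q → iter θ δ g ∈ Sep (iter θ (k + l)) m p q := by
    intro p hp q hq g hg h hb
    rw [← iter_add, hkl] at hb
    have hmem : iter θ (k + l) h * m ∈ Hull (iter θ (k + l')) :=
      Hull.convex p (hpX l' hl'n p hp) _ (Hull.smul (hpX l' hl'n q hq) g) _ hb
    obtain ⟨g1, hg1⟩ := hmult (k + l') (n - l') _ hmem
    rw [show k + l' + (n - l') = k + n by omega] at hg1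
    have e : iter θ (k + l') g1 * (iter θ (k + l) h * m)
        = iter θ k (iter θ l' g1 * iter θ l h) * m := by
      rw [_root_.map_mul, ← iter_add, ← iter_add, mul_assoc]
    rw [e] at hg1
    obtain ⟨f2, hf2⟩ := hone _ hg1
    rw [← e] at hf2
    apply hg (g1⁻¹ * iter θ (n - l') f2)
    have e2 : iter θ (k + l') (g1⁻¹ * iter θ (n - l') f2) * m = iter θ (k + l) h * m := by
      rw [_root_.map_mul, ← iter_add, show k + l' + (n - l') = k + n by omega, mul_assoc, ← hf2,
        _root_.map_inv, inv_mul_cancel_left]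
    rw [e2]
    exact hb
  -- (ii)
  have hrange1 : ∀ p ∈ ({x, y} : Set (FreeGroup α)), ∀ g ∈ Sep (iter θ (k + l)) m p p,
      ∃ g', iter θ δ g' = g := by
    intro p hp
    have hmX : m ∈ Hull (iter θ (k + l')) := hant (by omega) hm
    have hpm : ∀ g, p ≠ iter θ (k + l') g * m := by
      intro g hpg
      have hbp : Btw x p y := by
        rcases hp with rfl | hp
        · exact btw_left _ _
        · rw [Set.mem_singleton_iff] at hp
          subst hp
          exact btw_right _ _
      have hg1 : g = 1 := eq_one_of_seg (hinj (k + l')) h2 (hpX l' hl'n x (by simp))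
        (hpX l' hl'n y (by simp)) (hnb' l') hxy (by rw [← hpg]; exact hbp)
      rw [hg1, _root_.map_one, one_mul] at hpg
      rcases hp with rfl | hp
      · exact hxm hpg
      · rw [Set.mem_singleton_iff] at hp
        subst hp
        exact hmy hpg.symm
    obtain ⟨s, hs, τ, hτ, hτr⟩ := Sep_basis (hinj (k + l')) (hpX l' hl'n p hp) hmX hpm
    have hmem : ∀ g, g ∈ τ.range ↔ g ∈ Sep (iter θ (k + l')) m p p := by
      intro g
      rw [← hτr]; rfl
    set φ : FreeGroup α →* FreeGroup α := (MulAut.conj f⁻¹).toMonoidHom.comp (iter θ δ) with hφ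
    have hφa : ∀ g, φ g = f⁻¹ * iter θ δ g * f := by
      intro g
      simp [hφ]
    have hφinj : Function.Injective φ := by
      intro a b hab
      rw [hφa, hφa] at hab
      exact hinj δ (mul_left_cancel (mul_right_cancel hab))
    have hφr : ∀ g ∈ τ.range, φ g ∈ τ.range := by
      intro g hg
      rw [hmem] at hg ⊢
      rw [hφa]
      exact (hpers _ p hp p hp).mp (hpush p hp p hp g hg)
    obtain ⟨ψ, hψ, hψτ⟩ := exists_lift hτ hφinj hφr
    have hψsur : Function.Surjective ψ := by
      by_contra hns'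
      exact hsub (growth_transfer τ hτ ψ θ δ hδ1 f⁻¹
        (fun g => by rw [hψτ, hφa, inv_inv]) (IH s hs ψ hψ hns'))
    intro g hg
    have h3 := (hpers g p hp p hp).mp hg
    obtain ⟨z, hz⟩ := (hmem _).mpr h3
    obtain ⟨w, hw⟩ := hψsur z
    refine ⟨τ w, ?_⟩
    have h4 := hψτ w
    rw [hw, hz, hφa] at h4
    exact (mul_left_cancel (mul_right_cancel h4)).symm
  -- (iii)
  have hrange2 : ∀ g ∈ Sep (iter θ (k + l)) m x y, ∃ g', iter θ δ g' = g := by
    intro g hg
    have hxx : x ∈ ({x, y} : Set (FreeGroup α)) := by simp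
    have hyy : y ∈ ({x, y} : Set (FreeGroup α)) := by simp
    have h3 := (hpers g x hxx y hyy).mp hg
    have h4 := hpush x hxx y hyy _ h3
    set g1 := iter θ δ (f⁻¹ * g * f) with hg1
    have h5 : g1⁻¹ * g ∈ Sep (iter θ (k + l)) m y y := by
      intro h hb
      have h6 := hb.mul_left (iter θ (k + l) g1)
      have e1 : iter θ (k + l) g1 * (iter θ (k + l) h * m) = iter θ (k + l) (g1 * h) * m := by
        rw [_root_.map_mul, mul_assoc]
      have e2 : iter θ (k + l) g1 * (iter θ (k + l) (g1⁻¹ * g) * y) = iter θ (k + l) g * y := by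
        rw [_root_.map_mul, _root_.map_inv, mul_assoc, mul_inv_cancel_left]
      rw [e1, e2] at h6
      rcases h6.or x with h7 | h7
      · exact h4 _ h7.symm
      · exact hg _ h7
    obtain ⟨g', hg'⟩ := hrange1 y hyy _ h5
    exact ⟨(f⁻¹ * g * f) * g', by rw [_root_.map_mul, hg', ← hg1]; group⟩
  -- conclusion
  have hclo := closure_Sep (hinj (k + l)) h2 (hpX l (by omega) x (by simp))
    (hpX l (by omega) y (by simp)) hxy hxm hmy (hnb' l)
  have hle : (⊤ : Subgroup (FreeGroup α)) ≤ (iter θ δ).range := by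
    rw [← hclo, Subgroup.closure_le]
    rintro g ((hg | hg) | hg)
    · obtain ⟨g', hg'⟩ := hrange1 x (by simp) g hg
      exact ⟨g', hg'⟩
    · obtain ⟨g', hg'⟩ := hrange1 y (by simp) g hg
      exact ⟨g', hg'⟩
    · obtain ⟨g', hg'⟩ := hrange2 g hg
      exact ⟨g', hg'⟩
  apply hns
  intro z
  obtain ⟨w, hw⟩ := hle (Subgroup.mem_top z)
  obtain ⟨e, he⟩ : ∃ e, δ = e + 1 := ⟨δ - 1, by omega⟩
  rw [he, iter_succ'] at hw
  exact ⟨_, hw⟩

theorem expGrowth_fin (s : ℕ) : ∀ ψ : FreeGroup (Fin s) →* FreeGroup (Fin s),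
    Function.Injective ψ → ¬ Function.Surjective ψ → ExpGrowth ψ := by
  induction s using Nat.strong_induction_on with
  | _ s ih =>
    intro ψ hψ hns
    refine growth_step (fun s' hs' => ih s' ?_) hψ hns
    rwa [Fintype.card_fin] at hs'

theorem expGrowth {θ : FreeGroup α →* FreeGroup α} (hθ : Function.Injective θ)
    (hns : ¬ Function.Surjective θ) : ExpGrowth θ :=
  growth_step (fun s _ => expGrowth_fin s) hθ hns

end Main

end Pool.Agent.AscQM
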