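import Pool.Agent.Lib.MP_fa6f87_al.Geo

/-!
More lemmas on the tree.
-/

namespace Pool.Agent.AscQM

open FreeGroup

variable {α : Type*} [DecidableEq α]

/-- moving an endpoint by less than the distance to `z` keeps `z` between -/
lemma Btw.move {p z q q' : FreeGroup α} (h : Btw p z q) (hd : d q q' < d z q) : Btw p z q' := by
  rcases h.or q' with h1 | h1
  · exact h1
  · exfalso
    unfold Btw at h1
    rw [d_comm q' q] at h1
    omega

lemma Btw.move_left {p p' z q : FreeGroup α} (h : Btw p z q) (hd : d p p' < d z p) :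
    Btw p' z q := (h.symm.move hd).symm

lemma not_btw_trans {x y z w : FreeGroup α} (h : ¬ Btw x w y) (h' : ¬ Btw y w z) :
    ¬ Btw x w z := by
  intro h1
  rcases h1.or y with h2 | h2
  · exact h h2
  · exact h' h2

lemma not_btw_symm {x y w : FreeGroup α} (h : ¬ Btw x w y) : ¬ Btw y w x := fun h' => h h'.symm

/-- a subset of the tree is convex if it contains all geodesics between its points -/
def Convex (Y : Set (FreeGroup α)) : Prop := ∀ x ∈ Y, ∀ y ∈ Y, ∀ z, Btw x z y → z ∈ Y

lemma convex_univ : Convex (Set.univ : Set (FreeGroup α)) := fun _ _ _ _ _ _ => Set.mem_univ _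

lemma d_mul_of (x : FreeGroup α) (l : α × Bool) : d x (x * mk [l]) = 1 := by
  unfold d
  rw [inv_mul_cancel_left]
  unfold FreeGroup.norm
  rw [toWord_mk, (IsReduced.singleton : IsReduced [l]).reduce_eq]
  rfl

lemma exists_letter' {x y : FreeGroup α} (h : d x y = 1) : ∃ l : α × Bool, y = x * mk [l] := by
  have h1 : (x⁻¹ * y).toWord.length = 1 := h
  obtain ⟨l, hl⟩ := List.length_eq_one_iff.mp h1
  have h2 : x⁻¹ * y = mk [l] := by rw [← hl, mk_toWord]
  exact ⟨l, by rw [← h2]; group⟩

lemma mk_singleton_injective : Function.Injective (fun l : α × Bool => (mk [l] : FreeGroup α)) := by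
  intro l l' h
  have h1 : (mk [l] : FreeGroup α).toWord = (mk [l'] : FreeGroup α).toWord := by
    simp only at h; rw [h]
  rw [toWord_mk, toWord_mk, (IsReduced.singleton : IsReduced [l]).reduce_eq,
    (IsReduced.singleton : IsReduced [l']).reduce_eq] at h1
  simpa using h1

lemma d_one_of_letter {x y : FreeGroup α} {l : α × Bool} (h : y = x * mk [l]) : d x y = 1 := by
  rw [h]; exact d_mul_of x l

/-- geodesics can be prolonged by one step -/
lemma exists_prolong_one [Nonempty α] (x y : FreeGroup α) : ∃ y', Btw x y y' ∧ d y y' = 1 := by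
  obtain ⟨a⟩ := ‹Nonempty α›
  have h1 := d_mul_of y (a, true)
  have h2 := d_mul_of y (a, false)
  by_cases hxy : x = y
  · subst hxy
    exact ⟨_, btw_left _ _, h1⟩
  have hne : y * mk [(a, true)] ≠ y * mk [(a, false)] := by
    intro h
    have := mk_singleton_injective (mul_left_cancel h)
    simp at this
  have key : ∀ z, d y z = 1 → z ≠ nxt y x → Btw x y z := by
    intro z hz hz'
    have hzy : z ≠ y := by rintro rfl; simp at hz
    refine (nxt_ne_iff hxy hzy).mp ?_
    have : nxt y z = z := (nxt_unique hz (btw_right _ _)).symm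
    rw [this]
    exact Ne.symm hz'
  by_cases h3 : y * mk [(a, true)] = nxt y x
  · exact ⟨_, key _ h2 (fun h4 => hne (h3.trans h4.symm)), h2⟩
  · exact ⟨_, key _ h1 h3, h1⟩

/-- geodesics can be prolonged -/
lemma exists_prolong [Nonempty α] (x y : FreeGroup α) (n : ℕ) :
    ∃ y', Btw x y y' ∧ d y y' = n := by
  induction n with
  | zero => exact ⟨y, btw_right _ _, d_self y⟩
  | succ n ih =>
    obtain ⟨y', h1, h2⟩ := ih
    obtain ⟨y'', h3, h4⟩ := exists_prolong_one x y'
    refine ⟨y'', h3.trans_left h1, ?_⟩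
    have := h3.trans_left' h1
    unfold Btw at this
    omega

/-- four points in a row -/
lemma row_iff {x' x y y' : FreeGroup α} :
    d x' x + d x y + d y y' = d x' y' ↔ Btw x' x y' ∧ Btw x y y' := by
  have h1 := d_tri x y y'
  have h2 := d_tri x' x y'
  unfold Btw
  omega

lemma row_of_join {x' x y y' : FreeGroup α} (h1 : Btw x' x y) (h2 : Btw x y y') (hne : x ≠ y) :
    d x' x + d x y + d y y' = d x' y' :=
  row_iff.mpr ⟨(h1.join h2 hne).1, h2⟩

lemma finite_dist_lt (x : FreeGroup α) [Finite α] (n : ℕ) : {y | d x y < n}.Finite := by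
  refine (finite_ball x n).subset fun y hy => ?_
  have h : d x y < n := hy
  exact h.le

end Pool.Agent.AscQM
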