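import Pool.Agent.Lib.MP_fa6f87_al.Maps
import Pool.Agent.Lib.MP_fa6f87_al.Move

/-!
The hull (minimal invariant subtree) of a homomorphism of free groups.
-/

namespace Pool.Agent.AscQM

open FreeGroup

set_option linter.unusedSectionVars false

variable {α β : Type*} [DecidableEq α] [Fintype α] [DecidableEq β]

/-- the hull (minimal subtree) of the image of `σ` -/
def Hull (σ : FreeGroup α →* FreeGroup β) : Set (FreeGroup β) :=
  {v | ∀ n : ℕ, ∃ g h, n ≤ d v (σ g) ∧ n ≤ d v (σ h) ∧ Btw (σ g) v (σ h)}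

variable {σ : FreeGroup α →* FreeGroup β}

/-- the base point of the orbit does not matter -/
lemma Hull.mem_iff (v p : FreeGroup β) : v ∈ Hull σ ↔ ∀ n : ℕ,
    ∃ g h, n ≤ d v (σ g * p) ∧ n ≤ d v (σ h * p) ∧ Btw (σ g * p) v (σ h * p) := by
  have hd : ∀ g : FreeGroup α, d (σ g) (σ g * p) = d 1 p := by
    intro g
    have := d_mul_left (σ g) 1 p
    rwa [mul_one] at this
  constructor
  · intro hv n
    obtain ⟨g, h, h1, h2, h3⟩ := hv (n + d 1 p + 1)
    refine ⟨g, h, ?_, ?_, ?_⟩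
    · have := d_tri v (σ g * p) (σ g)
      rw [d_comm (σ g * p), hd] at this
      omega
    · have := d_tri v (σ h * p) (σ h)
      rw [d_comm (σ h * p), hd] at this
      omega
    · have h4 : Btw (σ g * p) v (σ h) := h3.move_left (by rw [hd]; omega)
      exact h4.move (by rw [hd]; omega)
  · intro hv n
    obtain ⟨g, h, h1, h2, h3⟩ := hv (n + d 1 p + 1)
    have hd' : ∀ g : FreeGroup α, d (σ g * p) (σ g) = d 1 p := by
      intro g; rw [d_comm, hd]
    refine ⟨g, h, ?_, ?_, ?_⟩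
    · have := d_tri v (σ g) (σ g * p)
      rw [hd] at this
      omega
    · have := d_tri v (σ h) (σ h * p)
      rw [hd] at this
      omega
    · have h4 : Btw (σ g) v (σ h * p) := h3.move_left (by rw [hd']; omega)
      exact h4.move (by rw [hd']; omega)

lemma Hull.orbit {v : FreeGroup β} (hv : v ∈ Hull σ) (p : FreeGroup β) (n : ℕ) :
    ∃ g h, n ≤ d v (σ g * p) ∧ n ≤ d v (σ h * p) ∧ Btw (σ g * p) v (σ h * p) :=
  (Hull.mem_iff v p).mp hv n

lemma Hull.of_orbit {v : FreeGroup β} (p : FreeGroup β) (h : ∀ n : ℕ,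
    ∃ g h, n ≤ d v (σ g * p) ∧ n ≤ d v (σ h * p) ∧ Btw (σ g * p) v (σ h * p)) :
    v ∈ Hull σ := (Hull.mem_iff v p).mpr h

lemma Hull.smul {v : FreeGroup β} (hv : v ∈ Hull σ) (g : FreeGroup α) : σ g * v ∈ Hull σ := by
  intro n
  obtain ⟨a, b, h1, h2, h3⟩ := hv n
  refine ⟨g * a, g * b, ?_, ?_, ?_⟩
  · rw [_root_.map_mul, d_mul_left]; exact h1
  · rw [_root_.map_mul, d_mul_left]; exact h2
  · rw [_root_.map_mul, _root_.map_mul]; exact h3.mul_left _

lemma Hull.smul_iff {v : FreeGroup β} (g : FreeGroup α) : σ g * v ∈ Hull σ ↔ v ∈ Hull σ := by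
  refine ⟨fun h => ?_, fun h => Hull.smul h g⟩
  have := Hull.smul h g⁻¹
  rwa [_root_.map_inv, inv_mul_cancel_left] at this

/-- from a point of the hull one can go far away from any given point -/
lemma Hull.away {v : FreeGroup β} (hv : v ∈ Hull σ) (p u : FreeGroup β) (n : ℕ) :
    ∃ g, n ≤ d v (σ g * p) ∧ Btw (σ g * p) v u := by
  obtain ⟨g, h, h1, h2, h3⟩ := Hull.orbit hv p n
  rcases h3.or u with h4 | h4
  · exact ⟨g, h1, h4⟩
  · exact ⟨h, h2, h4.symm⟩

lemma Hull.convex : Convex (Hull σ) := by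
  intro v hv w hw u hu
  by_cases h1 : u = v
  · rw [h1]; exact hv
  by_cases h2 : u = w
  · rw [h2]; exact hw
  refine Hull.of_orbit 1 fun n => ?_
  obtain ⟨g, hg1, hg2⟩ := Hull.away hv 1 u n
  obtain ⟨h, hh1, hh2⟩ := Hull.away hw 1 u n
  refine ⟨g, h, ?_, ?_, ?_⟩
  · have := hg2
    unfold Btw at this
    rw [d_comm v u, d_comm (σ g * 1) v, d_comm (σ g * 1) u] at this
    omega
  · have := hh2
    unfold Btw at this
    rw [d_comm w u, d_comm (σ h * 1) w, d_comm (σ h * 1) u] at this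
    omega
  · have h3 : Btw (σ g * 1) u w := (hg2.join hu (Ne.symm h1)).2
    exact (h3.join hh2.symm h2).1

lemma Hull.of_onAxis' {c : FreeGroup α} (hc : σ c ≠ 1) {z : FreeGroup β}
    (hz : OnAxis (σ c) z) : z ∈ Hull σ := by
  refine Hull.of_orbit z fun n => ?_
  have h1 : d z (σ c ^ n * z) = n * d z (σ c * z) := hz.pow_dist n
  have h2 : d z ((σ c)⁻¹ ^ n * z) = n * d z ((σ c)⁻¹ * z) := hz.inv.pow_dist n
  have h3 : 1 ≤ d z (σ c * z) := one_le_d (mul_ne_self hc z).symm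
  have h4 : 1 ≤ d z ((σ c)⁻¹ * z) := one_le_d (mul_ne_self (inv_ne_one.mpr hc) z).symm
  have h5 : n ≤ n * d z (σ c * z) := Nat.le_mul_of_pos_right n h3
  have h6 : n ≤ n * d z ((σ c)⁻¹ * z) := Nat.le_mul_of_pos_right n h4
  refine ⟨c⁻¹ ^ n, c ^ n, ?_, ?_, ?_⟩
  · rw [_root_.map_pow, _root_.map_inv, h2]; exact h6
  · rw [_root_.map_pow, h1]; exact h5
  · rw [_root_.map_pow, _root_.map_pow, _root_.map_inv]
    have := hz.pow n
    unfold OnAxis at this
    rwa [← inv_pow] at this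

lemma Hull.of_onAxis (hσ : Function.Injective σ) {c : FreeGroup α} (hc : c ≠ 1) {z : FreeGroup β}
    (hz : OnAxis (σ c) z) : z ∈ Hull σ :=
  Hull.of_onAxis' (fun h => hc (hσ (by rw [h, _root_.map_one]))) hz

lemma Hull.nonempty [Nonempty α] (hσ : Function.Injective σ) : (Hull σ).Nonempty := by
  obtain ⟨a⟩ := ‹Nonempty α›
  obtain ⟨z, hz⟩ := exists_onAxis (σ (of a))
  exact ⟨z, Hull.of_onAxis hσ (of_ne_one a) hz⟩

lemma Hull.subset_of_convex {Y : Set (FreeGroup β)} (hY : Convex Y) {y : FreeGroup β}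
    (hy : ∀ g, σ g * y ∈ Y) : Hull σ ⊆ Y := by
  intro v hv
  obtain ⟨g, h, -, -, h3⟩ := Hull.orbit hv y 0
  exact hY _ (hy g) _ (hy h) _ h3

/-- a path of vertices: crossing lemma -/
lemma exists_near {g h : FreeGroup α} {v : FreeGroup β}
    (hv : Btw (T σ g) v (T σ h)) : ∃ k, Btw g k h ∧ d (T σ k) v ≤ lam σ := by
  have key : ∀ n, ∀ g h : FreeGroup α, d g h = n → Btw (T σ g) v (T σ h) →
      ∃ k, Btw g k h ∧ d (T σ k) v ≤ lam σ := by
    intro n
    induction n with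
    | zero =>
      intro g h hn hv
      rw [d_eq_zero.mp hn] at hv ⊢
      have := hv.eq_of_self
      refine ⟨h, btw_right _ _, ?_⟩
      rw [this]; simp
    | succ n ih =>
      intro g h hn hv
      have hne : g ≠ h := by rintro rfl; simp at hn
      rcases hv.or (T σ (nxt g h)) with h1 | h1
      · refine ⟨g, btw_left _ _, ?_⟩
        have h2 := d_T_step σ (nxt_dist hne)
        unfold Btw at h1
        omega
      · obtain ⟨k, hk, hk'⟩ := ih (nxt g h) h (by rw [nxt_dist' hne]; omega) h1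
        exact ⟨k, (nxt_btw g h).symm.trans_left hk.symm |>.symm, hk'⟩
  exact key _ g h rfl hv

lemma Hull.near {v : FreeGroup β} (hv : v ∈ Hull σ) : ∃ g, d (T σ g) v ≤ lam σ := by
  obtain ⟨g, h, -, -, h3⟩ := Hull.orbit hv (bp σ) 0
  obtain ⟨k, -, hk⟩ := exists_near (σ := σ) (g := g) (h := h) (v := v) h3
  exact ⟨k, hk⟩

variable {γ : Type*} [DecidableEq γ] [Fintype γ]

lemma Hull.comp_subset (τ : FreeGroup γ →* FreeGroup α) : Hull (σ.comp τ) ⊆ Hull σ := by
  intro v hv n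
  obtain ⟨g, h, h1, h2, h3⟩ := hv n
  exact ⟨τ g, τ h, h1, h2, h3⟩

/-- points of the smaller hull are close to the image of the hull upstairs -/
lemma Hull.near_comp [Nonempty γ] {τ : FreeGroup γ →* FreeGroup α} (hτ : Function.Injective τ)
    {v : FreeGroup β} (hv : v ∈ Hull (σ.comp τ)) : ∃ u ∈ Hull τ, d (T σ u) v ≤ lam σ := by
  obtain ⟨y, hy⟩ := Hull.nonempty hτ
  obtain ⟨g, h, -, -, h3⟩ := Hull.orbit hv (T σ y) 0
  have e : ∀ g, (σ.comp τ) g * T σ y = T σ (τ g * y) := by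
    intro g; rw [T_mul]; rfl
  rw [e, e] at h3
  obtain ⟨k, hk, hk'⟩ := exists_near h3
  exact ⟨k, Hull.convex _ (Hull.smul hy g) _ (Hull.smul hy h) _ hk, hk'⟩

lemma Hull.id_eq [Nonempty α] : Hull (MonoidHom.id (FreeGroup α)) = Set.univ := by
  rw [Set.eq_univ_iff_forall]
  intro v n
  obtain ⟨x, hx, hx'⟩ := exists_prolong v v n
  obtain ⟨y, hy, hy'⟩ := exists_prolong x v n
  exact ⟨x, y, hx'.ge, hy'.ge, hy⟩

lemma iter_comp (θ : FreeGroup α →* FreeGroup α) (k l : ℕ) :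
    (iter θ k).comp (iter θ l) = iter θ (k + l) := by
  ext x
  rw [MonoidHom.comp_apply, iter_add]

lemma Hull.iter_antitone (θ : FreeGroup α →* FreeGroup α) {k l : ℕ} (h : k ≤ l) :
    Hull (iter θ l) ⊆ Hull (iter θ k) := by
  obtain ⟨j, rfl⟩ := Nat.exists_eq_add_of_le h
  rw [← iter_comp]
  exact Hull.comp_subset _

end Pool.Agent.AscQM
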