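import Pool.Agent.Lib.MP_fa6f87_al.Geo
import Pool.Agent.Lib.MP_fa6f87_al.Defs

/-!
Equivariant maps between Cayley trees induced by homomorphisms of free groups.
-/

namespace Pool.Agent.AscQM

open FreeGroup

variable {α β : Type*} [DecidableEq α] [Fintype α] [DecidableEq β]

/-- largest displacement of the images of the generators at `o` -/
def disp (σ : FreeGroup α →* FreeGroup β) (o : FreeGroup β) : ℕ :=
  Finset.univ.sup fun a => d o (σ (of a) * o)

omit [DecidableEq α] in
lemma le_disp (σ : FreeGroup α →* FreeGroup β) (o : FreeGroup β) (a : α) :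
    d o (σ (of a) * o) ≤ disp σ o :=
  Finset.le_sup (f := fun a => d o (σ (of a) * o)) (Finset.mem_univ a)

/-- the least value of `disp` -/
noncomputable def lam (σ : FreeGroup α →* FreeGroup β) : ℕ := sInf (Set.range (disp σ))

omit [DecidableEq α] in
lemma lam_le (σ : FreeGroup α →* FreeGroup β) (o : FreeGroup β) : lam σ ≤ disp σ o :=
  Nat.sInf_le ⟨o, rfl⟩

omit [DecidableEq α] in
lemma exists_bp (σ : FreeGroup α →* FreeGroup β) : ∃ o, disp σ o = lam σ :=
  Nat.sInf_mem (Set.range_nonempty (disp σ))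

/-- a base point with least `disp` -/
noncomputable def bp (σ : FreeGroup α →* FreeGroup β) : FreeGroup β := (exists_bp σ).choose

omit [DecidableEq α] in
lemma disp_bp (σ : FreeGroup α →* FreeGroup β) : disp σ (bp σ) = lam σ := (exists_bp σ).choose_spec

omit [DecidableEq α] in
lemma d_bp_le (σ : FreeGroup α →* FreeGroup β) (a : α) : d (bp σ) (σ (of a) * bp σ) ≤ lam σ := by
  rw [← disp_bp]; exact le_disp σ _ a

/-- the equivariant map `g ↦ σ g * o` with `o` the best base point -/
noncomputable def T (σ : FreeGroup α →* FreeGroup β) (g : FreeGroup α) : FreeGroup β := σ g * bp σ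

omit [DecidableEq α] in
lemma T_mul (σ : FreeGroup α →* FreeGroup β) (g h : FreeGroup α) : T σ (g * h) = σ g * T σ h := by
  unfold T; rw [_root_.map_mul, mul_assoc]

omit [DecidableEq α] in
lemma T_one (σ : FreeGroup α →* FreeGroup β) : T σ 1 = bp σ := by simp [T]

/-- the cancellation constant -/
def bcc (σ : FreeGroup α →* FreeGroup β) (o : FreeGroup β) : ℕ :=
  ∑ a, (d o (σ (of a) * o) + 1)

/-- the cancellation constant at the best base point -/
noncomputable def Lam (σ : FreeGroup α →* FreeGroup β) : ℕ := bcc σ (bp σ)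

omit [DecidableEq α] in
lemma Lam_le (σ : FreeGroup α →* FreeGroup β) : Lam σ ≤ Fintype.card α * (lam σ + 1) := by
  unfold Lam bcc
  calc ∑ a, (d (bp σ) (σ (of a) * bp σ) + 1) ≤ ∑ _a : α, (lam σ + 1) :=
        Finset.sum_le_sum fun a _ => Nat.add_le_add_right (d_bp_le σ a) 1
    _ = Fintype.card α * (lam σ + 1) := by simp

omit [DecidableEq α] in
lemma d_T_eq (σ : FreeGroup α →* FreeGroup β) (g h : FreeGroup α) :
    d (T σ g) (T σ h) = d (bp σ) (σ (g⁻¹ * h) * bp σ) := by
  unfold T
  rw [← d_mul_left (σ g)⁻¹]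
  congr 1
  · group
  · rw [_root_.map_mul, _root_.map_inv]; group

omit [Fintype α] in
/-- a step in the tree is right multiplication by a letter -/
lemma exists_letter {x y : FreeGroup α} (h : d x y = 1) :
    ∃ a, y = x * of a ∨ y = x * (of a)⁻¹ := by
  have h1 : (x⁻¹ * y).toWord.length = 1 := h
  obtain ⟨⟨a, b⟩, hl⟩ := List.length_eq_one_iff.mp h1
  have h2 : x⁻¹ * y = mk [(a, b)] := by rw [← hl, mk_toWord]
  refine ⟨a, ?_⟩
  have h3 : y = x * mk [(a, b)] := by rw [← h2]; group
  cases b
  · right; rw [h3]; simp [of, invRev]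
  · left; rw [h3]; rfl

lemma d_T_step (σ : FreeGroup α →* FreeGroup β) {x y : FreeGroup α} (h : d x y = 1) :
    d (T σ x) (T σ y) ≤ lam σ := by
  obtain ⟨a, rfl | rfl⟩ := exists_letter h
  · rw [d_T_eq]
    have : x⁻¹ * (x * of a) = of a := by group
    rw [this]; exact d_bp_le σ a
  · rw [d_comm, d_T_eq]
    have : (x * (of a)⁻¹)⁻¹ * x = of a := by group
    rw [this]; exact d_bp_le σ a

lemma d_T_le (σ : FreeGroup α →* FreeGroup β) (x y : FreeGroup α) :
    d (T σ x) (T σ y) ≤ d x y * lam σ := by
  have key : ∀ n, ∀ x y : FreeGroup α, d x y = n → d (T σ x) (T σ y) ≤ n * lam σ := by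
    intro n
    induction n with
    | zero => intro x y h; rw [d_eq_zero.mp h]; simp
    | succ n ih =>
      intro x y h
      have hne : x ≠ y := by rintro rfl; simp at h
      have h1 := ih (nxt x y) y (by rw [nxt_dist' hne]; omega)
      have h2 := d_T_step σ (nxt_dist hne)
      have h3 := d_tri (T σ x) (T σ (nxt x y)) (T σ y)
      have : (n + 1) * lam σ = n * lam σ + lam σ := by ring
      omega
  exact key _ x y rfl

end Pool.Agent.AscQM
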