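import Pool.Agent.Lib.MP_fa6f87_al.Base
import Pool.Agent.Lib.MP_fa6f87_al.SepDef
import Pool.Agent.Lib.MP_fa6f87_al.Basis

/-!
`Sep σ m y y` is a finitely generated free group of smaller rank; multiplicities are positive.
-/

namespace Pool.Agent.AscQM

open FreeGroup

section Sep

variable {α β : Type*} [DecidableEq β]

lemma btw_smul_left {σ : FreeGroup α →* FreeGroup β} {g h : FreeGroup α} {p q m : FreeGroup β} :
    Btw (σ g * p) (σ h * m) (σ g * q) ↔ Btw p (σ (g⁻¹ * h) * m) q := by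
  rw [← btw_mul_left (σ g)⁻¹]
  have e1 : (σ g)⁻¹ * (σ g * p) = p := by group
  have e2 : (σ g)⁻¹ * (σ g * q) = q := by group
  have e3 : (σ g)⁻¹ * (σ h * m) = σ (g⁻¹ * h) * m := by
    rw [_root_.map_mul, _root_.map_inv, mul_assoc]
  rw [e1, e2, e3]

/-- `Sep σ m y y` as a subgroup -/
def sepGroup (σ : FreeGroup α →* FreeGroup β) (m y : FreeGroup β) (hym : ∀ g, y ≠ σ g * m) :
    Subgroup (FreeGroup α) where
  carrier := Sep σ m y y
  one_mem' := by
    intro h hb
    rw [_root_.map_one, one_mul] at hb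
    exact hym h hb.eq_of_self.symm
  mul_mem' := by
    intro g₁ g₂ h1 h2 h hb
    rcases hb.or (σ g₁ * y) with hb | hb
    · exact h1 h hb
    · rw [_root_.map_mul, mul_assoc, btw_smul_left] at hb
      exact h2 _ hb
  inv_mem' := by
    intro g h1 h hb
    apply h1 (g * h)
    have := hb.mul_left (σ g)
    rw [_root_.map_inv, mul_inv_cancel_left, ← mul_assoc, ← _root_.map_mul] at this
    exact this.symm

lemma mem_sepGroup {σ : FreeGroup α →* FreeGroup β} {m y : FreeGroup β}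
    {hym : ∀ g, y ≠ σ g * m} {g : FreeGroup α} :
    g ∈ sepGroup σ m y hym ↔ ∀ h, ¬ Btw y (σ h * m) (σ g * y) := Iff.rfl

end Sep

section Basis

variable {α β : Type*} [DecidableEq α] [Fintype α] [DecidableEq β] [Fintype β]

theorem Sep_basis {σ : FreeGroup α →* FreeGroup β} (hσ : Function.Injective σ)
    {y m : FreeGroup β} (hy : y ∈ Hull σ) (hm : m ∈ Hull σ) (hym : ∀ g, y ≠ σ g * m) :
    ∃ s < Fintype.card α, ∃ τ : FreeGroup (Fin s) →* FreeGroup α, Function.Injective τ ∧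
      (τ.range : Set (FreeGroup α)) = Sep σ m y y := by
  classical
  set D := sepGroup σ m y hym with hDdef
  set C : Set (FreeGroup β) := {u | u ∈ Hull σ ∧ ∀ h, ¬ Btw y (σ h * m) u} with hCdef
  have hCconv : Convex C := by
    rintro u ⟨hu1, hu2⟩ u' ⟨hu1', hu2'⟩ z hz
    refine ⟨Hull.convex u hu1 u' hu1' z hz, fun h hb => ?_⟩
    by_cases hzp : σ h * m = z
    · rw [← hzp] at hz
      rcases hz.or y with h1 | h1
      · exact hu2 h h1.symm
      · exact hu2' h h1
    · rcases hb.or u with h1 | h1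
      · exact hu2 h h1
      · have h2 : Btw (σ h * m) z u' := hz.trans_left' h1
        exact hu2' h (hb.join h2 hzp).1
  have hyC : y ∈ C := ⟨hy, fun h hb => hym h hb.eq_of_self.symm⟩
  have hinv : ∀ k ∈ D.map σ, ∀ u ∈ C, k * u ∈ C := by
    rintro _ ⟨g, hg, rfl⟩ u ⟨hu1, hu2⟩
    refine ⟨Hull.smul hu1 g, fun h hb => ?_⟩
    rcases hb.or (σ g * y) with h1 | h1
    · exact hg h h1
    · rw [btw_smul_left] at h1
      exact hu2 _ h1
  have hdiff : ∀ u g, u ∈ C → σ g * u ∈ C → g ∈ D := by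
    rintro u g ⟨hu1, hu2⟩ ⟨hu1', hu2'⟩ h hb
    rcases hb.or (σ g * u) with h1 | h1
    · exact hu2' h h1
    · rw [btw_smul_left] at h1
      exact hu2 _ h1.symm
  -- finitely many orbits
  obtain ⟨R, hR⟩ := Hull.exists_transversal σ
  have hrep : ∀ ρ : FreeGroup β, ∃ s : FreeGroup β, ∀ g, σ g * ρ ∈ C →
      ∃ k ∈ D.map σ, σ g * ρ = k * s := by
    intro ρ
    by_cases hex : ∃ g₀, σ g₀ * ρ ∈ C
    · obtain ⟨g₀, hg₀⟩ := hex
      refine ⟨σ g₀ * ρ, fun g hg => ⟨σ (g * g₀⁻¹), ⟨g * g₀⁻¹, ?_, rfl⟩, ?_⟩⟩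
      · apply hdiff _ _ hg₀
        have e : σ (g * g₀⁻¹) * (σ g₀ * ρ) = σ g * ρ := by
          rw [_root_.map_mul, _root_.map_inv]; group
        rw [e]; exact hg
      · rw [_root_.map_mul, _root_.map_inv]; group
    · exact ⟨1, fun g hg => absurd ⟨g, hg⟩ hex⟩
  choose rep hrep using hrep
  have hcov : ∀ u ∈ C, ∃ k ∈ D.map σ, ∃ s ∈ ((R.image rep : Finset (FreeGroup β)) :
      Set (FreeGroup β)), u = k * s := by
    intro u hu
    obtain ⟨g, ρ, hρ, rfl⟩ := hR.cover u hu.1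
    obtain ⟨k, hk, he⟩ := hrep ρ g hu
    exact ⟨k, hk, rep ρ, by exact_mod_cast Finset.mem_image_of_mem rep hρ, he⟩
  have hFG' : (D.map σ).FG := fg_of_cofinite (D.map σ) hCconv hinv ⟨y, hyC⟩
    (Finset.finite_toSet _) hcov
  have hFG : D.FG := by
    rw [← Group.fg_iff_subgroup_fg]
    have h1 : Group.FG (D.map σ) := (Group.fg_iff_subgroup_fg _).mpr hFG'
    let e := (D.equivMapOfInjective σ hσ).symm
    exact Group.fg_of_surjective (f := e.toMonoidHom) e.surjective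
  obtain ⟨s, τ, hτ, hτr⟩ := basis_of_fg D hFG
  have hcard : 0 < Fintype.card α := by
    rw [Fintype.card_pos_iff]
    by_contra hemp
    rw [not_nonempty_iff] at hemp
    obtain ⟨g, h, h1, h2, h3⟩ := hy (d y 1 + 1)
    have : g = 1 := Subsingleton.elim _ _
    rw [this, _root_.map_one] at h1
    omega
  refine ⟨s, ?_, τ, hτ, ?_⟩
  · rcases Nat.eq_zero_or_pos s with hs | hs
    · omega
    · have : Nonempty (Fin s) := ⟨⟨0, hs⟩⟩
      have := card_lt_of_hull (γ := Fin s) hσ hτ (X := Hull σ) rfl hy hm hym (fun g => by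
        rw [hτr]; exact Iff.rfl)
      simpa using this
  · rw [hτr]; rfl

end Basis

end Pool.Agent.AscQM
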