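import Pool.Agent.Lib.MP_fa6f87_al.Base

/-!
Boundedly many translates of the hull of `θ ^ (k + 1)` pass through a long segment and lie in a
translate of the hull of `θ ^ k` which contains the hull of `θ ^ i`.
-/

namespace Pool.Agent.AscQM

open FreeGroup

section StateBound

variable {α β γ : Type*} [DecidableEq α] [Fintype α] [DecidableEq β] [DecidableEq γ] [Fintype γ]

omit [DecidableEq α] [Fintype α] in
/-- balls are convex -/
lemma Btw.ball {x z y p : FreeGroup β} (h : Btw x z y) {n : ℕ} (hx : d p x ≤ n) (hy : d p y ≤ n) :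
    d p z ≤ n := by
  rcases Btw.or h p with h1 | h1
  · unfold Btw at h1
    have h2 := d_comm x p
    have h3 := d_comm z p
    omega
  · unfold Btw at h1
    omega

/-- the translates of the hull of `σ ∘ τ` through a long segment come from translates of the hull
of `τ` through one point -/
lemma common_point {σ : FreeGroup α →* FreeGroup β} (hσ : Function.Injective σ) [Nonempty γ]
    {τ : FreeGroup γ →* FreeGroup α} (hτ : Function.Injective τ) {p m q : FreeGroup β}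
    (hm : Btw p m q) (h1 : Lam σ + 2 * lam σ < d p m) (h2 : Lam σ + 2 * lam σ < d m q) :
    ∃ m', ∀ f, (σ f)⁻¹ * p ∈ Hull (σ.comp τ) → (σ f)⁻¹ * q ∈ Hull (σ.comp τ) →
      f⁻¹ * m' ∈ Hull τ := by
  have key : ∀ f x, (σ f)⁻¹ * x ∈ Hull (σ.comp τ) → ∃ u, f⁻¹ * u ∈ Hull τ ∧
      d (T σ u) x ≤ lam σ := by
    intro f x hx
    obtain ⟨u, hu, hd⟩ := Hull.near_comp hτ hx
    refine ⟨f * u, by rwa [inv_mul_cancel_left], ?_⟩
    have e := d_mul_left (σ f) (T σ u) ((σ f)⁻¹ * x)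
    rw [mul_inv_cancel_left] at e
    rw [T_mul, e]
    exact hd
  by_cases hex : ∃ f, (σ f)⁻¹ * p ∈ Hull (σ.comp τ) ∧ (σ f)⁻¹ * q ∈ Hull (σ.comp τ)
  · obtain ⟨f₀, hp₀, hq₀⟩ := hex
    obtain ⟨u₀, hu₀, hdu₀⟩ := key f₀ p hp₀
    obtain ⟨w₀, hw₀, hdw₀⟩ := key f₀ q hq₀
    have h3 : Btw (T σ u₀) m (T σ w₀) := by
      have h4 : Btw p m (T σ w₀) := hm.move (by rw [d_comm]; omega)
      refine (Btw.move h4.symm ?_).symm
      rw [d_comm, d_comm m]
      omega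
    obtain ⟨m', hm', hdm'⟩ := exists_near h3
    refine ⟨m', fun f hp hq => ?_⟩
    obtain ⟨u, hu, hdu⟩ := key f p hp
    obtain ⟨w, hw, hdw⟩ := key f q hq
    have hfar : ∀ x x₀ : FreeGroup α, ∀ y : FreeGroup β, d (T σ x) y ≤ lam σ →
        d (T σ x₀) y ≤ lam σ → Lam σ + 2 * lam σ < d y m → ¬ Btw x₀ m' x := by
      intro x x₀ y hx hx₀ hy hb
      obtain ⟨z, hz, hdz⟩ := bcc_T hσ hb
      have h4 : d y z ≤ lam σ := hz.ball (by rw [d_comm]; exact hx₀) (by rw [d_comm]; exact hx)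
      have h5 := d_tri y z m
      have h6 := d_tri z (T σ m') m
      rw [d_comm z (T σ m')] at h6
      omega
    have h4 : Btw u m' w := by
      rcases Btw.or hm' u with h5 | h5
      · exact absurd h5 (hfar u u₀ p hdu hdu₀ h1)
      · rcases Btw.or h5 w with h6 | h6
        · exact h6
        · exact absurd h6.symm (hfar w w₀ q hdw hdw₀ (by rw [d_comm]; exact h2))
    exact Hull.convex _ hu _ hw _ (h4.mul_left f⁻¹)
  · exact ⟨1, fun f hp hq => absurd ⟨f, hp, hq⟩ hex⟩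

theorem state_bound {θ : FreeGroup α →* FreeGroup α} (hθ : Function.Injective θ)
    (h2 : 2 ≤ Fintype.card α) : ∃ M : ℕ, ∀ k i, k ≤ i → ∀ p q m, Btw p m q →
      Lam (iter θ k) + 2 * lam (iter θ k) < d p m → Lam (iter θ k) + 2 * lam (iter θ k) < d m q →
      Set.encard {Y : Set (FreeGroup α) | ∃ g, Y = {v | g⁻¹ * v ∈ Hull (iter θ (k + 1))} ∧
        (∀ v ∈ Hull (iter θ i), g⁻¹ * v ∈ Hull (iter θ k)) ∧ p ∈ Y ∧ q ∈ Y} ≤ M := by
  classical
  have hne : Nonempty α := Fintype.card_pos_iff.mp (by omega)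
  obtain ⟨R₁, hR₁⟩ := Hull.exists_transversal θ
  refine ⟨2 * (Fintype.card α - 1) * R₁.card, fun k i hki p q m hm hpm hmq => ?_⟩
  set σ := iter θ k with hσdef
  have hσ : Function.Injective σ := iter_injective θ hθ k
  obtain ⟨b, hb⟩ := Hull.exists_br (iter_injective θ hθ i) h2
  obtain ⟨R, hRc, hR⟩ := Hull.branch_orbits hσ
  -- the common points
  have hcp : ∀ ρ : FreeGroup α, ∃ m', ∀ f, (σ f)⁻¹ * ((b * ρ⁻¹)⁻¹ * p) ∈ Hull (σ.comp θ) →
      (σ f)⁻¹ * ((b * ρ⁻¹)⁻¹ * q) ∈ Hull (σ.comp θ) → f⁻¹ * m' ∈ Hull θ := fun ρ =>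
    common_point hσ hθ (hm.mul_left _) (by rw [d_mul_left]; exact hpm)
      (by rw [d_mul_left]; exact hmq)
  choose m' hm' using hcp
  set Φ : FreeGroup α × FreeGroup α → Set (FreeGroup α) := fun x =>
    {v | (b * x.1⁻¹ * σ (m' x.1 * x.2⁻¹))⁻¹ * v ∈ Hull (iter θ (k + 1))} with hΦ
  have hsub : {Y : Set (FreeGroup α) | ∃ g, Y = {v | g⁻¹ * v ∈ Hull (iter θ (k + 1))} ∧
        (∀ v ∈ Hull (iter θ i), g⁻¹ * v ∈ Hull (iter θ k)) ∧ p ∈ Y ∧ q ∈ Y} ⊆
      Φ '' ((R ×ˢ R₁ : Finset (FreeGroup α × FreeGroup α)) : Set _) := by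
    rintro Y ⟨g, rfl, hg, hp, hq⟩
    -- `g⁻¹ b` is a branch vertex
    have hbr : IsBr (Hull σ) (g⁻¹ * b) := by
      obtain ⟨x, hx, y, hy, z, hz, h1, h3, h4, h5, h6, h7⟩ := hb
      exact ⟨g⁻¹ * x, hg x hx, g⁻¹ * y, hg y hy, g⁻¹ * z, hg z hz,
        fun e => h1 (mul_left_cancel e), fun e => h3 (mul_left_cancel e),
        fun e => h4 (mul_left_cancel e), h5.mul_left _, h6.mul_left _, h7.mul_left _⟩
    obtain ⟨h, ρ, hρ, he⟩ := hR _ hbr
    have hge : g = b * ρ⁻¹ * σ h⁻¹ := by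
      have : g = b * (g⁻¹ * b)⁻¹ := by group
      rw [this, he, _root_.map_inv]
      group
    have hmem : ∀ v, g⁻¹ * v ∈ Hull (iter θ (k + 1)) →
        (σ h⁻¹)⁻¹ * ((b * ρ⁻¹)⁻¹ * v) ∈ Hull (σ.comp θ) := by
      intro v hv
      rw [hge, mul_inv_rev, mul_assoc] at hv
      exact hv
    have h3 := hm' ρ h⁻¹ (hmem p hp) (hmem q hq)
    obtain ⟨e, ρ', hρ', hf⟩ := hR₁.cover _ h3
    refine ⟨(ρ, ρ'), ?_, ?_⟩
    · rw [Finset.mem_coe, Finset.mem_product]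
      exact ⟨hρ, hρ'⟩
    · have hhe : h⁻¹ = m' ρ * ρ'⁻¹ * (θ e)⁻¹ := by
        have : h⁻¹ = m' ρ * (h⁻¹⁻¹ * m' ρ)⁻¹ := by group
        rw [this, hf]
        group
      have hg2 : g = b * ρ⁻¹ * σ (m' ρ * ρ'⁻¹) * iter θ (k + 1) e⁻¹ := by
        rw [hge, hhe, _root_.map_mul σ, iter_succ, _root_.map_inv θ, ← hσdef]
        simp only [mul_assoc]
      ext v
      show (b * ρ⁻¹ * σ (m' ρ * ρ'⁻¹))⁻¹ * v ∈ Hull (iter θ (k + 1)) ↔
        g⁻¹ * v ∈ Hull (iter θ (k + 1))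
      have e1 : g⁻¹ * v = iter θ (k + 1) e * ((b * ρ⁻¹ * σ (m' ρ * ρ'⁻¹))⁻¹ * v) := by
        rw [hg2, _root_.map_inv, mul_inv_rev, inv_inv, mul_assoc]
      rw [e1, Hull.smul_iff]
  calc Set.encard _ ≤ (Φ '' ((R ×ˢ R₁ : Finset (FreeGroup α × FreeGroup α)) : Set _)).encard :=
        Set.encard_le_encard hsub
    _ ≤ ((R ×ˢ R₁ : Finset (FreeGroup α × FreeGroup α)) : Set (FreeGroup α × FreeGroup α)).encard :=
        Set.encard_image_le _ _
    _ = (R.card * R₁.card : ℕ) := by rw [Set.encard_coe_eq_coe_finsetCard, Finset.card_product]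
    _ ≤ (2 * (Fintype.card α - 1) * R₁.card : ℕ) := by
        exact_mod_cast Nat.mul_le_mul_right _ hRc

end StateBound

end Pool.Agent.AscQM
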