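import Pool.Agent.Lib.MP_fa6f87_al.P8
import Pool.Agent.Lib.MP_fa6f87_al.Basis

/-!
The number of orbits on the hull of `θ ^ k`: upper bound, divergence, and growth.
-/

namespace Pool.Agent.AscQM

open FreeGroup Filter

section VolumeA

variable {α β : Type*} [DecidableEq α] [Fintype α] [DecidableEq β]

/-- a point between two points of the orbit lies in a fundamental segment -/
lemma exists_segment (σ : FreeGroup α →* FreeGroup β) {v : FreeGroup β} :
    ∀ n, ∀ g h : FreeGroup α, d g h = n → g ≠ h → Btw (T σ g) v (T σ h) →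
      ∃ (k : FreeGroup α) (a : α) (w : FreeGroup β), v = σ k * w ∧
        Btw (bp σ) w (σ (of a) * bp σ) := by
  intro n
  induction n with
  | zero =>
    intro g h hn hne _
    exact absurd (d_eq_zero.mp hn) hne
  | succ n ih =>
    intro g h hn hne hv
    have h1 := nxt_dist hne
    have h2 := nxt_dist' hne
    rcases hv.or (T σ (nxt g h)) with h3 | h3
    · -- `v` lies between `T g` and `T (nxt g h)`
      obtain ⟨a, ha | ha⟩ := exists_letter h1
      · refine ⟨g, a, (σ g)⁻¹ * v, by rw [mul_inv_cancel_left], ?_⟩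
        have h4 := h3.mul_left (σ g)⁻¹
        rw [ha] at h4
        unfold T at h4
        rw [inv_mul_cancel_left, _root_.map_mul, mul_assoc, inv_mul_cancel_left] at h4
        exact h4
      · refine ⟨nxt g h, a, (σ (nxt g h))⁻¹ * v, by rw [mul_inv_cancel_left], ?_⟩
        have h4 := h3.symm.mul_left (σ (nxt g h))⁻¹
        have h5 : g = nxt g h * of a := by rw [ha]; group
        have h6 : T σ g = σ (nxt g h) * (σ (of a) * bp σ) := by
          conv_lhs => rw [h5]
          unfold T
          rw [_root_.map_mul, mul_assoc]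
        rw [h6, inv_mul_cancel_left] at h4
        unfold T at h4
        rwa [inv_mul_cancel_left] at h4
    · by_cases h4 : nxt g h = h
      · -- then `v = T h`
        rw [h4] at h3
        have h5 : v = T σ h := h3.eq_of_self
        have h6 : Btw (T σ g) v (T σ (nxt g h)) := by rw [h4, h5]; exact btw_right _ _
        obtain ⟨a, ha | ha⟩ := exists_letter h1
        · refine ⟨g, a, (σ g)⁻¹ * v, by rw [mul_inv_cancel_left], ?_⟩
          have h7 := h6.mul_left (σ g)⁻¹
          rw [ha] at h7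
          unfold T at h7
          rw [inv_mul_cancel_left, _root_.map_mul, mul_assoc, inv_mul_cancel_left] at h7
          exact h7
        · refine ⟨nxt g h, a, (σ (nxt g h))⁻¹ * v, by rw [mul_inv_cancel_left], ?_⟩
          have h7 := h6.symm.mul_left (σ (nxt g h))⁻¹
          have h8 : g = nxt g h * of a := by rw [ha]; group
          have h9 : T σ g = σ (nxt g h) * (σ (of a) * bp σ) := by
            conv_lhs => rw [h8]
            unfold T
            rw [_root_.map_mul, mul_assoc]
          rw [h9, inv_mul_cancel_left] at h7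
          unfold T at h7
          rwa [inv_mul_cancel_left] at h7
      · exact ih (nxt g h) h (by rw [h2]; omega) h4 h3

lemma Hull.exists_segment {σ : FreeGroup α →* FreeGroup β} {v : FreeGroup β} (hv : v ∈ Hull σ) :
    ∃ (k : FreeGroup α) (a : α) (w : FreeGroup β), v = σ k * w ∧
      Btw (bp σ) w (σ (of a) * bp σ) := by
  obtain ⟨g, h, h1, h2, h3⟩ := Hull.orbit hv (bp σ) 1
  have hne : g ≠ h := by
    rintro rfl
    have := h3.eq_of_self
    rw [← this] at h1
    simp at h1
  exact Pool.Agent.AscQM.exists_segment σ _ g h rfl hne h3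

theorem vol_le_Lam [Fintype β] {σ : FreeGroup α →* FreeGroup β} {R : Finset (FreeGroup β)}
    (hR : IsTransversal σ (Hull σ) R) : R.card ≤ Lam σ := by
  classical
  have key : ∀ ρ : R, ∃ x : (Σ a : α, Fin (d (bp σ) (σ (of a) * bp σ) + 1)),
      ∃ (k : FreeGroup α) (w : FreeGroup β), ρ.1 = σ k * w ∧
        Btw (bp σ) w (σ (of x.1) * bp σ) ∧ d (bp σ) w = x.2.1 := by
    rintro ⟨ρ, hρ⟩
    obtain ⟨k, a, w, h1, h2⟩ := Hull.exists_segment (hR.mem ρ hρ)
    have h3 : d (bp σ) w < d (bp σ) (σ (of a) * bp σ) + 1 := by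
      unfold Btw at h2
      omega
    exact ⟨⟨a, ⟨d (bp σ) w, h3⟩⟩, k, w, h1, h2, rfl⟩
  choose x k w h1 h2 h3 using key
  have hinj : Function.Injective x := by
    intro ρ ρ' h
    have hw : w ρ = w ρ' := by
      have e1 := h2 ρ'
      have e2 := h3 ρ'
      rw [← h] at e1 e2
      exact (h2 ρ).eq e1 ((h3 ρ).trans e2.symm)
    apply Subtype.ext
    apply hR.inj _ ρ.2 _ ρ'.2 (k ρ' * (k ρ)⁻¹)
    rw [h1 ρ, h1 ρ', hw, _root_.map_mul, _root_.map_inv]
    group
  have hcard := Fintype.card_le_of_injective x hinj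
  rw [Fintype.card_coe, Fintype.card_sigma] at hcard
  refine hcard.trans (le_of_eq ?_)
  unfold Lam bcc
  simp

end VolumeA

section VolumeB

variable {α : Type*} [DecidableEq α] [Fintype α]

/-- conjugate images have translated hulls -/
lemma Hull.of_conj {σ σ' : FreeGroup α →* FreeGroup α} {g : FreeGroup α}
    (h : ∀ a, ∃ a', g * σ a * g⁻¹ = σ' a') {v : FreeGroup α} (hv : v ∈ Hull σ) :
    g * v ∈ Hull σ' := by
  refine Hull.of_orbit (g * 1) fun n => ?_
  obtain ⟨a, b, h1, h2, h3⟩ := Hull.orbit hv 1 n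
  obtain ⟨a', ha'⟩ := h a
  obtain ⟨b', hb'⟩ := h b
  have e1 : σ' a' * (g * 1) = g * (σ a * 1) := by rw [← ha']; group
  have e2 : σ' b' * (g * 1) = g * (σ b * 1) := by rw [← hb']; group
  refine ⟨a', b', ?_, ?_, ?_⟩
  · rw [e1, d_mul_left]; exact h1
  · rw [e2, d_mul_left]; exact h2
  · rw [e1, e2]; exact h3.mul_left g

theorem vol_tendsto {θ : FreeGroup α →* FreeGroup α} (hθ : Function.Injective θ)
    (hns : ¬ Function.Surjective θ) (h2 : 2 ≤ Fintype.card α) (B : ℕ) :
    ∃ K, ∀ k ≥ K, ∀ R, IsTransversal (iter θ k) (Hull (iter θ k)) R → B ≤ R.card := by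
  classical
  have hne : Nonempty α := Fintype.card_pos_iff.mp (by omega)
  by_contra hcon
  push Not at hcon
  -- for every `K` some `k ≥ K` with few orbits
  choose k hk R hR hcard using hcon
  have hvex : ∀ K, ∃ v, v ∈ Hull (iter θ (k K)) := fun K =>
    Hull.nonempty (iter_injective θ hθ _)
  choose v hv using hvex
  -- the finite set of short elements
  have hfin : {x : FreeGroup α | x.norm ≤ 2 * B + 1}.Finite := by
    have := finite_ball (1 : FreeGroup α) (2 * B + 1)
    simpa only [d_one_left] using this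
  let N : ℕ → Set (FreeGroup α) := fun K =>
    {x | x.norm ≤ 2 * B + 1 ∧ v K * x * (v K)⁻¹ ∈ (iter θ (k K)).range}
  have hNsub : ∀ K, N K ∈ {s : Set (FreeGroup α) | s ⊆ {x | x.norm ≤ 2 * B + 1}} := by
    intro K x hx
    exact hx.1
  have hclos : ∀ K, ∀ y, y ∈ Subgroup.closure (N K) ↔
      v K * y * (v K)⁻¹ ∈ (iter θ (k K)).range := by
    intro K y
    have hc := closure_of_cofinite (iter θ (k K)).range (C := Hull (iter θ (k K))) Hull.convex
      (by
        rintro _ ⟨g, rfl⟩ y hy
        exact Hull.smul hy g) (hv K) (S := R K)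
      (by
        intro y hy
        obtain ⟨g, ρ, hρ, he⟩ := (hR K).cover y hy
        exact ⟨_, ⟨g, rfl⟩, ρ, hρ, he⟩)
    constructor
    · intro hy
      induction hy using Subgroup.closure_induction with
      | mem x hx => exact hx.2
      | one => rw [mul_one, mul_inv_cancel]; exact Subgroup.one_mem _
      | mul x y _ _ hx hy =>
        have : v K * (x * y) * (v K)⁻¹ = (v K * x * (v K)⁻¹) * (v K * y * (v K)⁻¹) := by group
        rw [this]
        exact Subgroup.mul_mem _ hx hy
      | inv x _ hx =>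
        have : v K * x⁻¹ * (v K)⁻¹ = (v K * x * (v K)⁻¹)⁻¹ := by group
        rw [this]
        exact Subgroup.inv_mem _ hx
    · intro hy
      rw [← hc] at hy
      have key : ∀ z ∈ Subgroup.closure {h | h ∈ (iter θ (k K)).range ∧
          d (v K) (h * v K) ≤ 2 * (R K).card + 1}, (v K)⁻¹ * z * v K ∈ Subgroup.closure (N K) := by
        intro z hz
        induction hz using Subgroup.closure_induction with
        | mem x hx =>
          apply Subgroup.subset_closure
          refine ⟨?_, ?_⟩
          · have h3 : ((v K)⁻¹ * x * v K).norm = d (v K) (x * v K) := by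
              rw [d_def, mul_assoc]
            rw [h3]
            have := hcard K
            have := hx.2
            omega
          · have : v K * ((v K)⁻¹ * x * v K) * (v K)⁻¹ = x := by group
            rw [this]
            exact hx.1
        | one => rw [mul_one, inv_mul_cancel]; exact Subgroup.one_mem _
        | mul x y _ _ hx hy =>
          have : (v K)⁻¹ * (x * y) * v K = ((v K)⁻¹ * x * v K) * ((v K)⁻¹ * y * v K) := by group
          rw [this]
          exact Subgroup.mul_mem _ hx hy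
        | inv x _ hx =>
          have : (v K)⁻¹ * x⁻¹ * v K = ((v K)⁻¹ * x * v K)⁻¹ := by group
          rw [this]
          exact Subgroup.inv_mem _ hx
      have := key _ hy
      have h4 : (v K)⁻¹ * (v K * y * (v K)⁻¹) * v K = y := by group
      rwa [h4] at this
  -- infinitely many different `k`
  obtain ⟨φ, hφ⟩ : ∃ φ : ℕ → ℕ, StrictMono fun j => k (φ j) := by
    refine ⟨fun j => Nat.rec 0 (fun _ K => k K + 1) j, strictMono_nat_of_lt_succ fun j => ?_⟩
    show k (Nat.rec 0 (fun _ K => k K + 1) j) < k (k (Nat.rec 0 (fun _ K => k K + 1) j) + 1)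
    have := hk (k (Nat.rec 0 (fun _ K => k K + 1) j) + 1)
    omega
  have hfin2 : {s : Set (FreeGroup α) | s ⊆ {x | x.norm ≤ 2 * B + 1}}.Finite := hfin.finite_subsets
  obtain ⟨i, j, hij, heq⟩ : ∃ i j : ℕ, i < j ∧ N (φ i) = N (φ j) := by
    have : Finite {s : Set (FreeGroup α) | s ⊆ {x | x.norm ≤ 2 * B + 1}} := hfin2
    obtain ⟨i, j, hne, h⟩ := Finite.exists_ne_map_eq_of_infinite
      (fun j : ℕ => (⟨N (φ j), hNsub (φ j)⟩ :
        {s : Set (FreeGroup α) | s ⊆ {x | x.norm ≤ 2 * B + 1}}))
    have h' : N (φ i) = N (φ j) := congrArg Subtype.val h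
    rcases lt_or_gt_of_ne hne with h1 | h1
    · exact ⟨i, j, h1, h'⟩
    · exact ⟨j, i, h1, h'.symm⟩
  have hlt : k (φ i) < k (φ j) := hφ hij
  -- conjugate subgroups
  set g := v (φ j) * (v (φ i))⁻¹ with hg
  have hconj : ∀ a, ∃ a', g * iter θ (k (φ i)) a * g⁻¹ = iter θ (k (φ j)) a' := by
    intro a
    have h3 : (v (φ i))⁻¹ * iter θ (k (φ i)) a * v (φ i) ∈ Subgroup.closure (N (φ i)) := by
      rw [hclos]
      refine ⟨a, ?_⟩
      group
    rw [heq, hclos] at h3
    obtain ⟨a', ha'⟩ := h3
    refine ⟨a', ?_⟩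
    rw [ha', hg]
    group
  obtain ⟨u, hu, hu'⟩ := P8 hθ hns h2 (k (φ i)) g⁻¹
  apply hu'
  rw [inv_inv]
  exact Hull.iter_antitone θ (by omega : k (φ i) + 1 ≤ k (φ j)) (Hull.of_conj hconj hu)

theorem expGrowth_of_lam {θ : FreeGroup α →* FreeGroup α} (hθ : Function.Injective θ)
    {μ c : ℝ} (hμ : 1 < μ) (hc : 0 < c)
    (h : ∃ᶠ k in atTop, c * μ ^ k ≤ lam (iter θ k)) : ExpGrowth θ := by
  classical
  rcases isEmpty_or_nonempty α with hα | hα
  · exfalso
    apply h
    refine Eventually.of_forall fun k hk => ?_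
    have h1 : lam (iter θ k) ≤ 0 := by
      refine (lam_le _ 1).trans ?_
      unfold disp
      rw [Finset.univ_eq_empty, Finset.sup_empty]
      exact le_rfl
    have h2 : (lam (iter θ k) : ℝ) ≤ 0 := by exact_mod_cast h1
    have h3 : 0 < c * μ ^ k := by positivity
    linarith
  -- the short words
  let w : α ⊕ (α × α) → FreeGroup α := fun x => match x with
    | Sum.inl a => of a
    | Sum.inr (a, b) => of a * of b
  have hw : ∀ k, ∃ x, lam (iter θ k) ≤ tl (iter θ k (w x)) := by
    intro k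
    obtain ⟨g, hg, -, hl⟩ := star (iter_injective θ hθ k)
    rcases hg with ⟨a, rfl⟩ | ⟨a, b, -, rfl⟩
    · exact ⟨Sum.inl a, hl⟩
    · exact ⟨Sum.inr (a, b), hl⟩
  obtain ⟨x, hx⟩ : ∃ x, ∃ᶠ k in atTop, c * μ ^ k ≤ tl (iter θ k (w x)) := by
    by_contra hcon
    push Not at hcon
    have h1 : ∀ᶠ k in atTop, ∀ x, ¬ c * μ ^ k ≤ tl (iter θ k (w x)) := by
      rw [eventually_all]
      intro x
      exact (not_frequently.mp (by simpa using hcon x))
    apply h
    filter_upwards [h1] with k hk hle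
    obtain ⟨x, hx⟩ := hw k
    apply hk x
    have : (lam (iter θ k) : ℝ) ≤ tl (iter θ k (w x)) := by exact_mod_cast hx
    linarith
  refine ⟨w x, (1 + μ) / 2, by linarith, ?_⟩
  -- `c μ ^ k ≥ ((1 + μ) / 2) ^ k` eventually
  have h3 : ∀ᶠ k : ℕ in atTop, ((1 + μ) / 2) ^ k ≤ c * μ ^ k := by
    have hr0 : 0 ≤ (1 + μ) / 2 / μ := by positivity
    have hr1 : (1 + μ) / 2 / μ < 1 := by
      rw [div_lt_one (by linarith)]
      linarith
    have h4 := tendsto_pow_atTop_nhds_zero_of_lt_one hr0 hr1
    have h5 : ∀ᶠ k : ℕ in atTop, ((1 + μ) / 2 / μ) ^ k < c := h4.eventually (gt_mem_nhds hc)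
    filter_upwards [h5] with k hk
    have h6 : 0 < μ ^ k := by positivity
    rw [div_pow, div_lt_iff₀ h6] at hk
    exact hk.le
  refine (hx.and_eventually h3).mono ?_
  rintro k ⟨h4, h5⟩
  exact h5.trans h4

end VolumeB

end Pool.Agent.AscQM
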